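import Pool.Agent.Helper37.PF.Master
import Pool.Agent.Helper37.Prim.Alt

/-!
# Three generalisations of primitivity (MP_13dc8a_al): alternating and symmetric groups, `t = 2`
-/

namespace Pool.Agent.Helper37.PF

open MulAction Equiv
open scoped Pointwise
open Pool.Agent.Helper37.Prim

/-- The alternating group of degree at least `5` is `2`-set primitive. -/
theorem alt_tset_two {X : Type} [Fintype X] [DecidableEq X] (hn : 5 ≤ Nat.card X) :
    IsPreprimitive (alternatingGroup X) (Set.powersetCard X 2) := by
  have h4 : IsMultiplyPretransitive (alternatingGroup X) X (Nat.card X - 2) :=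
    alternatingGroup.isMultiplyPretransitive X
  have h5 : IsMultiplyPretransitive (alternatingGroup X) X (2 + 1) :=
    isMultiplyPretransitive_of_le (n := Nat.card X - 2) (by omega) (by omega)
  obtain ⟨A, -, hA⟩ := Finset.exists_subset_card_eq (s := (Finset.univ : Finset X)) (n := 2)
    (by rw [Finset.card_univ, ← Nat.card_eq_fintype_card]; omega)
  refine tset_of_moves (le_refl 2) (by omega) h5 A hA ?_
  intro B hB hAB
  have hAB0 : A ∩ B = ∅ := by
    rw [← Finset.card_eq_zero]; omega
  obtain ⟨c, d, hcd, rfl⟩ := Finset.card_eq_two.1 hB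
  obtain ⟨a, b, hab, rfl⟩ := Finset.card_eq_two.1 hA
  obtain ⟨e, he⟩ : ∃ e, e ∉ ({a, b, c, d} : Finset X) := by
    by_contra hne
    push Not at hne
    have h6 := Finset.card_le_card (fun x _ => hne x : (Finset.univ : Finset X) ⊆ {a, b, c, d})
    rw [Finset.card_univ, ← Nat.card_eq_fintype_card] at h6
    have h7 := Finset.card_le_four (a := a) (b := b) (c := c) (d := d)
    omega
  simp only [Finset.mem_insert, Finset.mem_singleton, not_or] at he
  obtain ⟨hea, heb, hec, hed⟩ := he
  have hmem : ∀ x, x ∈ ({a, b} : Finset X) → x ∉ ({c, d} : Finset X) := by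
    intro x hx hx'
    have : x ∈ ({a, b} : Finset X) ∩ {c, d} := Finset.mem_inter.2 ⟨hx, hx'⟩
    rw [hAB0] at this
    exact absurd this (Finset.notMem_empty x)
  have ha := hmem a (by simp)
  have hb := hmem b (by simp)
  simp only [Finset.mem_insert, Finset.mem_singleton, not_or] at ha hb
  -- the three-cycle `c → d → e → c`
  set g : Perm X := swap c d * swap d e with hg
  have hgm : g ∈ alternatingGroup X := by
    rw [Equiv.Perm.mem_alternatingGroup, hg, Equiv.Perm.sign_mul, Equiv.Perm.sign_swap hcd,
      Equiv.Perm.sign_swap (Ne.symm hed)]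
    rfl
  have hgc : g c = d := by
    rw [hg, Perm.mul_apply, swap_apply_of_ne_of_ne hcd (Ne.symm hec), swap_apply_left]
  have hgd : g d = e := by
    rw [hg, Perm.mul_apply, swap_apply_left, swap_apply_of_ne_of_ne hec hed]
  have hga : g a = a := by
    rw [hg, Perm.mul_apply, swap_apply_of_ne_of_ne ha.2 (Ne.symm hea),
      swap_apply_of_ne_of_ne ha.1 ha.2]
  have hgb : g b = b := by
    rw [hg, Perm.mul_apply, swap_apply_of_ne_of_ne hb.2 (Ne.symm heb),
      swap_apply_of_ne_of_ne hb.1 hb.2]
  have h1 : (⟨g, hgm⟩ : alternatingGroup X) • ({a, b} : Finset X) = {a, b} := by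
    rw [Finset.smul_finset_insert, Finset.smul_finset_singleton]
    change ({g a, g b} : Finset X) = {a, b}
    rw [hga, hgb]
  have h2 : (⟨g, hgm⟩ : alternatingGroup X) • ({c, d} : Finset X) = {d, e} := by
    rw [Finset.smul_finset_insert, Finset.smul_finset_singleton]
    change ({g c, g d} : Finset X) = {d, e}
    rw [hgc, hgd]
  have h3 : ({c, d} : Finset X) ∩ {d, e} = {d} := by
    ext x
    simp only [Finset.mem_inter, Finset.mem_insert, Finset.mem_singleton]
    constructor
    · rintro ⟨rfl | rfl, h | h⟩
      · exact absurd h hcd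
      · exact absurd h (Ne.symm hec)
      · rfl
      · rfl
    · rintro rfl
      exact ⟨Or.inr rfl, Or.inl rfl⟩
  refine ⟨⟨g, hgm⟩, h1, ?_, ?_⟩
  · rw [h2, h3, hAB0, Finset.card_singleton, Finset.card_empty]
    norm_num
  · rw [h2, h3, Finset.card_singleton]
    norm_num

/-- The answer for groups containing the alternating group, `t = 2`. -/
theorem altAnswer_two {X : Type} [Fintype X] [DecidableEq X] (htn : 2 ≤ Nat.card X)
    (G : Subgroup (Perm X)) (hA : alternatingGroup X ≤ G)
    (hG : IsMultiplyPretransitive G X 2) :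
    (ExcA G X 2 ↔ Nat.card X = 2 * 2) ∧ ¬ ExcB G X 2 ∧ ¬ ExcC G X 2 ∧
      (ExcD G X 2 ↔ Nat.card X = 2 * 2) := by
  have hpr : IsMultiplyPreprimitive G X 2 := by
    by_cases h1 : Nat.card X ≤ 3
    · exact tprimitive_of_card_le (by omega) h1 hG
    · by_cases h2 : Nat.card X = 4
      · refine tprimitive_of_prime (by omega) htn ?_ hG
        rw [h2]
        norm_num
      · have h3 : IsMultiplyPretransitive (alternatingGroup X) X (Nat.card X - 2) :=
          alternatingGroup.isMultiplyPretransitive X
        have h4 : IsMultiplyPretransitive (alternatingGroup X) X (2 + 1) :=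
          isMultiplyPretransitive_of_le (n := Nat.card X - 2) (by omega) (by omega)
        have h5 : IsMultiplyPretransitive G X (Nat.succ 2) := pretransitive_mono hA h4
        apply isMultiplyPreprimitive_of_isMultiplyPretransitive_succ
        rw [ENat.card_eq_coe_natCard]
        exact_mod_cast (by omega : Nat.succ 2 ≤ Nat.card X)
  have hset : IsPreprimitive G (Set.powersetCard X 2) ↔ Nat.card X ≠ 2 * 2 := by
    constructor
    · intro h h1
      exact not_tsetprimitive_half (by omega) h1 h
    · intro h
      by_cases h1 : Nat.card X ≤ 3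
      · exact tsetprimitive_of_card_le (by omega) htn (by omega) hG
      · exact tsetprimitive_mono hA (alt_tset_two (by omega))
  have hst := SteinerPrimitive.of_tprimitive (by omega) htn hpr
  refine ⟨⟨fun h => ?_, fun h => ⟨hpr, fun h' => hset.1 h' h⟩⟩, fun h => h.2 hpr,
    fun h => h.2 hpr, ⟨fun h => ?_, fun h => ⟨hst, fun h' => hset.1 h' h⟩⟩⟩
  · by_contra hne
    exact h.2 (hset.2 hne)
  · by_contra hne
    exact h.2 (hset.2 hne)

end Pool.Agent.Helper37.PF
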