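import Pool.Agent.Helper37.PF.Master
import Pool.Agent.Helper37.Prim.Cert2

/-!
# PF-M3: certificates for `t`-set primitivity (MP_13dc8a_al)

Tables (`tab`, `IsT`, `InG`) are defined in Prim/Cert.lean. The `t`-subset `A` of
`PF/Master.lean` is `{0, ..., t - 1}`.

PROOF. Apply `tset_of_moves` with `A = {x : Fin n | x < t}` (it has `t` elements because
`t < n`). Let `B` be a `t`-subset with `|A ∩ B| + 1 < t` and let `l` be the increasing list of the
values of the elements of `B` (`(B.map Fin.valEmbedding).sort (· ≤ ·)`, or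
`(List.range n).filter (· ∈ B')`, which is visibly a sublist of `List.range n`, of length `t`).
Then `l ∈ List.sublistsLen t (List.range n)` (`List.mem_sublistsLen`) and
`l.countP (· < t) = |A ∩ B|`. So `checkMoves` gives a table `T ∈ Ts` with
`|A ∩ B| < c < t`, `c = (l.map (tab T)).countP l.contains`. Let `g ∈ G` have the table `T`. `g A ⊆ A`
by the first part of `checkMoves`, hence `g A = A` (same cardinality). The values of the elements
of `g B` are the entries of `l.map (tab T)`, without duplicates, so `c = |B ∩ g B|`.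
-/

namespace Pool.Agent.Helper37.PF

open MulAction Equiv
open Pool.Agent.Helper37.Prim

/-- The check for `cert_moves`. -/
def checkMoves (n t : ℕ) (Ts : List ℕ) : Bool :=
  (Ts.all fun T => (List.range t).all fun x => decide (tab T x < t)) &&
  (List.sublistsLen t (List.range n)).all fun l =>
    decide (t ≤ l.countP (fun x => decide (x < t)) + 1) || Ts.any fun T =>
      decide (l.countP (fun x => decide (x < t)) < (l.map (tab T)).countP (fun y => l.contains y)) &&
        decide ((l.map (tab T)).countP (fun y => l.contains y) < t)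

/-- The list of the values of the elements of `B`. -/
noncomputable def vlist {n : ℕ} (B : Finset (Fin n)) : List ℕ :=
  (List.range n).filter (fun x => decide (x ∈ B.map Fin.valEmbedding))

theorem mem_vlist {n : ℕ} (B : Finset (Fin n)) (x : Fin n) : (x : ℕ) ∈ vlist B ↔ x ∈ B := by
  unfold vlist
  rw [List.mem_filter, List.mem_range]
  constructor
  · rintro ⟨-, h⟩
    obtain ⟨y, hy, hyx⟩ := Finset.mem_map.1 (of_decide_eq_true h)
    rwa [← Fin.ext hyx]
  · intro h
    exact ⟨x.2, decide_eq_true (Finset.mem_map.2 ⟨x, h, rfl⟩)⟩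

theorem lt_of_mem_vlist {n : ℕ} {B : Finset (Fin n)} {y : ℕ} (h : y ∈ vlist B) : y < n := by
  unfold vlist at h
  rw [List.mem_filter, List.mem_range] at h
  exact h.1

theorem countP_vlist {n : ℕ} (B : Finset (Fin n)) (p : ℕ → Bool) :
    (vlist B).countP p = (B.filter (fun x : Fin n => p (x : ℕ) = true)).card := by
  have hnd : ((vlist B).filter p).Nodup := by
    unfold vlist
    exact (List.nodup_range.filter _).filter _
  rw [List.countP_eq_length_filter, ← List.toFinset_card_of_nodup hnd,
    ← Finset.card_map Fin.valEmbedding]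
  congr 1
  ext y
  rw [List.mem_toFinset, List.mem_filter, Finset.mem_map]
  constructor
  · rintro ⟨h1, h2⟩
    have h3 := lt_of_mem_vlist h1
    exact ⟨⟨y, h3⟩, Finset.mem_filter.2 ⟨(mem_vlist B ⟨y, h3⟩).1 h1, h2⟩, rfl⟩
  · rintro ⟨x, hx, rfl⟩
    rw [Finset.mem_filter] at hx
    exact ⟨(mem_vlist B x).2 hx.1, hx.2⟩

theorem length_vlist {n : ℕ} (B : Finset (Fin n)) : (vlist B).length = B.card := by
  have h := countP_vlist B (fun _ => true)
  rw [List.countP_true] at h
  rw [h]
  simp

open scoped Pointwise in
theorem countP_map_vlist {n : ℕ} (B : Finset (Fin n)) (g : Perm (Fin n)) {T : ℕ} (hg : IsT g T) :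
    ((vlist B).map (tab T)).countP (fun y => (vlist B).contains y) = (B ∩ g • B).card := by
  rw [List.countP_map, countP_vlist, ← Finset.card_map g.toEmbedding]
  congr 1
  ext y
  rw [Finset.mem_map, Finset.mem_inter, Finset.mem_smul_finset]
  constructor
  · rintro ⟨x, hx, rfl⟩
    rw [Finset.mem_filter] at hx
    have h2 := hx.2
    rw [Function.comp_apply, List.contains_iff_mem, ← hg x, mem_vlist] at h2
    exact ⟨h2, x, hx.1, rfl⟩
  · rintro ⟨h1, x, hx, rfl⟩
    refine ⟨x, Finset.mem_filter.2 ⟨hx, ?_⟩, rfl⟩
    rw [Function.comp_apply, List.contains_iff_mem, ← hg x, mem_vlist]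
    exact h1

theorem cert_moves {n : ℕ} {G : Subgroup (Perm (Fin n))} {t : ℕ} (ht : 2 ≤ t) (htn : t + 1 ≤ n)
    (hG : IsMultiplyPretransitive G (Fin n) (t + 1)) {Ts : List ℕ} (hT : ∀ T ∈ Ts, InG G T)
    (h : checkMoves n t Ts = true) : IsPreprimitive G (Set.powersetCard (Fin n) t) := by
  unfold checkMoves at h
  rw [Bool.and_eq_true] at h
  obtain ⟨h1, h2⟩ := h
  have hAcard : (Finset.univ.filter (fun x : Fin n => (x : ℕ) < t)).card = t := by
    have h3 : (Finset.univ.filter (fun x : Fin n => (x : ℕ) < t)).map Fin.valEmbedding =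
        Finset.range t := by
      ext y
      rw [Finset.mem_map, Finset.mem_range]
      constructor
      · rintro ⟨x, hx, rfl⟩
        exact (Finset.mem_filter.1 hx).2
      · intro hy
        exact ⟨⟨y, by omega⟩, Finset.mem_filter.2 ⟨Finset.mem_univ _, hy⟩, rfl⟩
    rw [← Finset.card_map Fin.valEmbedding, h3, Finset.card_range]
  refine tset_of_moves ht (by rw [Nat.card_eq_fintype_card, Fintype.card_fin]; exact htn) hG
    (Finset.univ.filter (fun x : Fin n => (x : ℕ) < t)) hAcard ?_
  intro B hB hlt
  have hcap : (vlist B).countP (fun x => decide (x < t)) =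
      ((Finset.univ.filter (fun x : Fin n => (x : ℕ) < t)) ∩ B).card := by
    rw [countP_vlist]
    congr 1
    ext x
    simp only [Finset.mem_filter, Finset.mem_inter, Finset.mem_univ, true_and, decide_eq_true_eq]
    exact and_comm
  have hmem : vlist B ∈ List.sublistsLen t (List.range n) := by
    rw [List.mem_sublistsLen]
    exact ⟨List.filter_sublist, (length_vlist B).trans hB⟩
  have h3 := (List.all_eq_true.1 h2) _ hmem
  rw [Bool.or_eq_true] at h3
  rcases h3 with h3 | h3
  · have h4 := of_decide_eq_true h3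
    rw [hcap] at h4
    omega
  · obtain ⟨T, hTm, h4⟩ := List.any_eq_true.1 h3
    rw [Bool.and_eq_true] at h4
    have h5 := of_decide_eq_true h4.1
    have h6 := of_decide_eq_true h4.2
    obtain ⟨k, hk, hkT⟩ := hT T hTm
    rw [countP_map_vlist B k hkT] at h5 h6
    rw [hcap] at h5
    refine ⟨⟨k, hk⟩, ?_, h5, h6⟩
    apply Finset.eq_of_subset_of_card_le
    · intro y hy
      obtain ⟨x, hx, rfl⟩ := Finset.mem_smul_finset.1 hy
      have hx' := (Finset.mem_filter.1 hx).2
      refine Finset.mem_filter.2 ⟨Finset.mem_univ _, ?_⟩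
      have h7 := (List.all_eq_true.1 ((List.all_eq_true.1 h1) T hTm)) x (List.mem_range.2 hx')
      have h8 := of_decide_eq_true h7
      rw [← hkT x] at h8
      exact h8
    · rw [Finset.card_smul_finset]

end Pool.Agent.Helper37.PF
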