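import Pool.Agent.Helper37.PF.Chain
import Pool.Agent.Helper37.PF.Moves
import Pool.Agent.Helper37.Prim.M11Defs

/-!
# Three generalisations of primitivity (MP_13dc8a_al): `M₁₁` of degree `12`, certificates
-/

namespace Pool.Agent.Helper37.PF.CM11

open MulAction Equiv
open Pool.Agent.Helper37.Prim

def tA0 : ℕ := 6984474631415039004997400924165

def tA1 : ℕ := 5718054722319738999557555490309

def tA1' : ℕ := 6343231367120366460812931370499

/-- The tables of the generators and their inverses. -/
def L0 : List ℕ := [tA0, tA1, tA1']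

theorem L0_mem : ∀ T ∈ L0, InG M11 T := by
  have h0 : InG M11 tA0 := ⟨_, Subgroup.subset_closure (Or.inl rfl),
    by unfold IsT; decide +kernel⟩
  have h1 : InG M11 tA1 := ⟨_, Subgroup.subset_closure (Or.inr rfl),
    by unfold IsT; decide +kernel⟩
  intro T hT
  simp only [L0, List.mem_cons, List.not_mem_nil, or_false] at hT
  rcases hT with rfl | rfl | rfl
  · exact h0
  · exact h1
  · exact h1.inv (by decide +kernel)

def tB0 : ℕ := 6343207212308112465818487358464

theorem tB0_mem : InG M11 tB0 :=
  InG.word L0_mem [2, 0] (by decide +kernel)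

def tB0' : ℕ := 4450408957859351590467459617280

def tB1 : ℕ := 6975813919835339802581424408576

theorem tB1_mem : InG M11 tB1 :=
  InG.word L0_mem [1, 0, 2] (by decide +kernel)

def L1 : List ℕ := [tB0, tB0', tB1]

theorem L1_mem : ∀ T ∈ L1, InG M11 T ∧ ∀ p ∈ ([0] : List (Fin 12)), tab T p = p := by
  intro T hT
  simp only [L1, List.mem_cons, List.not_mem_nil, or_false] at hT
  rcases hT with rfl | rfl | rfl
  · exact ⟨tB0_mem, by decide +kernel⟩
  · exact ⟨tB0_mem.inv (by decide +kernel), by decide +kernel⟩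
  · exact ⟨tB1_mem, by decide +kernel⟩

def tC0 : ℕ := 5082989106871356140711241318912

theorem tC0_mem : InG M11 tC0 :=
  InG.word (fun T hT => (L1_mem T hT).1) [0, 2, 1] (by decide +kernel)

def tC1 : ℕ := 6341983774573213748152120902144

theorem tC1_mem : InG M11 tC1 :=
  InG.word (fun T hT => (L1_mem T hT).1) [1, 1, 1, 2, 0] (by decide +kernel)

def tC1' : ℕ := 1915098100172748833036093358592

def L2 : List ℕ := [tC0, tC1, tC1']

theorem L2_mem : ∀ T ∈ L2, InG M11 T ∧ ∀ p ∈ ([0, 1] : List (Fin 12)), tab T p = p := by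
  intro T hT
  simp only [L2, List.mem_cons, List.not_mem_nil, or_false] at hT
  rcases hT with rfl | rfl | rfl
  · exact ⟨tC0_mem, by decide +kernel⟩
  · exact ⟨tC1_mem, by decide +kernel⟩
  · exact ⟨tC1_mem.inv (by decide +kernel), by decide +kernel⟩

def tD0 : ℕ := 4444224126450564744253444456960

theorem tD0_mem : InG M11 tD0 :=
  InG.word (fun T hT => (L2_mem T hT).1) [1, 0, 2] (by decide +kernel)

def tD1 : ℕ := 5078046989758884825783738040832

theorem tD1_mem : InG M11 tD1 :=
  InG.word (fun T hT => (L2_mem T hT).1) [2, 0, 2, 0, 1, 0] (by decide +kernel)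

def tD1' : ℕ := 3172850044124208647439557067264

def L3 : List ℕ := [tD0, tD1, tD1']

theorem L3_mem : ∀ T ∈ L3, InG M11 T ∧ ∀ p ∈ ([0, 1, 2] : List (Fin 12)), tab T p = p := by
  intro T hT
  simp only [L3, List.mem_cons, List.not_mem_nil, or_false] at hT
  rcases hT with rfl | rfl | rfl
  · exact ⟨tD0_mem, by decide +kernel⟩
  · exact ⟨tD1_mem, by decide +kernel⟩
  · exact ⟨tD1_mem.inv (by decide +kernel), by decide +kernel⟩

theorem level0 : ∀ x, x ∉ ([] : List (Fin 12)) → ∃ g ∈ M11,
    (∀ p ∈ ([] : List (Fin 12)), g p = p) ∧ g 0 = x :=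
  cert_level (S := L0) (fun T hT => ⟨L0_mem T hT, by simp⟩)
    (P := 6343214437510312349222714740224)
    (I := 635068075856696553938727731712)
    (R := 3174087965236990246334228335616) (by decide +kernel)

theorem level1 : ∀ x, x ∉ ([0] : List (Fin 12)) → ∃ g ∈ M11,
    (∀ p ∈ ([0] : List (Fin 12)), g p = p) ∧ g 1 = x :=
  cert_level (S := L1) L1_mem
    (P := 4441731288270925635803005845504)
    (I := 1240357909389368143040741376)
    (R := 1903954207735769901101087981568) (by decide +kernel)

theorem level2 : ∀ x, x ∉ ([0, 1] : List (Fin 12)) → ∃ g ∈ M11,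
    (∀ p ∈ ([0, 1] : List (Fin 12)), g p = p) ∧ g 2 = x :=
  cert_level (S := L2) L2_mem
    (P := 5074321080364421506524961046528)
    (I := 2478302671059245548521390080)
    (R := 1905192147765831874292064714752) (by decide +kernel)

theorem trans : IsMultiplyPretransitive M11 (Fin 12) 3 :=
  trans_of_levels (base := [0, 1, 2])
    ⟨level0, level1, level2, trivial⟩

def m2x0 : ℕ := 6351875215120150399613313220609

theorem m2x0_mem : InG M11 m2x0 :=
  InG.word L0_mem [1, 0, 1, 0, 1, 1, 0, 2, 0, 2] (by decide +kernel)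

def m2x1 : ℕ := 3176578357138665629241658049024

theorem m2x1_mem : InG M11 m2x1 :=
  InG.word (fun T hT => (L2_mem T hT).1) [2, 0, 2, 0, 1] (by decide +kernel)

def m2x2 : ℕ := 3809168135065008324474497925121

theorem m2x2_mem : InG M11 m2x2 :=
  InG.word L0_mem [2, 2, 0, 1, 0, 1, 0, 1, 0, 1, 1, 0, 1, 0, 1, 1] (by decide +kernel)

def m2x3 : ℕ := 6341983774573213748152120902144

theorem m2x3_mem : InG M11 m2x3 :=
  InG.word (fun T hT => (L2_mem T hT).1) [1] (by decide +kernel)

theorem tset2 : IsPreprimitive M11 (Set.powersetCard (Fin 12) 2) := by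
  have hG : IsMultiplyPretransitive M11 (Fin 12) (2 + 1) := trans
  refine cert_moves (by norm_num) (by norm_num) hG (Ts := [m2x0, m2x1, m2x2, m2x3]) ?_ (by decide +kernel)
  intro T hT
  simp only [List.mem_cons, List.not_mem_nil, or_false] at hT
  rcases hT with rfl | rfl | rfl | rfl
  · exact m2x0_mem
  · exact m2x1_mem
  · exact m2x2_mem
  · exact m2x3_mem

end Pool.Agent.Helper37.PF.CM11
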