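import Pool.Agent.Helper37.Prim.PermL

/-!
# Three generalisations of primitivity (MP_13dc8a_al): the Mathieu groups and `PSL(2, 11)` of
degree `11`
-/

namespace Pool.Agent.Helper37.PF

open Pool.Agent.Helper37.Prim

/-- The images of `0, ..., 22, 23 = ∞` under `x ↦ x + 1` (modulo `23`). -/
def m24A : List ℕ :=
  [1, 2, 3, 4, 5, 6, 7, 8, 9, 10, 11, 12, 13, 14, 15, 16, 17, 18, 19, 20, 21, 22, 0, 23]

/-- The images of the inverse permutation. -/
def m24A' : List ℕ :=
  [22, 0, 1, 2, 3, 4, 5, 6, 7, 8, 9, 10, 11, 12, 13, 14, 15, 16, 17, 18, 19, 20, 21, 23]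

/-- The images under `x ↦ -1 / x` (modulo `23`). -/
def m24B : List ℕ :=
  [23, 22, 11, 15, 17, 9, 19, 13, 20, 5, 16, 2, 21, 7, 18, 3, 10, 4, 14, 6, 8, 12, 1, 0]

/-- The images under the permutation `x ↦ x³ / 9` (`x` a square), `x ↦ 9 x³` (`x` not a square),
modulo `23`. -/
def m24C : List ℕ :=
  [0, 18, 6, 3, 2, 21, 1, 5, 16, 12, 7, 19, 8, 9, 17, 15, 13, 11, 4, 22, 10, 20, 14, 23]

/-- The images of the inverse permutation. -/
def m24C' : List ℕ :=
  [0, 6, 4, 3, 18, 7, 2, 10, 12, 13, 20, 17, 9, 16, 22, 15, 8, 14, 1, 11, 21, 5, 19, 23]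

/-- The Mathieu group `M₂₄`, of order `244823040`. -/
def M24 : Subgroup (Equiv.Perm (Fin 24)) :=
  Subgroup.closure {permL 24 m24A m24A' (by decide +kernel) (by decide +kernel),
    permL 24 m24B m24B (by decide +kernel) (by decide +kernel),
    permL 24 m24C m24C' (by decide +kernel) (by decide +kernel)}

/-- The images of `0, ..., 22` under `x ↦ x + 1` (modulo `23`). -/
def m23A : List ℕ :=
  [1, 2, 3, 4, 5, 6, 7, 8, 9, 10, 11, 12, 13, 14, 15, 16, 17, 18, 19, 20, 21, 22, 0]

/-- The images of the inverse permutation. -/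
def m23A' : List ℕ :=
  [22, 0, 1, 2, 3, 4, 5, 6, 7, 8, 9, 10, 11, 12, 13, 14, 15, 16, 17, 18, 19, 20, 21]

/-- The images under the permutation `x ↦ x³ / 9` (`x` a square), `x ↦ 9 x³` (`x` not a square),
modulo `23`. -/
def m23B : List ℕ :=
  [0, 18, 6, 3, 2, 21, 1, 5, 16, 12, 7, 19, 8, 9, 17, 15, 13, 11, 4, 22, 10, 20, 14]

/-- The images of the inverse permutation. -/
def m23B' : List ℕ :=
  [0, 6, 4, 3, 18, 7, 2, 10, 12, 13, 20, 17, 9, 16, 22, 15, 8, 14, 1, 11, 21, 5, 19]

/-- The Mathieu group `M₂₃`, of order `10200960`. -/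
def M23 : Subgroup (Equiv.Perm (Fin 23)) :=
  Subgroup.closure {permL 23 m23A m23A' (by decide +kernel) (by decide +kernel),
    permL 23 m23B m23B' (by decide +kernel) (by decide +kernel)}

/-- The images of the first generator of `M₂₂`, of order `11`. -/
def m22A : List ℕ :=
  [19, 7, 16, 14, 15, 12, 18, 21, 5, 8, 11, 3, 2, 0, 6, 13, 20, 9, 4, 10, 1, 17]

/-- The images of the inverse permutation. -/
def m22A' : List ℕ :=
  [13, 20, 12, 11, 18, 8, 14, 1, 9, 17, 19, 10, 5, 15, 3, 4, 2, 21, 6, 0, 16, 7]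

/-- The images of the second generator of `M₂₂`, of order `2`. -/
def m22B : List ℕ :=
  [1, 0, 4, 12, 2, 9, 14, 10, 20, 5, 7, 11, 3, 13, 6, 15, 16, 17, 19, 18, 8, 21]

/-- The images of an involution which normalises `M₂₂`. -/
def m22C : List ℕ :=
  [19, 14, 13, 12, 7, 15, 18, 4, 9, 8, 11, 10, 3, 2, 1, 5, 17, 16, 6, 0, 21, 20]

/-- The Mathieu group `M₂₂`, of order `443520`. -/
def M22 : Subgroup (Equiv.Perm (Fin 22)) :=
  Subgroup.closure {permL 22 m22A m22A' (by decide +kernel) (by decide +kernel),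
    permL 22 m22B m22B (by decide +kernel) (by decide +kernel)}

/-- The group `M₂₂ : 2`, the automorphism group of the Mathieu group `M₂₂`, of order `887040`. -/
def M22d2 : Subgroup (Equiv.Perm (Fin 22)) :=
  Subgroup.closure {permL 22 m22A m22A' (by decide +kernel) (by decide +kernel),
    permL 22 m22B m22B (by decide +kernel) (by decide +kernel),
    permL 22 m22C m22C (by decide +kernel) (by decide +kernel)}

/-- The images of `0, ..., 10, 11 = ∞` under `x ↦ x + 1` (modulo `11`). -/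
def m12A : List ℕ :=
  [1, 2, 3, 4, 5, 6, 7, 8, 9, 10, 0, 11]

/-- The images of the inverse permutation. -/
def m12A' : List ℕ :=
  [10, 0, 1, 2, 3, 4, 5, 6, 7, 8, 9, 11]

/-- The images under `x ↦ -1 / x` (modulo `11`). -/
def m12B : List ℕ :=
  [11, 10, 5, 7, 8, 2, 9, 3, 4, 6, 1, 0]

/-- The images under `x ↦ 4 x² - 3 x⁷` (modulo `11`). -/
def m12C : List ℕ :=
  [0, 1, 6, 9, 5, 3, 10, 2, 8, 4, 7, 11]

/-- The images of the inverse permutation. -/
def m12C' : List ℕ :=
  [0, 1, 7, 5, 9, 4, 2, 10, 8, 3, 6, 11]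

/-- The Mathieu group `M₁₂`, of order `95040`. -/
def M12 : Subgroup (Equiv.Perm (Fin 12)) :=
  Subgroup.closure {permL 12 m12A m12A' (by decide +kernel) (by decide +kernel),
    permL 12 m12B m12B (by decide +kernel) (by decide +kernel),
    permL 12 m12C m12C' (by decide +kernel) (by decide +kernel)}

/-- The images of `0, ..., 10` under `x ↦ x + 1` (modulo `11`). -/
def m11eA : List ℕ :=
  [1, 2, 3, 4, 5, 6, 7, 8, 9, 10, 0]

/-- The images of the inverse permutation. -/
def m11eA' : List ℕ :=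
  [10, 0, 1, 2, 3, 4, 5, 6, 7, 8, 9]

/-- The images under `x ↦ 4 x² - 3 x⁷` (modulo `11`). -/
def m11eB : List ℕ :=
  [0, 1, 6, 9, 5, 3, 10, 2, 8, 4, 7]

/-- The images of the inverse permutation. -/
def m11eB' : List ℕ :=
  [0, 1, 7, 5, 9, 4, 2, 10, 8, 3, 6]

/-- The Mathieu group `M₁₁` of degree `11`, of order `7920`. -/
def M11e : Subgroup (Equiv.Perm (Fin 11)) :=
  Subgroup.closure {permL 11 m11eA m11eA' (by decide +kernel) (by decide +kernel),
    permL 11 m11eB m11eB' (by decide +kernel) (by decide +kernel)}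

/-- The images of an automorphism, of order `2`, of the biplane whose blocks are the translates
of `{1, 3, 4, 5, 9}` (modulo `11`). -/
def psl11B : List ℕ :=
  [0, 1, 5, 3, 7, 2, 8, 4, 6, 10, 9]

/-- The group `PSL(2, 11)` of degree `11`, of order `660`. -/
def PSL11 : Subgroup (Equiv.Perm (Fin 11)) :=
  Subgroup.closure {permL 11 m11eA m11eA' (by decide +kernel) (by decide +kernel),
    permL 11 psl11B psl11B (by decide +kernel) (by decide +kernel)}

end Pool.Agent.Helper37.PF
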