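import Pool.Agent.Helper37.PF.Chain
import Pool.Agent.Helper37.PF.Moves
import Pool.Agent.Helper37.PF.MathieuDefs

/-!
# Three generalisations of primitivity (MP_13dc8a_al): `M₁₁` of degree `11`, certificates
-/

namespace Pool.Agent.Helper37.PF.CM11e

open MulAction Equiv
open Pool.Agent.Helper37.Prim

def tA0 : ℕ := 24221091603926945073202177

def tA0' : ℕ := 11160836278678081785995460618

def tA1 : ℕ := 8675289479113435871580783104

def tA1' : ℕ := 7434931661831722903807984128

/-- The tables of the generators and their inverses. -/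
def L0 : List ℕ := [tA0, tA0', tA1, tA1']

theorem L0_mem : ∀ T ∈ L0, InG M11e T := by
  have h0 : InG M11e tA0 := ⟨_, Subgroup.subset_closure (Or.inl rfl),
    isT_permL (by decide +kernel)⟩
  have h1 : InG M11e tA1 := ⟨_, Subgroup.subset_closure (Or.inr rfl),
    isT_permL (by decide +kernel)⟩
  intro T hT
  simp only [L0, List.mem_cons, List.not_mem_nil, or_false] at hT
  rcases hT with rfl | rfl | rfl | rfl
  · exact h0
  · exact h0.inv (by decide +kernel)
  · exact h1
  · exact h1.inv (by decide +kernel)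

def tB0 : ℕ := 8675289479113435871580783104

theorem tB0_mem : InG M11e tB0 :=
  InG.word L0_mem [2] (by decide +kernel)

def tB0' : ℕ := 7434931661831722903807984128

def tB1 : ℕ := 12393921734370562361842993664

theorem tB1_mem : InG M11e tB1 :=
  InG.word L0_mem [1, 2, 0] (by decide +kernel)

def tB1' : ℕ := 12391499160508684016202812416

def L1 : List ℕ := [tB0, tB0', tB1, tB1']

theorem L1_mem : ∀ T ∈ L1, InG M11e T ∧ ∀ p ∈ ([0] : List (Fin 11)), tab T p = p := by
  intro T hT
  simp only [L1, List.mem_cons, List.not_mem_nil, or_false] at hT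
  rcases hT with rfl | rfl | rfl | rfl
  · exact ⟨tB0_mem, by decide +kernel⟩
  · exact ⟨tB0_mem.inv (by decide +kernel), by decide +kernel⟩
  · exact ⟨tB1_mem, by decide +kernel⟩
  · exact ⟨tB1_mem.inv (by decide +kernel), by decide +kernel⟩

def tC0 : ℕ := 7434931661831722903807984128

theorem tC0_mem : InG M11e tC0 :=
  InG.word (fun T hT => (L1_mem T hT).1) [1] (by decide +kernel)

def tC0' : ℕ := 8675289479113435871580783104

def tC1 : ℕ := 6196963260713533951304008192

theorem tC1_mem : InG M11e tC1 :=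
  InG.word (fun T hT => (L1_mem T hT).1) [2, 0, 2, 1, 2] (by decide +kernel)

def tC1' : ℕ := 3725928330118203907275489792

def L2 : List ℕ := [tC0, tC0', tC1, tC1']

theorem L2_mem : ∀ T ∈ L2, InG M11e T ∧ ∀ p ∈ ([0, 1] : List (Fin 11)), tab T p = p := by
  intro T hT
  simp only [L2, List.mem_cons, List.not_mem_nil, or_false] at hT
  rcases hT with rfl | rfl | rfl | rfl
  · exact ⟨tC0_mem, by decide +kernel⟩
  · exact ⟨tC0_mem.inv (by decide +kernel), by decide +kernel⟩
  · exact ⟨tC1_mem, by decide +kernel⟩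
  · exact ⟨tC1_mem.inv (by decide +kernel), by decide +kernel⟩

def tD0 : ℕ := 4963882564299003537671062016

theorem tD0_mem : InG M11e tD0 :=
  InG.word (fun T hT => (L2_mem T hT).1) [0, 2] (by decide +kernel)

def tD0' : ℕ := 8680106348140305790553031168

def tD1 : ℕ := 3738041190959315685441274368

theorem tD1_mem : InG M11e tD1 :=
  InG.word (fun T hT => (L2_mem T hT).1) [2, 1, 3] (by decide +kernel)

def tD1' : ℕ := 11160817380024807274811228672

def L3 : List ℕ := [tD0, tD0', tD1, tD1']

theorem L3_mem : ∀ T ∈ L3, InG M11e T ∧ ∀ p ∈ ([0, 1, 2] : List (Fin 11)), tab T p = p := by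
  intro T hT
  simp only [L3, List.mem_cons, List.not_mem_nil, or_false] at hT
  rcases hT with rfl | rfl | rfl | rfl
  · exact ⟨tD0_mem, by decide +kernel⟩
  · exact ⟨tD0_mem.inv (by decide +kernel), by decide +kernel⟩
  · exact ⟨tD1_mem, by decide +kernel⟩
  · exact ⟨tD1_mem.inv (by decide +kernel), by decide +kernel⟩

theorem level0 : ∀ x, x ∉ ([] : List (Fin 11)) → ∃ g ∈ M11e,
    (∀ p ∈ ([] : List (Fin 11)), g p = p) ∧ g 0 = x :=
  cert_level (S := L0) (fun T hT => ⟨L0_mem T hT, by simp⟩)
    (P := 24221110104714488920145920)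
    (I := 1240362631791914993942790144)
    (R := 1242789928146166030939980288) (by decide +kernel)

theorem level1 : ∀ x, x ∉ ([0] : List (Fin 11)) → ∃ g ∈ M11e,
    (∀ p ∈ ([0] : List (Fin 11)), g p = p) ∧ g 1 = x :=
  cert_level (S := L1) L1_mem
    (P := 7439743753259646845776822272)
    (I := 4849870432020758626828288)
    (R := 2480729976636833506586525696) (by decide +kernel)

theorem level2 : ∀ x, x ∉ ([0, 1] : List (Fin 11)) → ∃ g ∈ M11e,
    (∀ p ∈ ([0, 1] : List (Fin 11)), g p = p) ∧ g 2 = x :=
  cert_level (S := L2) L2_mem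
    (P := 8675261144770669825090387968)
    (I := 14167117533514030907392)
    (R := 2483138365096423320813830144) (by decide +kernel)

theorem level3 : ∀ x, x ∉ ([0, 1, 2] : List (Fin 11)) → ∃ g ∈ M11e,
    (∀ p ∈ ([0, 1, 2] : List (Fin 11)), g p = p) ∧ g 3 = x :=
  cert_level (S := L3) L3_mem
    (P := 3728341450185346365819715584)
    (I := 3713829590259257996363169792)
    (R := 1242780483395115455273238528) (by decide +kernel)

theorem trans : IsMultiplyPretransitive M11e (Fin 11) 4 :=
  trans_of_levels (base := [0, 1, 2, 3])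
    ⟨level0, level1, level2, level3, trivial⟩

def m2x0 : ℕ := 6211493991640759591919943681

theorem m2x0_mem : InG M11e m2x0 :=
  InG.word L0_mem [2, 1, 2, 0, 3, 1] (by decide +kernel)

def m2x1 : ℕ := 9925328248890098702426308609

theorem m2x1_mem : InG M11e m2x1 :=
  InG.word L0_mem [3, 0, 2, 1, 3, 0] (by decide +kernel)

def m2x2 : ℕ := 6196963260713533951304008192

theorem m2x2_mem : InG M11e m2x2 :=
  InG.word (fun T hT => (L2_mem T hT).1) [2] (by decide +kernel)

def m2x3 : ℕ := 11151179039184620092485534208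

theorem m2x3_mem : InG M11e m2x3 :=
  InG.word (fun T hT => (L2_mem T hT).1) [1, 1, 2] (by decide +kernel)

theorem tset2 : IsPreprimitive M11e (Set.powersetCard (Fin 11) 2) := by
  have := trans
  have hG : IsMultiplyPretransitive M11e (Fin 11) (2 + 1) :=
    isMultiplyPretransitive_of_le (n := 4) (by norm_num) (by rw [Nat.card_eq_fintype_card, Fintype.card_fin]; norm_num)
  refine cert_moves (by norm_num) (by norm_num) hG (Ts := [m2x0, m2x1, m2x2, m2x3]) ?_ (by decide +kernel)
  intro T hT
  simp only [List.mem_cons, List.not_mem_nil, or_false] at hT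
  rcases hT with rfl | rfl | rfl | rfl
  · exact m2x0_mem
  · exact m2x1_mem
  · exact m2x2_mem
  · exact m2x3_mem

def m3x0 : ℕ := 11160817380024807274811228672

theorem m3x0_mem : InG M11e m3x0 :=
  InG.word (fun T hT => (L3_mem T hT).1) [3] (by decide +kernel)

def m3x1 : ℕ := 8680106348140305790553031168

theorem m3x1_mem : InG M11e m3x1 :=
  InG.word (fun T hT => (L3_mem T hT).1) [1] (by decide +kernel)

def m3x2 : ℕ := 7437335337256428601606668800

theorem m3x2_mem : InG M11e m3x2 :=
  InG.word (fun T hT => (L3_mem T hT).1) [3, 0] (by decide +kernel)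

def m3x3 : ℕ := 9925328248890098702426308609

theorem m3x3_mem : InG M11e m3x3 :=
  InG.word L0_mem [3, 0, 2, 1, 3, 0] (by decide +kernel)

def m3x4 : ℕ := 11165653101714051299237429249

theorem m3x4_mem : InG M11e m3x4 :=
  InG.word L0_mem [1, 2, 1, 3, 0, 3, 0, 0] (by decide +kernel)

def m3x5 : ℕ := 4973553952337224593473537024

theorem m3x5_mem : InG M11e m3x5 :=
  InG.word (fun T hT => (L1_mem T hT).1) [0, 3, 0, 0, 3, 0] (by decide +kernel)

def m3x6 : ℕ := 12393945318676765025077822464

theorem m3x6_mem : InG M11e m3x6 :=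
  InG.word (fun T hT => (L1_mem T hT).1) [3, 0, 3, 0, 2, 1] (by decide +kernel)

theorem tset3 : IsPreprimitive M11e (Set.powersetCard (Fin 11) 3) := by
  have hG : IsMultiplyPretransitive M11e (Fin 11) (3 + 1) := trans
  refine cert_moves (by norm_num) (by norm_num) hG (Ts := [m3x0, m3x1, m3x2, m3x3, m3x4, m3x5, m3x6]) ?_ (by decide +kernel)
  intro T hT
  simp only [List.mem_cons, List.not_mem_nil, or_false] at hT
  rcases hT with rfl | rfl | rfl | rfl | rfl | rfl | rfl
  · exact m3x0_mem
  · exact m3x1_mem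
  · exact m3x2_mem
  · exact m3x3_mem
  · exact m3x4_mem
  · exact m3x5_mem
  · exact m3x6_mem

end Pool.Agent.Helper37.PF.CM11e
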