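import Pool.Agent.Helper37.PF.Chain
import Pool.Agent.Helper37.PF.Moves
import Pool.Agent.Helper37.PF.MathieuDefs

/-!
# Three generalisations of primitivity (MP_13dc8a_al): `M₁₂`, certificates
-/

namespace Pool.Agent.Helper37.PF.CM12

open MulAction Equiv
open Pool.Agent.Helper37.Prim

def tA0 : ℕ := 6972102522346865635176940831745

def tA0' : ℕ := 6983239137533939790017863090186

def tA1 : ℕ := 1252466066419003920166949899

def tA2 : ℕ := 6980753590734375144103448412672

def tA2' : ℕ := 6979513232917093431135675613696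

/-- The tables of the generators and their inverses. -/
def L0 : List ℕ := [tA0, tA0', tA1, tA2, tA2']

theorem L0_mem : ∀ T ∈ L0, InG M12 T := by
  have h0 : InG M12 tA0 := ⟨_, Subgroup.subset_closure (Or.inl rfl),
    isT_permL (by decide +kernel)⟩
  have h1 : InG M12 tA1 := ⟨_, Subgroup.subset_closure (Or.inr (Or.inl rfl)),
    isT_permL (by decide +kernel)⟩
  have h2 : InG M12 tA2 := ⟨_, Subgroup.subset_closure (Or.inr (Or.inr rfl)),
    isT_permL (by decide +kernel)⟩
  intro T hT
  simp only [L0, List.mem_cons, List.not_mem_nil, or_false] at hT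
  rcases hT with rfl | rfl | rfl | rfl | rfl
  · exact h0
  · exact h0.inv (by decide +kernel)
  · exact h1
  · exact h2
  · exact h2.inv (by decide +kernel)

def tB0 : ℕ := 6980753590734375144103448412672

theorem tB0_mem : InG M12 tB0 :=
  InG.word L0_mem [3] (by decide +kernel)

def tB0' : ℕ := 6979513232917093431135675613696

def tB1 : ℕ := 647447509352286992205858475008

theorem tB1_mem : InG M12 tB1 :=
  InG.word L0_mem [0, 2, 0] (by decide +kernel)

def tB1' : ℕ := 6344449964411029799769158718976

def L1 : List ℕ := [tB0, tB0', tB1, tB1']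

theorem L1_mem : ∀ T ∈ L1, InG M12 T ∧ ∀ p ∈ ([0] : List (Fin 12)), tab T p = p := by
  intro T hT
  simp only [L1, List.mem_cons, List.not_mem_nil, or_false] at hT
  rcases hT with rfl | rfl | rfl | rfl
  · exact ⟨tB0_mem, by decide +kernel⟩
  · exact ⟨tB0_mem.inv (by decide +kernel), by decide +kernel⟩
  · exact ⟨tB1_mem, by decide +kernel⟩
  · exact ⟨tB1_mem.inv (by decide +kernel), by decide +kernel⟩

def tC0 : ℕ := 6979513232917093431135675613696

theorem tC0_mem : InG M12 tC0 :=
  InG.word (fun T hT => (L1_mem T hT).1) [1] (by decide +kernel)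

def tC0' : ℕ := 6980753590734375144103448412672

def tC1 : ℕ := 3180272815581558289092404052480

theorem tC1_mem : InG M12 tC1 :=
  InG.word (fun T hT => (L1_mem T hT).1) [2, 0, 3] (by decide +kernel)

def tC1' : ℕ := 2539039222767211728976983884288

def L2 : List ℕ := [tC0, tC0', tC1, tC1']

theorem L2_mem : ∀ T ∈ L2, InG M12 T ∧ ∀ p ∈ ([0, 1] : List (Fin 12)), tab T p = p := by
  intro T hT
  simp only [L2, List.mem_cons, List.not_mem_nil, or_false] at hT
  rcases hT with rfl | rfl | rfl | rfl
  · exact ⟨tC0_mem, by decide +kernel⟩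
  · exact ⟨tC0_mem.inv (by decide +kernel), by decide +kernel⟩
  · exact ⟨tC1_mem, by decide +kernel⟩
  · exact ⟨tC1_mem.inv (by decide +kernel), by decide +kernel⟩

def tD0 : ℕ := 2547707239764813588447778832896

theorem tD0_mem : InG M12 tD0 :=
  InG.word (fun T hT => (L2_mem T hT).1) [0, 2, 1] (by decide +kernel)

def tD0' : ℕ := 5716826463150226310179968254464

def tD1 : ℕ := 4450401713721551006554581893632

theorem tD1_mem : InG M12 tD1 :=
  InG.word (fun T hT => (L2_mem T hT).1) [3, 0, 3, 1, 2, 0] (by decide +kernel)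

def tD1' : ℕ := 6344452387012795700138373284352

def L3 : List ℕ := [tD0, tD0', tD1, tD1']

theorem L3_mem : ∀ T ∈ L3, InG M12 T ∧ ∀ p ∈ ([0, 1, 2] : List (Fin 12)), tab T p = p := by
  intro T hT
  simp only [L3, List.mem_cons, List.not_mem_nil, or_false] at hT
  rcases hT with rfl | rfl | rfl | rfl
  · exact ⟨tD0_mem, by decide +kernel⟩
  · exact ⟨tD0_mem.inv (by decide +kernel), by decide +kernel⟩
  · exact ⟨tD1_mem, by decide +kernel⟩
  · exact ⟨tD1_mem.inv (by decide +kernel), by decide +kernel⟩

def tE0 : ℕ := 4441748255798280275737971261952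

theorem tE0_mem : InG M12 tE0 :=
  InG.word (fun T hT => (L3_mem T hT).1) [0, 2, 1] (by decide +kernel)

def tE0' : ℕ := 5078047008712950144094496621056

def tE1 : ℕ := 3182768047890323782713507054080

theorem tE1_mem : InG M12 tE1 :=
  InG.word (fun T hT => (L3_mem T hT).1) [3, 1, 3] (by decide +kernel)

def tE1' : ℕ := 6349406569697862242646673064448

def L4 : List ℕ := [tE0, tE0', tE1, tE1']

theorem L4_mem : ∀ T ∈ L4, InG M12 T ∧ ∀ p ∈ ([0, 1, 2, 3] : List (Fin 12)), tab T p = p := by
  intro T hT
  simp only [L4, List.mem_cons, List.not_mem_nil, or_false] at hT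
  rcases hT with rfl | rfl | rfl | rfl
  · exact ⟨tE0_mem, by decide +kernel⟩
  · exact ⟨tE0_mem.inv (by decide +kernel), by decide +kernel⟩
  · exact ⟨tE1_mem, by decide +kernel⟩
  · exact ⟨tE1_mem.inv (by decide +kernel), by decide +kernel⟩

theorem level0 : ∀ x, x ∉ ([] : List (Fin 12)) → ∃ g ∈ M12,
    (∀ p ∈ ([] : List (Fin 12)), g p = p) ∧ g 0 = x :=
  cert_level (S := L0) (fun T hT => ⟨L0_mem T hT, by simp⟩)
    (P := 24221110104573751431790592)
    (I := 1268890962869262738179101818880)
    (R := 635068090042260866779291582976) (by decide +kernel)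

theorem level1 : ∀ x, x ∉ ([0] : List (Fin 12)) → ∃ g ∈ M12,
    (∀ p ∈ ([0] : List (Fin 12)), g p = p) ∧ g 1 = x :=
  cert_level (S := L1) L1_mem
    (P := 641257785590090493677369032704)
    (I := 1901483163342030890247236354048)
    (R := 636308447942390833882165936128) (by decide +kernel)

theorem level2 : ∀ x, x ∉ ([0, 1] : List (Fin 12)) → ∃ g ∈ M12,
    (∀ p ∈ ([0, 1] : List (Fin 12)), g p = p) ∧ g 2 = x :=
  cert_level (S := L2) L2_mem
    (P := 3177796940179164917573565284352)
    (I := 1901483163342012770226890866688)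
    (R := 1903954212448894997603819716608) (by decide +kernel)

theorem level3 : ∀ x, x ∉ ([0, 1, 2] : List (Fin 12)) → ∃ g ∈ M12,
    (∀ p ∈ ([0, 1, 2] : List (Fin 12)), g p = p) ∧ g 3 = x :=
  cert_level (S := L3) L3_mem
    (P := 4442974068744971349143393927168)
    (I := 1903959043420583530776420679680)
    (R := 1271366842929332711390942593024) (by decide +kernel)

theorem level4 : ∀ x, x ∉ ([0, 1, 2, 3] : List (Fin 12)) → ∃ g ∈ M12,
    (∀ p ∈ ([0, 1, 2, 3] : List (Fin 12)), g p = p) ∧ g 4 = x :=
  cert_level (S := L4) L4_mem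
    (P := 3174090368912360803489137295360)
    (I := 1902718685557311022886507511808)
    (R := 1268893380702419159176192196608) (by decide +kernel)

theorem trans : IsMultiplyPretransitive M12 (Fin 12) 5 :=
  trans_of_levels (base := [0, 1, 2, 3, 4])
    ⟨level0, level1, level2, level3, level4, trivial⟩

def m2x0 : ℕ := 6980753590734375144103448412672

theorem m2x0_mem : InG M12 m2x0 :=
  InG.word L0_mem [3] (by decide +kernel)

def m2x1 : ℕ := 5076816298579928676581820072448

theorem m2x1_mem : InG M12 m2x1 :=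
  InG.word (fun T hT => (L3_mem T hT).1) [3, 0] (by decide +kernel)

def m2x2 : ℕ := 5708153662386117762119293731328

theorem m2x2_mem : InG M12 m2x2 :=
  InG.word (fun T hT => (L3_mem T hT).1) [1, 1, 3, 1] (by decide +kernel)

theorem tset2 : IsPreprimitive M12 (Set.powersetCard (Fin 12) 2) := by
  have := trans
  have hG : IsMultiplyPretransitive M12 (Fin 12) (2 + 1) :=
    isMultiplyPretransitive_of_le (n := 5) (by norm_num) (by rw [Nat.card_eq_fintype_card, Fintype.card_fin]; norm_num)
  refine cert_moves (by norm_num) (by norm_num) hG (Ts := [m2x0, m2x1, m2x2]) ?_ (by decide +kernel)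
  intro T hT
  simp only [List.mem_cons, List.not_mem_nil, or_false] at hT
  rcases hT with rfl | rfl | rfl
  · exact m2x0_mem
  · exact m2x1_mem
  · exact m2x2_mem

def m3x0 : ℕ := 5078047008712950144094496621056

theorem m3x0_mem : InG M12 m3x0 :=
  InG.word (fun T hT => (L4_mem T hT).1) [1] (by decide +kernel)

def m3x1 : ℕ := 4450401713721551006554581893632

theorem m3x1_mem : InG M12 m3x1 :=
  InG.word (fun T hT => (L3_mem T hT).1) [2] (by decide +kernel)

def m3x2 : ℕ := 6977042183819560711769538691584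

theorem m3x2_mem : InG M12 m3x2 :=
  InG.word (fun T hT => (L3_mem T hT).1) [0, 2, 0] (by decide +kernel)

def m3x3 : ℕ := 5711879557604383868527783182848

theorem m3x3_mem : InG M12 m3x3 :=
  InG.word (fun T hT => (L3_mem T hT).1) [0, 3, 0] (by decide +kernel)

theorem tset3 : IsPreprimitive M12 (Set.powersetCard (Fin 12) 3) := by
  have := trans
  have hG : IsMultiplyPretransitive M12 (Fin 12) (3 + 1) :=
    isMultiplyPretransitive_of_le (n := 5) (by norm_num) (by rw [Nat.card_eq_fintype_card, Fintype.card_fin]; norm_num)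
  refine cert_moves (by norm_num) (by norm_num) hG (Ts := [m3x0, m3x1, m3x2, m3x3]) ?_ (by decide +kernel)
  intro T hT
  simp only [List.mem_cons, List.not_mem_nil, or_false] at hT
  rcases hT with rfl | rfl | rfl | rfl
  · exact m3x0_mem
  · exact m3x1_mem
  · exact m3x2_mem
  · exact m3x3_mem

def m4x0 : ℕ := 6977051859920832115306947151361

theorem m4x0_mem : InG M12 m4x0 :=
  InG.word L0_mem [0, 4, 1, 4, 0, 4] (by decide +kernel)

def m4x1 : ℕ := 3182768047890323782713507054080

theorem m4x1_mem : InG M12 m4x1 :=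
  InG.word (fun T hT => (L4_mem T hT).1) [2] (by decide +kernel)

def m4x2 : ℕ := 2545219251584841760752557097472

theorem m4x2_mem : InG M12 m4x2 :=
  InG.word (fun T hT => (L4_mem T hT).1) [2, 0] (by decide +kernel)

def m4x3 : ℕ := 5078047008712950144094496621056

theorem m4x3_mem : InG M12 m4x3 :=
  InG.word (fun T hT => (L4_mem T hT).1) [1] (by decide +kernel)

def m4x4 : ℕ := 3809151210131366000959217730048

theorem m4x4_mem : InG M12 m4x4 :=
  InG.word (fun T hT => (L2_mem T hT).1) [0, 2, 1, 2, 1] (by decide +kernel)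

def m4x5 : ℕ := 6982003629504151806934293938177

theorem m4x5_mem : InG M12 m4x5 :=
  InG.word L0_mem [4, 0, 3, 1, 4, 0] (by decide +kernel)

def m4x6 : ℕ := 5076809068673646960252174467074

theorem m4x6_mem : InG M12 m4x6 :=
  InG.word L0_mem [0, 4, 0, 0, 2, 0, 4] (by decide +kernel)

theorem tset4 : IsPreprimitive M12 (Set.powersetCard (Fin 12) 4) := by
  have hG : IsMultiplyPretransitive M12 (Fin 12) (4 + 1) := trans
  refine cert_moves (by norm_num) (by norm_num) hG (Ts := [m4x0, m4x1, m4x2, m4x3, m4x4, m4x5, m4x6]) ?_ (by decide +kernel)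
  intro T hT
  simp only [List.mem_cons, List.not_mem_nil, or_false] at hT
  rcases hT with rfl | rfl | rfl | rfl | rfl | rfl | rfl
  · exact m4x0_mem
  · exact m4x1_mem
  · exact m4x2_mem
  · exact m4x3_mem
  · exact m4x4_mem
  · exact m4x5_mem
  · exact m4x6_mem

end Pool.Agent.Helper37.PF.CM12
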