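import Pool.Agent.Helper37.PF.Chain
import Pool.Agent.Helper37.PF.Moves
import Pool.Agent.Helper37.PF.MathieuDefs

/-!
# Three generalisations of primitivity (MP_13dc8a_al): `M₂₂`, certificates
-/

namespace Pool.Agent.Helper37.PF.CM22

open MulAction Equiv
open Pool.Agent.Helper37.Prim

def tA0 : ℕ := 13340403638278329661714704855742030923001018816449560448531

def tA0' : ℕ := 5516983982433061574378995226051501318639182638150681896973

def tA1 : ℕ := 16489706007781910271475528504662063892346101385846374531073

/-- The tables of the generators and their inverses. -/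
def L0 : List ℕ := [tA0, tA0', tA1]

theorem L0_mem : ∀ T ∈ L0, InG M22 T := by
  have h0 : InG M22 tA0 := ⟨_, Subgroup.subset_closure (Or.inl rfl),
    isT_permL (by decide +kernel)⟩
  have h1 : InG M22 tA1 := ⟨_, Subgroup.subset_closure (Or.inr rfl),
    isT_permL (by decide +kernel)⟩
  intro T hT
  simp only [L0, List.mem_cons, List.not_mem_nil, or_false] at hT
  rcases hT with rfl | rfl | rfl
  · exact h0
  · exact h0.inv (by decide +kernel)
  · exact h1

def tB0 : ℕ := 8661685784331956793663862548038122279748932575763233245696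

theorem tB0_mem : InG M22 tB0 :=
  InG.word L0_mem [0, 2, 1] (by decide +kernel)

def tB1 : ℕ := 15720360222164751746401868050691606511853570484607711974400

theorem tB1_mem : InG M22 tB1 :=
  InG.word L0_mem [2, 1, 2, 0, 0] (by decide +kernel)

def tB1' : ℕ := 5524661507621567711176310017566579633006605319635999398912

def L1 : List ℕ := [tB0, tB1, tB1']

theorem L1_mem : ∀ T ∈ L1, InG M22 T ∧ ∀ p ∈ ([0] : List (Fin 22)), tab T p = p := by
  intro T hT
  simp only [L1, List.mem_cons, List.not_mem_nil, or_false] at hT
  rcases hT with rfl | rfl | rfl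
  · exact ⟨tB0_mem, by decide +kernel⟩
  · exact ⟨tB1_mem, by decide +kernel⟩
  · exact ⟨tB1_mem.inv (by decide +kernel), by decide +kernel⟩

def tC0 : ℕ := 14935713549170845713822238912123191939446101255454481711616

theorem tC0_mem : InG M22 tC0 :=
  InG.word (fun T hT => (L1_mem T hT).1) [0, 1, 0, 2] (by decide +kernel)

def tC0' : ℕ := 3147808814315392119082614354031098117440791707854665417216

def tC1 : ℕ := 8649452845990612318707607898423063617378496096816602808832

theorem tC1_mem : InG M22 tC1 :=
  InG.word (fun T hT => (L1_mem T hT).1) [0, 2, 2, 0, 1, 0] (by decide +kernel)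

def tC1' : ℕ := 14143434365067972552766084628854776080530768549277958406656

def L2 : List ℕ := [tC0, tC0', tC1, tC1']

theorem L2_mem : ∀ T ∈ L2, InG M22 T ∧ ∀ p ∈ ([0, 1] : List (Fin 22)), tab T p = p := by
  intro T hT
  simp only [L2, List.mem_cons, List.not_mem_nil, or_false] at hT
  rcases hT with rfl | rfl | rfl | rfl
  · exact ⟨tC0_mem, by decide +kernel⟩
  · exact ⟨tC0_mem.inv (by decide +kernel), by decide +kernel⟩
  · exact ⟨tC1_mem, by decide +kernel⟩
  · exact ⟨tC1_mem.inv (by decide +kernel), by decide +kernel⟩

def tD0 : ℕ := 14912732154913869853933161048809480889759620794142744379904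

theorem tD0_mem : InG M22 tD0 :=
  InG.word (fun T hT => (L2_mem T hT).1) [3, 1, 2, 0, 3] (by decide +kernel)

def tD0' : ℕ := 4720149204087918212138334564867167499947780610034261033472

def tD1 : ℕ := 6300143062914062777377877436869938994473218655339598578176

theorem tD1_mem : InG M22 tD1 :=
  InG.word (fun T hT => (L2_mem T hT).1) [3, 1, 2, 2, 1] (by decide +kernel)

def tD1' : ℕ := 3936990135150541254128823091226462051064945611487352193536

def tD2 : ℕ := 8663221325505174109147798896468814956546097808431661974016

theorem tD2_mem : InG M22 tD2 :=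
  InG.word (fun T hT => (L2_mem T hT).1) [3, 1, 3, 0, 2, 1] (by decide +kernel)

def tD2' : ℕ := 15709638768770795748309244661471398629587632639770385449472

def L3 : List ℕ := [tD0, tD0', tD1, tD1', tD2, tD2']

theorem L3_mem : ∀ T ∈ L3, InG M22 T ∧ ∀ p ∈ ([0, 1, 2] : List (Fin 22)), tab T p = p := by
  intro T hT
  simp only [L3, List.mem_cons, List.not_mem_nil, or_false] at hT
  rcases hT with rfl | rfl | rfl | rfl | rfl | rfl
  · exact ⟨tD0_mem, by decide +kernel⟩
  · exact ⟨tD0_mem.inv (by decide +kernel), by decide +kernel⟩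
  · exact ⟨tD1_mem, by decide +kernel⟩
  · exact ⟨tD1_mem.inv (by decide +kernel), by decide +kernel⟩
  · exact ⟨tD2_mem, by decide +kernel⟩
  · exact ⟨tD2_mem.inv (by decide +kernel), by decide +kernel⟩

theorem level0 : ∀ x, x ∉ ([] : List (Fin 22)) → ∃ g ∈ M22,
    (∀ p ∈ ([] : List (Fin 22)), g p = p) ∧ g 0 = x :=
  cert_level (S := L0) (fun T hT => ⟨L0_mem T hT, by simp⟩)
    (P := 5493996625318560188382150835034993639631807062189255163904)
    (I := 1532507232901331892160583426711304443905699446149088256)
    (R := 2356981146744842332346459939273869329978804130242131657216) (by decide +kernel)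

theorem level1 : ∀ x, x ∉ ([0] : List (Fin 22)) → ∃ g ∈ M22,
    (∀ p ∈ ([0] : List (Fin 22)), g p = p) ∧ g 1 = x :=
  cert_level (S := L1) L1_mem
    (P := 5520063915770762952774251668323775547562275277889055490048)
    (I := 787705712863895852291252044403910807728669244676242931712)
    (R := 3144686853739851070314887482560131798978347943578296647680) (by decide +kernel)

theorem level2 : ∀ x, x ∉ ([0, 1] : List (Fin 22)) → ∃ g ∈ M22,
    (∀ p ∈ ([0, 1] : List (Fin 22)), g p = p) ∧ g 2 = x :=
  cert_level (S := L2) L2_mem
    (P := 14132706837741897665559370327709029705064420313361983471616)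
    (I := 1569281426037704181719139775568841391183040787199475843072)
    (R := 2356990126188066130075647429369654827620478350786392227840) (by decide +kernel)

theorem trans : IsMultiplyPretransitive M22 (Fin 22) 3 :=
  trans_of_levels (base := [0, 1, 2])
    ⟨level0, level1, level2, trivial⟩

def m2x0 : ℕ := 16489706007781910271475528504662063892346101385846374531073

theorem m2x0_mem : InG M22 m2x0 :=
  InG.word L0_mem [2] (by decide +kernel)

def m2x1 : ℕ := 1596917340579964577867201890055773140988771927355984969729

theorem m2x1_mem : InG M22 m2x1 :=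
  InG.word L0_mem [0, 0, 0, 2, 1, 1, 1] (by decide +kernel)

def m2x2 : ℕ := 16503501414071257552505983491915710082309251614000210771969

theorem m2x2_mem : InG M22 m2x2 :=
  InG.word L0_mem [0, 0, 2, 0, 2, 1, 2, 1, 1] (by decide +kernel)

def m2x3 : ℕ := 9446314515829023420224538551833075633553029412860341780481

theorem m2x3_mem : InG M22 m2x3 :=
  InG.word L0_mem [0, 0, 2, 1, 1, 2, 0, 0, 2, 1, 1] (by decide +kernel)

def m2x4 : ℕ := 13366453075209263403953600639897528038440142509139825787392

theorem m2x4_mem : InG M22 m2x4 :=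
  InG.word (fun T hT => (L1_mem T hT).1) [0, 1, 0, 2, 2, 2, 0, 2, 0, 1, 1, 1] (by decide +kernel)

def m2x5 : ℕ := 2379983598362813959844986388346329251868938812063726436864

theorem m2x5_mem : InG M22 m2x5 :=
  InG.word (fun T hT => (L2_mem T hT).1) [3, 0, 2] (by decide +kernel)

def m2x6 : ℕ := 3937011022954955746226696917945877922043524043543365550592

theorem m2x6_mem : InG M22 m2x6 :=
  InG.word (fun T hT => (L2_mem T hT).1) [0, 2, 1] (by decide +kernel)

theorem tset2 : IsPreprimitive M22 (Set.powersetCard (Fin 22) 2) := by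
  have hG : IsMultiplyPretransitive M22 (Fin 22) (2 + 1) := trans
  refine cert_moves (by norm_num) (by norm_num) hG (Ts := [m2x0, m2x1, m2x2, m2x3, m2x4, m2x5, m2x6]) ?_ (by decide +kernel)
  intro T hT
  simp only [List.mem_cons, List.not_mem_nil, or_false] at hT
  rcases hT with rfl | rfl | rfl | rfl | rfl | rfl | rfl
  · exact m2x0_mem
  · exact m2x1_mem
  · exact m2x2_mem
  · exact m2x3_mem
  · exact m2x4_mem
  · exact m2x5_mem
  · exact m2x6_mem

end Pool.Agent.Helper37.PF.CM22
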