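import Pool.Agent.Helper37.PF.Chain
import Pool.Agent.Helper37.PF.Moves
import Pool.Agent.Helper37.PF.MathieuDefs

/-!
# Three generalisations of primitivity (MP_13dc8a_al): `M₂₃`, certificates
-/

namespace Pool.Agent.Helper37.PF.CM23

open MulAction Equiv
open Pool.Agent.Helper37.Prim

def tA0 : ℕ := 17294272153058648756100807556656692505535828076937870050305

def tA0' : ℕ := 8452146658089803593124844099498111468660484908456382258479126

def tA1 : ℕ := 5639991300073269011334932257403787428267196182640570574316544

def tA1' : ℕ := 7636911114151893591110408399908413005608869500234363026017280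

/-- The tables of the generators and their inverses. -/
def L0 : List ℕ := [tA0, tA0', tA1, tA1']

theorem L0_mem : ∀ T ∈ L0, InG M23 T := by
  have h0 : InG M23 tA0 := ⟨_, Subgroup.subset_closure (Or.inl rfl),
    isT_permL (by decide +kernel)⟩
  have h1 : InG M23 tA1 := ⟨_, Subgroup.subset_closure (Or.inr rfl),
    isT_permL (by decide +kernel)⟩
  intro T hT
  simp only [L0, List.mem_cons, List.not_mem_nil, or_false] at hT
  rcases hT with rfl | rfl | rfl | rfl
  · exact h0
  · exact h0.inv (by decide +kernel)
  · exact h1
  · exact h1.inv (by decide +kernel)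

def tB0 : ℕ := 7636911114151893591110408399908413005608869500234363026017280

theorem tB0_mem : InG M23 tB0 :=
  InG.word L0_mem [3] (by decide +kernel)

def tB0' : ℕ := 5639991300073269011334932257403787428267196182640570574316544

def tB1 : ℕ := 1222490109868832608403378067968440870500401960419492770350080

theorem tB1_mem : InG M23 tB1 :=
  InG.word L0_mem [1, 2, 2, 0, 0] (by decide +kernel)

def tB1' : ℕ := 8443494143356915568277570479406549065266058248285017918939136

def L1 : List ℕ := [tB0, tB0', tB1, tB1']

theorem L1_mem : ∀ T ∈ L1, InG M23 T ∧ ∀ p ∈ ([0] : List (Fin 23)), tab T p = p := by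
  intro T hT
  simp only [L1, List.mem_cons, List.not_mem_nil, or_false] at hT
  rcases hT with rfl | rfl | rfl | rfl
  · exact ⟨tB0_mem, by decide +kernel⟩
  · exact ⟨tB0_mem.inv (by decide +kernel), by decide +kernel⟩
  · exact ⟨tB1_mem, by decide +kernel⟩
  · exact ⟨tB1_mem.inv (by decide +kernel), by decide +kernel⟩

def tC0 : ℕ := 1218556190892415245266386868083647383698099051121555792724480

theorem tC0_mem : InG M23 tC0 :=
  InG.word (fun T hT => (L1_mem T hT).1) [1, 1, 2] (by decide +kernel)

def tC0' : ℕ := 4424575162799857777941715267964617156178445091039363737584128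

def tC1 : ℕ := 6437975463833066899482537372065417417829857189592397703545344

theorem tC1_mem : InG M23 tC1 :=
  InG.word (fun T hT => (L1_mem T hT).1) [1, 2, 1] (by decide +kernel)

def tC1' : ℕ := 1208362057434559540493465451660186584040221112910478826275328

def L2 : List ℕ := [tC0, tC0', tC1, tC1']

theorem L2_mem : ∀ T ∈ L2, InG M23 T ∧ ∀ p ∈ ([0, 1] : List (Fin 23)), tab T p = p := by
  intro T hT
  simp only [L2, List.mem_cons, List.not_mem_nil, or_false] at hT
  rcases hT with rfl | rfl | rfl | rfl
  · exact ⟨tC0_mem, by decide +kernel⟩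
  · exact ⟨tC0_mem.inv (by decide +kernel), by decide +kernel⟩
  · exact ⟨tC1_mem, by decide +kernel⟩
  · exact ⟨tC1_mem.inv (by decide +kernel), by decide +kernel⟩

def tD0 : ℕ := 7246940035970928185261802311687285526126525773002200966496768

theorem tD0_mem : InG M23 tD0 :=
  InG.word (fun T hT => (L2_mem T hT).1) [1, 3, 1] (by decide +kernel)

def tD0' : ℕ := 1211512871341624812743462174140424698871479488460726865494528

def tD1 : ℕ := 3231164209742508538368783364641878807731557078930152562885120

theorem tD1_mem : InG M23 tD1 :=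
  InG.word (fun T hT => (L2_mem T hT).1) [2, 1, 2, 1, 1] (by decide +kernel)

def tD1' : ℕ := 8440375514867129787946211716972521104788233381280718493581824

def L3 : List ℕ := [tD0, tD0', tD1, tD1']

theorem L3_mem : ∀ T ∈ L3, InG M23 T ∧ ∀ p ∈ ([0, 1, 2] : List (Fin 23)), tab T p = p := by
  intro T hT
  simp only [L3, List.mem_cons, List.not_mem_nil, or_false] at hT
  rcases hT with rfl | rfl | rfl | rfl
  · exact ⟨tD0_mem, by decide +kernel⟩
  · exact ⟨tD0_mem.inv (by decide +kernel), by decide +kernel⟩
  · exact ⟨tD1_mem, by decide +kernel⟩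
  · exact ⟨tD1_mem.inv (by decide +kernel), by decide +kernel⟩

def tE0 : ℕ := 5228854896004940854813698822158516865532800042361031485817344

theorem tE0_mem : InG M23 tE0 :=
  InG.word (fun T hT => (L3_mem T hT).1) [1, 3, 3, 1] (by decide +kernel)

def tE0' : ℕ := 6434830833837461127777187024342152091496892661786368012714496

def tE1 : ℕ := 4422233536487427149180668661430497109652569655867244064276992

theorem tE1_mem : InG M23 tE1 :=
  InG.word (fun T hT => (L3_mem T hT).1) [1, 2, 0, 2, 0] (by decide +kernel)

def tE1' : ℕ := 2416707191568442672693037626656172770775781723554531666035200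

def tE2 : ℕ := 3629754024997582812703991739046371486767138157017031407829504

theorem tE2_mem : InG M23 tE2 :=
  InG.word (fun T hT => (L3_mem T hT).1) [0, 0, 3, 1, 3, 3] (by decide +kernel)

def L4 : List ℕ := [tE0, tE0', tE1, tE1', tE2]

theorem L4_mem : ∀ T ∈ L4, InG M23 T ∧ ∀ p ∈ ([0, 1, 2, 3] : List (Fin 23)), tab T p = p := by
  intro T hT
  simp only [L4, List.mem_cons, List.not_mem_nil, or_false] at hT
  rcases hT with rfl | rfl | rfl | rfl | rfl
  · exact ⟨tE0_mem, by decide +kernel⟩
  · exact ⟨tE0_mem.inv (by decide +kernel), by decide +kernel⟩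
  · exact ⟨tE1_mem, by decide +kernel⟩
  · exact ⟨tE1_mem.inv (by decide +kernel), by decide +kernel⟩
  · exact ⟨tE2_mem, by decide +kernel⟩

theorem level0 : ∀ x, x ∉ ([] : List (Fin 23)) → ∃ g ∈ M23,
    (∀ p ∈ ([] : List (Fin 23)), g p = p) ∧ g 0 = x :=
  cert_level (S := L0) (fun T hT => ⟨L0_mem T hT, by simp⟩)
    (P := 17294278034141237289137358623067687605028996508386783920128)
    (I := 402520690268381283012000261772343148496600226991054918778880)
    (R := 403308389983253899627494928791314447165542582009157590188544) (by decide +kernel)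

theorem level1 : ∀ x, x ∉ ([0] : List (Fin 23)) → ∃ g ∈ M23,
    (∀ p ∈ ([0] : List (Fin 23)), g p = p) ∧ g 1 = x :=
  cert_level (S := L1) L1_mem
    (P := 8440372467817259357138563874516570345343785053157845952102400)
    (I := 804258266318376039839669434431788374642102794534564301111296)
    (R := 1609295034379343708502935519899615233711894067958900999847936) (by decide +kernel)

theorem level2 : ∀ x, x ∉ ([0, 1] : List (Fin 23)) → ∃ g ∈ M23,
    (∀ p ∈ ([0, 1] : List (Fin 23)), g p = p) ∧ g 2 = x :=
  cert_level (S := L2) L2_mem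
    (P := 4429283001015456329252809744931711739811505625780498557042688)
    (I := 2353916155628811964873521247178120133676949490150374637568)
    (R := 1207558984838579200346924503268349346136230354663712883736576) (by decide +kernel)

theorem level3 : ∀ x, x ∉ ([0, 1, 2] : List (Fin 23)) → ∃ g ∈ M23,
    (∀ p ∈ ([0, 1, 2] : List (Fin 23)), g p = p) ∧ g 3 = x :=
  cert_level (S := L3) L3_mem
    (P := 1222493156994449973097960058656440212427987922997058499248128)
    (I := 2356984128196719860460108504888591760008596070698596696064)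
    (R := 403308386990098524073060386977004466712412406376089503399936) (by decide +kernel)

theorem trans : IsMultiplyPretransitive M23 (Fin 23) 4 :=
  trans_of_levels (base := [0, 1, 2, 3])
    ⟨level0, level1, level2, level3, trivial⟩

def m2x0 : ℕ := 8854667318420682575129214690073193764671404839232356631183361

theorem m2x0_mem : InG M23 m2x0 :=
  InG.word L0_mem [1, 1, 1, 3, 1, 3, 1, 3, 0, 0] (by decide +kernel)

def m2x1 : ℕ := 6430136755186217016428662899530392696016736260162841888686592

theorem m2x1_mem : InG M23 m2x1 :=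
  InG.word (fun T hT => (L3_mem T hT).1) [1, 2] (by decide +kernel)

def m2x2 : ℕ := 5638423548167086376497553213740969576433681788961109251981313

theorem m2x2_mem : InG M23 m2x2 :=
  InG.word L0_mem [1, 2, 0, 0, 0, 0, 3, 3] (by decide +kernel)

def m2x3 : ℕ := 5629780273381091611938171208046703910257999866280055972299264

theorem m2x3_mem : InG M23 m2x3 :=
  InG.word (fun T hT => (L1_mem T hT).1) [2, 2, 1, 3, 0, 0, 2, 1, 1] (by decide +kernel)

def m2x4 : ℕ := 8438806245419445613683924149534875780214108991347338701439488

theorem m2x4_mem : InG M23 m2x4 :=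
  InG.word (fun T hT => (L1_mem T hT).1) [0, 0, 3, 1, 2, 1, 3, 1, 2, 1] (by decide +kernel)

def m2x5 : ℕ := 8845227166811908812726297289899508410635671341390339574071297

theorem m2x5_mem : InG M23 m2x5 :=
  InG.word L0_mem [0, 2, 0, 0, 3, 1, 3, 0, 0, 2, 0] (by decide +kernel)

theorem tset2 : IsPreprimitive M23 (Set.powersetCard (Fin 23) 2) := by
  have := trans
  have hG : IsMultiplyPretransitive M23 (Fin 23) (2 + 1) :=
    isMultiplyPretransitive_of_le (n := 4) (by norm_num) (by rw [Nat.card_eq_fintype_card, Fintype.card_fin]; norm_num)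
  refine cert_moves (by norm_num) (by norm_num) hG (Ts := [m2x0, m2x1, m2x2, m2x3, m2x4, m2x5]) ?_ (by decide +kernel)
  intro T hT
  simp only [List.mem_cons, List.not_mem_nil, or_false] at hT
  rcases hT with rfl | rfl | rfl | rfl | rfl | rfl
  · exact m2x0_mem
  · exact m2x1_mem
  · exact m2x2_mem
  · exact m2x3_mem
  · exact m2x4_mem
  · exact m2x5_mem

def m3x0 : ℕ := 8854655082349087109991438654271433903409506261557778164483072

theorem m3x0_mem : InG M23 m3x0 :=
  InG.word L0_mem [1, 2, 0, 2, 0, 2, 0, 0] (by decide +kernel)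

def m3x1 : ℕ := 5237487473300527920823386908937190195470808826244502810788352

theorem m3x1_mem : InG M23 m3x1 :=
  InG.word (fun T hT => (L2_mem T hT).1) [3, 0, 2, 0, 3, 3, 0] (by decide +kernel)

def m3x2 : ℕ := 5640008118695100214267609714506938082629618377485105939087872

theorem m3x2_mem : InG M23 m3x2 :=
  InG.word (fun T hT => (L2_mem T hT).1) [1, 2, 2, 1, 2, 1, 2, 1] (by decide +kernel)

def m3x3 : ℕ := 8843665517908512437258134066731732345455848798931782998688256

theorem m3x3_mem : InG M23 m3x3 :=
  InG.word (fun T hT => (L2_mem T hT).1) [0, 0, 2, 1, 3, 3, 0] (by decide +kernel)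

def m3x4 : ℕ := 2814518519988310638066664607187088973884991465764358315311616

theorem m3x4_mem : InG M23 m3x4 :=
  InG.word (fun T hT => (L3_mem T hT).1) [1, 3, 1] (by decide +kernel)

def m3x5 : ℕ := 4837311465350301706870310938291935377570482184980724070220288

theorem m3x5_mem : InG M23 m3x5 :=
  InG.word (fun T hT => (L4_mem T hT).1) [2, 0] (by decide +kernel)

def m3x6 : ℕ := 1621092197037277469657047374449991271974856497831627010343424

theorem m3x6_mem : InG M23 m3x6 :=
  InG.word (fun T hT => (L3_mem T hT).1) [3, 0] (by decide +kernel)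

def m3x7 : ℕ := 3629754024997582812703991739046371486767138157017031407829504

theorem m3x7_mem : InG M23 m3x7 :=
  InG.word (fun T hT => (L4_mem T hT).1) [4] (by decide +kernel)

theorem tset3 : IsPreprimitive M23 (Set.powersetCard (Fin 23) 3) := by
  have hG : IsMultiplyPretransitive M23 (Fin 23) (3 + 1) := trans
  refine cert_moves (by norm_num) (by norm_num) hG (Ts := [m3x0, m3x1, m3x2, m3x3, m3x4, m3x5, m3x6, m3x7]) ?_ (by decide +kernel)
  intro T hT
  simp only [List.mem_cons, List.not_mem_nil, or_false] at hT
  rcases hT with rfl | rfl | rfl | rfl | rfl | rfl | rfl | rfl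
  · exact m3x0_mem
  · exact m3x1_mem
  · exact m3x2_mem
  · exact m3x3_mem
  · exact m3x4_mem
  · exact m3x5_mem
  · exact m3x6_mem
  · exact m3x7_mem

end Pool.Agent.Helper37.PF.CM23
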