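import Pool.Agent.Helper37.PF.Chain
import Pool.Agent.Helper37.PF.Moves
import Pool.Agent.Helper37.PF.MathieuDefs

/-!
# Three generalisations of primitivity (MP_13dc8a_al): `M₂₄`, certificates
-/

namespace Pool.Agent.Helper37.PF.CM24

open MulAction Equiv
open Pool.Agent.Helper37.Prim

def tA0 : ℕ := 4730842896570620429844292500659939358517871149524619044997301249

def tA0' : ℕ := 4739277748956557174788661243951880813294026098604998489385730070

def tA1 : ℕ := 411162441672976623420596141764488209794729592468338603994135

def tA2 : ℕ := 4736465593598540640206871332109786489253632809879182677701567488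

def tA2' : ℕ := 4738462513412619264786646808252291114830974483196776470153268224

/-- The tables of the generators and their inverses. -/
def L0 : List ℕ := [tA0, tA0', tA1, tA2, tA2']

theorem L0_mem : ∀ T ∈ L0, InG M24 T := by
  have h0 : InG M24 tA0 := ⟨_, Subgroup.subset_closure (Or.inl rfl),
    isT_permL (by decide +kernel)⟩
  have h1 : InG M24 tA1 := ⟨_, Subgroup.subset_closure (Or.inr (Or.inl rfl)),
    isT_permL (by decide +kernel)⟩
  have h2 : InG M24 tA2 := ⟨_, Subgroup.subset_closure (Or.inr (Or.inr rfl)),
    isT_permL (by decide +kernel)⟩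
  intro T hT
  simp only [L0, List.mem_cons, List.not_mem_nil, or_false] at hT
  rcases hT with rfl | rfl | rfl | rfl | rfl
  · exact h0
  · exact h0.inv (by decide +kernel)
  · exact h1
  · exact h2
  · exact h2.inv (by decide +kernel)

def tB0 : ℕ := 4736465593598540640206871332109786489253632809879182677701567488

theorem tB0_mem : InG M24 tB0 :=
  InG.word L0_mem [3] (by decide +kernel)

def tB0' : ℕ := 4738462513412619264786646808252291114830974483196776470153268224

def tB1 : ℕ := 4529562112420453667278140559426952923900409339565000699327819264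

theorem tB1_mem : InG M24 tB1 :=
  InG.word L0_mem [1, 2, 1] (by decide +kernel)

def tB1' : ℕ := 214929552644495318887318327048894706296922714068173940443846656

def L1 : List ℕ := [tB0, tB0', tB1, tB1']

theorem L1_mem : ∀ T ∈ L1, InG M24 T ∧ ∀ p ∈ ([0] : List (Fin 24)), tab T p = p := by
  intro T hT
  simp only [L1, List.mem_cons, List.not_mem_nil, or_false] at hT
  rcases hT with rfl | rfl | rfl | rfl
  · exact ⟨tB0_mem, by decide +kernel⟩
  · exact ⟨tB0_mem.inv (by decide +kernel), by decide +kernel⟩
  · exact ⟨tB1_mem, by decide +kernel⟩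
  · exact ⟨tB1_mem.inv (by decide +kernel), by decide +kernel⟩

def tC0 : ℕ := 826383585130504258411363875640935455733745885751597166423704064

theorem tC0_mem : InG M24 tC0 :=
  InG.word (fun T hT => (L1_mem T hT).1) [3, 0, 2] (by decide +kernel)

def tC0' : ℕ := 1857221030762956361195563752391532944907978555065478065324818944

def tC1 : ℕ := 1035684925271507041601724970407362768645126811830529878625092096

theorem tC1_mem : InG M24 tC1 :=
  InG.word (fun T hT => (L1_mem T hT).1) [0, 3, 0, 3] (by decide +kernel)

def tC1' : ℕ := 2674757796502687050475283563473861667467266028944422420771242496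

def L2 : List ℕ := [tC0, tC0', tC1, tC1']

theorem L2_mem : ∀ T ∈ L2, InG M24 T ∧ ∀ p ∈ ([0, 1] : List (Fin 24)), tab T p = p := by
  intro T hT
  simp only [L2, List.mem_cons, List.not_mem_nil, or_false] at hT
  rcases hT with rfl | rfl | rfl | rfl
  · exact ⟨tC0_mem, by decide +kernel⟩
  · exact ⟨tC0_mem.inv (by decide +kernel), by decide +kernel⟩
  · exact ⟨tC1_mem, by decide +kernel⟩
  · exact ⟨tC1_mem.inv (by decide +kernel), by decide +kernel⟩

def tD0 : ℕ := 1449063461563970494315852190480663833711074934783110958950121984

theorem tD0_mem : InG M24 tD0 :=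
  InG.word (fun T hT => (L2_mem T hT).1) [2, 0, 3] (by decide +kernel)

def tD0' : ℕ := 4529566820255787264593365091447117604809865435107316025950470656

def tD1 : ℕ := 2682388421257162644369525515880667850726381183772922321121575424

theorem tD1_mem : InG M24 tD1 :=
  InG.word (fun T hT => (L2_mem T hT).1) [2, 2, 1] (by decide +kernel)

def tD1' : ℕ := 2472693202213161438971618835878400280168667064043077335832330752

def L3 : List ℕ := [tD0, tD0', tD1, tD1']

theorem L3_mem : ∀ T ∈ L3, InG M24 T ∧ ∀ p ∈ ([0, 1, 2] : List (Fin 24)), tab T p = p := by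
  intro T hT
  simp only [L3, List.mem_cons, List.not_mem_nil, or_false] at hT
  rcases hT with rfl | rfl | rfl | rfl
  · exact ⟨tD0_mem, by decide +kernel⟩
  · exact ⟨tD0_mem.inv (by decide +kernel), by decide +kernel⟩
  · exact ⟨tD1_mem, by decide +kernel⟩
  · exact ⟨tD1_mem.inv (by decide +kernel), by decide +kernel⟩

def tE0 : ℕ := 3090948485135896884309518938938159477052751686364844323670327808

theorem tE0_mem : InG M24 tE0 :=
  InG.word (fun T hT => (L3_mem T hT).1) [0, 0, 3, 0] (by decide +kernel)

def tE0' : ℕ := 2264190624779500948470895974833981044177695060509805814928114176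

def tE1 : ℕ := 3914909888934876187319821596365923434082616978777584335308980736

theorem tE1_mem : InG M24 tE1 :=
  InG.word (fun T hT => (L3_mem T hT).1) [3, 1, 2, 0] (by decide +kernel)

def tE1' : ℕ := 2267800736811969016522520877035618027609354599634057365851472384

def L4 : List ℕ := [tE0, tE0', tE1, tE1']

theorem L4_mem : ∀ T ∈ L4, InG M24 T ∧ ∀ p ∈ ([0, 1, 2, 3] : List (Fin 24)), tab T p = p := by
  intro T hT
  simp only [L4, List.mem_cons, List.not_mem_nil, or_false] at hT
  rcases hT with rfl | rfl | rfl | rfl
  · exact ⟨tE0_mem, by decide +kernel⟩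
  · exact ⟨tE0_mem.inv (by decide +kernel), by decide +kernel⟩
  · exact ⟨tE1_mem, by decide +kernel⟩
  · exact ⟨tE1_mem.inv (by decide +kernel), by decide +kernel⟩

def tF0 : ℕ := 1858842080053105643313306011720157828068246299322386366715134464

theorem tF0_mem : InG M24 tF0 :=
  InG.word (fun T hT => (L4_mem T hT).1) [2, 0, 2, 2, 1] (by decide +kernel)

def tF0' : ℕ := 1651145345519013221003101271257948229292360032481211245107085824

def tF1 : ℕ := 3910092227166466566549194330152981681083090910333748831257625088

theorem tF1_mem : InG M24 tF1 :=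
  InG.word (fun T hT => (L4_mem T hT).1) [1, 2, 2, 1, 1, 2, 0] (by decide +kernel)

def tF1' : ℕ := 2268608938180363633197001677401584563821940514032708379289846272

def tF2 : ℕ := 3296240303511131767195426927598638324237609809894257693343351296

theorem tF2_mem : InG M24 tF2 :=
  InG.word (fun T hT => (L4_mem T hT).1) [3, 1, 3, 3, 0, 2, 2, 0, 0] (by decide +kernel)

def L5 : List ℕ := [tF0, tF0', tF1, tF1', tF2]

theorem L5_mem : ∀ T ∈ L5, InG M24 T ∧ ∀ p ∈ ([0, 1, 2, 3, 4] : List (Fin 24)), tab T p = p := by
  intro T hT
  simp only [L5, List.mem_cons, List.not_mem_nil, or_false] at hT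
  rcases hT with rfl | rfl | rfl | rfl | rfl
  · exact ⟨tF0_mem, by decide +kernel⟩
  · exact ⟨tF0_mem.inv (by decide +kernel), by decide +kernel⟩
  · exact ⟨tF1_mem, by decide +kernel⟩
  · exact ⟨tF1_mem.inv (by decide +kernel), by decide +kernel⟩
  · exact ⟨tF2_mem, by decide +kernel⟩

theorem level0 : ∀ x, x ∉ ([] : List (Fin 24)) → ∃ g ∈ M24,
    (∀ p ∈ ([] : List (Fin 24)), g p = p) ∧ g 0 = x :=
  cert_level (S := L0) (fun T hT => ⟨L0_mem T hT, by simp⟩)
    (P := 17294278034141237289137361208446019187846888547945772482560)
    (I := 411778660023568893181557393760179543158008479294708177375854592)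
    (R := 206091378055134009168998642748135609016349099059423484488188416) (by decide +kernel)

theorem level1 : ∀ x, x ∉ ([0] : List (Fin 24)) → ∃ g ∈ M24,
    (∀ p ∈ ([0] : List (Fin 24)), g p = p) ∧ g 1 = x :=
  cert_level (S := L1) L1_mem
    (P := 214933471274469245033508895058362346125131973446095235234398208)
    (I := 412181963801070471967975422044763111108925360168920144616357888)
    (R := 206493898739398530263315647611840378205348472398561146680377344) (by decide +kernel)

theorem level2 : ∀ x, x ∉ ([0, 1] : List (Fin 24)) → ∃ g ∈ M24,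
    (∀ p ∈ ([0, 1] : List (Fin 24)), g p = p) ∧ g 2 = x :=
  cert_level (S := L2) L2_mem
    (P := 2674764070503513491074418923011807011206901691504346566802538496)
    (I := 412180394522655184748903901589510461225220612229026771955089408)
    (R := 411779444661279993390755150530267889808914641051076071182565376) (by decide +kernel)

theorem level3 : ∀ x, x ∉ ([0, 1, 2] : List (Fin 24)) → ∃ g ∈ M24,
    (∀ p ∈ ([0, 1, 2] : List (Fin 24)), g p = p) ∧ g 3 = x :=
  cert_level (S := L3) L3_mem
    (P := 2472683001910816245703362679063395211986844361891403449558368256)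
    (I := 411376927033027065043288815667798453490224843637808719957327872)
    (R := 618271769512786397247729192667125907078289489284594723536764928) (by decide +kernel)

theorem level4 : ∀ x, x ∉ ([0, 1, 2, 3] : List (Fin 24)) → ∃ g ∈ M24,
    (∀ p ∈ ([0, 1, 2, 3] : List (Fin 24)), g p = p) ∧ g 4 = x :=
  cert_level (S := L4) L4_mem
    (P := 3909683406375039606223881735160848334533184189486570499202875392)
    (I := 617064996707139759815399393656608263151528248421763960390287360)
    (R := 411778660014595284591059265411608625118847798769754484231897088) (by decide +kernel)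

theorem trans : IsMultiplyPretransitive M24 (Fin 24) 5 :=
  trans_of_levels (base := [0, 1, 2, 3, 4])
    ⟨level0, level1, level2, level3, level4, trivial⟩

def m2x0 : ℕ := 3296240303511131767195426927598638324237609809894257693343351296

theorem m2x0_mem : InG M24 m2x0 :=
  InG.word (fun T hT => (L5_mem T hT).1) [4] (by decide +kernel)

def m2x1 : ℕ := 4122614469891064380588116349330184774298409149323922836080558592

theorem m2x1_mem : InG M24 m2x1 :=
  InG.word (fun T hT => (L1_mem T hT).1) [0, 3, 0, 2, 1, 2, 0, 3, 0] (by decide +kernel)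

def m2x2 : ℕ := 2680380510388151780498801325181120615329619071680595321094144512

theorem m2x2_mem : InG M24 m2x2 :=
  InG.word (fun T hT => (L1_mem T hT).1) [2, 2, 0, 0, 3, 1, 2, 0, 2] (by decide +kernel)

def m2x3 : ℕ := 1860047289728231195838257067273273213050218268518807924880966144

theorem m2x3_mem : InG M24 m2x3 :=
  InG.word (fun T hT => (L1_mem T hT).1) [2, 0, 2, 2, 1, 3, 0, 3, 1] (by decide +kernel)

def m2x4 : ℕ := 4732440403622355143367140125363697077809988571651327156462027264

theorem m2x4_mem : InG M24 m2x4 :=
  InG.word (fun T hT => (L3_mem T hT).1) [1, 1, 2, 0] (by decide +kernel)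

def m2x5 : ℕ := 4325881173647132826867532374136310175857778736293131364227088896

theorem m2x5_mem : InG M24 m2x5 :=
  InG.word (fun T hT => (L4_mem T hT).1) [0, 2] (by decide +kernel)

def m2x6 : ℕ := 3910092227166466566549194330152981681083090910333748831257625088

theorem m2x6_mem : InG M24 m2x6 :=
  InG.word (fun T hT => (L5_mem T hT).1) [2] (by decide +kernel)

theorem tset2 : IsPreprimitive M24 (Set.powersetCard (Fin 24) 2) := by
  have := trans
  have hG : IsMultiplyPretransitive M24 (Fin 24) (2 + 1) :=
    isMultiplyPretransitive_of_le (n := 5) (by norm_num) (by rw [Nat.card_eq_fintype_card, Fintype.card_fin]; norm_num)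
  refine cert_moves (by norm_num) (by norm_num) hG (Ts := [m2x0, m2x1, m2x2, m2x3, m2x4, m2x5, m2x6]) ?_ (by decide +kernel)
  intro T hT
  simp only [List.mem_cons, List.not_mem_nil, or_false] at hT
  rcases hT with rfl | rfl | rfl | rfl | rfl | rfl | rfl
  · exact m2x0_mem
  · exact m2x1_mem
  · exact m2x2_mem
  · exact m2x3_mem
  · exact m2x4_mem
  · exact m2x5_mem
  · exact m2x6_mem

def m3x0 : ℕ := 4739680257380816458305527838506654135728775119958099885291734016

theorem m3x0_mem : InG M24 m3x0 :=
  InG.word L0_mem [1, 1, 4, 1, 4, 1, 4, 0] (by decide +kernel)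

def m3x1 : ℕ := 3296240303511131767195426927598638324237609809894257693343351296

theorem m3x1_mem : InG M24 m3x1 :=
  InG.word (fun T hT => (L5_mem T hT).1) [4] (by decide +kernel)

def m3x2 : ℕ := 4328305685754594756515650460911079245103833054796528400198009344

theorem m3x2_mem : InG M24 m3x2 :=
  InG.word (fun T hT => (L2_mem T hT).1) [3, 0, 3, 0, 3, 0] (by decide +kernel)

def m3x3 : ℕ := 3916916981544190639700120275022028117329034145614254616701567488

theorem m3x3_mem : InG M24 m3x3 :=
  InG.word (fun T hT => (L2_mem T hT).1) [3, 1, 2, 1, 2, 1, 2, 2] (by decide +kernel)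

def m3x4 : ℕ := 4734860238595283768432023446340541393916579597352148282051658240

theorem m3x4_mem : InG M24 m3x4 :=
  InG.word (fun T hT => (L2_mem T hT).1) [0, 0, 3, 0, 3, 1, 2, 0, 2] (by decide +kernel)

def m3x5 : ℕ := 625105990139487800025700834628043202357164551285717918737236480

theorem m3x5_mem : InG M24 m3x5 :=
  InG.word (fun T hT => (L2_mem T hT).1) [0, 2, 0, 3, 3, 0, 0] (by decide +kernel)

def m3x6 : ℕ := 4734055961927069687718794967626139920794351002981144876582175232

theorem m3x6_mem : InG M24 m3x6 :=
  InG.word L0_mem [1, 3, 0, 4, 4, 1, 1, 1, 4] (by decide +kernel)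

def m3x7 : ℕ := 4530371070856588138718698057437696518293450237014221523731874304

theorem m3x7_mem : InG M24 m3x7 :=
  InG.word (fun T hT => (L2_mem T hT).1) [3, 0, 3, 3, 1, 3, 0, 2, 1] (by decide +kernel)

theorem tset3 : IsPreprimitive M24 (Set.powersetCard (Fin 24) 3) := by
  have := trans
  have hG : IsMultiplyPretransitive M24 (Fin 24) (3 + 1) :=
    isMultiplyPretransitive_of_le (n := 5) (by norm_num) (by rw [Nat.card_eq_fintype_card, Fintype.card_fin]; norm_num)
  refine cert_moves (by norm_num) (by norm_num) hG (Ts := [m3x0, m3x1, m3x2, m3x3, m3x4, m3x5, m3x6, m3x7]) ?_ (by decide +kernel)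
  intro T hT
  simp only [List.mem_cons, List.not_mem_nil, or_false] at hT
  rcases hT with rfl | rfl | rfl | rfl | rfl | rfl | rfl | rfl
  · exact m3x0_mem
  · exact m3x1_mem
  · exact m3x2_mem
  · exact m3x3_mem
  · exact m3x4_mem
  · exact m3x5_mem
  · exact m3x6_mem
  · exact m3x7_mem

end Pool.Agent.Helper37.PF.CM24
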