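import Pool.Agent.Helper37.PF.Chain
import Pool.Agent.Helper37.Prim.Cert2
import Pool.Agent.Helper37.PF.MathieuDefs

/-!
# Three generalisations of primitivity (MP_13dc8a_al): `PSL(2, 11)` of degree `11`, certificates
-/

namespace Pool.Agent.Helper37.PF.CPsl11

open MulAction Equiv
open Pool.Agent.Helper37.Prim

def tA0 : ℕ := 24221091603926945073202177

def tA0' : ℕ := 11160836278678081785995460618

def tA1 : ℕ := 11165667241197286461136962048

/-- The tables of the generators and their inverses. -/
def L0 : List ℕ := [tA0, tA0', tA1]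

theorem L0_mem : ∀ T ∈ L0, InG PSL11 T := by
  have h0 : InG PSL11 tA0 := ⟨_, Subgroup.subset_closure (Or.inl rfl),
    isT_permL (by decide +kernel)⟩
  have h1 : InG PSL11 tA1 := ⟨_, Subgroup.subset_closure (Or.inr rfl),
    isT_permL (by decide +kernel)⟩
  intro T hT
  simp only [L0, List.mem_cons, List.not_mem_nil, or_false] at hT
  rcases hT with rfl | rfl | rfl
  · exact h0
  · exact h0.inv (by decide +kernel)
  · exact h1

def tB0 : ℕ := 11165667241197286461136962048

theorem tB0_mem : InG PSL11 tB0 :=
  InG.word L0_mem [2] (by decide +kernel)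

def tB1 : ℕ := 9905957101613255752706950144

theorem tB1_mem : InG PSL11 tB1 :=
  InG.word L0_mem [0, 0, 2, 1, 2] (by decide +kernel)

def tB1' : ℕ := 4956643111863257655400468992

def L1 : List ℕ := [tB0, tB1, tB1']

theorem L1_mem : ∀ T ∈ L1, InG PSL11 T ∧ ∀ p ∈ ([0] : List (Fin 11)), tab T p = p := by
  intro T hT
  simp only [L1, List.mem_cons, List.not_mem_nil, or_false] at hT
  rcases hT with rfl | rfl | rfl
  · exact ⟨tB0_mem, by decide +kernel⟩
  · exact ⟨tB1_mem, by decide +kernel⟩
  · exact ⟨tB1_mem.inv (by decide +kernel), by decide +kernel⟩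

def tC0 : ℕ := 11165667241197286461136962048

theorem tC0_mem : InG PSL11 tC0 :=
  InG.word (fun T hT => (L1_mem T hT).1) [0] (by decide +kernel)

def tC1 : ℕ := 2495265420743339928564793856

theorem tC1_mem : InG PSL11 tC1 :=
  InG.word (fun T hT => (L1_mem T hT).1) [2, 0, 2, 0, 1, 0, 1] (by decide +kernel)

def L2 : List ℕ := [tC0, tC1]

theorem L2_mem : ∀ T ∈ L2, InG PSL11 T ∧ ∀ p ∈ ([0, 1] : List (Fin 11)), tab T p = p := by
  intro T hT
  simp only [L2, List.mem_cons, List.not_mem_nil, or_false] at hT
  rcases hT with rfl | rfl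
  · exact ⟨tC0_mem, by decide +kernel⟩
  · exact ⟨tC1_mem, by decide +kernel⟩

theorem level0 : ∀ x, x ∉ ([] : List (Fin 11)) → ∃ g ∈ PSL11,
    (∀ p ∈ ([] : List (Fin 11)), g p = p) ∧ g 0 = x :=
  cert_level (S := L0) (fun T hT => ⟨L0_mem T hT, by simp⟩)
    (P := 24221091567757272857968640)
    (I := 1240362622514534808492703744)
    (R := 1242789946628938970387972608) (by decide +kernel)

theorem level1 : ∀ x, x ∉ ([0] : List (Fin 11)) → ∃ g ∈ PSL11,
    (∀ p ∈ ([0] : List (Fin 11)), g p = p) ∧ g 1 = x :=
  cert_level (S := L1) L1_mem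
    (P := 11143925475133526857853698048)
    (I := 4840444091685597627023360)
    (R := 2478312125051682696991080448) (by decide +kernel)

theorem trans : IsMultiplyPretransitive PSL11 (Fin 11) 2 :=
  trans_of_levels (base := [0, 1])
    ⟨level0, level1, trivial⟩

def r0 : ℕ := 1257311278904206526037885952

theorem r0_mem : InG PSL11 r0 :=
  InG.word L0_mem [0, 0, 2, 1] (by decide +kernel)

def r1 : ℕ := 2490406087185793702673778176

theorem r1_mem : InG PSL11 r1 :=
  InG.word L0_mem [0, 0, 2, 0, 2, 1] (by decide +kernel)

theorem tprim : IsMultiplyPreprimitive PSL11 (Fin 11) 2 := by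
  refine cert_tprimitive (o := 0) (p := 1) (S := L1) (U := L2) (reps := [2, 3]) (by decide) trans ?_
    (P' := 11143925475133526857853698048) (I' := 4840444091685597627023360) (R' := 2478312125051682696991080448)
    (by decide +kernel) ?_ (P := 2500086956922209304055906304) (I := 1237940048526766710263382016)
    (R := 1242789918922723556218372096) (by decide +kernel) ?_
  · exact fun T hT => ⟨(L1_mem T hT).1, (L1_mem T hT).2 0 (by simp)⟩
  · exact fun T hT => ⟨(L2_mem T hT).1, (L2_mem T hT).2 0 (by simp), (L2_mem T hT).2 1 (by simp)⟩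
  · intro w hw
    simp only [List.mem_cons, List.not_mem_nil, or_false] at hw
    rcases hw with rfl | rfl
    · exact ⟨r0, r0_mem, by decide +kernel, by decide +kernel, 2488011865825511621513183232,
        2475880078606824599908777984, 2483152550678609753410895872, by decide +kernel⟩
    · exact ⟨r1, r1_mem, by decide +kernel, by decide +kernel, 3738041163379095782065438720,
        2427314818974324440956928, 2483152541473322414956609536, by decide +kernel⟩

def z0 : ℕ := 9918074684839040583046004737

theorem z0_mem : InG PSL11 z0 :=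
  InG.word L0_mem [0, 0, 2, 1, 1] (by decide +kernel)

theorem H_mem : ∀ T ∈ [tC0, tC1, z0], InG PSL11 T ∧ PresT T (0 : Fin 11) (1 : Fin 11) := by
  intro T hT
  simp only [List.mem_cons, List.not_mem_nil, or_false] at hT
  rcases hT with rfl | rfl | rfl
  · exact ⟨(L2_mem _ (by simp [L2])).1, by decide +kernel⟩
  · exact ⟨(L2_mem _ (by simp [L2])).1, by decide +kernel⟩
  · exact ⟨z0_mem, by decide +kernel⟩

def wA0 : ℕ := 9918074684839040583046004737

theorem wA0_mem : InG PSL11 wA0 :=
  InG.word L0_mem [0, 0, 2, 1, 1] (by decide +kernel)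

def kA3 : ℕ := 1237987346104919194713720322

theorem kA3_mem : InG PSL11 kA3 :=
  InG.word L0_mem [0, 0] (by decide +kernel)

def kA5 : ℕ := 11156005251739423294308223490

theorem kA5_mem : InG PSL11 kA5 :=
  InG.word L0_mem [1, 1, 1, 2, 0, 2, 0] (by decide +kernel)

def w1x0 : ℕ := 11165667241197286461136962048

theorem w1x0_mem : InG PSL11 w1x0 :=
  InG.word L0_mem [2] (by decide +kernel)

theorem tset2 : IsPreprimitive PSL11 (Set.powersetCard (Fin 11) 2) := by
  refine cert_tset (o := 0) (p := 1) (Ts := L0) (S := L1) (H := [tC0, tC1, z0]) (roots := [2, 3])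
    (by decide) tprim L0_mem ?_
    (P₀ := 24221091567757272857968640) (I₀ := 1240362622514534808492703744) (R₀ := 1242789946628938970387972608)
    (P' := 11143925475133526857853698048) (I' := 4840444091685597627023360) (R' := 2478312125051682696991080448)
    (by decide +kernel) (by decide +kernel) H_mem
    (P := 2500105846388140782636761088) (I := 1237949493259732449553809408) (R := 1242785196556240686573158400)
    (by decide +kernel) ?_
  · exact fun T hT => ⟨(L1_mem T hT).1, (L1_mem T hT).2 0 (by simp)⟩
  · intro c hc
    simp only [List.mem_cons, List.not_mem_nil, or_false] at hc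
    rcases hc with rfl | rfl
    · refine ⟨[wA0], [3, 5], ?_, by decide +kernel, ?_⟩
      · intro T hT
        simp only [List.mem_cons, List.not_mem_nil, or_false] at hT
        rcases hT with rfl
        · exact ⟨wA0_mem, by decide +kernel, by decide +kernel⟩
      · intro d hd
        simp only [List.mem_cons, List.not_mem_nil, or_false] at hd
        rcases hd with rfl | rfl
        · exact ⟨kA3, [0, 2, 0], kA3_mem, by decide +kernel,
            by decide +kernel, by decide +kernel, by decide +kernel⟩
        · exact ⟨kA5, [0, 2, 0, 0], kA5_mem, by decide +kernel,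
            by decide +kernel, by decide +kernel, by decide +kernel⟩
    · refine ⟨[w1x0], [], ?_, by decide +kernel, ?_⟩
      · intro T hT
        simp only [List.mem_cons, List.not_mem_nil, or_false] at hT
        rcases hT with rfl
        · exact ⟨w1x0_mem, by decide +kernel, by decide +kernel⟩
      · intro d hd
        simp at hd

end Pool.Agent.Helper37.PF.CPsl11
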