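import Pool.Agent.Helper37.Prim.Cert2

/-!
# PF-M2: certificates for multiple transitivity (MP_13dc8a_al)

Tables (`tab`, `IsT`, `InG`, `checkR`, `reach_ind`) are defined in Prim/Cert.lean; compare
`cert_trans1` in Prim/Cert2.lean.

PROOF OF `cert_level`: exactly as `cert_trans1`, with the induction `reach_ind` applied to
`Q x := ∃ g ∈ G, (∀ p ∈ fixed, g p = p) ∧ g o = x`.

PROOF OF `trans_of_levels`. Claim: if `Levels G fixed rest` and `xs` is a list of the same length
as `rest` with `(fixed ++ xs).Nodup`, then there is `g ∈ G` with `g p = p` for `p ∈ fixed` and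
`rest.map g = xs`. Induction on `rest` (generalizing `fixed`, `xs`): if `rest = o :: rest'`,
`xs = x :: xs'` then `x ∉ fixed`; take `g₁ ∈ G` fixing `fixed` with `g₁ o = x` and apply the
induction hypothesis to `fixed ++ [o]`, `rest'`, `ys := xs'.map g₁⁻¹` (the list
`fixed ++ [o] ++ ys` is the image of `fixed ++ x :: xs'` under `g₁⁻¹`, hence has no duplicates);
then `g = g₁ g₂`. Now for two embeddings `x y : Fin t ↪ Fin n`, `t = base.length`
(`MulAction.isMultiplyPretransitive_iff`) apply the claim with `fixed = []` to the lists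
`List.ofFn x`, `List.ofFn y` and take `g_y * g_x⁻¹`.
-/

namespace Pool.Agent.Helper37.PF

open MulAction Equiv
open Pool.Agent.Helper37.Prim

variable {n : ℕ} {G : Subgroup (Perm (Fin n))}

/-- The stabilisers of the initial segments of `base` are transitive on the other points. -/
def Levels (G : Subgroup (Perm (Fin n))) : List (Fin n) → List (Fin n) → Prop
  | _, [] => True
  | fixed, o :: rest =>
    (∀ x, x ∉ fixed → ∃ g ∈ G, (∀ p ∈ fixed, g p = p) ∧ g o = x) ∧ Levels G (fixed ++ [o]) rest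

theorem cert_level {fixed : List (Fin n)} {o : Fin n} {S : List ℕ}
    (hS : ∀ T ∈ S, InG G T ∧ ∀ p ∈ fixed, tab T p = p) {P I R : ℕ}
    (h : checkR n S [(o : ℕ)] (fixed.map (fun p : Fin n => (p : ℕ))) P I R = true) :
    ∀ x, x ∉ fixed → ∃ g ∈ G, (∀ p ∈ fixed, g p = p) ∧ g o = x := by
  intro x hx
  have hmem : ∀ y : Fin n, (y : ℕ) ∈ fixed.map (fun p : Fin n => (p : ℕ)) → y ∈ fixed := by
    intro y hy
    obtain ⟨z, hz, hzy⟩ := List.mem_map.1 hy
    rw [← Fin.ext hzy]
    exact hz
  refine reach_ind h (fun x => ∃ g ∈ G, (∀ p ∈ fixed, g p = p) ∧ g o = x) ?_ ?_ x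
    (fun h0 => hx (hmem x h0))
  · intro x hx
    rw [List.mem_singleton] at hx
    exact ⟨1, G.one_mem, fun p _ => rfl, Fin.ext hx.symm⟩
  · rintro T hTm x y - ⟨g, hg, hgo, hgx⟩ hy
    obtain ⟨⟨k, hk, hkT⟩, hTo⟩ := hS T hTm
    exact ⟨k * g, G.mul_mem hk hg, fun p hp => Fin.ext (by
      rw [Equiv.Perm.mul_apply, hgo p hp, hkT, hTo p hp]),
      Fin.ext (by rw [Equiv.Perm.mul_apply, hgx, hkT, hy])⟩

private theorem levels_list : ∀ (rest fixed xs : List (Fin n)), Levels G fixed rest →
    xs.length = rest.length → (fixed ++ xs).Nodup →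
    ∃ g ∈ G, (∀ p ∈ fixed, g p = p) ∧ rest.map g = xs := by
  intro rest
  induction rest with
  | nil =>
    intro fixed xs _ hlen _
    refine ⟨1, G.one_mem, fun p _ => rfl, ?_⟩
    rw [List.length_nil, List.length_eq_zero_iff] at hlen
    rw [hlen, List.map_nil]
  | cons o rest ih =>
    intro fixed xs hL hlen hnd
    obtain _ | ⟨x, xs'⟩ := xs
    · simp at hlen
    obtain ⟨h1, h2⟩ := hL
    have hx : x ∉ fixed := by
      intro hx
      exact (List.nodup_append.1 hnd).2.2 x hx x List.mem_cons_self rfl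
    obtain ⟨g₁, hg₁, hf₁, ho₁⟩ := h1 x hx
    have hinj : Function.Injective (g₁⁻¹ : Perm (Fin n)) := (g₁⁻¹).injective
    have hfix : fixed.map (g₁⁻¹ : Perm (Fin n)) = fixed := by
      conv_rhs => rw [← List.map_id fixed]
      apply List.map_congr_left
      intro p hp
      rw [Equiv.Perm.inv_eq_iff_eq, id_eq, hf₁ p hp]
    have hxo : (g₁⁻¹ : Perm (Fin n)) x = o := by rw [Equiv.Perm.inv_eq_iff_eq, ho₁]
    have hnd' : ((fixed ++ [o]) ++ xs'.map (g₁⁻¹ : Perm (Fin n))).Nodup := by
      have h3 := hnd.map hinj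
      rw [List.map_append, List.map_cons, hfix, hxo] at h3
      rw [List.append_assoc, List.singleton_append]
      exact h3
    obtain ⟨g₂, hg₂, hf₂, hr₂⟩ := ih (fixed ++ [o]) (xs'.map (g₁⁻¹ : Perm (Fin n))) h2 (by
      rw [List.length_map]
      simpa using hlen) hnd'
    refine ⟨g₁ * g₂, G.mul_mem hg₁ hg₂, fun p hp => ?_, ?_⟩
    · rw [Equiv.Perm.mul_apply, hf₂ p (List.mem_append_left _ hp), hf₁ p hp]
    · rw [List.map_cons, Equiv.Perm.mul_apply,
        hf₂ o (List.mem_append_right _ (List.mem_singleton_self o)), ho₁]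
      congr 1
      have h3 : rest.map (⇑(g₁ * g₂)) = (rest.map g₂).map g₁ := by
        rw [List.map_map]
        rfl
      rw [h3, hr₂, List.map_map]
      conv_rhs => rw [← List.map_id xs']
      apply List.map_congr_left
      intro y _
      exact g₁.apply_symm_apply y

theorem trans_of_levels {base : List (Fin n)} (h : Levels G [] base) :
    IsMultiplyPretransitive G (Fin n) base.length := by
  have key : ∀ x : Fin base.length ↪ Fin n, ∃ g ∈ G, base.map g = List.ofFn x := by
    intro x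
    obtain ⟨g, hg, -, h2⟩ := levels_list base [] (List.ofFn x) h (List.length_ofFn) (by
      rw [List.nil_append]
      exact List.nodup_ofFn.2 x.injective)
    exact ⟨g, hg, h2⟩
  rw [isMultiplyPretransitive_iff]
  intro x y
  obtain ⟨g, hg, hgx⟩ := key x
  obtain ⟨k, hk, hky⟩ := key y
  have h1 : ∀ (f : Perm (Fin n)) (z : Fin base.length ↪ Fin n), base.map f = List.ofFn z →
      ∀ i : Fin base.length, f (base.get i) = z i := by
    intro f z hf i
    have h2 : (base.map f)[(i : ℕ)]'(by rw [List.length_map]; exact i.2) =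
        (List.ofFn z)[(i : ℕ)]'(by rw [List.length_ofFn]; exact i.2) := by
      congr 1
    rw [List.getElem_map, List.getElem_ofFn] at h2
    exact h2
  refine ⟨⟨k * g⁻¹, G.mul_mem hk (G.inv_mem hg)⟩, ?_⟩
  ext i
  change ((k * g⁻¹) (x i) : ℕ) = y i
  rw [← h1 g x hgx i, ← h1 k y hky i, Equiv.Perm.mul_apply]
  congr 2
  exact g.symm_apply_apply _

end Pool.Agent.Helper37.PF
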