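import Pool.Agent.Helper37.PF.Syn

/-!
# Three generalisations of primitivity (MP_13dc8a_al): Steiner systems from binary codes
-/

namespace Pool.Agent.Helper37.PF

open MulAction Equiv
open scoped Pointwise
open Pool.Agent.Helper37.Prim

theorem code_invariant {n m : ℕ} {S : Set (Perm (Fin n))} (col : Fin n → Fin m → ZMod 2)
    (hS : ∀ s ∈ S, ∃ A A' : Matrix (Fin m) (Fin m) (ZMod 2),
      (∀ x, col (s x) = A.mulVec (col x)) ∧ ∀ x, col (s⁻¹ x) = A'.mulVec (col x))
    {g : Perm (Fin n)} (hg : g ∈ Subgroup.closure S) {b : Finset (Fin n)}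
    (hb : ∑ x ∈ b, col x = 0) : ∑ x ∈ g • b, col x = 0 := by
  have key : ∀ g ∈ Subgroup.closure S, ∃ A A' : Matrix (Fin m) (Fin m) (ZMod 2),
      (∀ x, col (g x) = A.mulVec (col x)) ∧ ∀ x, col (g⁻¹ x) = A'.mulVec (col x) := by
    intro g hg
    induction hg using Subgroup.closure_induction with
    | mem x hx => exact hS x hx
    | one => exact ⟨1, 1, fun x => by simp, fun x => by simp⟩
    | mul x y _ _ hx hy =>
      obtain ⟨A, A', hA, hA'⟩ := hx
      obtain ⟨B, B', hB, hB'⟩ := hy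
      refine ⟨A * B, B' * A', fun z => ?_, fun z => ?_⟩
      · rw [Perm.mul_apply, hA, hB, Matrix.mulVec_mulVec]
      · rw [mul_inv_rev, Perm.mul_apply, hB', hA', Matrix.mulVec_mulVec]
    | inv x _ hx =>
      obtain ⟨A, A', hA, hA'⟩ := hx
      exact ⟨A', A, hA', by rw [inv_inv]; exact hA⟩
  obtain ⟨A, A', hA, -⟩ := key g hg
  have h1 : ∑ x ∈ g • b, col x = ∑ x ∈ b, col (g x) := by
    change ∑ x ∈ b.image (fun x => g • x), col x = _
    rw [Finset.sum_image (fun x _ y _ hxy => smul_left_cancel _ hxy)]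
    rfl
  rw [h1]
  have h2 : ∑ x ∈ b, col (g x) = A.mulVec (∑ x ∈ b, col x) := by
    have h3 : A.mulVec (∑ x ∈ b, col x) = ∑ x ∈ b, A.mulVec (col x) := by
      rw [← Matrix.mulVecLin_apply, map_sum]
      rfl
    rw [h3]
    exact Finset.sum_congr rfl fun x _ => hA x
  rw [h2, hb, Matrix.mulVec_zero]

/-- The words of weight `k` of a binary code form a Steiner system, if one `t`-subset is contained
in exactly one of them. -/
theorem not_steiner_of_code {n m k t : ℕ} {S : Set (Perm (Fin n))} (col : Fin n → Fin m → ZMod 2)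
    (hS : ∀ s ∈ S, ∃ A A' : Matrix (Fin m) (Fin m) (ZMod 2),
      (∀ x, col (s x) = A.mulVec (col x)) ∧ ∀ x, col (s⁻¹ x) = A'.mulVec (col x))
    (htk : t < k) (hkn : k < n)
    (hG : IsMultiplyPretransitive (Subgroup.closure S) (Fin n) t)
    (a : Finset (Fin n)) (ha : a.card = t)
    (hbase : ∃! b : Finset (Fin n), (b.card = k ∧ ∑ x ∈ b, col x = 0) ∧ a ⊆ b) :
    ¬ SteinerPrimitive (Subgroup.closure S) (Fin n) t := by
  intro hst
  apply hst
  have hinv : ∀ g : Subgroup.closure S, ∀ b : Finset (Fin n),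
      (b.card = k ∧ ∑ x ∈ b, col x = 0) → ((g • b).card = k ∧ ∑ x ∈ g • b, col x = 0) := by
    rintro g b ⟨h1, h2⟩
    exact ⟨by rw [Finset.card_smul_finset]; exact h1, code_invariant col hS g.2 h2⟩
  refine ⟨k, {b | b.card = k ∧ ∑ x ∈ b, col x = 0}, htk, ?_, ⟨fun b hb => hb.1, ?_⟩, hinv⟩
  · rw [Nat.card_eq_fintype_card, Fintype.card_fin]
    exact hkn
  · intro s hs
    obtain ⟨g, hg⟩ : ∃ g : Subgroup.closure S, g • a = s := by
      rw [isMultiplyPretransitive_iff] at hG
      obtain ⟨g, hg⟩ := hG ((a.equivFinOfCardEq ha).symm.toEmbedding.trans (.subtype _))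
        ((s.equivFinOfCardEq hs).symm.toEmbedding.trans (.subtype _))
      refine ⟨g, ?_⟩
      apply Finset.eq_of_subset_of_card_le
      · intro x hx
        rw [Finset.mem_smul_finset] at hx
        obtain ⟨y, hy, rfl⟩ := hx
        have h1 := DFunLike.congr_fun hg (a.equivFinOfCardEq ha ⟨y, hy⟩)
        have h2 : g • y = ((s.equivFinOfCardEq hs).symm (a.equivFinOfCardEq ha ⟨y, hy⟩) : Fin n) := by
          have h3 : g • (((a.equivFinOfCardEq ha).symm (a.equivFinOfCardEq ha ⟨y, hy⟩) : a) :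
              Fin n) = ((s.equivFinOfCardEq hs).symm (a.equivFinOfCardEq ha ⟨y, hy⟩) : Fin n) := h1
          rw [Equiv.symm_apply_apply] at h3
          exact h3
        rw [h2]
        exact ((s.equivFinOfCardEq hs).symm _).2
      · rw [Finset.card_smul_finset, ha, hs]
    obtain ⟨b, ⟨hb, hab⟩, hu⟩ := hbase
    refine ⟨g • b, ⟨hinv g b hb, ?_⟩, ?_⟩
    · rw [← hg]
      exact Finset.smul_finset_subset_smul_finset hab
    · rintro b' ⟨hb', hsb'⟩
      have h1 := hu (g⁻¹ • b') ⟨hinv g⁻¹ b' hb', by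
        rw [Finset.subset_smul_finset_iff, inv_inv, hg]
        exact hsb'⟩
      rw [← h1, smul_inv_smul]

end Pool.Agent.Helper37.PF
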