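import Mathlib

/-!
# Three generalisations of primitivity (MP_13dc8a_al): the Suzuki groups

`F` is a finite field with an automorphism `θ` such that `θ (θ x) = x ^ 2` for all `x`, so that
`F` has `2 ^ (2 e + 1)` elements. The Suzuki group `Sz(q)`, `q = |F|`, acts on the `q² + 1` points
of the Suzuki-Tits ovoid: the points of `F × F` and `∞`.
-/

namespace Pool.Agent.Helper37.PF

open OnePoint

variable {F : Type} [Field F]

/-- The translation `(x, y) ↦ (x + a, y + b + θ(a) x)`, `∞ ↦ ∞`. -/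
def szT (θ : F ≃+* F) (a b : F) (p : OnePoint (F × F)) : OnePoint (F × F) :=
  OnePoint.map (fun v : F × F => (v.1 + a, v.2 + b + θ a * v.1)) p

/-- The dilation `(x, y) ↦ (k x, k θ(k) y)`, `∞ ↦ ∞`. -/
def szN (θ : F ≃+* F) (k : F) (p : OnePoint (F × F)) : OnePoint (F × F) :=
  OnePoint.map (fun v : F × F => (k * v.1, k * θ k * v.2)) p

/-- The form `z(x, y) = x y + x² θ(x) + θ(y)`. -/
def szZ (θ : F ≃+* F) (v : F × F) : F := v.1 * v.2 + v.1 ^ 2 * θ v.1 + θ v.2

open Classical in
/-- The inversion `(x, y) ↦ (y / z, x / z)`, `z = z(x, y)`, which exchanges `∞` and `(0, 0)`. -/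
noncomputable def szW (θ : F ≃+* F) (p : OnePoint (F × F)) : OnePoint (F × F) :=
  p.elim (((0, 0) : F × F) : OnePoint (F × F))
    (fun v => if szZ θ v = 0 then ∞ else ((v.2 / szZ θ v, v.1 / szZ θ v) : F × F))

/-- The Suzuki group: the group generated by the permutations which are translations, dilations
or the inversion. -/
def Sz (θ : F ≃+* F) : Subgroup (Equiv.Perm (OnePoint (F × F))) :=
  Subgroup.closure {π | (∃ a b : F, ∀ p, π p = szT θ a b p) ∨
    (∃ k : F, k ≠ 0 ∧ ∀ p, π p = szN θ k p) ∨ ∀ p, π p = szW θ p}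

end Pool.Agent.Helper37.PF
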