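import Pool.Agent.Helper37.Prim.Defs
import Pool.Agent.Helper37.Prim.ProjDefs
import Pool.Agent.Helper37.Prim.G2Defs
import Pool.Agent.Helper37.Prim.HSDefs
import Pool.Agent.Helper37.Prim.Co3Defs
import Pool.Agent.Helper37.Prim.M11Defs
import Pool.Agent.Helper37.PF.MathieuDefs
import Pool.Agent.Helper37.PF.SzDefs
import Pool.Agent.Helper37.Prim.Proj2Pos

/-!
# Three generalisations of primitivity (MP_13dc8a_al): the list of the finite `2`-transitive
permutation groups, and the list of the exceptions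
-/

namespace Pool.Agent.Helper37.PF

open MulAction Equiv
open Pool.Agent.Helper37.Prim
open scoped LinearAlgebra.Projectivization

/-- The permutation groups `G` on `X` and `H` on `Y` are permutation isomorphic. -/
def PermIso {X Y : Type} (G : Subgroup (Perm X)) (H : Subgroup (Perm Y)) : Prop :=
  ∃ e : X ≃ Y, ∀ g : Perm X, g ∈ G ↔ e.permCongr g ∈ H

/-- The group `A` has a nontrivial soluble normal subgroup. For a primitive permutation group
this says that it is affine. -/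
def HasSol (A : Type) [Group A] : Prop :=
  ∃ N : Subgroup A, N.Normal ∧ N ≠ ⊥ ∧ Group.IsSolvable N

section Affine

/-- Groups of affine semilinear maps of the vector space `V` over the finite field `K`. -/
def SemiLin (K : Type) {V : Type} [Field K] [AddCommGroup V] [Module K V]
    (H : Subgroup (Perm V)) : Prop :=
  ∀ g ∈ H, ∃ (σ : K ≃+* K) (f : V → V) (v : V), (∀ x y, f (x + y) = f x + f y) ∧
    (∀ (c : K) x, f (c • x) = σ c • f x) ∧ ∀ x, g x = f x + v

/-- Groups of affine maps of the vector space `V` over the field with two elements which contain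
all translations and, for a nondegenerate alternating form `ω` on `V`, all products of two
symplectic transvections `x ↦ x + ω(x, v) v`. -/
def AffSymp {V : Type} [AddCommGroup V] [Module (ZMod 2) V] (H : Subgroup (Perm V)) : Prop :=
  (∀ g ∈ H, ∃ (f : V →ₗ[ZMod 2] V) (v : V), ∀ x, g x = f x + v) ∧
  (∀ v : V, ∃ g ∈ H, ∀ x, g x = x + v) ∧
  ∃ ω : V →ₗ[ZMod 2] V →ₗ[ZMod 2] ZMod 2, (∀ x, ω x x = 0) ∧
    (∀ x, (∀ y, ω x y = 0) → x = 0) ∧
    ∀ v w : V, v ≠ 0 → w ≠ 0 → ∃ g ∈ H, ∀ x, g x = x + ω x v • v + ω (x + ω x v • v) w • w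

/-- Groups of affine maps of the space of dimension six over the field with two elements which
contain all translations and two linear maps which generate `G₂(2)'`. -/
def AffG2 (H : Subgroup (Perm (Fin 6 → ZMod 2))) : Prop :=
  (∀ g ∈ H, ∃ (f : (Fin 6 → ZMod 2) →ₗ[ZMod 2] (Fin 6 → ZMod 2)) (v : Fin 6 → ZMod 2),
    ∀ x, g x = f x + v) ∧
  (∀ v, ∃ g ∈ H, ∀ x, g x = x + v) ∧
  (∃ g ∈ H, ∀ x, g x = g2A.mulVec x) ∧ (∃ g ∈ H, ∀ x, g x = g2B.mulVec x)

end Affine

section Projective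

/-- Groups of permutations of a set `Y` of points of a projective space which preserve
collinearity, where `Y` contains three collinear points and is not contained in a line. -/
def Collin {K V : Type} [Field K] [AddCommGroup V] [Module K V] {Y : Set (ℙ K V)}
    (H : Subgroup (Perm Y)) : Prop :=
  (∀ g ∈ H, ∀ p q r : Y,
    (r : ℙ K V).submodule ≤ (p : ℙ K V).submodule ⊔ (q : ℙ K V).submodule →
    ((g r : Y) : ℙ K V).submodule ≤
      ((g p : Y) : ℙ K V).submodule ⊔ ((g q : Y) : ℙ K V).submodule) ∧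
  ∃ p q r s : Y, p ≠ q ∧ r ≠ p ∧ r ≠ q ∧
    (r : ℙ K V).submodule ≤ (p : ℙ K V).submodule ⊔ (q : ℙ K V).submodule ∧
    ¬ (s : ℙ K V).submodule ≤ (p : ℙ K V).submodule ⊔ (q : ℙ K V).submodule

end Projective

/-- Groups whose two point stabilisers have exactly one involution, one of which fixes a third
point. -/
def ReeType {X : Type} (G : Subgroup (Perm X)) : Prop :=
  (∀ x y : X, x ≠ y → ∃! t : Perm X, t ∈ G ∧ t ≠ 1 ∧ t * t = 1 ∧ t x = x ∧ t y = y) ∧
  ∃ (x y z : X), x ≠ y ∧ z ≠ x ∧ z ≠ y ∧ ∃ t ∈ G, t ≠ 1 ∧ t * t = 1 ∧ t x = x ∧ t y = y ∧ t z = z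

/-- Groups between a Suzuki group `Sz(q)`, `q > 2`, and its normaliser. -/
def SzType {X : Type} (G : Subgroup (Perm X)) : Prop :=
  ∃ (F : Type) (_ : Field F) (_ : Finite F) (θ : F ≃+* F) (H : Subgroup (Perm (OnePoint (F × F)))),
    2 < Nat.card F ∧ (∀ x, θ (θ x) = x ^ 2) ∧ Sz θ ≤ H ∧
    (∀ g ∈ H, ∀ s ∈ Sz θ, g * s * g⁻¹ ∈ Sz θ) ∧ PermIso G H

section Symplectic

variable {V : Type} [AddCommGroup V] [Module (ZMod 2) V]

/-- The quadratic forms which polarise to `ω`, of the same type as `θ₀`. -/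
def QF (ω : V →ₗ[ZMod 2] V →ₗ[ZMod 2] ZMod 2) (θ₀ : V → ZMod 2) : Set (V → ZMod 2) :=
  {θ | ∃ a, θ₀ a = 0 ∧ ∀ x, θ x = θ₀ x + ω a x}

/-- The group of the permutations of the set of these quadratic forms which are induced by the
isometries of `ω`. -/
def SpQ (ω : V →ₗ[ZMod 2] V →ₗ[ZMod 2] ZMod 2) (θ₀ : V → ZMod 2) :
    Subgroup (Perm (QF ω θ₀)) where
  carrier := {g | ∃ f : V ≃ₗ[ZMod 2] V, (∀ x y, ω (f x) (f y) = ω x y) ∧
    ∀ (θ : QF ω θ₀) (x : V), (g θ : V → ZMod 2) (f x) = (θ : V → ZMod 2) x}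
  mul_mem' := by
    rintro g g' ⟨f, hf, hg⟩ ⟨f', hf', hg'⟩
    exact ⟨f'.trans f, fun x y => (hf _ _).trans (hf' _ _), fun θ x => (hg _ _).trans (hg' _ _)⟩
  one_mem' := ⟨LinearEquiv.refl _ _, fun _ _ => rfl, fun _ _ => rfl⟩
  inv_mem' := by
    rintro g ⟨f, hf, hg⟩
    refine ⟨f.symm, fun x y => ?_, fun θ x => ?_⟩
    · have := hf (f.symm x) (f.symm y)
      rw [f.apply_symm_apply, f.apply_symm_apply] at this
      exact this.symm
    · have := hg (g⁻¹ θ) (f.symm x)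
      rw [f.apply_symm_apply, show g (g⁻¹ θ) = θ from g.apply_symm_apply θ] at this
      exact this.symm

end Symplectic

/-- The symplectic group `Sp(2m, 2)`, `m ≥ 3`, in its two `2`-transitive actions, on the quadratic
forms of plus type and of minus type. -/
def SpType {X : Type} (G : Subgroup (Perm X)) : Prop :=
  ∃ (V : Type) (_ : AddCommGroup V) (_ : Module (ZMod 2) V)
    (ω : V →ₗ[ZMod 2] V →ₗ[ZMod 2] ZMod 2) (θ₀ : V → ZMod 2), Finite V ∧ 64 ≤ Nat.card V ∧
    (∀ x, ω x x = 0) ∧ (∀ x, (∀ y, ω x y = 0) → x = 0) ∧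
    (∀ x y, θ₀ (x + y) = θ₀ x + θ₀ y + ω x y) ∧ PermIso G (SpQ ω θ₀)

/-- Affine groups of even degree which are of type (a) for `t = 2`: the `3`-transitive ones and the
ones which contain `2 ^ (2m) : Sp(2m, 2)'`, `m ≥ 2`, or `2 ^ 6 : G₂(2)'`. -/
def AffA {X : Type} (G : Subgroup (Perm X)) : Prop :=
  (HasSol G ∧ IsMultiplyPretransitive G X 3) ∨
  (∃ (V : Type) (_ : AddCommGroup V) (_ : Module (ZMod 2) V) (H : Subgroup (Perm V)),
    Finite V ∧ 4 < Nat.card V ∧ AffSymp H ∧ PermIso G H) ∨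
  ∃ H : Subgroup (Perm (Fin 6 → ZMod 2)), AffG2 H ∧ PermIso G H

/-- `PSL(2, q) ≤ G ≤ PΓL(2, q)`. -/
def PType {X : Type} (G : Subgroup (Perm X)) : Prop :=
  ∃ (K : Type) (_ : Field K) (_ : Finite K) (_ : DecidableEq K) (H : Subgroup (Perm (OnePoint K))),
    PSL K ≤ H ∧ H ≤ PGammaL K ∧ PermIso G H

/-- The list of the finite `2`-transitive permutation groups. -/
inductive Listed {X : Type} [Fintype X] [DecidableEq X] (G : Subgroup (Perm X)) : Prop
  /-- alternating and symmetric groups -/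
  | alt (h : alternatingGroup X ≤ G)
  /-- affine groups of odd degree -/
  | affineOdd (h : HasSol G) (h' : Odd (Nat.card X))
  /-- affine groups with a point stabiliser with a nontrivial soluble normal subgroup -/
  | affineSol (h : HasSol G) (o : X) (h' : HasSol (stabilizer G o))
  /-- semilinear affine groups -/
  | affineSemi (K V : Type) [Field K] [Finite K] [AddCommGroup V] [Module K V] [Finite V]
      (H : Subgroup (Perm V)) (h2 : 2 < Nat.card K) (hK : Nat.card K < Nat.card V)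
      (hH : SemiLin K H) (h : PermIso G H)
  /-- affine groups of type (a) -/
  | affineA (h : AffA G)
  /-- `PSL(2, q) ≤ G ≤ PΓL(2, q)` -/
  | line (h : PType G)
  /-- `PSL(d, q) ≤ G ≤ PΓL(d, q)`, `d ≥ 3`, `A₇` of degree `15`, `PSU(3, q) ≤ G ≤ PΓU(3, q)` -/
  | collineation (K V : Type) [Field K] [AddCommGroup V] [Module K V] (Y : Set (ℙ K V))
      (H : Subgroup (Perm Y)) (hH : Collin H) (h : PermIso G H)
  /-- the Ree groups -/
  | ree (h : ReeType G)
  /-- the Suzuki groups -/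
  | suzuki (h : SzType G)
  /-- `Sp(2m, 2)`, `m ≥ 3` -/
  | symplectic (h : SpType G)
  /-- the Higman-Sims group -/
  | hs (h : PermIso G HS)
  /-- the Conway group `Co₃` -/
  | co3 (h : PermIso G Co3)
  /-- `PSL(2, 11)` of degree `11` -/
  | psl11 (h : PermIso G PSL11)
  /-- `M₁₁` of degree `11` -/
  | m11 (h : PermIso G M11e)
  /-- `M₁₁` of degree `12` -/
  | m11' (h : PermIso G M11)
  /-- `M₁₂` -/
  | m12 (h : PermIso G M12)
  /-- `M₂₂` -/
  | m22 (h : PermIso G M22)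
  /-- `M₂₂ : 2` -/
  | m22' (h : PermIso G M22d2)
  /-- `M₂₃` -/
  | m23 (h : PermIso G M23)
  /-- `M₂₄` -/
  | m24 (h : PermIso G M24)

/-- The exceptions of type (a) among the `t`-transitive groups. -/
def AnsA {X : Type} [Fintype X] [DecidableEq X] (G : Subgroup (Perm X)) (t : ℕ) : Prop :=
  (alternatingGroup X ≤ G ∧ Nat.card X = 2 * t) ∨
  (t = 2 ∧ 4 ≤ Nat.card X ∧ ((HasSol G ∧ (Nat.card X - 1).Prime) ∨ AffA G)) ∨
  (t = 2 ∧ SpType G) ∨
  (t = 2 ∧ ∃ (K : Type) (_ : Field K) (_ : Finite K) (_ : DecidableEq K)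
    (H : Subgroup (Perm (OnePoint K))), PSL K ≤ H ∧ H ≤ PGammaL K ∧ PermIso G H ∧
    (Nat.card K = 3 ∨ Nat.card K = 5 ∨ (Nat.card K = 7 ∧ H = PSL K) ∨
      (Nat.card K = 9 ∧ H ≤ PSigmaL K) ∨ (Nat.card K = 11 ∧ H = PSL K))) ∨
  (t = 3 ∧ PType G ∧ 6 ≤ Nat.card X ∧ (Nat.card X - 2).Prime) ∨
  (t = 3 ∧ PermIso G M11) ∨
  (t = 4 ∧ PermIso G M24)

/-- The exceptions of type (b) among the `t`-transitive groups. -/
def AnsB {X : Type} (G : Subgroup (Perm X)) (t : ℕ) : Prop := t = 2 ∧ SzType G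

/-- The exceptions of type (c) which are not of type (b), among the `t`-transitive groups. -/
def AnsC {X : Type} (G : Subgroup (Perm X)) (t : ℕ) : Prop :=
  (t = 2 ∧ Group.IsSolvable G ∧ (((Nat.card X).Prime ∧ 5 ≤ Nat.card X) ∨
    ∃ d : ℕ, d.Prime ∧ Nat.card X = 2 ^ d ∧ ¬ (Nat.card X - 1).Prime)) ∨
  (t = 3 ∧ PType G ∧ 6 ≤ Nat.card X ∧ ¬ (Nat.card X - 2).Prime ∧
    ((Nat.card X - 1).Prime ∨ ∃ d : ℕ, d.Prime ∧ Nat.card X - 1 = 2 ^ d))

end Pool.Agent.Helper37.PF
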