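import Pool.Agent.Helper37.PF.Fam
import Pool.Agent.Helper37.Prim.M11Defs

/-!
# Three generalisations of primitivity (MP_13dc8a_al): `M₁₁` of degree `12` is not `4`-transitive
-/

namespace Pool.Agent.Helper37.PF.FM11

open MulAction Equiv
open Pool.Agent.Helper37.Prim

/-- The blocks, encoded by bit masks. -/
def blocks : List ℕ :=
  [663, 2343, 3099, 235, 1859, 2637, 1421, 1141, 825, 2513, 3745, 350, 1582, 3270, 2954, 2674,
  1458, 2236, 3860, 996, 1752, 3432]

def t0 : ℕ := 6984474631415039004997400924165

def t1 : ℕ := 5718054722319738999557555490309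

theorem check : checkFam 12 6 blocks [t0, t1] = true := by decide +kernel

theorem not_trans : ¬ IsMultiplyPretransitive M11 (Fin 12) 4 := by
  refine not_trans_of_fam (Ts := [t0, t1]) ?_ check (x := ![0, 1, 2, 4])
    (y := ![0, 1, 2, 3]) (by decide) (by decide) ?_ ?_
  · rintro s (rfl | rfl)
    · exact ⟨t0, by simp, by unfold IsT; decide +kernel⟩
    · exact ⟨t1, by simp, by unfold IsT; decide +kernel⟩
  · exact ⟨663, by decide +kernel, by decide +kernel⟩
  · decide +kernel

end Pool.Agent.Helper37.PF.FM11
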