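import Pool.Agent.Helper37.PF.Fam
import Pool.Agent.Helper37.PF.CM11e

/-!
# Three generalisations of primitivity (MP_13dc8a_al): the Steiner system `S(4, 5, 11)`
-/

namespace Pool.Agent.Helper37.PF.FM11e

open MulAction Equiv
open Pool.Agent.Helper37.Prim

/-- The blocks, encoded by bit masks. -/
def blocks : List ℕ :=
  [527, 151, 103, 1287, 283, 171, 1099, 1075, 595, 803, 451, 1667, 61, 333, 1165, 1109, 789, 421,
  1573, 709, 217, 1561, 617, 1321, 905, 369, 689, 1425, 1249, 1857, 1054, 302, 206, 566, 342,
  1190, 1606, 902, 122, 666, 1578, 842, 1418, 434, 1234, 1810, 738, 1378, 604, 412, 1132, 684,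
  1804, 244, 1332, 1684, 868, 1476, 1208, 824, 1368, 488, 1736, 1648, 976, 1952]

def t0 : ℕ := 24221091603926945073202177

def t1 : ℕ := 8675289479113435871580783104

theorem check : checkFam 11 5 blocks [t0, t1] = true := by decide +kernel

theorem not_steiner : ¬ SteinerPrimitive M11e (Fin 11) 4 := by
  refine not_steiner_of_fam (Ts := [t0, t1]) ?_ check (by norm_num) (by norm_num)
    CM11e.trans (by decide +kernel)
  rintro s (rfl | rfl)
  · exact ⟨t0, by simp, isT_permL (by decide +kernel)⟩
  · exact ⟨t1, by simp, isT_permL (by decide +kernel)⟩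

end Pool.Agent.Helper37.PF.FM11e
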