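import Pool.Agent.Helper37.PF.Fam
import Pool.Agent.Helper37.PF.CM12

/-!
# Three generalisations of primitivity (MP_13dc8a_al): the Steiner system `S(5, 6, 12)`
-/

namespace Pool.Agent.Helper37.PF.FM12

open MulAction Equiv
open Pool.Agent.Helper37.Prim

/-- The blocks, encoded by bit masks. -/
def blocks : List ℕ :=
  [95, 1071, 399, 2575, 311, 2199, 1559, 2151, 679, 1223, 839, 3335, 571, 1179, 2331, 363, 2219,
  715, 3147, 1803, 243, 3123, 1363, 2643, 915, 1635, 1443, 2851, 2499, 3715, 2109, 669, 1309, 237,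
  813, 2381, 1613, 3213, 629, 1205, 469, 3157, 2837, 1381, 2469, 3621, 2757, 1925, 1145, 441,
  2265, 857, 3609, 2665, 1705, 3369, 1481, 2953, 2417, 2737, 1841, 1745, 3473, 993, 3297, 3905,
  190, 798, 3102, 622, 2350, 2254, 1358, 1678, 1142, 2614, 726, 2390, 1430, 486, 3238, 1830, 3654,
  2950, 2170, 1338, 474, 1626, 2714, 1258, 938, 3626, 2890, 3466, 882, 2482, 1714, 3282, 3858,
  2786, 3426, 1986, 380, 1596, 1244, 2652, 2460, 3180, 1452, 2732, 972, 3852, 2292, 948, 3380,
  1876, 3732, 1764, 2916, 3524, 760, 3256, 2872, 3416, 1944, 2536, 1896, 3784, 1520, 3696, 3024,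
  4000]

def t0 : ℕ := 6972102522346865635176940831745

def t1 : ℕ := 1252466066419003920166949899

def t2 : ℕ := 6980753590734375144103448412672

theorem check : checkFam 12 6 blocks [t0, t1, t2] = true := by decide +kernel

theorem not_steiner : ¬ SteinerPrimitive M12 (Fin 12) 5 := by
  refine not_steiner_of_fam (Ts := [t0, t1, t2]) ?_ check (by norm_num) (by norm_num)
    CM12.trans (by decide +kernel)
  rintro s (rfl | rfl | rfl)
  · exact ⟨t0, by simp, isT_permL (by decide +kernel)⟩
  · exact ⟨t1, by simp, isT_permL (by decide +kernel)⟩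
  · exact ⟨t2, by simp, isT_permL (by decide +kernel)⟩

end Pool.Agent.Helper37.PF.FM12
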