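import Pool.Agent.Helper37.PF.Fam
import Pool.Agent.Helper37.PF.CM22

/-!
# Three generalisations of primitivity (MP_13dc8a_al): the Steiner system `S(3, 6, 22)`
-/

namespace Pool.Agent.Helper37.PF.FM22

open MulAction Equiv
open Pool.Agent.Helper37.Prim

/-- The blocks, encoded by bit masks. -/
def blocks : List ℕ :=
  [73751, 2134027, 1310819, 134275, 541443, 787469, 4773, 164165, 3164165, 16601, 67881, 1188361,
  2752561, 1053969, 297489, 58401, 2164289, 538689, 2367873, 1671297, 479233, 1048974, 559142,
  21574, 2490886, 1594, 720970, 288778, 2099538, 790674, 1228818, 2179234, 143650, 41666, 361730,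
  1120770, 3679234, 137244, 2105452, 115212, 278836, 1573460, 2131092, 1246244, 329924, 680068,
  12036, 2691332, 1355780, 565528, 3473432, 426152, 1593384, 267080, 1084488, 2624136, 78984,
  2245896, 102512, 1058992, 402512, 197520, 2126352, 609296, 525792, 150112, 3179296, 860704,
  2366496, 3281088, 1139008, 2932800, 55680, 1328768, 1968384, 693760, 2336768]

def t0 : ℕ := 13340403638278329661714704855742030923001018816449560448531

def t1 : ℕ := 16489706007781910271475528504662063892346101385846374531073

def t2 : ℕ := 15724936780083991906757525475883973393201760359463475485715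

theorem check : checkFam 22 6 blocks [t0, t1, t2] = true := by decide +kernel

theorem not_steiner : ¬ SteinerPrimitive M22d2 (Fin 22) 3 := by
  refine not_steiner_of_fam (Ts := [t0, t1, t2]) ?_ check (by norm_num) (by norm_num)
    (pretransitive_mono (Subgroup.closure_mono (by
      rintro s (rfl | rfl)
      · exact Or.inl rfl
      · exact Or.inr (Or.inl rfl))) CM22.trans) (by decide +kernel)
  rintro s (rfl | rfl | rfl)
  · exact ⟨t0, by simp, isT_permL (by decide +kernel)⟩
  · exact ⟨t1, by simp, isT_permL (by decide +kernel)⟩
  · exact ⟨t2, by simp, isT_permL (by decide +kernel)⟩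

end Pool.Agent.Helper37.PF.FM22
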