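import Pool.Agent.Helper37.PF.Fam
import Pool.Agent.Helper37.PF.CM23

/-!
# Three generalisations of primitivity (MP_13dc8a_al): the Steiner system `S(4, 7, 23)`
-/

namespace Pool.Agent.Helper37.PF.FM23

open MulAction Equiv
open Pool.Agent.Helper37.Prim

/-- The blocks, encoded by bit masks. -/
def blocks : List ℕ :=
  [147503, 4268055, 2621639, 268551, 1082887, 1574939, 9547, 328331, 6328331, 33203, 135763,
  2376723, 5505123, 2107939, 594979, 116803, 4328579, 1077379, 4735747, 3342595, 958467, 2097949,
  1118285, 43149, 4981773, 3189, 1441941, 577557, 4199077, 1581349, 2457637, 4358469, 287301,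
  83333, 723461, 2241541, 7358469, 274489, 4210905, 230425, 557673, 3146921, 4262185, 2492489,
  659849, 1360137, 24073, 5382665, 2711561, 1131057, 6946865, 852305, 3186769, 534161, 2168977,
  5248273, 157969, 4491793, 205025, 2117985, 805025, 395041, 4252705, 1218593, 1051585, 300225,
  6358593, 1721409, 4732993, 6562177, 2278017, 5865601, 111361, 2657537, 3936769, 1387521,
  4673537, 295006, 5243278, 537102, 2165774, 3149878, 19094, 656662, 66406, 271526, 4753446,
  4215878, 1189958, 233606, 2154758, 6685190, 1916934, 4195898, 2236570, 86298, 6378, 2883882,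
  1155114, 3162698, 4915274, 574602, 166666, 1446922, 4483082, 548978, 460850, 1115346, 6293842,
  4984978, 1319698, 2720274, 48146, 5423122, 2262114, 1704610, 6373538, 1068322, 4337954, 315938,
  410050, 4235970, 1610050, 790082, 2437186, 2103170, 600450, 3442818, 4556034, 222722, 5315074,
  7873538, 2775042, 590012, 1074204, 4331548, 6299756, 38188, 1313324, 132812, 543052, 2379916,
  467212, 4309516, 3833868, 4473140, 172596, 12756, 5767764, 2310228, 6325396, 1149204, 333332,
  2893844, 1097956, 921700, 2230692, 2639396, 5440548, 96292, 4524228, 3409220, 2136644, 631876,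
  820100, 3220100, 1580164, 4874372, 4206340, 1200900, 6885636, 445444, 5550084, 1180024, 2148408,
  76376, 2626648, 265624, 1086104, 4759832, 934424, 7667736, 345192, 25512, 4620456, 2298408,
  666664, 5787688, 2195912, 1843400, 4461384, 5278792, 192584, 6818440, 4273288, 1263752, 1640200,
  6440200, 3160328, 2401800, 890888, 2360048, 4296816, 152752, 5253296, 531248, 2172208, 1868848,
  690384, 51024, 4596816, 1333328, 4391824, 3686800, 385168, 2527504, 3280400, 6320656, 4803600,
  1781776, 4720096, 305504, 1062496, 4344416, 3737696, 1380768, 102048, 2666656, 7373600, 770336,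
  5055008, 6560800, 3563552, 611008, 2124992, 7475392, 2761536, 204096, 5333312, 1540672, 7127104,
  1222016, 4249984, 5523072, 408192, 3081344, 2444032, 816384, 6162688, 4888064, 1632768, 3265536,
  6531072]

def t0 : ℕ := 17294272153058648756100807556656692505535828076937870050305

def t1 : ℕ := 5639991300073269011334932257403787428267196182640570574316544

theorem check : checkFam 23 7 blocks [t0, t1] = true := by decide +kernel

theorem not_steiner : ¬ SteinerPrimitive M23 (Fin 23) 4 := by
  refine not_steiner_of_fam (Ts := [t0, t1]) ?_ check (by norm_num) (by norm_num)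
    CM23.trans (by decide +kernel)
  rintro s (rfl | rfl)
  · exact ⟨t0, by simp, isT_permL (by decide +kernel)⟩
  · exact ⟨t1, by simp, isT_permL (by decide +kernel)⟩

end Pool.Agent.Helper37.PF.FM23
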