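import Pool.Agent.Helper37.PF.Syn
import Pool.Agent.Helper37.PF.MathieuDefs

/-!
# Three generalisations of primitivity (MP_13dc8a_al): `M₂₄` is not `4`-set primitive
-/

namespace Pool.Agent.Helper37.PF.SM24

open MulAction Equiv
open Pool.Agent.Helper37.Prim

/-- The columns of a check matrix of the binary Golay code. -/
def col : Fin 24 → Fin 12 → ZMod 2 :=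
  ![![1, 0, 1, 0, 1, 1, 1, 0, 0, 0, 1, 1],
    ![1, 1, 1, 1, 1, 0, 0, 1, 0, 0, 1, 0],
    ![1, 1, 0, 1, 0, 0, 1, 0, 1, 0, 1, 1],
    ![1, 1, 0, 0, 0, 1, 1, 1, 0, 1, 1, 0],
    ![1, 1, 0, 0, 1, 1, 0, 1, 1, 0, 0, 1],
    ![0, 1, 1, 0, 0, 1, 1, 0, 1, 1, 0, 1],
    ![0, 0, 1, 1, 0, 0, 1, 1, 0, 1, 1, 1],
    ![1, 0, 1, 1, 0, 1, 1, 1, 1, 0, 0, 0],
    ![0, 1, 0, 1, 1, 0, 1, 1, 1, 1, 0, 0],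
    ![0, 0, 1, 0, 1, 1, 0, 1, 1, 1, 1, 0],
    ![1, 0, 1, 1, 1, 0, 0, 0, 1, 1, 0, 1],
    ![0, 1, 0, 1, 1, 1, 0, 0, 0, 1, 1, 1],
    ![1, 0, 0, 0, 0, 0, 0, 0, 0, 0, 0, 0],
    ![0, 1, 0, 0, 0, 0, 0, 0, 0, 0, 0, 0],
    ![0, 0, 1, 0, 0, 0, 0, 0, 0, 0, 0, 0],
    ![0, 0, 0, 1, 0, 0, 0, 0, 0, 0, 0, 0],
    ![0, 0, 0, 0, 1, 0, 0, 0, 0, 0, 0, 0],
    ![0, 0, 0, 0, 0, 1, 0, 0, 0, 0, 0, 0],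
    ![0, 0, 0, 0, 0, 0, 1, 0, 0, 0, 0, 0],
    ![0, 0, 0, 0, 0, 0, 0, 1, 0, 0, 0, 0],
    ![0, 0, 0, 0, 0, 0, 0, 0, 1, 0, 0, 0],
    ![0, 0, 0, 0, 0, 0, 0, 0, 0, 1, 0, 0],
    ![0, 0, 0, 0, 0, 0, 0, 0, 0, 0, 1, 0],
    ![0, 0, 0, 0, 0, 0, 0, 0, 0, 0, 0, 1]]

def a0 : Matrix (Fin 12) (Fin 12) (ZMod 2) :=
  ![![0, 0, 0, 0, 0, 0, 0, 0, 0, 0, 1, 0],
    ![1, 0, 0, 0, 0, 0, 0, 0, 0, 0, 0, 0],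
    ![0, 1, 0, 0, 0, 0, 0, 0, 0, 0, 1, 0],
    ![0, 0, 1, 0, 0, 0, 0, 0, 0, 0, 0, 0],
    ![0, 0, 0, 1, 0, 0, 0, 0, 0, 0, 1, 0],
    ![0, 0, 0, 0, 1, 0, 0, 0, 0, 0, 1, 0],
    ![0, 0, 0, 0, 0, 1, 0, 0, 0, 0, 1, 0],
    ![0, 0, 0, 0, 0, 0, 1, 0, 0, 0, 0, 0],
    ![0, 0, 0, 0, 0, 0, 0, 1, 0, 0, 0, 0],
    ![0, 0, 0, 0, 0, 0, 0, 0, 1, 0, 0, 0],
    ![0, 0, 0, 0, 0, 0, 0, 0, 0, 1, 1, 0],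
    ![0, 0, 0, 0, 0, 0, 0, 0, 0, 0, 1, 1]]

def b0 : Matrix (Fin 12) (Fin 12) (ZMod 2) :=
  ![![0, 1, 0, 0, 0, 0, 0, 0, 0, 0, 0, 0],
    ![1, 0, 1, 0, 0, 0, 0, 0, 0, 0, 0, 0],
    ![0, 0, 0, 1, 0, 0, 0, 0, 0, 0, 0, 0],
    ![1, 0, 0, 0, 1, 0, 0, 0, 0, 0, 0, 0],
    ![1, 0, 0, 0, 0, 1, 0, 0, 0, 0, 0, 0],
    ![1, 0, 0, 0, 0, 0, 1, 0, 0, 0, 0, 0],
    ![0, 0, 0, 0, 0, 0, 0, 1, 0, 0, 0, 0],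
    ![0, 0, 0, 0, 0, 0, 0, 0, 1, 0, 0, 0],
    ![0, 0, 0, 0, 0, 0, 0, 0, 0, 1, 0, 0],
    ![1, 0, 0, 0, 0, 0, 0, 0, 0, 0, 1, 0],
    ![1, 0, 0, 0, 0, 0, 0, 0, 0, 0, 0, 0],
    ![1, 0, 0, 0, 0, 0, 0, 0, 0, 0, 0, 1]]

def a1 : Matrix (Fin 12) (Fin 12) (ZMod 2) :=
  ![![0, 1, 0, 1, 1, 1, 0, 0, 0, 1, 1, 1],
    ![0, 0, 0, 1, 0, 1, 0, 0, 1, 0, 1, 0],
    ![0, 1, 0, 0, 1, 0, 1, 1, 0, 0, 1, 1],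
    ![0, 1, 0, 0, 1, 0, 0, 1, 1, 0, 1, 0],
    ![0, 0, 0, 0, 1, 1, 0, 0, 1, 0, 1, 1],
    ![0, 1, 0, 1, 0, 1, 0, 0, 0, 0, 0, 1],
    ![0, 1, 1, 1, 0, 0, 0, 1, 1, 0, 0, 1],
    ![0, 1, 0, 1, 0, 1, 0, 1, 1, 0, 1, 0],
    ![0, 1, 0, 0, 1, 1, 0, 0, 1, 0, 0, 0],
    ![1, 0, 0, 1, 1, 0, 0, 1, 1, 0, 0, 0],
    ![0, 0, 0, 1, 0, 0, 0, 1, 0, 0, 1, 1],
    ![0, 0, 0, 0, 1, 1, 0, 1, 0, 0, 0, 1]]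

def b1 : Matrix (Fin 12) (Fin 12) (ZMod 2) :=
  ![![0, 1, 0, 1, 1, 1, 0, 0, 0, 1, 1, 1],
    ![0, 0, 0, 1, 0, 1, 0, 0, 1, 0, 1, 0],
    ![0, 1, 0, 0, 1, 0, 1, 1, 0, 0, 1, 1],
    ![0, 1, 0, 0, 1, 0, 0, 1, 1, 0, 1, 0],
    ![0, 0, 0, 0, 1, 1, 0, 0, 1, 0, 1, 1],
    ![0, 1, 0, 1, 0, 1, 0, 0, 0, 0, 0, 1],
    ![0, 1, 1, 1, 0, 0, 0, 1, 1, 0, 0, 1],
    ![0, 1, 0, 1, 0, 1, 0, 1, 1, 0, 1, 0],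
    ![0, 1, 0, 0, 1, 1, 0, 0, 1, 0, 0, 0],
    ![1, 0, 0, 1, 1, 0, 0, 1, 1, 0, 0, 0],
    ![0, 0, 0, 1, 0, 0, 0, 1, 0, 0, 1, 1],
    ![0, 0, 0, 0, 1, 1, 0, 1, 0, 0, 0, 1]]

def a2 : Matrix (Fin 12) (Fin 12) (ZMod 2) :=
  ![![0, 0, 0, 0, 0, 0, 1, 0, 1, 0, 0, 0],
    ![1, 0, 0, 0, 1, 1, 1, 0, 0, 0, 0, 0],
    ![0, 1, 0, 0, 0, 0, 0, 0, 1, 0, 1, 0],
    ![1, 0, 0, 1, 0, 1, 0, 0, 1, 0, 0, 0],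
    ![1, 1, 0, 0, 0, 1, 1, 0, 1, 0, 0, 0],
    ![0, 1, 1, 0, 0, 1, 1, 0, 0, 0, 0, 0],
    ![1, 0, 0, 0, 0, 0, 0, 0, 0, 0, 0, 0],
    ![1, 1, 0, 0, 0, 0, 1, 0, 0, 0, 0, 0],
    ![1, 1, 0, 0, 0, 0, 1, 0, 1, 1, 0, 0],
    ![1, 1, 0, 0, 0, 1, 0, 0, 1, 0, 0, 0],
    ![0, 1, 0, 0, 0, 1, 0, 1, 0, 0, 0, 0],
    ![0, 0, 0, 0, 0, 1, 1, 0, 1, 0, 0, 1]]

def b2 : Matrix (Fin 12) (Fin 12) (ZMod 2) :=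
  ![![0, 0, 0, 0, 0, 0, 1, 0, 0, 0, 0, 0],
    ![0, 0, 0, 0, 1, 0, 1, 1, 0, 1, 0, 0],
    ![1, 0, 0, 0, 0, 1, 1, 0, 0, 1, 0, 0],
    ![0, 0, 0, 1, 1, 0, 1, 1, 0, 0, 0, 0],
    ![1, 1, 0, 0, 1, 0, 1, 1, 0, 0, 0, 0],
    ![1, 0, 0, 0, 0, 0, 0, 1, 0, 1, 0, 0],
    ![0, 0, 0, 0, 1, 0, 0, 0, 0, 1, 0, 0],
    ![1, 0, 0, 0, 1, 0, 1, 0, 0, 0, 1, 0],
    ![1, 0, 0, 0, 1, 0, 0, 0, 0, 1, 0, 0],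
    ![1, 0, 0, 0, 1, 0, 0, 1, 1, 1, 0, 0],
    ![1, 0, 1, 0, 0, 0, 1, 1, 0, 0, 0, 0],
    ![0, 0, 0, 0, 0, 0, 0, 1, 0, 1, 0, 1]]

theorem not_tset : ¬ IsPreprimitive M24 (Set.powersetCard (Fin 24) 4) := by
  refine not_tset_of_code col ?_ (s₁ := {0, 1, 2, 3}) (s₂ := {4, 7, 10, 12}) (s₃ := {0, 1, 2, 4}) rfl rfl rfl
    (by decide) (by decide +kernel) (by decide +kernel)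
  rintro s (rfl | rfl | rfl)
  · exact ⟨a0, b0, by decide +kernel, by decide +kernel⟩
  · exact ⟨a1, b1, by decide +kernel, by decide +kernel⟩
  · exact ⟨a2, b2, by decide +kernel, by decide +kernel⟩

end Pool.Agent.Helper37.PF.SM24
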