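import Pool.Agent.Helper37.PF.CodeSteiner
import Pool.Agent.Helper37.PF.SM24
import Pool.Agent.Helper37.PF.CM24

/-!
# Three generalisations of primitivity (MP_13dc8a_al): the Steiner system `S(5, 8, 24)`
-/

namespace Pool.Agent.Helper37.PF.FM24

open MulAction Equiv
open Pool.Agent.Helper37.Prim

/-- The sum of the columns `0, ..., 4`. -/
def c0 (j : Fin 12) : ZMod 2 := SM24.col 0 j + SM24.col 1 j + SM24.col 2 j + SM24.col 3 j + SM24.col 4 j

set_option maxRecDepth 20000 in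
theorem check : ∀ x y z : Fin 24, 4 < x → x < y → y < z →
    (∀ j : Fin 12, c0 j + SM24.col x j + SM24.col y j + SM24.col z j = 0) →
    x = 7 ∧ y = 10 ∧ z = 12 := by decide +kernel

theorem check' (x y z : Fin 24) (hx : 4 < x) (hy : 4 < y) (hz : 4 < z) (hxy : x ≠ y) (hxz : x ≠ z)
    (hyz : y ≠ z) (h : ∀ j : Fin 12, c0 j + SM24.col x j + SM24.col y j + SM24.col z j = 0) :
    ({x, y, z} : Finset (Fin 24)) = {7, 10, 12} := by
  rcases lt_or_gt_of_ne hxy with h1 | h1 <;> rcases lt_or_gt_of_ne hyz with h2 | h2 <;>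
    rcases lt_or_gt_of_ne hxz with h3 | h3
  · obtain ⟨rfl, rfl, rfl⟩ := check x y z hx h1 h2 h
    rfl
  · exact absurd (h1.trans h2) (not_lt.2 h3.le)
  · obtain ⟨rfl, rfl, rfl⟩ := check x z y hx h3 h2 (fun j => by rw [← h j]; ring)
    decide
  · obtain ⟨rfl, rfl, rfl⟩ := check z x y hz h3 h1 (fun j => by rw [← h j]; ring)
    decide
  · obtain ⟨rfl, rfl, rfl⟩ := check y x z hy h1 h3 (fun j => by rw [← h j]; ring)
    decide
  · obtain ⟨rfl, rfl, rfl⟩ := check y z x hy h2 h3 (fun j => by rw [← h j]; ring)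
    decide
  · exact absurd (h2.trans h1) (not_lt.2 h3.le)
  · obtain ⟨rfl, rfl, rfl⟩ := check z y x hz h2 h1 (fun j => by rw [← h j]; ring)
    decide

theorem base_unique : ∃! b : Finset (Fin 24), (b.card = 8 ∧ ∑ x ∈ b, SM24.col x = 0) ∧
    ({0, 1, 2, 3, 4} : Finset (Fin 24)) ⊆ b := by
  refine ⟨{0, 1, 2, 3, 4, 7, 10, 12}, ⟨⟨by decide, by decide +kernel⟩, by decide⟩, ?_⟩
  rintro b ⟨⟨hb, hs⟩, hab⟩
  have h1 : (b \ {0, 1, 2, 3, 4}).card = 3 := by
    rw [Finset.card_sdiff_of_subset hab, hb]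
    rfl
  obtain ⟨x, y, z, hxy, hxz, hyz, hxyz⟩ := Finset.card_eq_three.1 h1
  have hbe : b = {0, 1, 2, 3, 4} ∪ {x, y, z} := by
    rw [← hxyz, Finset.union_sdiff_of_subset hab]
  have hdis : Disjoint ({0, 1, 2, 3, 4} : Finset (Fin 24)) {x, y, z} := by
    rw [← hxyz]
    exact Finset.disjoint_sdiff
  have hlt : ∀ w ∈ ({x, y, z} : Finset (Fin 24)), 4 < w := by
    intro w hw
    by_contra h2
    have h3 : ∀ w : Fin 24, ¬ 4 < w → w ∈ ({0, 1, 2, 3, 4} : Finset (Fin 24)) := by decide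
    exact Finset.disjoint_left.1 hdis (h3 w h2) hw
  have h2 : ∀ j : Fin 12, c0 j + SM24.col x j + SM24.col y j + SM24.col z j = 0 := by
    intro j
    have h3 := congrFun hs j
    have e1 : ∑ x ∈ ({0, 1, 2, 3, 4} : Finset (Fin 24)), SM24.col x =
        SM24.col 0 + (SM24.col 1 + (SM24.col 2 + (SM24.col 3 + SM24.col 4))) := by
      rw [Finset.sum_insert (by decide), Finset.sum_insert (by decide),
        Finset.sum_insert (by decide), Finset.sum_pair (by decide)]
    have e2 : ∑ w ∈ ({x, y, z} : Finset (Fin 24)), SM24.col w =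
        SM24.col x + (SM24.col y + SM24.col z) := by
      rw [Finset.sum_insert (by simp [hxy, hxz]), Finset.sum_pair hyz]
    rw [hbe, Finset.sum_union hdis, e1, e2] at h3
    simp only [Pi.add_apply, Pi.zero_apply] at h3
    rw [← h3]
    unfold c0
    ring
  rw [hbe, check' x y z (hlt x (by simp)) (hlt y (by simp)) (hlt z (by simp)) hxy hxz hyz h2]
  decide

theorem not_steiner : ¬ SteinerPrimitive M24 (Fin 24) 5 := by
  refine not_steiner_of_code SM24.col ?_ (k := 8) (by norm_num) (by norm_num) CM24.trans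
    {0, 1, 2, 3, 4} rfl base_unique
  rintro s (rfl | rfl | rfl)
  · exact ⟨SM24.a0, SM24.b0, by decide +kernel, by decide +kernel⟩
  · exact ⟨SM24.a1, SM24.b1, by decide +kernel, by decide +kernel⟩
  · exact ⟨SM24.a2, SM24.b2, by decide +kernel, by decide +kernel⟩

end Pool.Agent.Helper37.PF.FM24
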