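import Pool.Agent.Helper37.PF.Fam
import Pool.Agent.Helper37.PF.MathieuDefs

/-!
# Three generalisations of primitivity (MP_13dc8a_al): `PSL(2, 11)` of degree `11` is not `3`-transitive
-/

namespace Pool.Agent.Helper37.PF.FPsl11

open MulAction Equiv
open Pool.Agent.Helper37.Prim

/-- The blocks, encoded by bit masks. -/
def blocks : List ℕ :=
  [570, 1140, 233, 466, 932, 1864, 1681, 1315, 583, 1166, 285]

def t0 : ℕ := 24221091603926945073202177

def t1 : ℕ := 11165667241197286461136962048

theorem check : checkFam 11 5 blocks [t0, t1] = true := by decide +kernel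

theorem not_trans : ¬ IsMultiplyPretransitive PSL11 (Fin 11) 3 := by
  refine not_trans_of_fam (Ts := [t0, t1]) ?_ check (x := ![0, 1, 2])
    (y := ![0, 1, 3]) (by decide) (by decide) ?_ ?_
  · rintro s (rfl | rfl)
    · exact ⟨t0, by simp, isT_permL (by decide +kernel)⟩
    · exact ⟨t1, by simp, isT_permL (by decide +kernel)⟩
  · exact ⟨583, by decide +kernel, by decide +kernel⟩
  · decide +kernel

end Pool.Agent.Helper37.PF.FPsl11
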