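import Pool.Agent.Helper37.Prim.Cert2

/-!
# PF-M4: certificates for invariant families of subsets (MP_13dc8a_al)

Tables (`tab`, `IsT`, `InG`) are defined in Prim/Cert.lean. Subsets of `Fin n` are encoded by
natural numbers (the bits).

PROOF OF `fam_invariant`. Let `𝓑 = {blk n m | m ∈ L}`, a finite set of finsets, and let
`P g` be `g • 𝓑 = 𝓑` (image under `g • ·`). For `s ∈ S` with table `T ∈ Ts` and `m ∈ L` put
`m' = imgMask n T m`; the check says that `m' ∈ L` and that `m'.testBit (tab T x) = m.testBit x` for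
all `x < n`, so `s • blk n m = blk n m'` (`y ∈ s • blk n m` iff `s⁻¹ y ∈ blk n m`; write `y = s x`).
So `s • 𝓑 ⊆ 𝓑`, hence `s • 𝓑 = 𝓑` because `𝓑` is finite and `s • ·` is injective. `P` is closed
under products and inverses, so `P g` for all `g ∈ G = closure S` (`Subgroup.closure_induction`).

PROOF OF `not_steiner_of_fam`. The blocks are the `blk n m`, `m ∈ L`. They have `k` elements by
`checkFam`. They are permuted by `G` by `fam_invariant`. Let `s` be a `t`-subset and
`A = {0, ..., t - 1}`. By `t`-transitivity there is `g ∈ G` with `g • A = s`. By `hbase`, `A` lies in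
exactly one block. If `b`, `b'` are blocks which contain `s` then `g⁻¹ • b`, `g⁻¹ • b'` are blocks
which contain `A`, so they are equal; and if `b₀` is the block containing `A` then `g • b₀` is a
block containing `s`. (`blk n m` contains `A` iff `(List.range t).all fun x => m.testBit x`.)

PROOF OF `not_trans_of_fam`. An element `g` with `g x_i = y_i` for the embeddings `x`, `y` would
map the block containing all `x_i` to a block containing all `y_i`.
-/

namespace Pool.Agent.Helper37.PF

open MulAction Equiv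
open scoped Pointwise
open Pool.Agent.Helper37.Prim

/-- The subset of `Fin n` encoded by the number `m`. -/
def blk (n m : ℕ) : Finset (Fin n) := Finset.univ.filter fun x => m.testBit x = true

/-- The image of the subset `m` under the table `T`. -/
def imgMask (n T m : ℕ) : ℕ :=
  (List.range n).foldl (fun a x => if m.testBit x then a ||| (1 <<< tab T x) else a) 0

/-- The check for invariant families of `k`-subsets. -/
def checkFam (n k : ℕ) (L Ts : List ℕ) : Bool :=
  (L.all fun m => (List.range n).countP (fun x => m.testBit x) == k) &&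
  Ts.all fun T => L.all fun m => L.contains (imgMask n T m) &&
    (List.range n).all fun x => (imgMask n T m).testBit (tab T x) == m.testBit x

private theorem mem_blk {n m : ℕ} {x : Fin n} : x ∈ blk n m ↔ m.testBit x = true := by
  simp [blk]

private theorem mem_smul_iff {n : ℕ} (g : Perm (Fin n)) (b : Finset (Fin n)) (y : Fin n) :
    y ∈ g • b ↔ g⁻¹ y ∈ b := by
  rw [Finset.mem_smul_finset]
  constructor
  · rintro ⟨z, hz, rfl⟩
    rw [Perm.smul_def]
    have : g⁻¹ (g z) = z := g.symm_apply_apply z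
    rwa [this]
  · intro h
    refine ⟨g⁻¹ y, h, ?_⟩
    rw [Perm.smul_def]
    exact g.apply_symm_apply y

theorem fam_invariant {n k : ℕ} {S : Set (Perm (Fin n))} {L Ts : List ℕ}
    (hS : ∀ s ∈ S, ∃ T ∈ Ts, IsT s T) (h : checkFam n k L Ts = true)
    {g : Perm (Fin n)} (hg : g ∈ Subgroup.closure S) {m : ℕ} (hm : m ∈ L) :
    ∃ m' ∈ L, g • blk n m = blk n m' := by
  classical
  unfold checkFam at h
  rw [Bool.and_eq_true] at h
  obtain ⟨-, h2⟩ := h
  suffices H : ∀ m ∈ L, ∃ m' ∈ L, g • blk n m = blk n m' from H m hm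
  clear hm m
  induction hg using Subgroup.closure_induction with
  | mem s hs =>
    intro m hm
    obtain ⟨T, hT, hsT⟩ := hS s hs
    have h3 := (List.all_eq_true.1 ((List.all_eq_true.1 h2) T hT)) m hm
    rw [Bool.and_eq_true] at h3
    obtain ⟨h4, h5⟩ := h3
    refine ⟨imgMask n T m, List.contains_iff_mem.1 h4, ?_⟩
    ext y
    rw [mem_smul_iff, mem_blk, mem_blk]
    have h6 := (List.all_eq_true.1 h5) (s⁻¹ y : Fin n) (List.mem_range.2 (s⁻¹ y : Fin n).2)
    rw [beq_iff_eq] at h6
    have h7 : (y : ℕ) = tab T (s⁻¹ y : Fin n) := by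
      rw [← hsT]
      exact congrArg Fin.val (s.apply_symm_apply y).symm
    rw [← h6, ← h7]
  | one =>
    intro m hm
    exact ⟨m, hm, one_smul _ _⟩
  | mul a b _ _ ha hb =>
    intro m hm
    obtain ⟨m1, hm1, h3⟩ := hb m hm
    obtain ⟨m2, hm2, h4⟩ := ha m1 hm1
    exact ⟨m2, hm2, by rw [mul_smul, h3, h4]⟩
  | inv a _ ha =>
    intro m hm
    let 𝓑 : Finset (Finset (Fin n)) := Finset.univ.filter (fun b => ∃ m ∈ L, b = blk n m)
    have h𝓑 : ∀ b, b ∈ 𝓑 ↔ ∃ m ∈ L, b = blk n m := by
      intro b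
      simp [𝓑]
    have hsub : 𝓑.image (fun b => a • b) ⊆ 𝓑 := by
      intro b hb
      rw [Finset.mem_image] at hb
      obtain ⟨c, hc, rfl⟩ := hb
      rw [h𝓑] at hc
      obtain ⟨m1, hm1, rfl⟩ := hc
      rw [h𝓑]
      exact ha m1 hm1
    have hcard : 𝓑.card ≤ (𝓑.image (fun b => a • b)).card := by
      rw [Finset.card_image_of_injective _ (MulAction.injective a)]
    have heq := Finset.eq_of_subset_of_card_le hsub hcard
    have hmem : blk n m ∈ 𝓑.image (fun b => a • b) := by
      rw [heq, h𝓑]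
      exact ⟨m, hm, rfl⟩
    rw [Finset.mem_image] at hmem
    obtain ⟨c, hc, h3⟩ := hmem
    rw [h𝓑] at hc
    obtain ⟨m1, hm1, rfl⟩ := hc
    refine ⟨m1, hm1, ?_⟩
    rw [← h3, inv_smul_smul]

private theorem card_blk (n m : ℕ) :
    (blk n m).card = (List.range n).countP (fun x => m.testBit x) := by
  have h1 : (blk n m).card = ((Finset.range n).filter (fun x => m.testBit x = true)).card := by
    have h2 : (blk n m).map Fin.valEmbedding
        = (Finset.range n).filter (fun x => m.testBit x = true) := by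
      ext x
      simp only [Finset.mem_map, mem_blk, Fin.valEmbedding_apply, Finset.mem_filter,
        Finset.mem_range]
      constructor
      · rintro ⟨y, hy, rfl⟩
        exact ⟨y.2, hy⟩
      · rintro ⟨h3, h4⟩
        exact ⟨⟨x, h3⟩, h4, rfl⟩
    rw [← h2, Finset.card_map]
  rw [h1]
  clear h1
  induction n with
  | zero => simp
  | succ n ih =>
    rw [List.range_succ, List.countP_append, ← ih, Finset.range_add_one, Finset.filter_insert]
    split_ifs with h2
    · rw [Finset.card_insert_of_notMem (by simp)]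
      simp [h2]
    · simp [h2]

private theorem base_iff {n t m : ℕ} (htn : t ≤ n) :
    ((List.range t).all fun x => m.testBit x) = true ↔
      ∀ i : Fin t, (⟨i, i.2.trans_le htn⟩ : Fin n) ∈ blk n m := by
  rw [List.all_eq_true]
  constructor
  · intro h i
    rw [mem_blk]
    exact h i (List.mem_range.2 i.2)
  · intro h x hx
    have h1 := h ⟨x, List.mem_range.1 hx⟩
    rw [mem_blk] at h1
    exact h1

theorem not_steiner_of_fam {n k t : ℕ} {S : Set (Perm (Fin n))} {L Ts : List ℕ}
    (hS : ∀ s ∈ S, ∃ T ∈ Ts, IsT s T) (h : checkFam n k L Ts = true)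
    (htk : t < k) (hkn : k < n)
    (hG : IsMultiplyPretransitive (Subgroup.closure S) (Fin n) t)
    (hbase : L.countP (fun m => (List.range t).all fun x => m.testBit x) = 1) :
    ¬ SteinerPrimitive (Subgroup.closure S) (Fin n) t := by
  classical
  intro hst
  apply hst
  have htn : t ≤ n := by omega
  have h1 : ∀ m ∈ L, (blk n m).card = k := by
    intro m hm
    have h2 := h
    unfold checkFam at h2
    rw [Bool.and_eq_true] at h2
    have h3 := (List.all_eq_true.1 h2.1) m hm
    rw [beq_iff_eq] at h3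
    rw [card_blk, h3]
  rw [List.countP_eq_length_filter, List.length_eq_one_iff] at hbase
  obtain ⟨m0, hm0⟩ := hbase
  have hf : ∀ m, (m ∈ L ∧ ∀ i : Fin t, (⟨i, i.2.trans_le htn⟩ : Fin n) ∈ blk n m) ↔ m = m0 := by
    intro m
    rw [← base_iff htn]
    have h2 : m ∈ L.filter (fun m => (List.range t).all fun x => m.testBit x) ↔ m ∈ [m0] := by
      rw [hm0]
    rw [List.mem_filter, List.mem_singleton] at h2
    exact h2
  have hinv : ∀ g : Subgroup.closure S, ∀ b ∈ {b | ∃ m ∈ L, b = blk n m},
      g • b ∈ {b : Finset (Fin n) | ∃ m ∈ L, b = blk n m} := by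
    rintro g _ ⟨m, hm, rfl⟩
    exact fam_invariant hS h g.2 hm
  refine ⟨k, {b | ∃ m ∈ L, b = blk n m}, htk, by simpa using hkn, ⟨?_, ?_⟩, hinv⟩
  · rintro _ ⟨m, hm, rfl⟩
    exact h1 m hm
  · intro s hs
    let a : Fin t ↪ Fin n := ⟨fun i => ⟨i, i.2.trans_le htn⟩, fun i j hij => by
      have := congrArg Fin.val hij
      exact Fin.ext this⟩
    let b : Fin t ↪ Fin n := (s.orderEmbOfFin hs).toEmbedding
    obtain ⟨g, hg⟩ := isMultiplyPretransitive_iff.1 hG a b
    have hgi : ∀ i, (g : Perm (Fin n)) (a i) = b i := by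
      intro i
      rw [← hg]
      rfl
    have hbs : ∀ x, x ∈ s ↔ ∃ i, b i = x := by
      intro x
      have h2 : Set.range (s.orderEmbOfFin hs) = s := Finset.range_orderEmbOfFin s hs
      rw [← Finset.mem_coe, ← h2]
      rfl
    have hsub : ∀ c : Finset (Fin n), s ⊆ c ↔ ∀ i, a i ∈ (g : Perm (Fin n))⁻¹ • c := by
      intro c
      have h3 : ∀ i, a i ∈ (g : Perm (Fin n))⁻¹ • c ↔ b i ∈ c := by
        intro i
        rw [mem_smul_iff, inv_inv, hgi]
      constructor
      · intro h4 i
        rw [h3]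
        exact h4 ((hbs _).2 ⟨i, rfl⟩)
      · intro h4 x hx
        obtain ⟨i, rfl⟩ := (hbs x).1 hx
        exact (h3 i).1 (h4 i)
    have hm0' := (hf m0).2 rfl
    refine ⟨(g : Perm (Fin n)) • blk n m0, ⟨hinv g _ ⟨m0, hm0'.1, rfl⟩, ?_⟩, ?_⟩
    · rw [hsub, inv_smul_smul]
      exact hm0'.2
    · rintro c ⟨⟨m, hm, rfl⟩, hc⟩
      rw [hsub] at hc
      obtain ⟨m1, hm1, h4⟩ := fam_invariant hS h ((Subgroup.closure S).inv_mem g.2) hm
      rw [h4] at hc
      have h5 : m1 = m0 := (hf m1).1 ⟨hm1, hc⟩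
      rw [h5] at h4
      rw [← h4, smul_inv_smul]

theorem not_trans_of_fam {n k t : ℕ} {S : Set (Perm (Fin n))} {L Ts : List ℕ}
    (hS : ∀ s ∈ S, ∃ T ∈ Ts, IsT s T) (h : checkFam n k L Ts = true)
    {x y : Fin t → Fin n} (hx : Function.Injective x) (hy : Function.Injective y)
    (hxL : ∃ m ∈ L, ∀ i, m.testBit (x i) = true)
    (hyL : ∀ m ∈ L, ∃ i, m.testBit (y i) = false) :
    ¬ IsMultiplyPretransitive (Subgroup.closure S) (Fin n) t := by
  intro hG
  obtain ⟨g, hg⟩ := isMultiplyPretransitive_iff.1 hG ⟨x, hx⟩ ⟨y, hy⟩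
  have hgi : ∀ i, (g : Perm (Fin n)) (x i) = y i := by
    intro i
    have h1 := congrArg (fun e : Fin t ↪ Fin n => e i) hg
    exact h1
  obtain ⟨m, hm, hmx⟩ := hxL
  obtain ⟨m', hm', h1⟩ := fam_invariant hS h g.2 hm
  obtain ⟨i, hi⟩ := hyL m' hm'
  have h2 : y i ∈ blk n m' := by
    rw [← h1, mem_smul_iff, ← hgi]
    have h3 : (g : Perm (Fin n))⁻¹ ((g : Perm (Fin n)) (x i)) = x i :=
      Equiv.symm_apply_apply _ _
    rw [h3, mem_blk]
    exact hmx i
  rw [mem_blk, hi] at h2
  exact Bool.false_ne_true h2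

end Pool.Agent.Helper37.PF
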