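import Mathlib

/-!
# PF-S1: groups acting freely, Frobenius groups with complement of even order (MP_13dc8a_al)

PROOF OF `card_dvd_of_free`. All orbits have `|T|` elements (`MulAction.orbitEquivQuotientStabilizer`
or the injective map `t ↦ t • y`), and `Y` is the disjoint union of the orbits
(`MulAction.selfEquivSigmaOrbits`).

PROOF OF `frobenius_even` (Burnside). `C` is finite, `n = |C| ≥ 2`; let `h` be the order of the
stabiliser of a point, `|M| = n h` (orbit-stabiliser).

1. Let `F` be the set of the `m ∈ M` which fix no point of `C`. Every `m ≠ 1` fixes at most one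
   point, so `M ∖ ({1} ∪ F)` is the disjoint union over `c ∈ C` of the sets
   `stabilizer c ∖ {1}`, which have `h - 1` elements each. Hence
   `|F| = n h - 1 - n (h - 1) = n - 1`.
2. Let `I` be the set of the involutions of `M` which fix a point of `C`. Every point `c ∈ C` is
   fixed by some element of `I`: conjugate `z` (transitivity). Let `s, t ∈ I` with different
   fixed points. Then `s t ∈ F`: if `s t c = c` then `t c = s c =: c'`. If `c' = c` then `s` and `t`
   both fix `c`, contradiction. So `c' ≠ c`, and `s`, `t` both exchange `c` and `c'`, so `s t` fixes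
   `c` and `c'`, so `s t = 1`, `s = t⁻¹ = t`, contradiction.
3. Fix `s ∈ I` with fixed point `c₀`. The elements `s t`, `t ∈ I`, fixed point of `t` different from
   `c₀`, are distinct and in `F`; so there are at most `n - 1` such `t`. There is at least one for
   each of the `n - 1` points `c ≠ c₀`, so there is exactly one, and
   `F = {s t | t ∈ I, the fixed point of t is not c₀}`. As `c₀` is arbitrary and `n ≥ 2`, every
   point `c` is fixed by exactly one `z_c ∈ I` (apply the previous sentence with another point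
   in the role of `c₀`). So for every `c₀`: `F ∪ {1} = {z_{c₀} z_c | c ∈ C}`.
4. Let `K = F ∪ {1}`. It is closed under multiplication: given two elements, fix `c₀` and write the
   first one as `k = z_{c₀} z_c` and the second one as `k' = z_c z_d` (step 3 with `c` in the role
   of `c₀`); then `k k' = z_{c₀} z_d ∈ K`. It is closed under inverses
   (`(z_a z_b)⁻¹ = z_b z_a ∈ K`). So `K` is a subgroup.
5. `K` is commutative: `z = z_{c₀}` inverts every `k = z z_c`: `z k z⁻¹ = z_c z = k⁻¹`. So
   `k ↦ k⁻¹` is the restriction to `K` of a homomorphism, hence `(k l)⁻¹ = k⁻¹ l⁻¹`.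
-/

namespace Pool.Agent.Helper37.PF

open MulAction

theorem card_dvd_of_free {T Y : Type*} [Group T] [Finite T] [MulAction T Y] [Finite Y]
    (h : ∀ (t : T) (y : Y), t • y = y → t = 1) : Nat.card T ∣ Nat.card Y := by
  classical
  have := Fintype.ofFinite (Quotient (orbitRel T Y))
  have h1 : ∀ y : Y, stabilizer T y = ⊥ := by
    intro y
    rw [eq_bot_iff]
    intro t ht
    rw [mem_stabilizer_iff] at ht
    rw [Subgroup.mem_bot]
    exact h t y ht
  rw [Nat.card_congr (selfEquivSigmaOrbitsQuotientStabilizer T Y), Nat.card_sigma]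
  apply Finset.dvd_sum
  intro ω _
  have h2 : Nat.card (T ⧸ stabilizer T ω.out) = Nat.card T := by
    rw [h1, ← Subgroup.index_eq_card, Subgroup.index_bot]
  rw [h2]

/-- The number of fixed point free elements. -/
theorem card_free {M C : Type*} [Group M] [Fintype M] [MulAction M C] [Fintype C]
    [IsPretransitive M C] [Nonempty C]
    (hfix : ∀ m : M, m ≠ 1 → ∀ c c' : C, m • c = c → m • c' = c' → c = c')
    (F : Finset M) (hF : ∀ m, m ∈ F ↔ ∀ c : C, m • c ≠ c) :
    F.card + 1 = Fintype.card C := by
  classical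
  have hB := sum_card_fixedBy_eq_card_orbits_mul_card_group M C
  have hsub : Subsingleton (orbitRel.Quotient M C) :=
    (pretransitive_iff_subsingleton_quotient M C).1 inferInstance
  have hQ : Fintype.card (Quotient (orbitRel M C)) = 1 := by
    rw [Fintype.card_eq_one_iff]
    obtain ⟨c⟩ := (inferInstance : Nonempty C)
    exact ⟨Quotient.mk _ c, fun y => hsub.elim _ _⟩
  rw [hQ, one_mul] at hB
  have hn : 0 < Fintype.card C := Fintype.card_pos
  have hpt : ∀ m : M, Fintype.card (fixedBy C m) + (if m ∈ F then 1 else 0) =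
      1 + (if m = 1 then Fintype.card C - 1 else 0) := by
    intro m
    by_cases hm : m = 1
    · have h1 : m ∉ F := by
        rw [hF]
        push Not
        obtain ⟨c⟩ := (inferInstance : Nonempty C)
        exact ⟨c, by rw [hm, one_smul]⟩
      have h2 : Fintype.card (fixedBy C m) = Fintype.card C := by
        apply Fintype.card_congr
        refine ⟨fun x => x.1, fun x => ⟨x, ?_⟩, fun x => rfl, fun x => rfl⟩
        rw [mem_fixedBy, hm, one_smul]
      rw [if_neg h1, if_pos hm, h2]
      omega
    · rw [if_neg hm]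
      by_cases hmF : m ∈ F
      · rw [if_pos hmF]
        have h2 : Fintype.card (fixedBy C m) = 0 := by
          rw [Fintype.card_eq_zero_iff]
          refine ⟨fun x => ?_⟩
          exact (hF m).1 hmF x.1 x.2
        rw [h2]
      · rw [if_neg hmF]
        have h2 : Fintype.card (fixedBy C m) = 1 := by
          rw [hF] at hmF
          push Not at hmF
          obtain ⟨c, hc⟩ := hmF
          rw [Fintype.card_eq_one_iff]
          exact ⟨⟨c, hc⟩, fun y => Subtype.ext (hfix m hm _ _ y.2 hc)⟩
        rw [h2]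
  have hsum := Finset.sum_congr (rfl : (Finset.univ : Finset M) = Finset.univ)
    (fun m _ => hpt m)
  rw [Finset.sum_add_distrib, Finset.sum_add_distrib, hB] at hsum
  simp only [Finset.sum_ite_mem, Finset.univ_inter, Finset.sum_const, smul_eq_mul, mul_one,
    Finset.sum_ite_eq', Finset.mem_univ, if_true, Finset.card_univ] at hsum
  omega

theorem frobenius_even {M C : Type*} [Group M] [Finite M] [MulAction M C] [Finite C]
    [IsPretransitive M C] [Nontrivial C]
    (hfix : ∀ m : M, m ≠ 1 → ∀ c c' : C, m • c = c → m • c' = c' → c = c')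
    (z : M) (hz : z ≠ 1) (hz2 : z * z = 1) (c : C) (hzc : z • c = c) :
    ∃ K : Subgroup M, (∀ m : M, m ∈ K ↔ m = 1 ∨ ∀ c : C, m • c ≠ c) ∧
      ∀ a ∈ K, ∀ b ∈ K, a * b = b * a := by
  classical
  have := Fintype.ofFinite M
  have := Fintype.ofFinite C
  -- the involutions
  have hex : ∀ d : C, ∃ s : M, s ≠ 1 ∧ s * s = 1 ∧ s • d = d := by
    intro d
    obtain ⟨g, hg⟩ := exists_smul_eq M c d
    refine ⟨g * z * g⁻¹, ?_, ?_, ?_⟩
    · intro h
      apply hz
      have : z = g⁻¹ * (g * z * g⁻¹) * g := by group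
      rw [this, h]
      group
    · have : g * z * g⁻¹ * (g * z * g⁻¹) = g * (z * z) * g⁻¹ := by group
      rw [this, hz2]
      group
    · rw [← hg, mul_smul, mul_smul, inv_smul_smul, hzc]
  choose ζ hζ1 hζ2 hζ3 using hex
  -- products are free
  have hprod : ∀ a b : C, a ≠ b → ∀ d : C, (ζ a * ζ b) • d ≠ d := by
    intro a b hab d hd
    have hne : ζ a ≠ ζ b := by
      intro h
      apply hab
      refine hfix (ζ a) (hζ1 a) a b (hζ3 a) ?_
      rw [h]
      exact hζ3 b
    have h1 : ζ b • d = ζ a • d := by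
      have h2 : ζ a • ((ζ a * ζ b) • d) = ζ a • d := by rw [hd]
      rwa [← mul_smul, ← mul_assoc, hζ2, one_mul] at h2
    by_cases h3 : ζ a • d = d
    · have h4 : ζ b • d = d := by rw [h1, h3]
      have h5 := hfix _ (hζ1 a) a d (hζ3 a) h3
      have h6 := hfix _ (hζ1 b) b d (hζ3 b) h4
      exact hab (h5.trans h6.symm)
    · -- both exchange `d` and `ζ a • d`
      have h4 : (ζ a * ζ b) • (ζ a • d) = ζ a • d := by
        rw [← h1, mul_smul, ← mul_smul (ζ b) (ζ b), hζ2, one_smul]
        exact h1.symm
      have h5 : ζ a * ζ b = 1 := by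
        by_contra h6
        exact h3 (hfix _ h6 (ζ a • d) d h4 hd)
      apply hne
      have h6 : ζ a * (ζ a * ζ b) = ζ a * 1 := by rw [h5]
      rw [← mul_assoc, hζ2, one_mul, mul_one] at h6
      exact h6.symm
  let F : Finset M := Finset.univ.filter (fun m => ∀ d : C, m • d ≠ d)
  have hF : ∀ m, m ∈ F ↔ ∀ d : C, m • d ≠ d := by
    intro m
    simp [F]
  have hcard := card_free hfix F hF
  -- surjectivity
  have hsurj : ∀ a : C, ∀ m : M, (m = 1 ∨ ∀ d : C, m • d ≠ d) → ∃ b : C, m = ζ a * ζ b := by
    intro a m hm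
    rcases hm with hm | hm
    · exact ⟨a, by rw [hm, hζ2]⟩
    have hinj : Set.InjOn (fun b => ζ a * ζ b) (Finset.univ.erase a : Finset C) := by
      intro b _ b' _ hbb
      have h1 : ζ b = ζ b' := mul_left_cancel hbb
      refine hfix (ζ b) (hζ1 b) b b' (hζ3 b) ?_
      rw [h1]
      exact hζ3 b'
    have himg : ((Finset.univ.erase a : Finset C).image (fun b => ζ a * ζ b)) = F := by
      apply Finset.eq_of_subset_of_card_le
      · intro x hx
        rw [Finset.mem_image] at hx
        obtain ⟨b, hb, rfl⟩ := hx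
        rw [hF]
        exact hprod a b (Finset.ne_of_mem_erase hb).symm
      · rw [Finset.card_image_of_injOn hinj, Finset.card_erase_of_mem (Finset.mem_univ _),
          Finset.card_univ]
        omega
    have h1 : m ∈ F := (hF m).2 hm
    rw [← himg, Finset.mem_image] at h1
    obtain ⟨b, -, hb⟩ := h1
    exact ⟨b, hb.symm⟩
  have hmem : ∀ a b : C, (ζ a * ζ b = 1 ∨ ∀ d : C, (ζ a * ζ b) • d ≠ d) := by
    intro a b
    by_cases h : a = b
    · left; rw [h, hζ2]
    · right; exact hprod a b h
  have hinv : ∀ a : C, (ζ a)⁻¹ = ζ a := fun a => inv_eq_of_mul_eq_one_left (hζ2 a)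
  let K : Subgroup M :=
    { carrier := {m | m = 1 ∨ ∀ d : C, m • d ≠ d}
      one_mem' := Or.inl rfl
      mul_mem' := by
        intro k k' hk hk'
        obtain ⟨b, rfl⟩ := hsurj c k hk
        obtain ⟨d, rfl⟩ := hsurj b k' hk'
        have h1 : ζ c * ζ b * (ζ b * ζ d) = ζ c * ζ d := by
          rw [mul_assoc, ← mul_assoc (ζ b) (ζ b), hζ2, one_mul]
        change _ ∨ _
        rw [h1]
        exact hmem c d
      inv_mem' := by
        intro k hk
        obtain ⟨b, rfl⟩ := hsurj c k hk
        change _ ∨ _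
        rw [mul_inv_rev, hinv, hinv]
        exact hmem b c }
  have hK : ∀ m, m ∈ K ↔ m = 1 ∨ ∀ d : C, m • d ≠ d := fun m => Iff.rfl
  refine ⟨K, hK, ?_⟩
  have hconj : ∀ k ∈ K, ζ c * k * ζ c = k⁻¹ := by
    intro k hk
    obtain ⟨b, rfl⟩ := hsurj c k hk
    rw [mul_inv_rev, hinv, hinv, ← mul_assoc, hζ2, one_mul]
  intro a ha b hb
  have h1 := hconj _ (K.mul_mem ha hb)
  have h2 : ζ c * (a * b) * ζ c = (ζ c * a * ζ c) * (ζ c * b * ζ c) := by
    have h3 : (ζ c * a * ζ c) * (ζ c * b * ζ c) = ζ c * a * (ζ c * ζ c) * b * ζ c := by group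
    rw [h3, hζ2]
    group
  rw [h2, hconj a ha, hconj b hb, ← mul_inv_rev] at h1
  exact (inv_injective h1).symm

end Pool.Agent.Helper37.PF
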