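import Pool.Agent.Helper37.PF.Nec

/-!
# Three generalisations of primitivity (MP_13dc8a_al): the answer for the groups of the list
-/

namespace Pool.Agent.Helper37.PF

open MulAction Equiv
open Pool.Agent.Helper37.Prim
open scoped LinearAlgebra.Projectivization

section

variable {X : Type} [Fintype X] [DecidableEq X] {G : Subgroup (Perm X)} {t : ℕ}

theorem nec_alt (ht : 2 ≤ t) (htn : t ≤ Nat.card X) (hG : IsMultiplyPretransitive G X t)
    (h : alternatingGroup X ≤ G) : Nec G t := by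
  rcases Nat.lt_or_ge 2 t with h3 | h3
  · obtain ⟨h1, h2, h4, -⟩ := altAnswer h3 htn G h hG
    exact ⟨fun h0 => Or.inl ⟨h, h1.1 h0⟩, fun h0 => absurd h0 h2, fun h0 => absurd h0 h4⟩
  · obtain rfl : t = 2 := le_antisymm h3 ht
    obtain ⟨h1, h2, h4, -⟩ := altAnswer_two htn G h hG
    exact ⟨fun h0 => Or.inl ⟨h, h1.1 h0⟩, fun h0 => absurd h0 h2, fun h0 => absurd h0 h4⟩

/-- Affine groups of odd degree, or with a soluble normal subgroup of a point stabiliser. -/
theorem nec_affine (ht : 2 ≤ t) (htn : t ≤ Nat.card X) (hG : IsMultiplyPretransitive G X t)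
    (hS : HasSol G) (h : Odd (Nat.card X) ∨ ∃ o : X, HasSol (stabilizer G o)) : Nec G t := by
  obtain ⟨N, hNn, hN, hs⟩ := hS
  have key := (solubleAnswer X G t ht htn hG).2 N hNn hN hs
  obtain ⟨hB, -, -, h4⟩ := key
  obtain ⟨hA, hC, -⟩ := h4 (by
    rcases h with h | ⟨o, A, hAn, hA, hAs⟩
    · exact Or.inl h
    · exact Or.inr ⟨o, A, hAn, hA, hAs⟩)
  refine ⟨fun h0 => ?_, fun h0 => absurd h0 hB, fun h0 => ?_⟩
  · obtain ⟨rfl, he, hp⟩ := hA.1 h0
    have h1 := hp.two_le
    have h5 : 4 ≤ Nat.card X := by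
      obtain ⟨k, hk⟩ := he
      omega
    exact Or.inr (Or.inl ⟨rfl, h5, Or.inl ⟨⟨N, hNn, hN, hs⟩, hp⟩⟩)
  · obtain ⟨rfl, hn⟩ := hC.1 h0
    refine Or.inr (Or.inl ⟨rfl, ?_, hn⟩)
    rcases hn with ⟨hp, h5⟩ | ⟨d, hd, hX, hnp⟩
    · exact solvable_of_prime hG N hNn hN hs hp
    · rcases h with h | ⟨o, A, hAn, hA, hAs⟩
      · exfalso
        rw [hX] at h
        have h6 : Even (2 ^ d) := even_two.pow_of_ne_zero hd.ne_zero
        exact (Nat.not_even_iff_odd.2 h) h6
      · exact solvable_of_two_pow hG N hNn hN hs hd hX o A hAn hA hAs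

theorem nec_semi {K V : Type} [Field K] [Finite K] [AddCommGroup V] [Module K V] [Finite V]
    {H : Subgroup (Perm V)} (ht : 2 ≤ t) (htn : t ≤ Nat.card X)
    (hG : IsMultiplyPretransitive G X t) (h2 : 2 < Nat.card K) (hK : Nat.card K < Nat.card V)
    (hH : SemiLin K H) (h : PermIso G H) : Nec G t := by
  classical
  apply nec_of_not_steiner_two ht htn hG
  have h3 : IsMultiplyPretransitive G X 2 := trans_le ht htn hG
  rw [h.steiner_iff]
  exact not_steiner_affine h2 hK hH ((h.trans_iff 2).1 h3)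

theorem affSymp_hasSol {V : Type} [AddCommGroup V] [Module (ZMod 2) V] [Finite V]
    {H : Subgroup (Perm V)} (hn : 4 < Nat.card V) (hH : AffSymp H) : HasSol H := by
  obtain ⟨hA, hT, -⟩ := hH
  refine hasSol_of_translations ?_ ?_ hT
  · have : Nontrivial V := Finite.one_lt_card_iff_nontrivial.1 (by omega)
    exact exists_ne 0
  · intro g hg x v
    obtain ⟨f, w, hf⟩ := hA g hg
    rw [hf, hf, hf, hf, map_add, map_zero]
    abel

theorem affG2_hasSol {H : Subgroup (Perm (Fin 6 → ZMod 2))} (hH : AffG2 H) : HasSol H := by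
  obtain ⟨hA, hT, -⟩ := hH
  refine hasSol_of_translations (exists_ne 0) ?_ hT
  intro g hg x v
  obtain ⟨f, w, hf⟩ := hA g hg
  rw [hf, hf, hf, hf, map_add, map_zero]
  abel

theorem nec_affA (ht : 2 ≤ t) (htn : t ≤ Nat.card X) (hG : IsMultiplyPretransitive G X t)
    (h : AffA G) : Nec G t := by
  have hS : HasSol G := by
    rcases h with ⟨hS, -⟩ | ⟨V, _, _, H, hV, hV4, hH, hiso⟩ | ⟨H, hH, hiso⟩
    · exact hS
    · exact hiso.hasSol (affSymp_hasSol hV4 hH)
    · exact hiso.hasSol (affG2_hasSol hH)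
  rcases Nat.lt_or_ge 2 t with h3 | h3
  · exact nec_of_hasSol h3 htn hG hS
  · obtain rfl : t = 2 := le_antisymm h3 ht
    by_cases hn : 4 ≤ Nat.card X
    · have h1 := affA_excA h hG hn
      exact ⟨fun _ => Or.inr (Or.inl ⟨rfl, hn, Or.inr h⟩), fun h0 => absurd h1.1 h0.2,
        fun h0 => absurd h1.1 h0.2⟩
    · exact nec_of_all (tprimitive_of_card_le (by norm_num) (by omega) hG)
        (tsetprimitive_of_card_le (by norm_num) htn (by omega) hG)

theorem nec_line (ht : 2 ≤ t) (htn : t ≤ Nat.card X) (hG : IsMultiplyPretransitive G X t)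
    (h : PType G) : Nec G t := by
  classical
  have hP := h
  obtain ⟨K, _, hK, _, H, hPH, hHP, hiso⟩ := h
  have hfinite : Finite (OnePoint K) := inferInstanceAs (Finite (Option K))
  have hc := hiso.card_eq
  rw [card_onePoint'] at hc
  have hH := (hiso.trans_iff t).1 hG
  rcases Nat.lt_or_ge 2 t with h3 | h3
  · obtain ⟨hA, hB, hC, -⟩ := projAnswer h3 (by omega) H hHP hH
    refine ⟨fun h0 => ?_, fun h0 => absurd ((hiso.excB t).1 h0) hB, fun h0 => ?_⟩
    · obtain ⟨rfl, h5, hp⟩ := hA.1 ((hiso.excA t).1 h0)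
      have h1 : Nat.card K - 1 = Nat.card X - 2 := by omega
      rw [h1] at hp
      exact Or.inr (Or.inr (Or.inr (Or.inr (Or.inl ⟨rfl, hP, by omega, hp⟩))))
    · obtain ⟨rfl, h5, hp, hq⟩ := hC.1 ((hiso.excC t).1 h0)
      have h1 : Nat.card K - 1 = Nat.card X - 2 := by omega
      have h2 : Nat.card K = Nat.card X - 1 := by omega
      rw [h1] at hp
      rw [h2] at hq
      exact Or.inr (Or.inr ⟨rfl, hP, by omega, hp, hq⟩)
  · obtain rfl : t = 2 := le_antisymm h3 ht
    have hpr := (hiso.prim_iff 2).2 (tprimitive_of_PSL_le hPH)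
    refine ⟨fun h0 => ?_, fun h0 => absurd hpr h0.2, fun h0 => absurd hpr h0.2⟩
    have h1 := ((hiso.excA 2).1 h0).2
    have h2 : ExcList K H := by
      by_contra h4
      exact h1 (tsetprimitive_of_not_excList hPH hHP h4)
    refine Or.inr (Or.inr (Or.inr (Or.inl ⟨rfl, K, _, hK, _, H, hPH, hHP, hiso, ?_⟩)))
    rcases h2 with h | h | ⟨h, h'⟩ | h | ⟨h, h'⟩
    · exact Or.inl h
    · exact Or.inr (Or.inl h)
    · exact Or.inr (Or.inr (Or.inl ⟨h, le_antisymm h' hPH⟩))
    · exact Or.inr (Or.inr (Or.inr (Or.inl h)))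
    · exact Or.inr (Or.inr (Or.inr (Or.inr ⟨h, le_antisymm h' hPH⟩)))

theorem nec_collin {K V : Type} [Field K] [AddCommGroup V] [Module K V] {Y : Set (ℙ K V)}
    {H : Subgroup (Perm Y)} (ht : 2 ≤ t) (htn : t ≤ Nat.card X)
    (hG : IsMultiplyPretransitive G X t) (hH : Collin H) (h : PermIso G H) : Nec G t := by
  classical
  have hfin : Finite Y := by
    obtain ⟨e, -⟩ := h
    exact Finite.of_equiv X e
  apply nec_of_not_steiner_two ht htn hG
  have h3 : IsMultiplyPretransitive G X 2 := trans_le ht htn hG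
  rw [h.steiner_iff]
  obtain ⟨h1, p, q, r, s, hpq, hrp, hrq, hr, hs⟩ := hH
  exact not_steiner_projective h1 ((h.trans_iff 2).1 h3) hpq hrp hrq hr hs

theorem nec_ree (ht : 2 ≤ t) (htn : t ≤ Nat.card X)
    (hG : IsMultiplyPretransitive G X t) (h : ReeType G) : Nec G t := by
  apply nec_of_not_steiner_two ht htn hG
  have h3 : IsMultiplyPretransitive G X 2 := trans_le ht htn hG
  obtain ⟨h1, x, y, z, hxy, hzx, hzy, τ, hτ, hτ1, hτ2, hτx, hτy, hτz⟩ := h
  refine not_steiner_of_involution h3 ?_ (x := x) (y := y) (z := z) (t := ⟨τ, hτ⟩) hxy ?_ ?_ hτx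
    hτy hτz hzx hzy
  · intro x y hxy
    obtain ⟨σ, ⟨hσ, hσ1, hσ2, hσx, hσy⟩, hu⟩ := h1 x y hxy
    refine ⟨⟨σ, hσ⟩, ⟨fun h0 => hσ1 (congrArg Subtype.val h0), Subtype.ext hσ2, hσx, hσy⟩, ?_⟩
    rintro ⟨ρ, hρ⟩ ⟨hρ1, hρ2, hρx, hρy⟩
    apply Subtype.ext
    exact hu ρ ⟨hρ, fun h0 => hρ1 (Subtype.ext h0), congrArg Subtype.val hρ2, hρx, hρy⟩
  · exact fun h0 => hτ1 (congrArg Subtype.val h0)
  · exact Subtype.ext hτ2

theorem nec_suzuki (ht : 2 ≤ t) (htn : t ≤ Nat.card X)
    (hG : IsMultiplyPretransitive G X t) (h : SzType G) : Nec G t := by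
  obtain ⟨h1, h2⟩ := szType_exc h
  have ht2 : t ≤ 2 := by
    by_contra hlt
    push Not at hlt
    have h3 : IsMultiplyPretransitive G X (2 + 1) := trans_le hlt htn hG
    exact h2 (tprim_of_succ (by omega) h3)
  obtain rfl : t = 2 := le_antisymm ht2 ht
  exact ⟨fun h0 => absurd h0.1 h2, fun _ => ⟨rfl, h⟩, fun _ => Or.inl ⟨rfl, h⟩⟩

theorem nec_symplectic (ht : 2 ≤ t) (htn : t ≤ Nat.card X)
    (hG : IsMultiplyPretransitive G X t) (h : SpType G) : Nec G t := by
  obtain ⟨h1, h2, h3⟩ := spType_exc h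
  obtain rfl : t = 2 := le_antisymm (le_of_not_trans (k := 2) htn hG h3) ht
  exact ⟨fun _ => Or.inr (Or.inr (Or.inl ⟨rfl, h⟩)), fun h0 => absurd h1 h0.2,
    fun h0 => absurd h1 h0.2⟩

omit [Fintype X] [DecidableEq X] in
theorem card_fin_eq {n : ℕ} {H : Subgroup (Perm (Fin n))} (h : PermIso G H) : Nat.card X = n := by
  rw [h.card_eq, Nat.card_eq_fintype_card, Fintype.card_fin]

/-- Groups which are both `2`-primitive and `2`-set primitive, and not `3`-transitive. -/
theorem nec_two {n : ℕ} {H : Subgroup (Perm (Fin n))} (ht : 2 ≤ t) (htn : t ≤ Nat.card X)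
    (hG : IsMultiplyPretransitive G X t) (h : PermIso G H)
    (h1 : IsMultiplyPreprimitive H (Fin n) 2)
    (h2 : IsPreprimitive H (Set.powersetCard (Fin n) 2))
    (h3 : ¬ IsMultiplyPretransitive H (Fin n) 3) : Nec G t := by
  have h4 : ¬ IsMultiplyPretransitive G X (2 + 1) := fun h0 => h3 ((h.trans_iff 3).1 h0)
  obtain rfl : t = 2 := le_antisymm (le_of_not_trans (k := 2) htn hG h4) ht
  exact nec_of_iso_all h h1 h2

/-- Groups of the Mathieu type: `k`-transitive, not `k`-Steiner primitive, and `t`-set primitive for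
`t < k`. -/
theorem nec_mathieu {n k : ℕ} {H : Subgroup (Perm (Fin n))} (hk : 1 ≤ k) (hkn : k ≤ n) (ht : 2 ≤ t)
    (htn : t ≤ Nat.card X)
    (hG : IsMultiplyPretransitive G X t) (h : PermIso G H)
    (h1 : IsMultiplyPretransitive H (Fin n) k)
    (h2 : ∀ s, 2 ≤ s → s < k → IsPreprimitive H (Set.powersetCard (Fin n) s))
    (h3 : ¬ SteinerPrimitive H (Fin n) k) : Nec G t := by
  have hn : Nat.card (Fin n) = n := by rw [Nat.card_eq_fintype_card, Fintype.card_fin]
  have h4 : ¬ SteinerPrimitive G X k := fun h0 => h3 ((h.steiner_iff k).1 h0)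
  have h5 : t ≤ k := le_of_not_steiner hk htn hG h4
  rcases Nat.lt_or_ge t k with h6 | h6
  · refine nec_of_iso_all h (tprim_of_succ (by omega) ?_) (h2 t ht h6)
    exact isMultiplyPretransitive_of_le (n := k) h6 (by omega)
  · obtain rfl : t = k := le_antisymm h5 h6
    exact nec_of_not_steiner (by omega) htn h4

theorem nec_m11' (ht : 2 ≤ t) (htn : t ≤ Nat.card X)
    (hG : IsMultiplyPretransitive G X t) (h : PermIso G M11) : Nec G t := by
  have h4 : ¬ IsMultiplyPretransitive G X (3 + 1) := fun h0 => FM11.not_trans ((h.trans_iff 4).1 h0)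
  have h5 : t ≤ 3 := le_of_not_trans (k := 3) htn hG h4
  rcases Nat.lt_or_ge t 3 with h6 | h6
  · obtain rfl : t = 2 := by omega
    refine nec_of_iso_all h (tprim_of_succ ?_ CM11.trans) CM11.tset2
    rw [Nat.card_eq_fintype_card, Fintype.card_fin]
    norm_num
  · obtain rfl : t = 3 := le_antisymm h5 h6
    have h1 := (h.prim_iff 3).2 m11_tprimitive
    exact ⟨fun _ => Or.inr (Or.inr (Or.inr (Or.inr (Or.inr (Or.inl ⟨rfl, h⟩))))),
      fun h0 => absurd h1 h0.2, fun h0 => absurd h1 h0.2⟩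

theorem nec_m24 (ht : 2 ≤ t) (htn : t ≤ Nat.card X)
    (hG : IsMultiplyPretransitive G X t) (h : PermIso G M24) : Nec G t := by
  by_cases h4 : t = 4
  · subst h4
    have h1 : IsMultiplyPreprimitive G X 4 := (h.prim_iff 4).2 (tprim_of_succ (by
      rw [Nat.card_eq_fintype_card, Fintype.card_fin]
      norm_num) CM24.trans)
    exact ⟨fun _ => Or.inr (Or.inr (Or.inr (Or.inr (Or.inr (Or.inr ⟨rfl, h⟩))))),
      fun h0 => absurd h1 h0.2, fun h0 => absurd h1 h0.2⟩
  · have hn : Nat.card (Fin 24) = 24 := by rw [Nat.card_eq_fintype_card, Fintype.card_fin]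
    have h3 : ¬ SteinerPrimitive G X 5 := fun h0 => FM24.not_steiner ((h.steiner_iff 5).1 h0)
    have h5 : t ≤ 5 := le_of_not_steiner (by norm_num) htn hG h3
    rcases Nat.lt_or_ge t 5 with h6 | h6
    · have htr : IsMultiplyPretransitive M24 (Fin 24) 5 := CM24.trans
      have h7 : IsMultiplyPreprimitive M24 (Fin 24) t := tprim_of_succ (by omega)
        (isMultiplyPretransitive_of_le (n := 5) (by omega) (by omega))
      have h8 : t = 2 ∨ t = 3 := by omega
      rcases h8 with rfl | rfl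
      · exact nec_of_iso_all h h7 CM24.tset2
      · exact nec_of_iso_all h h7 CM24.tset3
    · obtain rfl : t = 5 := le_antisymm h5 h6
      exact nec_of_not_steiner (by norm_num) htn h3

/-- The exceptions in the list are in the answer. -/
theorem nec_of_listed (ht : 2 ≤ t) (htn : t ≤ Nat.card X)
    (hG : IsMultiplyPretransitive G X t) (h : Listed G) : Nec G t := by
  cases h with
  | alt h => exact nec_alt ht htn hG h
  | affineOdd h h' => exact nec_affine ht htn hG h (Or.inl h')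
  | affineSol h o h' => exact nec_affine ht htn hG h (Or.inr ⟨o, h'⟩)
  | affineSemi K V H h2 hK hH h => exact nec_semi ht htn hG h2 hK hH h
  | affineA h => exact nec_affA ht htn hG h
  | line h => exact nec_line ht htn hG h
  | collineation K V Y H hH h => exact nec_collin ht htn hG hH h
  | ree h => exact nec_ree ht htn hG h
  | suzuki h => exact nec_suzuki ht htn hG h
  | symplectic h => exact nec_symplectic ht htn hG h
  | hs h => exact nec_two ht htn hG h hs_tprimitive hs_tset THS.not_three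
  | co3 h => exact nec_two ht htn hG h co_tprimitive co_tset TCo3.not_three
  | psl11 h => exact nec_two ht htn hG h CPsl11.tprim CPsl11.tset2 FPsl11.not_trans
  | m11 h =>
    refine nec_mathieu (k := 4) (by norm_num) (by norm_num) ht htn hG h CM11e.trans ?_
      FM11e.not_steiner
    intro s hs hs'
    obtain rfl | rfl : s = 2 ∨ s = 3 := by omega
    · exact CM11e.tset2
    · exact CM11e.tset3
  | m11' h => exact nec_m11' ht htn hG h
  | m12 h =>
    refine nec_mathieu (k := 5) (by norm_num) (by norm_num) ht htn hG h CM12.trans ?_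
      FM12.not_steiner
    intro s hs hs'
    obtain rfl | rfl | rfl : s = 2 ∨ s = 3 ∨ s = 4 := by omega
    · exact CM12.tset2
    · exact CM12.tset3
    · exact CM12.tset4
  | m22 h =>
    have hle : M22 ≤ M22d2 := Subgroup.closure_mono (by
      rintro s (rfl | rfl)
      · exact Or.inl rfl
      · exact Or.inr (Or.inl rfl))
    refine nec_mathieu (k := 3) (by norm_num) (by norm_num) ht htn hG h CM22.trans ?_ ?_
    · intro s hs hs'
      obtain rfl : s = 2 := by omega
      exact CM22.tset2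
    · intro hst
      apply FM22.not_steiner
      rintro ⟨k, B, h1, h2, h3, h4⟩
      exact hst ⟨k, B, h1, h2, h3, fun g b hb => h4 ⟨g, hle g.2⟩ b hb⟩
  | m22' h =>
    have hle : M22 ≤ M22d2 := Subgroup.closure_mono (by
      rintro s (rfl | rfl)
      · exact Or.inl rfl
      · exact Or.inr (Or.inl rfl))
    refine nec_mathieu (k := 3) (by norm_num) (by norm_num) ht htn hG h
      (pretransitive_mono hle CM22.trans) ?_ FM22.not_steiner
    intro s hs hs'
    obtain rfl : s = 2 := by omega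
    exact tsetprimitive_mono hle CM22.tset2
  | m23 h =>
    refine nec_mathieu (k := 4) (by norm_num) (by norm_num) ht htn hG h CM23.trans ?_
      FM23.not_steiner
    intro s hs hs'
    obtain rfl | rfl : s = 2 ∨ s = 3 := by omega
    · exact CM23.tset2
    · exact CM23.tset3
  | m24 h => exact nec_m24 ht htn hG h

/-- The answer. -/
theorem answer (X : Type) [Fintype X] [DecidableEq X] (G : Subgroup (Perm X)) (t : ℕ)
    (ht : 2 ≤ t) (htn : t ≤ Nat.card X) (hG : IsMultiplyPretransitive G X t) (hL : Listed G) :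
    (ExcA G X t ↔ AnsA G t) ∧ (ExcB G X t ↔ AnsB G t) ∧
    (ExcC G X t ↔ AnsB G t ∨ AnsC G t) ∧ (ExcD G X t ↔ AnsA G t ∨ AnsC G t) := by
  obtain ⟨hA, hB, hC⟩ := nec_of_listed ht htn hG hL
  have hst : IsMultiplyPreprimitive G X t → SteinerPrimitive G X t :=
    SteinerPrimitive.of_tprimitive (by omega) htn
  have hst' : IsPreprimitive G (Set.powersetCard X t) → SteinerPrimitive G X t :=
    SteinerPrimitive.of_tsetprimitive (by omega) htn
  refine ⟨⟨hA, suffA ht htn hG⟩, ⟨hB, suffB⟩, ⟨hC, ?_⟩, ⟨?_, ?_⟩⟩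
  · rintro (h | h)
    · exact ⟨hst' (suffB h).1, (suffB h).2⟩
    · exact (suffC ht htn hG h).1
  · rintro ⟨h1, h2⟩
    by_cases h3 : IsMultiplyPreprimitive G X t
    · exact Or.inl (hA ⟨h3, h2⟩)
    · rcases hC ⟨h1, h3⟩ with h4 | h4
      · exact absurd (suffB h4).1 h2
      · exact Or.inr h4
  · rintro (h | h)
    · exact ⟨hst (suffA ht htn hG h).1, (suffA ht htn hG h).2⟩
    · exact (suffC ht htn hG h).2

end

end Pool.Agent.Helper37.PF
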