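import Pool.Agent.Helper37.Prim.Alt

/-!
# PF-M1: a criterion for `t`-set primitivity (MP_13dc8a_al)

PROOF. `G` is transitive on the `t`-subsets. By `isPreprimitive_of_rel` (Prim/Basic.lean; needs
`IsPretransitive G (Set.powersetCard X t)`, which follows from `t`-transitivity, e.g. via
`Set.powersetCard.isPretransitive...` in Mathlib or by choosing enumerations of the two sets and
`exists`ing from `isMultiplyPretransitive_iff`) we have to show: an invariant equivalence
relation `r` on the `t`-subsets for which there are related `B₁ ≠ B₂` is total.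

Let `i` be the maximum of `|B₁ ∩ B₂|` over the related pairs with `B₁ ≠ B₂`; `i < t`. Suppose
`i + 1 < t`. Take `B₁`, `B₂` related, different, with `|B₁ ∩ B₂| = i`; moving them by an element of
`G` we may assume `B₁ = A` (transitivity on `t`-subsets). By `h` there is `g ∈ G` with `g A = A`
and `|A ∩ B₂| < |B₂ ∩ g B₂| < t`. As `A ~ B₂`, also `A = g A ~ g B₂`, so `B₂ ~ g B₂`, and
`B₂ ≠ g B₂` because the intersection has fewer than `t` elements: contradiction with the
maximality of `i`. So `i = t - 1`: there are related `B₁`, `B₂` with `|B₁ ∩ B₂| = t - 1`. The group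
is `(t + 1)`-transitive, so all pairs of `t`-subsets with `t - 1` common elements are related:
such a pair is `C ∪ {x}`, `C ∪ {y}` with `|C| = t - 1`, and one maps an enumeration of
`C₁`, `x₁`, `y₁` to an enumeration of `C₂`, `x₂`, `y₂`. Finally any two `t`-subsets `B`, `B'` are
joined by a chain of such pairs (induction on `|B \ B'|`: if `x ∈ B \ B'`, `y ∈ B' \ B` then `B`
and `B - x + y` are related, and `|(B - x + y) \ B'| = |B \ B'| - 1`), so `r` is total.
-/

namespace Pool.Agent.Helper37.PF

open MulAction Equiv
open scoped Pointwise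
open Pool.Agent.Helper37.Prim

private theorem tm_list {X : Type} {G : Subgroup (Perm X)} {m : ℕ}
    (hG : IsMultiplyPretransitive G X m) {L L' : List X} (hL : L.length = m)
    (hL' : L'.length = m) (h : L.Nodup) (h' : L'.Nodup) : ∃ g : G, L.map (fun x => g • x) = L' := by
  obtain ⟨g, hg⟩ := isMultiplyPretransitive_iff.1 hG
    (⟨fun i => L.get (i.cast hL.symm), fun i j hij => by
      have := List.nodup_iff_injective_get.1 h hij
      exact Fin.cast_injective _ this⟩ : Fin m ↪ X)
    (⟨fun i => L'.get (i.cast hL'.symm), fun i j hij => by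
      have := List.nodup_iff_injective_get.1 h' hij
      exact Fin.cast_injective _ this⟩ : Fin m ↪ X)
  refine ⟨g, List.ext_getElem (by rw [List.length_map, hL, hL']) fun i h1 h2 => ?_⟩
  rw [List.getElem_map]
  have h3 := DFunLike.congr_fun hg (⟨i, by omega⟩ : Fin m)
  exact h3

private theorem tm_pair {X : Type} [Finite X] [DecidableEq X] {G : Subgroup (Perm X)} {t : ℕ}
    (hG : IsMultiplyPretransitive G X (t + 2)) {C C' : Finset X} (hC : C.card = t)
    (hC' : C'.card = t) {a b a' b' : X} (ha : a ∉ C) (hb : b ∉ C) (hab : a ≠ b) (ha' : a' ∉ C')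
    (hb' : b' ∉ C') (hab' : a' ≠ b') :
    ∃ g : G, g • insert a C = insert a' C' ∧ g • insert b C = insert b' C' := by
  have hnd : ∀ {C : Finset X} {a b : X}, a ∉ C → b ∉ C → a ≠ b → (C.toList ++ [a, b]).Nodup := by
    intro C a b ha hb hab
    rw [List.nodup_append]
    refine ⟨C.nodup_toList, by simp [hab], ?_⟩
    intro x hx y hy hxy
    rw [Finset.mem_toList] at hx
    subst hxy
    simp only [List.mem_cons, List.not_mem_nil, or_false] at hy
    rcases hy with rfl | rfl
    · exact ha hx
    · exact hb hx
  obtain ⟨g, hg⟩ := tm_list hG (L := C.toList ++ [a, b]) (L' := C'.toList ++ [a', b'])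
    (by simp [hC]) (by simp [hC']) (hnd ha hb hab) (hnd ha' hb' hab')
  rw [List.map_append] at hg
  obtain ⟨h1, h2⟩ := List.append_inj hg (by simp [hC, hC'])
  have h3 : g • C = C' := by
    ext y
    rw [← Finset.mem_toList, ← Finset.mem_toList (s := C'), ← h1, Finset.mem_toList,
      Finset.mem_smul_finset, List.mem_map]
    simp only [Finset.mem_toList]
  simp only [List.map_cons, List.map_nil, List.cons.injEq, and_true] at h2
  refine ⟨g, ?_, ?_⟩
  · rw [Finset.smul_finset_insert, h3, h2.1]
  · rw [Finset.smul_finset_insert, h3, h2.2]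

/-- A `(t + 1)`-transitive group is `t`-set primitive if, for a `t`-subset `A`, the stabiliser of
`A` moves every other `t`-subset `B` which meets `A` in less than `t - 1` points to a set which
meets `B` in more points than `A`. -/
theorem tset_of_moves {X : Type} [Finite X] [DecidableEq X] {G : Subgroup (Perm X)} {t : ℕ}
    (ht : 2 ≤ t) (htn : t + 1 ≤ Nat.card X) (hG : IsMultiplyPretransitive G X (t + 1))
    (A : Finset X) (hA : A.card = t)
    (h : ∀ B : Finset X, B.card = t → (A ∩ B).card + 1 < t → ∃ g : G, g • A = A ∧
      (A ∩ B).card < (B ∩ g • B).card ∧ (B ∩ g • B).card < t) :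
    IsPreprimitive G (Set.powersetCard X t) := by
  have hGt : IsMultiplyPretransitive G X t :=
    isMultiplyPretransitive_of_le (n := t + 1) (by omega) htn
  have htr : IsPretransitive G (Set.powersetCard X t) :=
    Set.powersetCard.isPretransitive_of_isMultiplyPretransitive G hGt
  apply isPreprimitive_of_rel
  intro r hr hinv
  by_cases hne : ∀ x y, r x y → x = y
  · exact Or.inl hne
  right
  push Not at hne
  obtain ⟨x₀, y₀, hxy₀, hne₀⟩ := hne
  have hcs : ∀ (g : G) (x : Set.powersetCard X t),
      ((g • x : Set.powersetCard X t) : Finset X) = g • (x : Finset X) :=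
    fun g x => Set.powersetCard.coe_smul
  have hcard : ∀ x y : Set.powersetCard X t, x ≠ y → ((x : Finset X) ∩ (y : Finset X)).card < t := by
    intro x y hxy
    by_contra hcon
    have h1 : ((x : Finset X) ∩ (y : Finset X)).card ≤ (x : Finset X).card :=
      Finset.card_le_card Finset.inter_subset_left
    have hx : (x : Finset X).card = t := x.2
    have hy : (y : Finset X).card = t := y.2
    have h2 : (x : Finset X) ∩ (y : Finset X) = x :=
      Finset.eq_of_subset_of_card_le Finset.inter_subset_left (by omega)
    have h3 : (x : Finset X) ∩ (y : Finset X) = y :=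
      Finset.eq_of_subset_of_card_le Finset.inter_subset_right (by omega)
    exact hxy (Subtype.ext (h2.symm.trans h3))
  -- a related pair with `t - 1` common elements
  have key : ∀ k : ℕ, ∀ x y : Set.powersetCard X t, r x y → x ≠ y →
      t - ((x : Finset X) ∩ (y : Finset X)).card = k →
      ∃ x' y' : Set.powersetCard X t, r x' y' ∧ x' ≠ y' ∧
        ((x' : Finset X) ∩ (y' : Finset X)).card + 1 = t := by
    intro k
    induction k using Nat.strong_induction_on with
    | _ k ih =>
      intro x y hxy hxne hk
      have hlt := hcard x y hxne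
      by_cases h1 : ((x : Finset X) ∩ (y : Finset X)).card + 1 = t
      · exact ⟨x, y, hxy, hxne, h1⟩
      · obtain ⟨g₀, hg₀⟩ := htr.exists_smul_eq x ⟨A, hA⟩
        have hg₀' : g₀ • (x : Finset X) = A := (hcs g₀ x).symm.trans (congrArg Subtype.val hg₀)
        set B : Set.powersetCard X t := g₀ • y with hB
        have hBc : (B : Finset X) = g₀ • (y : Finset X) := Set.powersetCard.coe_smul
        have hcap : (A ∩ (B : Finset X)).card = ((x : Finset X) ∩ (y : Finset X)).card := by
          rw [← hg₀', hBc, ← Finset.smul_finset_inter, Finset.card_smul_finset]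
        obtain ⟨g, hgA, hg1, hg2⟩ := h B B.2 (by omega)
        have hrAB : r ⟨A, hA⟩ B := by
          have := hinv g₀ _ _ hxy
          rwa [hg₀] at this
        have hrAgB : r ⟨A, hA⟩ (g • B) := by
          have := hinv g _ _ hrAB
          have h3 : g • (⟨A, hA⟩ : Set.powersetCard X t) = ⟨A, hA⟩ :=
            Subtype.ext ((hcs g _).trans hgA)
          rwa [h3] at this
        have hrB : r B (g • B) := hr.trans (hr.symm hrAB) hrAgB
        have hcoe : ((g • B : Set.powersetCard X t) : Finset X) = g • (B : Finset X) :=
          Set.powersetCard.coe_smul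
        refine ih (t - ((B : Finset X) ∩ ((g • B : Set.powersetCard X t) : Finset X)).card) ?_
          B (g • B) hrB ?_ rfl
        · rw [hcoe]
          omega
        · intro h4
          rw [← hcoe, ← h4, Finset.inter_self] at hg2
          have : (B : Finset X).card = t := B.2
          omega
  obtain ⟨x₁, y₁, hr₁, hne₁, hc₁⟩ := key _ x₀ y₀ hxy₀ hne₀ rfl
  obtain ⟨s, rfl⟩ : ∃ s, t = s + 1 := ⟨t - 1, by omega⟩
  have hdec : ∀ x y : Set.powersetCard X (s + 1), ((x : Finset X) ∩ (y : Finset X)).card = s →
      ∃ a b : X, a ∉ (x : Finset X) ∩ (y : Finset X) ∧ b ∉ (x : Finset X) ∩ (y : Finset X) ∧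
        a ≠ b ∧ (x : Finset X) = insert a ((x : Finset X) ∩ (y : Finset X)) ∧
        (y : Finset X) = insert b ((x : Finset X) ∩ (y : Finset X)) := by
    intro x y hxy
    have hx : (x : Finset X).card = s + 1 := x.2
    have hy : (y : Finset X).card = s + 1 := y.2
    obtain ⟨a, ha⟩ := Finset.exists_mem_notMem_of_card_lt_card
      (s := (x : Finset X) ∩ (y : Finset X)) (t := (x : Finset X)) (by omega)
    obtain ⟨b, hb⟩ := Finset.exists_mem_notMem_of_card_lt_card
      (s := (x : Finset X) ∩ (y : Finset X)) (t := (y : Finset X)) (by omega)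
    refine ⟨a, b, ha.2, hb.2, ?_, ?_, ?_⟩
    · rintro rfl
      exact ha.2 (Finset.mem_inter.2 ⟨ha.1, hb.1⟩)
    · symm
      apply Finset.eq_of_subset_of_card_le
      · intro z hz
        rcases Finset.mem_insert.1 hz with rfl | hz
        · exact ha.1
        · exact (Finset.mem_inter.1 hz).1
      · rw [Finset.card_insert_of_notMem ha.2]
        omega
    · symm
      apply Finset.eq_of_subset_of_card_le
      · intro z hz
        rcases Finset.mem_insert.1 hz with rfl | hz
        · exact hb.1
        · exact (Finset.mem_inter.1 hz).2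
      · rw [Finset.card_insert_of_notMem hb.2]
        omega
  have hstep : ∀ x y : Set.powersetCard X (s + 1),
      ((x : Finset X) ∩ (y : Finset X)).card = s → r x y := by
    intro x y hxy
    obtain ⟨a, b, ha, hb, hab, hxa, hyb⟩ := hdec x y hxy
    obtain ⟨a', b', ha', hb', hab', hxa', hyb'⟩ := hdec x₁ y₁ (by omega)
    obtain ⟨g, hg1, hg2⟩ := tm_pair hG (C := (x₁ : Finset X) ∩ (y₁ : Finset X))
      (C' := (x : Finset X) ∩ (y : Finset X)) (by omega) hxy ha' hb' hab' ha hb hab
    rw [← hxa', ← hxa] at hg1
    rw [← hyb', ← hyb] at hg2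
    have h1 : g • x₁ = x := Subtype.ext ((hcs g x₁).trans hg1)
    have h2 : g • y₁ = y := Subtype.ext ((hcs g y₁).trans hg2)
    rw [← h1, ← h2]
    exact hinv g _ _ hr₁
  -- the Johnson graph is connected
  have hall : ∀ k : ℕ, ∀ x y : Set.powersetCard X (s + 1),
      ((x : Finset X) \ (y : Finset X)).card = k → r x y := by
    intro k
    induction k with
    | zero =>
      intro x y hk
      have hx : (x : Finset X).card = s + 1 := x.2
      have hy : (y : Finset X).card = s + 1 := y.2
      rw [Finset.card_eq_zero, Finset.sdiff_eq_empty_iff_subset] at hk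
      have : x = y := Subtype.ext (Finset.eq_of_subset_of_card_le hk (by omega))
      rw [this]
      exact hr.refl y
    | succ k ih =>
      intro x y hk
      have hx : (x : Finset X).card = s + 1 := x.2
      have hy : (y : Finset X).card = s + 1 := y.2
      obtain ⟨a, ha⟩ : ((x : Finset X) \ (y : Finset X)).Nonempty := by
        rw [← Finset.card_pos]
        omega
      have h1 : ((y : Finset X) \ (x : Finset X)).card = k + 1 := by
        rw [← hk]
        exact Finset.card_sdiff_comm (hy.trans hx.symm)
      obtain ⟨b, hb⟩ : ((y : Finset X) \ (x : Finset X)).Nonempty := by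
        rw [← Finset.card_pos]
        omega
      rw [Finset.mem_sdiff] at ha hb
      have hbe : b ∉ (x : Finset X).erase a := fun h2 => hb.2 (Finset.mem_of_mem_erase h2)
      have hzc : (insert b ((x : Finset X).erase a)).card = s + 1 := by
        rw [Finset.card_insert_of_notMem hbe, Finset.card_erase_of_mem ha.1]
        omega
      let z : Set.powersetCard X (s + 1) := ⟨insert b ((x : Finset X).erase a), hzc⟩
      have hz : (z : Finset X) = insert b ((x : Finset X).erase a) := rfl
      have hxz : ((x : Finset X) ∩ (z : Finset X)) = (x : Finset X).erase a := by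
        ext w
        rw [hz, Finset.mem_inter, Finset.mem_insert, Finset.mem_erase]
        constructor
        · rintro ⟨h2, rfl | h3⟩
          · exact absurd h2 hb.2
          · exact h3
        · rintro ⟨h2, h3⟩
          exact ⟨h3, Or.inr ⟨h2, h3⟩⟩
      have hzy : ((z : Finset X) \ (y : Finset X)) = ((x : Finset X) \ (y : Finset X)).erase a := by
        ext w
        rw [hz, Finset.mem_sdiff, Finset.mem_insert, Finset.mem_erase, Finset.mem_erase,
          Finset.mem_sdiff]
        constructor
        · rintro ⟨rfl | h2, h3⟩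
          · exact absurd hb.1 h3
          · exact ⟨h2.1, h2.2, h3⟩
        · rintro ⟨h2, h3, h4⟩
          exact ⟨Or.inr ⟨h2, h3⟩, h4⟩
      refine hr.trans (hstep x z ?_) (ih z y ?_)
      · rw [hxz, Finset.card_erase_of_mem ha.1]
        omega
      · rw [hzy, Finset.card_erase_of_mem (Finset.mem_sdiff.2 ha)]
        omega
  exact fun x y => hall _ x y rfl

end Pool.Agent.Helper37.PF
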