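import Pool.Agent.Helper37.Prim.SolubleMain

/-!
# PF-T3: some affine groups are soluble (MP_13dc8a_al)

Read `Pool/Agent/Helper37/Prim/{Affine,Spread,AffineMain,AffineFinal}.lean` first: everything
needed is there.

PROOF OF `solvable_of_two_pow`. Let `2 ≤ d` (if `|X| = 2` then `G` embeds in the commutative
group of permutations of two points; for `d = 1` this case; so `4 ≤ |X|`). `exists_affine` with
the point `o`; `p = 2` because `|X| = 2 ^ d`. Let `H = stabilizer G 0`, it acts by additive maps
(`stab_add`), transitively on the nonzero elements (`lin_trans`). `exists_abelian_normal` gives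
an abelian normal subgroup `A ≠ 1` of `H`. As in the proof of `exists_spread`
(Spread.lean) let `R` be the subring of `End V` generated by `A`; it is commutative and normalised
by `H`, and `isSpread_evalSub` shows: either `evalSub R` is a spread (first case, `h3`), or every
`w` is `r v` for some `r ∈ R`, for every `v ≠ 0`. The first case is impossible: by
`steinerPrimitive_of_two_pow` the group is `2`-Steiner primitive (`d` prime), by
`not_steinerPrimitive_of_spread` it is not. In the second case `R` is a finite commutative domain,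
i.e. a finite field, acting regularly on `V ∖ 0` (see the proof of `exists_spread`). The group `H`
acts on `R` by conjugation, by ring automorphisms; the automorphisms of a finite field commute
(`R ≃+* R`: the automorphism group of a finite field is cyclic; or directly: the unit group of
`R` is cyclic, generated by `g`, and an automorphism maps `g` to a power of `g`, so two
automorphisms commute on `g` and hence on `R`). The kernel `C` of `H → Aut R` is commutative:
`h ∈ C` commutes with `R`; choose `r ∈ R` with `h v₀ = r v₀`; then `h (s v₀) = s (h v₀) =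
s (r v₀) = r (s v₀)`, so `h` acts as `r`. So `H` is soluble. Finally `G` is soluble: the map
`G → H`, `g ↦ (x ↦ g x - g 0)` (this element is `τ⁻¹ g` with the translation `τ ∈ G` by `g 0`)
is a homomorphism with kernel the translations, which commute.
-/

namespace Pool.Agent.Helper37.PF

open MulAction Equiv
open Pool.Agent.Helper37.Prim

/-- A transitive linear group with an abelian normal subgroup and without invariant spreads is
soluble. -/
theorem solvable_lin {H V : Type*} [Group H] [AddCommGroup V] [MulAction H V] [FaithfulSMul H V]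
    [Finite V]
    (hadd : ∀ (h : H) (x y : V), h • (x + y) = h • x + h • y)
    (htr : ∀ x y : V, x ≠ 0 → y ≠ 0 → ∃ h : H, h • x = y)
    (A : Subgroup H) (hAn : A.Normal) (hA : A ≠ ⊥) (hAc : ∀ a ∈ A, ∀ b ∈ A, a * b = b * a)
    (hno : ∀ W : V → AddSubgroup V, ¬ IsSpread H V W) (hV : ∃ v : V, v ≠ 0) :
    Group.IsSolvable H := by
  classical
  set R : Subring (AddMonoid.End V) := Subring.closure (endo hadd '' (A : Set H)) with hR
  have hcomm0 : ∀ x ∈ endo hadd '' (A : Set H), ∀ y ∈ endo hadd '' (A : Set H),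
      x * y = y * x := by
    rintro _ ⟨a, ha, rfl⟩ _ ⟨b, hb, rfl⟩
    rw [← endo_mul, ← endo_mul, hAc a ha b hb]
  letI instR : CommRing R := Subring.closureCommRingOfComm hcomm0
  have hcomm : ∀ r ∈ R, ∀ s ∈ R, r * s = s * r := by
    intro r hr s hs
    exact congrArg Subtype.val (mul_comm (⟨r, hr⟩ : R) ⟨s, hs⟩)
  have hconj : ∀ h : H, ∀ r ∈ R, endo hadd h * r * endo hadd h⁻¹ ∈ R := by
    intro h r hr
    induction hr using Subring.closure_induction with
    | mem x hx =>
      obtain ⟨a, ha, rfl⟩ := hx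
      rw [← endo_mul, ← endo_mul]
      exact Subring.subset_closure ⟨_, hAn.conj_mem a ha h, rfl⟩
    | zero => rw [mul_zero, zero_mul]; exact R.zero_mem
    | one => rw [mul_one, ← endo_mul, mul_inv_cancel, endo_one]; exact R.one_mem
    | add x y _ _ hx hy => rw [mul_add, add_mul]; exact R.add_mem hx hy
    | neg x _ hx => rw [mul_neg, neg_mul]; exact R.neg_mem hx
    | mul x y _ _ hx hy => rw [endo_conj_mul]; exact R.mul_mem hx hy
  have hmove : ∀ v : V, v ≠ 0 → ∃ r ∈ R, r v ≠ 0 ∧ r v ≠ v := by
    intro v hv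
    obtain ⟨⟨a, ha⟩, ha1'⟩ := Subgroup.ne_bot_iff_exists_ne_one.1 hA
    have ha1 : a ≠ 1 := fun h => ha1' (Subtype.ext h)
    obtain ⟨u, hu⟩ : ∃ u : V, (a : H) • u ≠ u := by
      by_contra hne
      push Not at hne
      exact ha1 (FaithfulSMul.eq_of_smul_eq_smul (α := V) (fun x => by rw [hne, one_smul]))
    have hu0 : u ≠ 0 := by
      rintro rfl
      exact hu (endo hadd (a : H)).map_zero
    obtain ⟨h, rfl⟩ := htr u v hu0 hv
    refine ⟨endo hadd (h * a * h⁻¹), Subring.subset_closure ⟨_, hAn.conj_mem _ ha h, rfl⟩, ?_, ?_⟩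
    · change (h * a * h⁻¹) • h • u ≠ 0
      rw [mul_smul, inv_smul_smul, mul_smul]
      intro h0
      have h3 : (a : H) • u = 0 := by
        have h4 := congrArg (fun x => h⁻¹ • x) h0
        simp only [inv_smul_smul] at h4
        rw [h4]
        exact (endo hadd h⁻¹).map_zero
      have h4 := congrArg (fun x => (a : H)⁻¹ • x) h3
      simp only [inv_smul_smul] at h4
      rw [h4] at hu0
      exact hu0 (endo hadd (a : H)⁻¹).map_zero
    · change (h * a * h⁻¹) • h • u ≠ h • u
      rw [mul_smul, inv_smul_smul, mul_smul]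
      intro h0
      exact hu (smul_left_cancel h h0)
  by_cases h3 : ∀ v : V, v ≠ 0 → ∃ w, ∀ r ∈ R, r v ≠ w
  · exact absurd (isSpread_evalSub hadd htr R hconj hmove h3) (hno _)
  push Not at h3
  obtain ⟨v₀, hv₀, hv₀R⟩ := h3
  have hsurj : ∀ v : V, v ≠ 0 → ∀ w, ∃ r ∈ R, r v = w := by
    intro v hv w
    obtain ⟨h, rfl⟩ := htr v₀ v hv₀ hv
    obtain ⟨r, hr, hrw⟩ := hv₀R (h⁻¹ • w)
    refine ⟨_, hconj h r hr, ?_⟩
    change h • r (h⁻¹ • h • v₀) = w
    rw [inv_smul_smul, hrw, smul_inv_smul]
  have hzero : ∀ v : V, v ≠ 0 → ∀ r ∈ R, r v = 0 → r = 0 := by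
    intro v hv r hr hrv
    ext w
    obtain ⟨s, hs, rfl⟩ := hsurj v hv w
    have h4 : r (s v) = s (r v) := DFunLike.congr_fun (hcomm r hr s hs) v
    rw [h4, hrv]
    exact s.map_zero
  have hfinE : Finite (AddMonoid.End V) := DFunLike.finite _
  have hone : (1 : AddMonoid.End V) ≠ 0 := by
    intro h
    exact hv₀ (DFunLike.congr_fun h v₀)
  have hnt : Nontrivial R := ⟨⟨1, 0, fun h => hone (congrArg Subtype.val h)⟩⟩
  have hnz : NoZeroDivisors R := ⟨by
    rintro ⟨r, hr⟩ ⟨s, hs⟩ hrs
    have hrs' : r * s = 0 := congrArg Subtype.val hrs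
    by_cases hs0 : s v₀ = 0
    · right
      exact Subtype.ext (hzero v₀ hv₀ s hs hs0)
    · left
      exact Subtype.ext (hzero _ hs0 r hr (DFunLike.congr_fun hrs' v₀))⟩
  have hdom : IsDomain R := NoZeroDivisors.to_isDomain R
  have hfield : IsField R := Finite.isField_of_domain R
  obtain ⟨g, hg⟩ := IsCyclic.exists_monoid_generator (α := Rˣ)
  set γ : AddMonoid.End V := ((g : R) : AddMonoid.End V) with hγ
  have hγR : γ ∈ R := (g : R).2
  have hpow : ∀ r ∈ R, r ≠ 0 → ∃ n : ℕ, r = γ ^ n := by
    intro r hr hr0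
    obtain ⟨s, hs⟩ := hfield.mul_inv_cancel (a := (⟨r, hr⟩ : R))
      (fun h => hr0 (congrArg Subtype.val h))
    have hu : IsUnit (⟨r, hr⟩ : R) := IsUnit.of_mul_eq_one s hs
    obtain ⟨u, hu'⟩ := hu
    obtain ⟨n, hn⟩ := hg u
    refine ⟨n, ?_⟩
    have h5 : (g ^ n : Rˣ) = u := hn
    have h6 := congrArg (fun x : Rˣ => ((x : R) : AddMonoid.End V)) h5
    have h7 : ((u : R) : AddMonoid.End V) = r := congrArg Subtype.val hu'
    rw [h7] at h6
    rw [← h6]
    simp [hγ]
  have hγ0 : γ ≠ 0 := by
    intro h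
    exact g.ne_zero (Subtype.ext h)
  have hcj : ∀ (h k : H) (r : AddMonoid.End V),
      endo hadd (h * k) * r * endo hadd (h * k)⁻¹ =
        endo hadd h * (endo hadd k * r * endo hadd k⁻¹) * endo hadd h⁻¹ := by
    intro h k r
    rw [mul_inv_rev, endo_mul, endo_mul]
    simp only [mul_assoc]
  have hcji : ∀ (h : H) (r : AddMonoid.End V),
      endo hadd h * (endo hadd h⁻¹ * r * endo hadd h⁻¹⁻¹) * endo hadd h⁻¹ = r := by
    intro h r
    rw [← hcj, mul_inv_cancel, inv_one, endo_one, one_mul, mul_one]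
  have hcj0 : ∀ (h : H) (r : AddMonoid.End V), r ≠ 0 → endo hadd h * r * endo hadd h⁻¹ ≠ 0 := by
    intro h r hr h0
    apply hr
    have h5 := hcji h⁻¹ r
    rw [inv_inv, h0, mul_zero, zero_mul] at h5
    exact h5.symm
  have hcjc : ∀ (h k : H) (r : AddMonoid.End V), r ∈ R →
      endo hadd h * (endo hadd k * r * endo hadd k⁻¹) * endo hadd h⁻¹ =
        endo hadd k * (endo hadd h * r * endo hadd h⁻¹) * endo hadd k⁻¹ := by
    intro h k r hr
    by_cases hr0 : r = 0
    · rw [hr0]
      simp only [mul_zero, zero_mul]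
    · obtain ⟨n, rfl⟩ := hpow r hr hr0
      obtain ⟨a, ha⟩ := hpow _ (hconj h γ hγR) (hcj0 h γ hγ0)
      obtain ⟨b, hb⟩ := hpow _ (hconj k γ hγR) (hcj0 k γ hγ0)
      rw [endo_conj_pow hadd k γ n, hb, endo_conj_pow hadd h γ n, ha, ← pow_mul, ← pow_mul,
        endo_conj_pow hadd h, ha, endo_conj_pow hadd k, hb, ← pow_mul, ← pow_mul]
      congr 1
      ring
  let D : Subgroup H :=
    { carrier := {h | ∀ r ∈ R, endo hadd h * r * endo hadd h⁻¹ = r}
      mul_mem' := by
        intro h k hh hk r hr
        rw [hcj, hk r hr, hh r hr]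
      one_mem' := by
        intro r _
        rw [inv_one, endo_one, one_mul, mul_one]
      inv_mem' := by
        intro h hh r hr
        have h5 := hcji h⁻¹ r
        rw [inv_inv, hh r hr] at h5
        rw [inv_inv]
        exact h5 }
  have hDmem : ∀ h, h ∈ D ↔ ∀ r ∈ R, endo hadd h * r * endo hadd h⁻¹ = r := fun h => Iff.rfl
  have hDR : ∀ h ∈ D, endo hadd h ∈ R := by
    intro h hh
    have hh' : ∀ r ∈ R, ∀ v : V, h • r v = r (h • v) := by
      intro r hr v
      have h5 := DFunLike.congr_fun ((hDmem h).1 hh r hr) (h • v)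
      have h6 : h • r (h⁻¹ • h • v) = r (h • v) := h5
      rwa [inv_smul_smul] at h6
    obtain ⟨r, hr, hrv⟩ := hsurj v₀ hv₀ (h • v₀)
    have h7 : endo hadd h = r := by
      ext w
      obtain ⟨s, hs, rfl⟩ := hsurj v₀ hv₀ w
      rw [endo_apply, hh' s hs, ← hrv]
      exact DFunLike.congr_fun (hcomm s hs r hr) v₀
    rw [h7]
    exact hr
  have hDc : ∀ a ∈ D, ∀ b ∈ D, a * b = b * a := by
    intro a ha b hb
    have h5 : endo hadd (a * b) = endo hadd (b * a) := by
      rw [endo_mul, endo_mul]
      exact hcomm _ (hDR a ha) _ (hDR b hb)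
    exact FaithfulSMul.eq_of_smul_eq_smul (α := V) (fun x => DFunLike.congr_fun h5 x)
  have hD1 : derivedSeries H 1 ≤ D := by
    rw [derivedSeries_one, commutator_def, Subgroup.commutator_le]
    intro h _ k _
    rw [hDmem]
    intro r hr
    rw [commutatorElement_def, hcj, hcj]
    have h5 := hcjc h k (endo hadd h⁻¹ * (endo hadd k⁻¹ * r * endo hadd k⁻¹⁻¹) * endo hadd h⁻¹⁻¹)
      (hconj _ _ (hconj _ _ hr))
    rw [hcj, h5, hcji, hcji]
  refine ⟨⟨2, ?_⟩⟩
  rw [eq_bot_iff, derivedSeries_succ]
  refine (Subgroup.commutator_mono hD1 hD1).trans ?_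
  rw [Subgroup.commutator_le]
  intro a ha b hb
  rw [Subgroup.mem_bot, commutatorElement_eq_one_iff_mul_comm]
  exact hDc a ha b hb

/-- An affine group is soluble if the stabiliser of `0` is soluble. -/
theorem solvable_of_stab {G X : Type*} [Group G] [MulAction G X] [FaithfulSMul G X]
    [AddCommGroup X]
    (htrans : ∀ v : X, ∃ g : G, ∀ x, g • x = x + v)
    (haff : ∀ (g : G) (x v : X), g • (x + v) = g • x + (g • v - g • (0 : X)))
    (hH : Group.IsSolvable (stabilizer G (0 : X))) : Group.IsSolvable G := by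
  classical
  choose L hL using exists_lin (G := G) htrans
  let φ : G →* stabilizer G (0 : X) := MonoidHom.mk' L (by
    intro g g'
    apply Subtype.ext
    apply FaithfulSMul.eq_of_smul_eq_smul (α := X)
    intro v
    change L (g * g') • v = (L g * L g') • v
    have h1 := haff g (g' • v - g' • (0 : X)) (g' • (0 : X))
    rw [sub_add_cancel] at h1
    rw [mul_smul, hL, hL, hL, mul_smul, mul_smul, h1]
    abel)
  have hφ : ∀ g : G, φ g = 1 → ∀ v, g • v = v + g • (0 : X) := by
    intro g hg v
    have h1 : L g • v = g • v - g • (0 : X) := hL g v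
    have h2 : L g = 1 := hg
    rw [h2, one_smul] at h1
    nth_rewrite 2 [h1]
    rw [sub_add_cancel]
  have hker : Group.IsSolvable φ.ker := by
    apply Group.isSolvable_of_comm
    rintro ⟨a, ha⟩ ⟨b, hb⟩
    apply Subtype.ext
    apply FaithfulSMul.eq_of_smul_eq_smul (α := X)
    intro v
    change (a * b) • v = (b * a) • v
    rw [MonoidHom.mem_ker] at ha hb
    rw [mul_smul, mul_smul, hφ a ha (b • v), hφ b hb v, hφ b hb (a • v), hφ a ha v]
    abel
  exact Group.isSolvable_of_ker_le_range φ.ker.subtype φ (by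
    rw [Subgroup.range_subtype])

theorem solvable_of_two_pow {X : Type} [Finite X] {G : Subgroup (Perm X)}
    (h2 : IsMultiplyPretransitive G X 2) (N : Subgroup G) (hNn : N.Normal) (hN : N ≠ ⊥)
    (hs : Group.IsSolvable N) {d : ℕ} (hd : d.Prime) (hX : Nat.card X = 2 ^ d) (o : X)
    (A : Subgroup (stabilizer G o)) (hAn : A.Normal) (hA : A ≠ ⊥) (hAs : Group.IsSolvable A) :
    Group.IsSolvable G := by
  classical
  have h4 : 4 ≤ Nat.card X := by
    have := Nat.pow_le_pow_right (n := 2) (by norm_num) hd.two_le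
    rw [hX]
    omega
  have hprim : IsPreprimitive G X := isPreprimitive_of_is_two_pretransitive h2
  obtain ⟨p, inst, hp, h0, hpx, htrans, haff⟩ := exists_affine hprim N hNn hN hs o
  subst h0
  obtain ⟨d', hd'⟩ := exists_card_eq_pow hp hpx
  have hp2 : p = 2 := by
    by_contra hp2
    have h5 : Odd (Nat.card X) := by
      rw [hd']; exact (hp.odd_of_ne_two hp2).pow
    rw [hX] at h5
    exact (Nat.not_even_iff_odd.2 h5) ((even_two).pow_of_ne_zero hd.ne_zero)
  subst hp2
  obtain ⟨A', hAn', hA', hAc'⟩ := exists_abelian_normal A hAn hA hAs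
  have hf : FaithfulSMul (stabilizer G (0 : X)) X := by
    constructor
    intro g g' hgg
    apply Subtype.ext
    exact FaithfulSMul.eq_of_smul_eq_smul (α := X) hgg
  have hnt : ∃ v : X, v ≠ 0 := by
    have : Nontrivial X := by
      rw [← Finite.one_lt_card_iff_nontrivial]; omega
    exact exists_ne 0
  have hst : SteinerPrimitive G X 2 := steinerPrimitive_of_two_pow hpx htrans hd hX
  have hH : Group.IsSolvable (stabilizer G (0 : X)) :=
    solvable_lin (stab_add haff) (lin_trans h2) A' hAn' hA' hAc'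
      (fun W hW => not_steinerPrimitive_of_spread htrans haff h2 (by omega) W hW hst) hnt
  exact solvable_of_stab htrans haff hH

end Pool.Agent.Helper37.PF
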