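import Pool.Agent.Helper37.Prim.SolubleMain

/-!
# PF-T2: some affine groups are soluble (MP_13dc8a_al)

Read `Pool/Agent/Helper37/Prim/{Affine,Spread,AffineMain,AffineFinal}.lean` first: everything
needed is there.

PROOF OF `solvable_of_prime`. `exists_affine` (with `IsPreprimitive G X` from
`isPreprimitive_of_is_two_pretransitive`) gives an addition on `X` with `p • x = 0`, all
translations in `G` and `g (x + v) = g x + (g v - g 0)`. By `exists_card_eq_pow`,
`|X| = p ^ d`, so `|X| = p`. So `X` is cyclic: fix `x₀ ≠ 0`; every `x` is `k • x₀`. The map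
`L : g ↦ (x ↦ g x - g 0)` is a homomorphism from `G` to the additive automorphisms, which is a
commutative group (`L g (x₀) = k • x₀` gives `L g (x) = k • x` for all `x`), and its kernel
consists of translations, which commute. Hence the second derived subgroup is trivial and `G` is
soluble. (For instance: `Group.isSolvable_of_ker_le_range` or the composition of two `commutator`
steps; the kernel is commutative and the image is commutative.)
-/

namespace Pool.Agent.Helper37.PF

open MulAction Equiv
open Pool.Agent.Helper37.Prim

theorem solvable_of_prime {X : Type} [Finite X] {G : Subgroup (Perm X)}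
    (h2 : IsMultiplyPretransitive G X 2) (N : Subgroup G) (hNn : N.Normal) (hN : N ≠ ⊥)
    (hs : Group.IsSolvable N) (hp : (Nat.card X).Prime) : Group.IsSolvable G := by
  classical
  have hprim : IsPreprimitive G X := isPreprimitive_of_is_two_pretransitive h2
  obtain ⟨o⟩ : Nonempty X := (Nat.card_pos_iff.1 hp.pos).1
  obtain ⟨q, inst, hq, h0, hqx, htrans, haff⟩ := exists_affine hprim N hNn hN hs o
  have hfact : Fact (Nat.card X).Prime := ⟨hp⟩
  have hcyc : IsAddCyclic X := isAddCyclic_of_prime_card (p := Nat.card X) rfl
  obtain ⟨x₀, hx₀⟩ := hcyc.exists_zsmul_surjective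
  -- the linear part
  let L : G → X → X := fun g x => g • x - g • (0 : X)
  have hL : ∀ g x, L g x = g • x - g • (0 : X) := fun _ _ => rfl
  have hLa : ∀ g x y, L g (x + y) = L g x + L g y := by
    intro g x y
    rw [hL, hL, hL, haff]
    abel
  have hLz : ∀ (g : G) (k : ℤ) (x : X), L g (k • x) = k • L g x := by
    intro g k x
    exact map_zsmul (AddMonoidHom.mk' (L g) (hLa g)) k x
  have hLm : ∀ g h x, L (g * h) x = L g (L h x) := by
    intro g h x
    have h1 : g • (h • x) = g • (h • (0 : X) + (h • x - h • (0 : X))) := by
      congr 1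
      abel
    rw [hL (g * h), mul_smul, mul_smul, h1, haff]
    rw [add_sub_cancel_left]
  have hL1 : ∀ x, L 1 x = x := by
    intro x
    rw [hL, one_smul, one_smul, sub_zero]
  have hLc : ∀ g h x, L g (L h x) = L h (L g x) := by
    intro g h x
    obtain ⟨a, ha⟩ := hx₀ (L g x₀)
    obtain ⟨b, hb⟩ := hx₀ (L h x₀)
    obtain ⟨k, rfl⟩ := hx₀ x
    have ha' : L g x₀ = a • x₀ := ha.symm
    have hb' : L h x₀ = b • x₀ := hb.symm
    change L g (L h (k • x₀)) = L h (L g (k • x₀))
    rw [hLz, hLz, hLz, hLz, ha', hb', hLz, hLz, ha', hb', smul_comm a b x₀]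
  -- commutators are translations
  have hT : ∀ g ∈ commutator G, ∀ x, L g x = x := by
    let T : Subgroup G :=
      { carrier := {g | ∀ x, L g x = x}
        mul_mem' := by
          intro g h hg hh x
          rw [hLm, hh, hg]
        one_mem' := hL1
        inv_mem' := by
          intro g hg x
          have h1 := hLm g⁻¹ g x
          rw [inv_mul_cancel, hL1, hg] at h1
          exact h1.symm }
    have h1 : commutator G ≤ T := by
      rw [commutator_def, Subgroup.commutator_le]
      intro g _ h _ x
      have h3 : g * h * g⁻¹ * h⁻¹ = g * h * (h * g)⁻¹ := by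
        rw [mul_inv_rev]
        simp only [mul_assoc]
      have h4 : L (h * g) (L (h * g)⁻¹ x) = x := by
        rw [← hLm, mul_inv_cancel, hL1]
      change L (g * h * g⁻¹ * h⁻¹) x = x
      rw [h3, hLm, hLm g h, hLc, ← hLm h g, h4]
    exact fun g hg => h1 hg
  have hcomm : Group.IsSolvable (commutator G) := by
    apply Group.isSolvable_of_comm
    rintro ⟨a, ha⟩ ⟨b, hb⟩
    apply Subtype.ext
    apply FaithfulSMul.eq_of_smul_eq_smul (α := X)
    intro x
    have ha' : ∀ x, a • x = x + a • (0 : X) := by
      intro x
      have h3 := hT a ha x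
      rw [hL, sub_eq_iff_eq_add] at h3
      exact h3
    have hb' : ∀ x, b • x = x + b • (0 : X) := by
      intro x
      have h3 := hT b hb x
      rw [hL, sub_eq_iff_eq_add] at h3
      exact h3
    change (a * b) • x = (b * a) • x
    rw [mul_smul, mul_smul, ha' (b • x), hb' x, hb' (a • x), ha' x]
    abel
  rw [Group.isSolvable_iff_subgroup_quotient (commutator G)]
  refine ⟨hcomm, ?_⟩
  change Group.IsSolvable (Abelianization G)
  infer_instance

end Pool.Agent.Helper37.PF
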