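import Pool.Agent.Helper37.PF.Suff
import Pool.Agent.Helper37.PF.SolPrime
import Pool.Agent.Helper37.PF.SolPow
import Pool.Agent.Helper37.PF.CM23
import Pool.Agent.Helper37.PF.CM22
import Pool.Agent.Helper37.PF.CM12
import Pool.Agent.Helper37.PF.CM11e
import Pool.Agent.Helper37.PF.CM11
import Pool.Agent.Helper37.PF.CPsl11
import Pool.Agent.Helper37.PF.FM24
import Pool.Agent.Helper37.PF.FM23
import Pool.Agent.Helper37.PF.FM22
import Pool.Agent.Helper37.PF.FM12
import Pool.Agent.Helper37.PF.FM11e
import Pool.Agent.Helper37.PF.FM11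
import Pool.Agent.Helper37.PF.FPsl11
import Pool.Agent.Helper37.PF.THS
import Pool.Agent.Helper37.PF.TCo3
import Pool.Agent.Helper37.Prim.HS
import Pool.Agent.Helper37.Prim.Co3
import Pool.Agent.Helper37.Prim.Lines

/-!
# Three generalisations of primitivity (MP_13dc8a_al): the exceptions in the list are in the answer
-/

namespace Pool.Agent.Helper37.PF

open MulAction Equiv
open Pool.Agent.Helper37.Prim
open scoped LinearAlgebra.Projectivization

/-- The exceptions are in the answer. -/
def Nec {X : Type} [Fintype X] [DecidableEq X] (G : Subgroup (Perm X)) (t : ℕ) : Prop :=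
  (ExcA G X t → AnsA G t) ∧ (ExcB G X t → AnsB G t) ∧ (ExcC G X t → AnsB G t ∨ AnsC G t)

section

variable {X : Type} [Fintype X] [DecidableEq X] {G : Subgroup (Perm X)} {t : ℕ}

theorem nec_of_all (h1 : IsMultiplyPreprimitive G X t)
    (h2 : IsPreprimitive G (Set.powersetCard X t)) : Nec G t :=
  ⟨fun h => absurd h2 h.2, fun h => absurd h1 h.2, fun h => absurd h1 h.2⟩

theorem nec_of_not_steiner (ht : 1 ≤ t) (htn : t ≤ Nat.card X) (h : ¬ SteinerPrimitive G X t) :
    Nec G t := by
  obtain ⟨h1, h2, h3, -⟩ := no_exception ht htn h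
  exact ⟨fun h => absurd h h1, fun h => absurd h h2, fun h => absurd h h3⟩

omit [DecidableEq X] in
/-- `t`-transitivity from a larger degree of transitivity. -/
theorem trans_le {k : ℕ} (hk : k ≤ t) (htn : t ≤ Nat.card X)
    (h : IsMultiplyPretransitive G X t) : IsMultiplyPretransitive G X k :=
  isMultiplyPretransitive_of_le (n := t) hk htn

/-- A group which is not `k`-Steiner primitive is not `(k + 1)`-transitive. -/
theorem le_of_not_steiner {k : ℕ} (hk : 1 ≤ k) (htn : t ≤ Nat.card X)
    (hG : IsMultiplyPretransitive G X t) (h : ¬ SteinerPrimitive G X k) : t ≤ k := by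
  by_contra hlt
  push Not at hlt
  have h1 : IsMultiplyPretransitive G X (k + 1) := trans_le hlt htn hG
  exact h (SteinerPrimitive.of_tprimitive hk (by omega) (tprim_of_succ (by omega) h1))

theorem le_of_not_trans {k : ℕ} (htn : t ≤ Nat.card X)
    (hG : IsMultiplyPretransitive G X t) (h : ¬ IsMultiplyPretransitive G X (k + 1)) : t ≤ k := by
  by_contra hlt
  push Not at hlt
  exact h (trans_le hlt htn hG)

/-- Groups which are not `2`-Steiner primitive. -/
theorem nec_of_not_steiner_two (ht : 2 ≤ t) (htn : t ≤ Nat.card X)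
    (hG : IsMultiplyPretransitive G X t) (h : ¬ SteinerPrimitive G X 2) : Nec G t := by
  obtain rfl : t = 2 := le_antisymm (le_of_not_steiner (by norm_num) htn hG h) ht
  exact nec_of_not_steiner (by norm_num) htn h

/-- Transfer of the facts for the sporadic groups. -/
theorem nec_of_iso_all {Y : Type} [DecidableEq Y] {H : Subgroup (Perm Y)} (h : PermIso G H)
    (h1 : IsMultiplyPreprimitive H Y t) (h2 : IsPreprimitive H (Set.powersetCard Y t)) :
    Nec G t :=
  nec_of_all ((h.prim_iff t).2 h1) ((h.set_iff t).2 h2)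

/-- Affine groups, `t ≥ 3`. -/
theorem nec_of_hasSol (ht : 3 ≤ t) (htn : t ≤ Nat.card X)
    (hG : IsMultiplyPretransitive G X t) (hS : HasSol G) : Nec G t := by
  obtain ⟨N, hNn, hN, hs⟩ := hS
  obtain ⟨h1, h2, h3, -⟩ := affineAnswer_of_three_le ht htn hG N hNn hN hs
  exact ⟨fun h => absurd h h1, fun h => absurd h h2, fun h => absurd h h3⟩

omit [Fintype X] [DecidableEq X] in
/-- Soluble normal subgroups are preserved by permutation isomorphisms. -/
theorem PermIso.hasSol {Y : Type} {H : Subgroup (Perm Y)} (h : PermIso G H) (hH : HasSol H) :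
    HasSol G := by
  obtain ⟨e, he⟩ := h
  let φ : G →* H :=
    { toFun := fun g => ⟨e.permCongr g, (he g).1 g.2⟩
      map_one' := by
        apply Subtype.ext
        ext y
        simp
      map_mul' := by
        intro a b
        apply Subtype.ext
        ext y
        simp }
  have hφ : Function.Injective φ := by
    intro a b hab
    apply Subtype.ext
    exact e.permCongr.injective (congrArg Subtype.val hab)
  obtain ⟨N, hNn, hN, hs⟩ := hH
  refine ⟨N.comap φ, hNn.comap φ, ?_, ?_⟩
  · intro h
    apply hN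
    rw [Subgroup.eq_bot_iff_forall] at h ⊢
    intro n hn
    have h1 : e.permCongr (e.symm.permCongr (n : Perm Y)) = n := by
      ext y
      simp
    have h2 : e.symm.permCongr (n : Perm Y) ∈ G := by
      rw [he, h1]
      exact n.2
    have h3 : φ ⟨_, h2⟩ = n := Subtype.ext h1
    have h4 := h ⟨_, h2⟩ (by
      rw [Subgroup.mem_comap, h3]
      exact hn)
    rw [h4, map_one] at h3
    exact h3.symm
  · have h1 : Function.Injective (φ.subgroupComap N) := by
      intro a b hab
      apply Subtype.ext
      apply hφ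
      exact congrArg Subtype.val hab
    exact Group.isSolvable_of_isSolvable_injective h1

/-- Groups of affine maps which contain the translations. -/
theorem hasSol_of_translations {V : Type} [AddCommGroup V] {H : Subgroup (Perm V)}
    (hV : ∃ v : V, v ≠ 0) (hA : ∀ g ∈ H, ∀ x v, g (x + v) = g x + (g v - g 0))
    (hT : ∀ v : V, ∃ g ∈ H, ∀ x, g x = x + v) : HasSol H := by
  let N : Subgroup H :=
    { carrier := {g | ∃ v : V, ∀ x, (g : Perm V) x = x + v}
      mul_mem' := by
        rintro a b ⟨v, hv⟩ ⟨w, hw⟩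
        exact ⟨w + v, fun x => by
          change (a : Perm V) ((b : Perm V) x) = _
          rw [hw, hv, add_assoc]⟩
      one_mem' := ⟨0, fun x => by simp⟩
      inv_mem' := by
        rintro a ⟨v, hv⟩
        refine ⟨-v, fun x => ?_⟩
        change (a : Perm V)⁻¹ x = _
        rw [Perm.inv_eq_iff_eq, hv, neg_add_cancel_right] }
  refine ⟨N, ⟨?_⟩, ?_, ?_⟩
  · rintro a ⟨v, hv⟩ g
    refine ⟨(g : Perm V) v - (g : Perm V) 0, fun x => ?_⟩
    change (g : Perm V) ((a : Perm V) ((g : Perm V)⁻¹ x)) = _
    rw [hv, hA g g.2]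
    congr 1
    exact (g : Perm V).apply_symm_apply x
  · obtain ⟨v, hv⟩ := hV
    obtain ⟨g, hg, hgv⟩ := hT v
    intro h
    have h1 : (⟨g, hg⟩ : H) ∈ N := ⟨v, hgv⟩
    rw [h, Subgroup.mem_bot] at h1
    have h2 : g = 1 := congrArg Subtype.val h1
    have h3 := hgv 0
    rw [h2, Perm.one_apply, zero_add] at h3
    exact hv h3.symm
  · have hc : ∀ a b : N, a * b = b * a := by
      rintro ⟨a, v, hv⟩ ⟨b, w, hw⟩
      apply Subtype.ext
      apply Subtype.ext
      ext x
      change (a : Perm V) ((b : Perm V) x) = (b : Perm V) ((a : Perm V) x)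
      rw [hv, hw, hv, hw, add_right_comm]
    exact Group.isSolvable_of_comm hc

end

end Pool.Agent.Helper37.PF
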