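import Mathlib

/-!
# PF-C2a: an equation over a finite field with a Tits automorphism (MP_13dc8a_al)

PROOF. `F` has characteristic two: `4 = (1 + 1) ^ 2 = θ (θ (1 + 1)) = 1 + 1 = 2` in `F`, so `2 = 0`.
The equation `(α x + β y) (γ x + δ y) + (α x + β y) ^ 2 θ (α x + β y) + θ (γ x + δ y)
 = ν (x y + x ^ 2 θ x + θ y)` is called (1).
* `y = 0`: `α γ x ^ 2 + α ^ 2 θ(α) x ^ 2 θ(x) + θ(γ) θ(x) = ν x ^ 2 θ(x)`; subtract `x ^ 2 θ(x)` times
  the case `x = 1`: `α γ x ^ 2 (1 + θ x) = θ(γ) θ(x) (1 + x ^ 2)` for all `x`. (2) Suppose `γ ≠ 0`.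
  Take `x₁ ≠ 0, 1` (`2 < |F|`): (2) gives `α ≠ 0`. Put `c = θ(γ) / (α γ) ≠ 0`. For `x ≠ 0`, with
  `u = 1 / x`, (2) divided by `x ^ 2 θ(x)` is `θ (1 + u) = c (1 + u) ^ 2` (characteristic two). So
  `θ w = c w ^ 2` for all `w ≠ 1`. Take `w ≠ 0, 1`; then `w ^ 2 ≠ 1` and
  `c w ^ 4 = θ (w ^ 2) = (θ w) ^ 2 = c ^ 2 w ^ 4`, so `c = 1`, `θ w = w ^ 2`, so
  `w ^ 2 = θ (θ w) = θ (w ^ 2) = (θ w) ^ 2 = w ^ 4`, so `w ^ 2 = 1`, `w = 1`, contradiction. So
  `γ = 0` and (x = 1) `ν = α ^ 2 θ(α)`; in particular `α ≠ 0`.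
* `x = 0`: `β δ y ^ 2 + β ^ 2 θ(β) y ^ 2 θ(y) + θ(δ) θ(y) = ν θ(y)`, and with the case `y = 1`:
  `β δ y ^ 2 + β ^ 2 θ(β) y ^ 2 θ(y) = (β δ + β ^ 2 θ(β)) θ(y)`. Suppose `β ≠ 0`, put
  `κ = β θ(β) ≠ 0`; for `y ≠ 0`, `u = 1 / y`: `δ θ(u) + κ = (δ + κ) u ^ 2`. Take `u = 1`,
  `v ≠ 0, 1` and `u + v ≠ 0`: adding the three equations for `u`, `v`, `u + v` gives `κ = 0`
  (`θ` and the square are additive), contradiction. So `β = 0` and `ν = θ(δ)`.
* `x = y = 1` in (1): `α δ = ν = α ^ 2 θ(α)`, so `δ = α θ(α)`.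
-/

namespace Pool.Agent.Helper37.PF

theorem sz_alg {F : Type} [Field F] {θ : F ≃+* F} (hF : 2 < Nat.card F)
    (hθ : ∀ x, θ (θ x) = x ^ 2) {α β γ δ ν : F} (hν : ν ≠ 0)
    (h : ∀ x y : F, (α * x + β * y) * (γ * x + δ * y) +
      (α * x + β * y) ^ 2 * θ (α * x + β * y) + θ (γ * x + δ * y) =
      ν * (x * y + x ^ 2 * θ x + θ y)) :
    α ≠ 0 ∧ β = 0 ∧ γ = 0 ∧ δ = α * θ α := by
  have h2 : (2 : F) = 0 := by
    have e := hθ 2
    rw [map_ofNat, map_ofNat] at e
    linear_combination -e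
  obtain ⟨v, hv0, hv1⟩ : ∃ v : F, v ≠ 0 ∧ v ≠ 1 := by
    by_contra hcon
    push Not at hcon
    have hs : Function.Surjective (fun b : Bool => if b then (0 : F) else 1) := by
      intro x
      by_cases hx : x = 0
      · exact ⟨true, by simp [hx]⟩
      · exact ⟨false, by simp [hcon x hx]⟩
    have := Nat.card_le_card_of_surjective _ hs
    simp at this
    omega
  have hv1' : 1 + v ≠ 0 := by
    intro e
    apply hv1
    linear_combination e - h2
  have hsq : ∀ w : F, w ^ 2 = 1 → w = 1 := by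
    intro w hw
    have : (w - 1) ^ 2 = 0 := by linear_combination hw + (1 - w) * h2
    have := pow_eq_zero_iff (two_ne_zero) |>.1 this
    linear_combination this
  have hθ0 : ∀ w : F, w ≠ 0 → θ w ≠ 0 := fun w hw => by
    rw [Ne, map_eq_zero_iff θ θ.injective]
    exact hw
  -- the case y = 0
  have hA : ∀ x : F, α * γ * x ^ 2 + α ^ 2 * θ α * x ^ 2 * θ x + θ γ * θ x =
      ν * (x ^ 2 * θ x) := by
    intro x
    have e := h x 0
    simp only [mul_zero, add_zero, map_mul, map_zero, zero_add] at e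
    linear_combination e
  have hA1 := hA 1
  simp only [map_one, one_pow, mul_one] at hA1
  have hA2 : ∀ x : F, α * γ * x ^ 2 * (1 - θ x) = θ γ * θ x * (x ^ 2 - 1) := by
    intro x
    linear_combination hA x - x ^ 2 * θ x * hA1
  have hγ : γ = 0 := by
    by_contra hγ
    have hθγ := hθ0 _ hγ
    have hα : α ≠ 0 := by
      rintro rfl
      have e := hA2 v
      rw [zero_mul, zero_mul, zero_mul] at e
      rcases mul_eq_zero.1 e.symm with e1 | e1
      · rcases mul_eq_zero.1 e1 with e2 | e2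
        · exact hθγ e2
        · exact hθ0 _ hv0 e2
      · exact hv1 (hsq v (by linear_combination e1))
    have h3 : ∀ w : F, w ≠ 1 → α * γ * θ w = θ γ * w ^ 2 := by
      intro w hw
      have hu : 1 + w ≠ 0 := by
        intro e
        apply hw
        linear_combination e - h2
      have hθu := hθ0 _ hu
      have e := hA2 (1 + w)⁻¹
      rw [map_inv₀] at e
      rw [map_add, map_one] at e hθu
      field_simp at e
      linear_combination e - (θ γ * w + θ γ * w ^ 2) * h2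
    have hv2 : v ^ 2 ≠ 1 := fun e => hv1 (hsq v e)
    have e1 := h3 v hv1
    have e2 := h3 (v ^ 2) hv2
    rw [map_pow] at e2
    have hv4 : v ^ 4 ≠ 0 := pow_ne_zero _ hv0
    have e3 : θ γ * v ^ 4 * (α * γ - θ γ) = 0 := by
      linear_combination (-(α * γ)) * e2 + (α * γ * θ v + θ γ * v ^ 2) * e1
    have e4 : α * γ = θ γ := by
      rcases mul_eq_zero.1 e3 with e5 | e5
      · exact absurd e5 (mul_ne_zero hθγ hv4)
      · linear_combination e5
    have h5 : ∀ w : F, w ≠ 1 → θ w = w ^ 2 := by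
      intro w hw
      have := h3 w hw
      rw [e4] at this
      exact mul_left_cancel₀ hθγ this
    have e6 := hθ v
    rw [h5 v hv1, map_pow, h5 v hv1] at e6
    apply hv2
    have hvv : v ^ 2 ≠ 0 := pow_ne_zero _ hv0
    apply mul_left_cancel₀ hvv
    linear_combination e6
  subst hγ
  rw [mul_zero, zero_add, map_zero, add_zero] at hA1
  have hα : α ≠ 0 := by
    rintro rfl
    apply hν
    rw [← hA1]
    simp
  -- the case x = 0
  have hB : ∀ y : F, β * δ * y ^ 2 + β ^ 2 * θ β * y ^ 2 * θ y + θ δ * θ y = ν * θ y := by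
    intro y
    have e := h 0 y
    simp only [mul_zero, zero_add, map_mul, map_zero, zero_mul, ne_eq, OfNat.ofNat_ne_zero,
      not_false_eq_true, zero_pow] at e
    linear_combination e
  have hB1 := hB 1
  simp only [map_one, one_pow, mul_one] at hB1
  have hB2 : ∀ y : F, β * (δ * y ^ 2 + β * θ β * y ^ 2 * θ y) =
      β * ((δ + β * θ β) * θ y) := by
    intro y
    linear_combination hB y - θ y * hB1
  have hβ : β = 0 := by
    by_contra hβ
    have h4 : ∀ u : F, u ≠ 0 → δ * θ u + β * θ β = (δ + β * θ β) * u ^ 2 := by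
      intro u hu
      have hθu := hθ0 _ hu
      have e := mul_left_cancel₀ hβ (hB2 u⁻¹)
      rw [map_inv₀] at e
      field_simp at e
      linear_combination e
    have e1 := h4 1 one_ne_zero
    have e2 := h4 v hv0
    have e3 := h4 (1 + v) hv1'
    rw [map_one] at e1
    rw [map_add, map_one] at e3
    have e4 : β * θ β = 0 := by
      linear_combination e1 + e2 + e3 - (δ + δ * θ v + β * θ β - (δ + β * θ β) * (1 + v + v ^ 2)) * h2
    rcases mul_eq_zero.1 e4 with e5 | e5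
    · exact hβ e5
    · exact hθ0 _ hβ e5
  subst hβ
  refine ⟨hα, rfl, rfl, ?_⟩
  have hC := h 1 1
  simp only [mul_one, zero_add, add_zero, map_one, one_pow] at hC
  apply mul_left_cancel₀ hα
  linear_combination hC - 2 * hA1 - hB1

end Pool.Agent.Helper37.PF
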