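import Pool.Agent.Helper37.PF.ScPerm
import Pool.Agent.Helper37.PF.ScAlg

/-!
# PF-C2: the Suzuki groups, the stabiliser of two points (MP_13dc8a_al)

The lemmas of `PF/ScPerm.lean` (module PF-C1) are used.

PROOF. Let `vec : OnePoint (F × F) → (Fin 4 → F)`, `vec ∞ = (1, 0, 0, 0)`,
`vec (x, y) = (z, y, x, 1)`, `z = szZ θ (x, y)`, and
`B u v = u 0 * v 3 + u 3 * v 0 + u 1 * v 2 + u 2 * v 1` (characteristic two). Let `P g` be: there
are a linear equivalence `M` of `Fin 4 → F` and `μ ≠ 0` with `B (M u) (M v) = μ * B u v` for all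
`u`, `v`, and for every point `p` there is `l ≠ 0` with `M (vec p) = l • vec (g p)`. `P` holds for `1`,
and it is closed under products and inverses. `P g` for all `g ∈ Sz θ`
(`Subgroup.closure_induction`):
* `g = szT θ a b`: with `c = a * b + a ^ 2 * θ a + θ b` and `e = b + a * θ a`,
  `M (z, y, x, w) = (z + a y + e x + c w, y + θ(a) x + b w, x + a w, w)`, `μ = 1`. Indeed
  `z (x + a, y + b + θ(a) x) = z (x, y) + a y + e x + c`:
  the left side is `(x + a) (y + b + θ(a) x) + (x ^ 2 + a ^ 2) (θ x + θ a) + θ y + θ b + a ^ 2 θ x`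
  (`θ (θ(a) x) = a ^ 2 θ(x)`). `M` is invertible (unitriangular). `B` is preserved: all the other
  terms appear twice.
* `g = szN θ k`: `M = diag (k ^ 2 θ k, k θ k, k, 1)`, `μ = k ^ 2 θ k`;
  `z (k x, k θ(k) y) = k ^ 2 θ(k) z (x, y)`.
* `g = szW θ`: `M (z, y, x, w) = (w, x, y, z)`, `μ = 1`; `M (vec (x, y)) = (1, x, y, z)`
  `= z • (1/z, x/z, y/z, 1)`, see `szZ_inv`.

Now let `g ∈ Sz θ` fix `∞` and `(0, 0)` and let `M`, `μ` be as in `P g`. With the standard basis
`e 0, e 1, e 2, e 3`: `M (e 0) = l₀ • e 0`, `M (e 3) = l₃ • e 3`, `l₀, l₃ ≠ 0`. As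
`B (e 0) u = u 3`, `B (e 3) u = u 0` and `M` preserves `B` up to `μ ≠ 0`, `M (e 1)` and `M (e 2)`
have entries `0` and `3` equal to zero. So, dividing by `l₃`, there are `α β γ δ ν : F` with `ν ≠ 0` and
`g (x, y) = (α x + β y, γ x + δ y)`, `z (g (x, y)) = ν z (x, y)` for all `x, y` (for the point
`p = (x, y)` the last entry of `M (vec p)` is `l₃`, so `l = l₃`). So for all `x`, `y`:
`(α x + β y) (γ x + δ y) + (α x + β y) ^ 2 θ (α x + β y) + θ (γ x + δ y)
 = ν (x y + x ^ 2 θ x + θ y)`. (1)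
By `sz_alg` (`PF/ScAlg.lean`, module PF-C2a) `α ≠ 0`, `β = γ = 0` and
`δ = α θ(α)`, so `g = szN θ α`.
-/

namespace Pool.Agent.Helper37.PF

open OnePoint Equiv

variable {F : Type} [Field F] {θ : F ≃+* F}

/-- The symplectic form. -/
def scB (u v : Fin 4 → F) : F := u 0 * v 3 + u 3 * v 0 + u 1 * v 2 + u 2 * v 1

/-- The points of the ovoid as vectors. -/
def scVec (θ : F ≃+* F) (p : OnePoint (F × F)) : Fin 4 → F :=
  p.elim ![1, 0, 0, 0] (fun v => ![szZ θ v, v.2, v.1, 1])

theorem scVec_infty : scVec θ (∞ : OnePoint (F × F)) = ![1, 0, 0, 0] := rfl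

theorem scVec_some (v : F × F) : scVec θ (v : OnePoint (F × F)) = ![szZ θ v, v.2, v.1, 1] := rfl

theorem scB_nondeg (u : Fin 4 → F) (h : ∀ v, scB u v = 0) : u = 0 := by
  have h0 := h ![0, 0, 0, 1]
  have h1 := h ![0, 0, 1, 0]
  have h2 := h ![0, 1, 0, 0]
  have h3 := h ![1, 0, 0, 0]
  simp [scB] at h0 h1 h2 h3
  funext i
  fin_cases i
  · exact h0
  · exact h1
  · exact h2
  · exact h3

/-- The permutations which are induced by similitudes. -/
def ScP (θ : F ≃+* F) (g : Perm (OnePoint (F × F))) : Prop :=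
  ∃ (M : (Fin 4 → F) ≃ₗ[F] (Fin 4 → F)) (μ : F), μ ≠ 0 ∧
    (∀ u v, scB (M u) (M v) = μ * scB u v) ∧ ∀ p, ∃ l : F, l ≠ 0 ∧ M (scVec θ p) = l • scVec θ (g p)

theorem scP_of (g : Perm (OnePoint (F × F))) (M : (Fin 4 → F) →ₗ[F] (Fin 4 → F)) (μ : F)
    (hμ : μ ≠ 0) (hB : ∀ u v, scB (M u) (M v) = μ * scB u v)
    (hp : ∀ p, ∃ l : F, l ≠ 0 ∧ M (scVec θ p) = l • scVec θ (g p)) : ScP θ g := by
  have hinj : Function.Injective M := by
    rw [injective_iff_map_eq_zero]
    intro u hu
    apply scB_nondeg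
    intro v
    have h1 := hB u v
    rw [hu] at h1
    have h2 : scB (0 : Fin 4 → F) (M v) = 0 := by simp [scB]
    rw [h2] at h1
    rcases mul_eq_zero.mp h1.symm with h3 | h3
    · exact absurd h3 hμ
    · exact h3
  exact ⟨LinearEquiv.ofInjectiveEndo M hinj, μ, hμ, hB, hp⟩

theorem scP_one : ScP θ (1 : Perm (OnePoint (F × F))) :=
  ⟨LinearEquiv.refl F _, 1, one_ne_zero, fun _ _ => (one_mul _).symm,
    fun _ => ⟨1, one_ne_zero, (one_smul F _).symm⟩⟩

theorem scP_mul {g h : Perm (OnePoint (F × F))} (hg : ScP θ g) (hh : ScP θ h) :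
    ScP θ (g * h) := by
  obtain ⟨M, μ, hμ, hB, hM⟩ := hg
  obtain ⟨N, ν, hν, hC, hN⟩ := hh
  refine ⟨N.trans M, μ * ν, mul_ne_zero hμ hν, fun u v => ?_, fun p => ?_⟩
  · rw [LinearEquiv.trans_apply, LinearEquiv.trans_apply, hB, hC, mul_assoc]
  · obtain ⟨l, hl, h1⟩ := hN p
    obtain ⟨k, hk, h2⟩ := hM (h p)
    refine ⟨l * k, mul_ne_zero hl hk, ?_⟩
    rw [LinearEquiv.trans_apply, h1, _root_.map_smul, h2, smul_smul]
    rfl

theorem scP_inv {g : Perm (OnePoint (F × F))} (hg : ScP θ g) : ScP θ g⁻¹ := by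
  obtain ⟨M, μ, hμ, hB, hM⟩ := hg
  refine ⟨M.symm, μ⁻¹, inv_ne_zero hμ, fun u v => ?_, fun p => ?_⟩
  · have h1 := hB (M.symm u) (M.symm v)
    rw [M.apply_symm_apply, M.apply_symm_apply] at h1
    rw [h1, ← mul_assoc, inv_mul_cancel₀ hμ, one_mul]
  · obtain ⟨l, hl, h1⟩ := hM (g⁻¹ p)
    refine ⟨l⁻¹, inv_ne_zero hl, ?_⟩
    have h2 : g (g⁻¹ p) = p := g.apply_symm_apply p
    rw [h2] at h1
    have h3 : M.symm (l • scVec θ p) = scVec θ (g⁻¹ p) := by
      rw [← h1, M.symm_apply_apply]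
    rw [_root_.map_smul] at h3
    rw [← h3, smul_smul, inv_mul_cancel₀ hl, one_smul]

theorem scP_szT (hθ : ∀ x, θ (θ x) = x ^ 2) (a b : F) (g : Perm (OnePoint (F × F)))
    (hg : ∀ p, g p = szT θ a b p) : ScP θ g := by
  have h2 : (2 : F) = 0 := sz_two hθ
  let M : (Fin 4 → F) →ₗ[F] (Fin 4 → F) :=
    { toFun := fun u => ![u 0 + a * u 1 + (b + a * θ a) * u 2 + (a * b + a ^ 2 * θ a + θ b) * u 3,
        u 1 + θ a * u 2 + b * u 3, u 2 + a * u 3, u 3]
      map_add' := by
        intro u v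
        funext i
        fin_cases i <;> simp <;> ring
      map_smul' := by
        intro c u
        funext i
        fin_cases i <;> simp <;> ring }
  have hM : ∀ u, M u = ![u 0 + a * u 1 + (b + a * θ a) * u 2 +
      (a * b + a ^ 2 * θ a + θ b) * u 3, u 1 + θ a * u 2 + b * u 3, u 2 + a * u 3, u 3] :=
    fun u => rfl
  refine scP_of g M 1 one_ne_zero (fun u v => ?_) (fun p => ⟨1, one_ne_zero, ?_⟩)
  · rw [hM, hM]
    simp only [scB, Matrix.cons_val]
    linear_combination (a * u 1 * v 3 + (b + a * θ a) * u 2 * v 3 +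
      (a * b + a ^ 2 * θ a + θ b) * u 3 * v 3 + a * u 3 * v 1 + (b + a * θ a) * u 3 * v 2 +
      θ a * u 2 * v 2 + a * b * u 3 * v 3) * h2
  · rw [one_smul, hg, hM]
    induction p using OnePoint.rec with
    | infty =>
      rw [szT, OnePoint.map_infty, scVec_infty]
      funext i
      fin_cases i <;> simp
    | coe v =>
      obtain ⟨x, y⟩ := v
      rw [szT, OnePoint.map_some, scVec_some, scVec_some]
      funext i
      fin_cases i
      · simp only [Matrix.cons_val, szZ, map_add, map_mul, hθ, Fin.zero_eta]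
        linear_combination (-(θ a * x ^ 2 + a * x * (θ x + θ a) + a ^ 2 * θ x)) * h2
      · simp
        ring
      · simp
      · simp

theorem scP_szN (hθ : ∀ x, θ (θ x) = x ^ 2) (k : F) (hk : k ≠ 0) (g : Perm (OnePoint (F × F)))
    (hg : ∀ p, g p = szN θ k p) : ScP θ g := by
  have hk' : θ k ≠ 0 := by
    intro h
    exact hk (θ.map_eq_zero_iff.mp h)
  let M : (Fin 4 → F) →ₗ[F] (Fin 4 → F) :=
    { toFun := fun u => ![k ^ 2 * θ k * u 0, k * θ k * u 1, k * u 2, u 3]
      map_add' := by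
        intro u v
        funext i
        fin_cases i <;> simp <;> ring
      map_smul' := by
        intro c u
        funext i
        fin_cases i <;> simp <;> ring }
  have hM : ∀ u, M u = ![k ^ 2 * θ k * u 0, k * θ k * u 1, k * u 2, u 3] := fun u => rfl
  refine scP_of g M (k ^ 2 * θ k) (mul_ne_zero (pow_ne_zero 2 hk) hk') (fun u v => ?_)
    (fun p => ?_)
  · rw [hM, hM]
    simp only [scB, Matrix.cons_val]
    ring
  · rw [hg, hM]
    induction p using OnePoint.rec with
    | infty =>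
      refine ⟨k ^ 2 * θ k, mul_ne_zero (pow_ne_zero 2 hk) hk', ?_⟩
      rw [szN, OnePoint.map_infty, scVec_infty]
      funext i
      fin_cases i <;> simp
    | coe v =>
      refine ⟨1, one_ne_zero, ?_⟩
      obtain ⟨x, y⟩ := v
      rw [szN, OnePoint.map_some, scVec_some, scVec_some, one_smul]
      funext i
      fin_cases i
      · simp only [Matrix.cons_val, szZ, map_mul, hθ, Fin.zero_eta]
        ring
      · simp
      · simp
      · simp

theorem scP_szW (hθ : ∀ x, θ (θ x) = x ^ 2) (g : Perm (OnePoint (F × F)))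
    (hg : ∀ p, g p = szW θ p) : ScP θ g := by
  classical
  let M : (Fin 4 → F) →ₗ[F] (Fin 4 → F) :=
    { toFun := fun u => ![u 3, u 2, u 1, u 0]
      map_add' := by
        intro u v
        funext i
        fin_cases i <;> simp
      map_smul' := by
        intro c u
        funext i
        fin_cases i <;> simp }
  have hM : ∀ u, M u = ![u 3, u 2, u 1, u 0] := fun u => rfl
  refine scP_of g M 1 one_ne_zero (fun u v => ?_) (fun p => ?_)
  · rw [hM, hM]
    simp only [scB, Matrix.cons_val]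
    ring
  · rw [hg, hM]
    induction p using OnePoint.rec with
    | infty =>
      refine ⟨1, one_ne_zero, ?_⟩
      have h1 : szW θ (∞ : OnePoint (F × F)) = (((0, 0) : F × F) : OnePoint (F × F)) := rfl
      rw [h1, scVec_some, scVec_infty, one_smul]
      funext i
      fin_cases i <;> simp [szZ]
    | coe v =>
      by_cases hz : szZ θ v = 0
      · refine ⟨1, one_ne_zero, ?_⟩
        have h1 : szW θ (v : OnePoint (F × F)) = ∞ := by
          show (if szZ θ v = 0 then ∞ else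
            (((v.2 / szZ θ v, v.1 / szZ θ v) : F × F) : OnePoint (F × F))) = ∞
          rw [if_pos hz]
        have h2 : v = 0 := (szZ_eq_zero hθ v).mp hz
        subst h2
        rw [h1, scVec_some, scVec_infty, one_smul]
        funext i
        fin_cases i <;> simp [szZ]
      · refine ⟨szZ θ v, hz, ?_⟩
        have hv : v ≠ 0 := by
          intro h
          exact hz ((szZ_eq_zero hθ v).mpr h)
        have h1 : szW θ (v : OnePoint (F × F)) =
            (((v.2 / szZ θ v, v.1 / szZ θ v) : F × F) : OnePoint (F × F)) := by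
          show (if szZ θ v = 0 then ∞ else
            (((v.2 / szZ θ v, v.1 / szZ θ v) : F × F) : OnePoint (F × F))) = _
          rw [if_neg hz]
        rw [h1, scVec_some, scVec_some, szZ_inv hθ hv]
        funext i
        fin_cases i
        · simp [hz]
        · simp
          field_simp
        · simp
          field_simp
        · simp

theorem scP_all (hθ : ∀ x, θ (θ x) = x ^ 2) {g : Perm (OnePoint (F × F))} (hg : g ∈ Sz θ) :
    ScP θ g := by
  induction hg using Subgroup.closure_induction with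
  | mem g hg =>
    rcases hg with ⟨a, b, h⟩ | ⟨k, hk, h⟩ | h
    · exact scP_szT hθ a b g h
    · exact scP_szN hθ k hk g h
    · exact scP_szW hθ g h
  | one => exact scP_one
  | mul g h _ _ ih1 ih2 => exact scP_mul ih1 ih2
  | inv g _ ih => exact scP_inv ih

theorem sz_two_point [Finite F] (hF : 2 < Nat.card F) (hθ : ∀ x, θ (θ x) = x ^ 2)
    {g : Perm (OnePoint (F × F))} (hg : g ∈ Sz θ) (h1 : g ∞ = ∞)
    (h2 : g ((0, 0) : F × F) = ((0, 0) : F × F)) :
    ∃ k : F, k ≠ 0 ∧ ∀ p, g p = szN θ k p := by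
  obtain ⟨M, μ, hμ, hB, hM⟩ := scP_all hθ hg
  obtain ⟨l0, hl0, hM0⟩ := hM ∞
  obtain ⟨l3, hl3, hM3⟩ := hM (((0, 0) : F × F) : OnePoint (F × F))
  rw [h1, scVec_infty] at hM0
  rw [h2, scVec_some] at hM3
  have hz0 : szZ θ ((0, 0) : F × F) = 0 := by simp [szZ]
  rw [hz0] at hM3
  set m1 := M ![0, 1, 0, 0] with hm1
  set m2 := M ![0, 0, 1, 0] with hm2
  have e13 : m1 3 = 0 := by
    have h := hB ![1, 0, 0, 0] ![0, 1, 0, 0]
    rw [hM0, ← hm1] at h
    simp [scB] at h
    rcases h with h | h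
    · exact absurd h hl0
    · exact h
  have e23 : m2 3 = 0 := by
    have h := hB ![1, 0, 0, 0] ![0, 0, 1, 0]
    rw [hM0, ← hm2] at h
    simp [scB] at h
    rcases h with h | h
    · exact absurd h hl0
    · exact h
  have e10 : m1 0 = 0 := by
    have h := hB ![0, 0, 0, 1] ![0, 1, 0, 0]
    rw [hM3, ← hm1] at h
    simp [scB] at h
    rcases h with h | h
    · exact absurd h hl3
    · exact h
  have e20 : m2 0 = 0 := by
    have h := hB ![0, 0, 0, 1] ![0, 0, 1, 0]
    rw [hM3, ← hm2] at h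
    simp [scB] at h
    rcases h with h | h
    · exact absurd h hl3
    · exact h
  have key : ∀ x y : F, ∃ x' y' : F,
      g ((x, y) : F × F) = (((x', y') : F × F) : OnePoint (F × F)) ∧
      x' = m2 2 / l3 * x + m1 2 / l3 * y ∧ y' = m2 1 / l3 * x + m1 1 / l3 * y ∧
      szZ θ (x', y') = l0 / l3 * szZ θ (x, y) := by
    intro x y
    obtain ⟨l, hl, hp⟩ := hM (((x, y) : F × F) : OnePoint (F × F))
    have hne : g (((x, y) : F × F) : OnePoint (F × F)) ≠ ∞ := by
      intro h
      have h3 : (((x, y) : F × F) : OnePoint (F × F)) = ∞ := g.injective (h.trans h1.symm)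
      exact OnePoint.coe_ne_infty _ h3
    obtain ⟨v, hv⟩ := OnePoint.ne_infty_iff_exists.mp hne
    obtain ⟨x', y'⟩ := v
    refine ⟨x', y', hv.symm, ?_⟩
    rw [← hv, scVec_some, scVec_some] at hp
    have hdec : (![szZ θ (x, y), (x, y).2, (x, y).1, 1] : Fin 4 → F) =
        szZ θ (x, y) • ![1, 0, 0, 0] + y • ![0, 1, 0, 0] + x • ![0, 0, 1, 0] +
          ![0, 0, 0, 1] := by
      funext i
      fin_cases i <;> simp
    rw [hdec, map_add, map_add, map_add, _root_.map_smul, _root_.map_smul,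
      _root_.map_smul, hM0, ← hm1, ← hm2] at hp
    have hM3' : M ![0, 0, 0, 1] = l3 • ![0, 0, 0, 1] := by simpa using hM3
    rw [hM3'] at hp
    have p0 : szZ θ (x, y) * (l0 * 1) + y * m1 0 + x * m2 0 + l3 * 0 = l * szZ θ (x', y') :=
      congrFun hp 0
    have p1 : szZ θ (x, y) * (l0 * 0) + y * m1 1 + x * m2 1 + l3 * 0 = l * y' := congrFun hp 1
    have p2 : szZ θ (x, y) * (l0 * 0) + y * m1 2 + x * m2 2 + l3 * 0 = l * x' := congrFun hp 2
    have p3 : szZ θ (x, y) * (l0 * 0) + y * m1 3 + x * m2 3 + l3 * 1 = l * 1 := congrFun hp 3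
    rw [e13, e23] at p3
    rw [e10, e20] at p0
    have p3' : l = l3 := by linear_combination -p3
    subst p3'
    refine ⟨?_, ?_, ?_⟩
    · field_simp
      linear_combination -p2
    · field_simp
      linear_combination -p1
    · field_simp
      linear_combination -p0
  have hν : l0 / l3 ≠ 0 := div_ne_zero hl0 hl3
  have halg := sz_alg hF hθ (α := m2 2 / l3) (β := m1 2 / l3) (γ := m2 1 / l3) (δ := m1 1 / l3)
    hν (by
      intro x y
      obtain ⟨x', y', -, hx, hy, hz⟩ := key x y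
      rw [← hx, ← hy]
      exact hz)
  obtain ⟨hα, hβ, hγ, hδ⟩ := halg
  refine ⟨m2 2 / l3, hα, fun p => ?_⟩
  induction p using OnePoint.rec with
  | infty =>
    rw [h1]
    rfl
  | coe v =>
    obtain ⟨x, y⟩ := v
    obtain ⟨x', y', hgv, hx, hy, -⟩ := key x y
    rw [hgv, szN, OnePoint.map_some]
    rw [hβ, zero_mul, add_zero] at hx
    rw [hγ, zero_mul, zero_add, hδ] at hy
    rw [hx, hy]

end Pool.Agent.Helper37.PF
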