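import Mathlib

/-!
# Groups of Suzuki type (MP_13dc8a_al): the properties of the Suzuki groups which are used
-/

namespace Pool.Agent.Helper37.PF

open MulAction Equiv

/-- The properties of the Suzuki groups. `Q` is the normal subgroup of the stabiliser of the point
`o` which is regular on the other points, `Z` is its centre. -/
structure SzBase {X : Type} (S : Subgroup (Perm X)) (o y₀ : X) (Q Z : Subgroup (Perm X)) :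
    Prop where
  ne : y₀ ≠ o
  two_trans : IsMultiplyPretransitive S X 2
  fix3 : ∀ g ∈ S, ∀ x y z, x ≠ y → x ≠ z → y ≠ z → g x = x → g y = y → g z = z → g = 1
  Z_le : Z ≤ Q
  Q_le : Q ≤ S
  two_lt : 2 < Nat.card Z
  card_Q : Nat.card Q = Nat.card Z ^ 2
  card_X : Nat.card X = Nat.card Q + 1
  fix : ∀ g ∈ Q, g o = o
  trans : ∀ y z, y ≠ o → z ≠ o → ∃ g ∈ Q, g y = z
  norm : ∀ s ∈ S, s o = o → ∀ g ∈ Q, s * g * s⁻¹ ∈ Q
  sq_mem : ∀ g ∈ Q, g * g ∈ Z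
  sq_one : ∀ g ∈ Q, g * g = 1 ↔ g ∈ Z
  conj_Z : ∀ u ∈ Z, ∀ v ∈ Z, u ≠ 1 → v ≠ 1 → ∃ s ∈ S, s o = o ∧ s y₀ = y₀ ∧ s * u * s⁻¹ = v
  conj_Q : ∀ u ∈ Q, ∀ v ∈ Q, u ∉ Z → v ∉ Z →
    ∃ s ∈ S, s o = o ∧ s y₀ = y₀ ∧ s * u * s⁻¹ * v⁻¹ ∈ Z

end Pool.Agent.Helper37.PF
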