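import Pool.Agent.Helper37.PF.ScLin
import Pool.Agent.Helper37.PF.SzBase

/-!
# PF-C3: the Suzuki groups satisfy `SzBase` (MP_13dc8a_al)

The lemmas of `PF/ScPerm.lean`, `PF/ScLin.lean` (modules PF-C1, PF-C2)
are used.

PROOF. `Q` is the set of the permutations `π` with `π p = szT θ a b p` for all `p`, for some `a`,
`b`: a subgroup by `szT_szT`; `Z` is the subgroup with `a = 0`. They are contained in `Sz θ`
(`Subgroup.subset_closure`). Write `T a b`, `N k`, `W` for the permutations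
(`Equiv.ofBijective`). `o = ∞`, `y₀ = (0, 0)`, `q = |F|`.
* `|Z| = q`, `|Q| = q ^ 2` (`T a b` maps `(0, 0)` to `(a, b)`), `|X| = q ^ 2 + 1`.
* `fix`: clear. `trans`: `T a b (x, y) = (x', y')` for `a = x' - x`, `b = y' - y - θ(a) x`.
* `sq`: `T a b T a b = T (a + a) (b + b + θ(a) a) = T 0 (θ(a) a)` (`2 = 0`), which is `1` iff
  `θ(a) a = 0` iff `a = 0`.
* `two_trans`: `W` maps `∞` to `(0, 0)`; `Q` fixes `∞` and is transitive on the other points.
  So for `x ≠ y` there is `g ∈ Sz θ` with `g x = ∞`, `g y = (0, 0)` (if `x = (a, b)` is finite,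
  apply an element of `Q` which maps `x` to `(0, 0)`, then `W`).
* `norm`: let `s ∈ Sz θ`, `s ∞ = ∞`. There is `g ∈ Q` with `g (0, 0) = s (0, 0)`, so
  `g⁻¹ s = N k` by `sz_two_point`, and `N k T a b (N k)⁻¹ = T (k a) (k θ(k) b)` by `szN_szT`.
* `fix3`: by `2`-transitivity (conjugate by an element of `Sz θ`) we may assume that `g` fixes `∞`,
  `(0, 0)` and `(a, b) ≠ (0, 0)`. `g = N k` and `k a = a`, `k θ(k) b = b`. If `a ≠ 0` then `k = 1`. If
  `a = 0` then `b ≠ 0` and `k θ(k) = 1`; applying `θ`: `θ(k) k ^ 2 = 1`; so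
  `k = θ(k) k ^ 2 / (k θ(k)) = 1`.
* `conj_Z`: `u = T 0 b`, `v = T 0 b'`, `b, b' ≠ 0`. The map `k ↦ k θ(k)` from the nonzero elements
  to the nonzero elements is multiplicative and injective (kernel: the computation in `fix3`), so
  surjective; take `k` with `k θ(k) b = b'`, `s = N k`.
* `conj_Q`: `u = T a b`, `v = T a' b'`, `a, a' ≠ 0`; take `s = N (a' / a)`:
  `s u s⁻¹ = T a' b''`, and `T a' b'' (T a' b')⁻¹` has first parameter `0`.
-/

namespace Pool.Agent.Helper37.PF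

open OnePoint Equiv

variable {F : Type} [Field F] {θ : F ≃+* F}

private theorem scm_T_apply (a b x y : F) : szT θ a b (((x, y) : F × F) : OnePoint (F × F)) =
    (((x + a, y + b + θ a * x) : F × F) : OnePoint (F × F)) := rfl

private theorem scm_N_apply (k x y : F) : szN θ k (((x, y) : F × F) : OnePoint (F × F)) =
    (((k * x, k * θ k * y) : F × F) : OnePoint (F × F)) := rfl

private theorem scm_T_zero (p : OnePoint (F × F)) : szT θ 0 0 p = p := by
  induction p using OnePoint.rec with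
  | infty => rfl
  | coe v =>
    obtain ⟨x, y⟩ := v
    rw [scm_T_apply, add_zero, add_zero, map_zero, zero_mul, add_zero]

private theorem scm_N_one (p : OnePoint (F × F)) : szN θ 1 p = p := by
  induction p using OnePoint.rec with
  | infty => rfl
  | coe v =>
    obtain ⟨x, y⟩ := v
    rw [scm_N_apply, one_mul, map_one, one_mul, one_mul]

private theorem scm_inv {a b : F} {g : Perm (OnePoint (F × F))} (hg : ∀ p, g p = szT θ a b p)
    (p : OnePoint (F × F)) : g⁻¹ p = szT θ (-a) (-b + θ a * a) p := by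
  rw [Perm.inv_eq_iff_eq, hg, szT_szT, add_neg_cancel]
  have h1 : b + (-b + θ a * a) + θ a * -a = 0 := by ring
  rw [h1, scm_T_zero]

/-- the subgroup `Q` -/
private def scmQ (θ : F ≃+* F) : Subgroup (Perm (OnePoint (F × F))) where
  carrier := {g | ∃ a b : F, ∀ p, g p = szT θ a b p}
  mul_mem' := by
    rintro g g' ⟨a, b, h⟩ ⟨c, d, h'⟩
    exact ⟨a + c, b + d + θ a * c, fun p => by rw [Perm.mul_apply, h', h, szT_szT]⟩
  one_mem' := ⟨0, 0, fun p => by rw [scm_T_zero, Perm.one_apply]⟩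
  inv_mem' := by
    rintro g ⟨a, b, h⟩
    exact ⟨-a, -b + θ a * a, scm_inv h⟩

/-- the subgroup `Z` -/
private def scmZ (θ : F ≃+* F) : Subgroup (Perm (OnePoint (F × F))) where
  carrier := {g | ∃ b : F, ∀ p, g p = szT θ 0 b p}
  mul_mem' := by
    rintro g g' ⟨b, h⟩ ⟨d, h'⟩
    refine ⟨b + d, fun p => ?_⟩
    rw [Perm.mul_apply, h', h, szT_szT, map_zero, zero_mul, add_zero, add_zero]
  one_mem' := ⟨0, fun p => by rw [scm_T_zero, Perm.one_apply]⟩
  inv_mem' := by
    rintro g ⟨b, h⟩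
    refine ⟨-b, fun p => ?_⟩
    rw [scm_inv h, neg_zero, map_zero, zero_mul, add_zero]

/-- the translations as permutations -/
private noncomputable def scmT (θ : F ≃+* F) (a b : F) : Perm (OnePoint (F × F)) :=
  Equiv.ofBijective (szT θ a b) (szT_bijective a b)

private theorem scmT_apply (a b : F) (p : OnePoint (F × F)) : scmT θ a b p = szT θ a b p := rfl

private noncomputable def scmN (θ : F ≃+* F) (k : F) (hk : k ≠ 0) : Perm (OnePoint (F × F)) :=
  Equiv.ofBijective (szN θ k) (szN_bijective hk)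

private theorem scm_conjN {k a b : F} {n g : Perm (OnePoint (F × F))}
    (hn : ∀ p, n p = szN θ k p) (hg : ∀ p, g p = szT θ a b p) (p : OnePoint (F × F)) :
    (n * g * n⁻¹) p = szT θ (k * a) (k * θ k * b) p := by
  rw [Perm.mul_apply, Perm.mul_apply, hn, hg, szN_szT, ← hn]
  congr 1
  exact n.apply_symm_apply p

private theorem scm_trans (y z : OnePoint (F × F)) (hy : y ≠ ∞) (hz : z ≠ ∞) :
    ∃ g ∈ scmQ θ, g y = z := by
  obtain ⟨⟨x1, y1⟩, rfl⟩ := OnePoint.ne_infty_iff_exists.mp hy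
  obtain ⟨⟨x2, y2⟩, rfl⟩ := OnePoint.ne_infty_iff_exists.mp hz
  refine ⟨scmT θ (x2 - x1) (y2 - y1 - θ (x2 - x1) * x1), ⟨_, _, scmT_apply _ _⟩, ?_⟩
  rw [scmT_apply, scm_T_apply]
  congr 2
  · ring
  · ring

private theorem scm_Q_le : scmQ θ ≤ Sz θ := by
  rintro g ⟨a, b, h⟩
  exact Subgroup.subset_closure (Or.inl ⟨a, b, h⟩)

private theorem scm_fix {g : Perm (OnePoint (F × F))} (hg : g ∈ scmQ θ) : g ∞ = ∞ := by
  obtain ⟨a, b, h⟩ := hg
  rw [h]
  rfl

private theorem scm_move (hθ : ∀ x, θ (θ x) = x ^ 2) (x y : OnePoint (F × F)) (hxy : x ≠ y) :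
    ∃ g ∈ Sz θ, g x = ∞ ∧ g y = (((0, 0) : F × F) : OnePoint (F × F)) := by
  have h00 : (((0, 0) : F × F) : OnePoint (F × F)) ≠ ∞ := OnePoint.coe_ne_infty _
  by_cases hx : x = ∞
  · subst hx
    obtain ⟨g, hg, hgy⟩ := scm_trans (θ := θ) y (((0, 0) : F × F) : OnePoint (F × F)) hxy.symm h00
    exact ⟨g, scm_Q_le hg, scm_fix hg, hgy⟩
  · obtain ⟨g, hg, hgx⟩ := scm_trans (θ := θ) x (((0, 0) : F × F) : OnePoint (F × F)) hx h00
    let W : Perm (OnePoint (F × F)) :=
      Equiv.ofBijective (szW θ) (Function.Involutive.bijective (szW_szW hθ))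
    have hW : ∀ p, W p = szW θ p := fun p => rfl
    have hWS : W ∈ Sz θ := Subgroup.subset_closure (Or.inr (Or.inr hW))
    have hW0 : W (((0, 0) : F × F) : OnePoint (F × F)) = ∞ := by
      have h1 : szW θ (∞ : OnePoint (F × F)) = (((0, 0) : F × F) : OnePoint (F × F)) := rfl
      rw [hW, ← h1, szW_szW hθ]
    have hne : W (g y) ≠ ∞ := by
      rw [← hW0, ← hgx]
      intro h2
      exact hxy (g.injective (W.injective h2)).symm
    obtain ⟨g', hg', hgy'⟩ := scm_trans (θ := θ) (W (g y))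
      (((0, 0) : F × F) : OnePoint (F × F)) hne h00
    refine ⟨g' * W * g, (Sz θ).mul_mem ((Sz θ).mul_mem (scm_Q_le hg') hWS) (scm_Q_le hg), ?_, ?_⟩
    · rw [Perm.mul_apply, Perm.mul_apply, hgx, hW0, scm_fix hg']
    · rw [Perm.mul_apply, Perm.mul_apply, hgy']

private theorem scm_k_one (hθ : ∀ x, θ (θ x) = x ^ 2) {k : F} (hk : k * θ k = 1) : k = 1 := by
  have h1 : θ k * k ^ 2 = 1 := by
    rw [← hθ, ← map_mul, hk, map_one]
  linear_combination h1 - k * hk

private theorem scm_surj [Finite F] (hθ : ∀ x, θ (θ x) = x ^ 2) :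
    Function.Surjective (fun k : F => k * θ k) := by
  rw [← Finite.injective_iff_surjective]
  intro k l hkl
  have hkl' : k * θ k = l * θ l := hkl
  have h0 : ∀ x : F, x * θ x = 0 → x = 0 := by
    intro x hx
    rcases mul_eq_zero.1 hx with h | h
    · exact h
    · exact θ.map_eq_zero_iff.mp h
  by_cases hl : l = 0
  · subst hl
    rw [map_zero, mul_zero] at hkl'
    exact h0 k hkl'
  · have hl' : θ l ≠ 0 := fun h => hl (θ.map_eq_zero_iff.mp h)
    have h1 : k / l * θ (k / l) = 1 := by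
      rw [map_div₀, div_mul_div_comm, hkl', div_self (mul_ne_zero hl hl')]
    have h2 := scm_k_one hθ h1
    exact (div_eq_one_iff_eq hl).1 h2

private theorem scm_inj {a b c d : F} (h : ∀ p, szT θ a b p = szT θ c d p) : a = c ∧ b = d := by
  have h1 := h (((0, 0) : F × F) : OnePoint (F × F))
  rw [scm_T_apply, scm_T_apply, OnePoint.coe_eq_coe, Prod.mk.injEq] at h1
  simpa using h1

theorem sz_base [Finite F] (hF : 2 < Nat.card F) (hθ : ∀ x, θ (θ x) = x ^ 2) :
    ∃ Q Z : Subgroup (Perm (OnePoint (F × F))),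
      SzBase (Sz θ) ∞ (((0, 0) : F × F) : OnePoint (F × F)) Q Z := by
  have h2 : (2 : F) = 0 := sz_two hθ
  have hbb : ∀ b : F, b + b = 0 := fun b => by linear_combination b * h2
  have h00 : (((0, 0) : F × F) : OnePoint (F × F)) ≠ ∞ := OnePoint.coe_ne_infty _
  have hZQ : scmZ θ ≤ scmQ θ := by
    rintro g ⟨b, h⟩
    exact ⟨0, b, h⟩
  have cQ : Nat.card (scmQ θ) = Nat.card F ^ 2 := by
    rw [pow_two, ← Nat.card_prod]
    refine (Nat.card_congr (Equiv.ofBijective
      (fun v : F × F => (⟨scmT θ v.1 v.2, _, _, scmT_apply _ _⟩ : scmQ θ)) ⟨?_, ?_⟩)).symm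
    · rintro ⟨a, b⟩ ⟨c, d⟩ hv
      have h3 : scmT θ a b = scmT θ c d := congrArg Subtype.val hv
      have h4 := scm_inj (θ := θ) (a := a) (b := b) (c := c) (d := d)
        (fun p => congrFun (congrArg DFunLike.coe h3) p)
      rw [h4.1, h4.2]
    · rintro ⟨g, a, b, hg⟩
      exact ⟨(a, b), Subtype.ext (Equiv.ext fun p => (hg p).symm)⟩
  have cZ : Nat.card (scmZ θ) = Nat.card F := by
    refine (Nat.card_congr (Equiv.ofBijective
      (fun b : F => (⟨scmT θ 0 b, _, scmT_apply _ _⟩ : scmZ θ)) ⟨?_, ?_⟩)).symm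
    · intro b d hv
      have h3 : scmT θ 0 b = scmT θ 0 d := congrArg Subtype.val hv
      exact (scm_inj (θ := θ) (a := 0) (b := b) (c := 0) (d := d)
        (fun p => congrFun (congrArg DFunLike.coe h3) p)).2
    · rintro ⟨g, b, hg⟩
      exact ⟨b, Subtype.ext (Equiv.ext fun p => (hg p).symm)⟩
  have hsq : ∀ (g : Perm (OnePoint (F × F))) (a b : F), (∀ p, g p = szT θ a b p) →
      ∀ p, (g * g) p = szT θ 0 (θ a * a) p := by
    intro g a b hg p
    rw [Perm.mul_apply, hg, hg, szT_szT, hbb, hbb, zero_add]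
  have hNS : ∀ (k : F) (hk : k ≠ 0), scmN θ k hk ∈ Sz θ := fun k hk =>
    Subgroup.subset_closure (Or.inr (Or.inl ⟨k, hk, fun p => rfl⟩))
  refine ⟨scmQ θ, scmZ θ, ?_⟩
  constructor
  · exact h00
  · rw [MulAction.is_two_pretransitive_iff]
    intro a b c d hab hcd
    obtain ⟨g, hg, hga, hgb⟩ := scm_move hθ a b hab
    obtain ⟨g', hg', hgc, hgd⟩ := scm_move hθ c d hcd
    refine ⟨⟨g'⁻¹ * g, (Sz θ).mul_mem ((Sz θ).inv_mem hg') hg⟩, ?_, ?_⟩
    · change (g'⁻¹ * g) a = c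
      rw [Perm.mul_apply, Perm.inv_eq_iff_eq, hga, hgc]
    · change (g'⁻¹ * g) b = d
      rw [Perm.mul_apply, Perm.inv_eq_iff_eq, hgb, hgd]
  · intro g hg x y z hxy hxz hyz hx hy hz
    obtain ⟨r, hr, hrx, hry⟩ := scm_move hθ x y hxy
    have hfixr : ∀ p, g p = p → (r * g * r⁻¹) (r p) = r p := by
      intro p hp
      rw [Perm.mul_apply, Perm.mul_apply]
      have h3 : r⁻¹ (r p) = p := r.symm_apply_apply p
      rw [h3, hp]
    have h3 := hfixr x hx
    have h4 := hfixr y hy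
    have h5 := hfixr z hz
    rw [hrx] at h3
    rw [hry] at h4
    obtain ⟨k, hk, hgk⟩ := sz_two_point hF hθ
      ((Sz θ).mul_mem ((Sz θ).mul_mem hr hg) ((Sz θ).inv_mem hr)) h3 h4
    have hrz : r z ≠ ∞ := by
      rw [← hrx]
      exact fun h6 => hxz (r.injective h6).symm
    obtain ⟨⟨a, b⟩, hab⟩ := OnePoint.ne_infty_iff_exists.mp hrz
    rw [hgk, ← hab, scm_N_apply, OnePoint.coe_eq_coe, Prod.mk.injEq] at h5
    have hk1 : k = 1 := by
      by_cases ha : a = 0
      · subst ha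
        have hb : b ≠ 0 := by
          rintro rfl
          exact hyz (r.injective (hry.trans hab))
        apply scm_k_one hθ
        exact mul_right_cancel₀ hb (by rw [h5.2, one_mul])
      · exact mul_right_cancel₀ ha (by rw [h5.1, one_mul])
    have h6 : r * g * r⁻¹ = 1 := by
      apply Equiv.ext
      intro p
      rw [hgk, hk1, scm_N_one, Perm.one_apply]
    rw [mul_inv_eq_one] at h6
    exact mul_eq_left.1 h6
  · exact hZQ
  · exact scm_Q_le
  · rw [cZ]
    exact hF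
  · rw [cQ, cZ]
  · rw [cQ, pow_two, ← Nat.card_prod]
    exact Finite.card_option
  · intro g hg
    exact scm_fix hg
  · intro y z hy hz
    exact scm_trans y z hy hz
  · intro s hs hso g hg
    have hs0 : s (((0, 0) : F × F) : OnePoint (F × F)) ≠ ∞ := by
      intro h3
      exact h00 (s.injective (h3.trans hso.symm))
    obtain ⟨g₁, hg₁, hg₁0⟩ := scm_trans (θ := θ) (((0, 0) : F × F) : OnePoint (F × F)) _ h00 hs0
    obtain ⟨k, hk, hn⟩ := sz_two_point (g := g₁⁻¹ * s) hF hθ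
      ((Sz θ).mul_mem ((Sz θ).inv_mem (scm_Q_le hg₁)) hs)
      (by rw [Perm.mul_apply, hso, Perm.inv_eq_iff_eq, scm_fix hg₁])
      (by rw [Perm.mul_apply, Perm.inv_eq_iff_eq, hg₁0])
    obtain ⟨a, b, hgab⟩ := hg
    have h3 : (g₁⁻¹ * s) * g * (g₁⁻¹ * s)⁻¹ ∈ scmQ θ := ⟨_, _, scm_conjN hn hgab⟩
    have h4 : s * g * s⁻¹ = g₁ * ((g₁⁻¹ * s) * g * (g₁⁻¹ * s)⁻¹) * g₁⁻¹ := by group
    rw [h4]
    exact (scmQ θ).mul_mem ((scmQ θ).mul_mem hg₁ h3) ((scmQ θ).inv_mem hg₁)
  · rintro g ⟨a, b, hg⟩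
    exact ⟨_, hsq g a b hg⟩
  · rintro g ⟨a, b, hg⟩
    constructor
    · intro h3
      have h4 : ∀ p, szT θ 0 (θ a * a) p = szT θ 0 0 p := by
        intro p
        rw [← hsq g a b hg, h3, scm_T_zero, Perm.one_apply]
      have h5 := (scm_inj h4).2
      have ha : a = 0 := by
        rcases mul_eq_zero.1 h5 with h | h
        · exact θ.map_eq_zero_iff.mp h
        · exact h
      subst ha
      exact ⟨b, hg⟩
    · rintro ⟨b', hg'⟩
      apply Equiv.ext
      intro p
      rw [hsq g 0 b' hg', mul_zero, scm_T_zero, Perm.one_apply]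
  · rintro u ⟨b, hu⟩ v ⟨b', hv⟩ hu1 hv1
    have hb : b ≠ 0 := by
      rintro rfl
      exact hu1 (Equiv.ext fun p => by rw [hu, scm_T_zero, Perm.one_apply])
    have hb' : b' ≠ 0 := by
      rintro rfl
      exact hv1 (Equiv.ext fun p => by rw [hv, scm_T_zero, Perm.one_apply])
    obtain ⟨k, hk⟩ := scm_surj hθ (b' / b)
    have hk' : k * θ k = b' / b := hk
    have hk0 : k ≠ 0 := by
      rintro rfl
      rw [zero_mul] at hk'
      exact div_ne_zero hb' hb hk'.symm
    refine ⟨scmN θ k hk0, hNS k hk0, rfl, ?_, ?_⟩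
    · change szN θ k (((0, 0) : F × F) : OnePoint (F × F)) = _
      rw [scm_N_apply, mul_zero, mul_zero]
    · apply Equiv.ext
      intro p
      rw [scm_conjN (n := scmN θ k hk0) (fun p => rfl) hu, hv, mul_zero, hk',
        div_mul_cancel₀ _ hb]
  · rintro u ⟨a, b, hu⟩ v ⟨a', b', hv⟩ huZ hvZ
    have ha : a ≠ 0 := by
      rintro rfl
      exact huZ ⟨b, hu⟩
    have ha' : a' ≠ 0 := by
      rintro rfl
      exact hvZ ⟨b', hv⟩
    have hk0 : a' / a ≠ 0 := div_ne_zero ha' ha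
    refine ⟨scmN θ (a' / a) hk0, hNS _ hk0, rfl, ?_, ?_⟩
    · change szN θ (a' / a) (((0, 0) : F × F) : OnePoint (F × F)) = _
      rw [scm_N_apply, mul_zero, mul_zero]
    · refine ⟨a' / a * θ (a' / a) * b + (-b' + θ a' * a') + θ a' * -a', fun p => ?_⟩
      rw [Perm.mul_apply, scm_inv hv, scm_conjN (n := scmN θ (a' / a) hk0) (fun p => rfl) hu,
        szT_szT, div_mul_cancel₀ _ ha, add_neg_cancel]

end Pool.Agent.Helper37.PF
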