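import Pool.Agent.Helper37.PF.SzDefs

/-!
# PF-C1: the Suzuki groups, translations, dilations and the inversion (MP_13dc8a_al)

PROOFS. `F` has characteristic two: `4 = (1 + 1) ^ 2 = θ (θ (1 + 1)) = 1 + 1 = 2` in `F`, so
`2 = 0`. Write `z` for `szZ θ`.

* `szT_szT`: `a + c` and `y + d + θ c x + b + θ a (x + c) = y + (b + d + θ a c) + θ (a + c) x`.
  `szT θ 0 0` is the identity, so `szT θ a b` is bijective, the inverse is
  `szT θ (-a) (-b + θ a a)` (check: `b + (-b + θ a a) + θ a (-a) = 0`, and in the other order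
  `-b + θ a a + b + θ (-a) a = 0`).
* `szN_szN`, bijectivity clear. `szN_conj`: direct computation.
* `szZ_eq_zero`: `x y + x ^ 2 θ x + θ y = 0`. If `x = 0` then `θ y = 0`, `y = 0`. If `x ≠ 0` put
  `y = x θ(x) u`; then `θ y = θ(x) x ^ 2 θ(u)`, and dividing by `x ^ 2 θ x`:
  `u + 1 + θ u = 0`, so `θ u = u + 1`, `u ^ 2 = θ (θ u) = θ u + 1 = u`, so `u = 0` or `u = 1` and
  `θ u = u`, contradiction.
* `szZ_inv`: multiply by `z ^ 2 θ z`; it becomes the identity
  `x y θ z + y ^ 2 θ y + θ x z ^ 2 = z θ z`, where `θ z = θ x θ y + (θ x) ^ 2 x ^ 2 + y ^ 2`: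
  after subtracting `x y θ z` it is
  `y ^ 2 θ y + θ x (x y + x ^ 2 θ x + θ y) ^ 2 =
   (x ^ 2 θ x + θ y) (θ x θ y + x ^ 2 (θ x) ^ 2 + y ^ 2)`, true in characteristic two.
* `szW_szW`: `W` exchanges `∞` and `(0, 0)`; for `(x, y) ≠ (0, 0)`, `z ≠ 0`,
  `W (x, y) = (y / z, x / z)` and by `szZ_inv` `W (y / z, x / z) = ((x / z) / (1 / z), (y / z) / (1 / z))
  = (x, y)`.
-/

namespace Pool.Agent.Helper37.PF

open OnePoint

variable {F : Type} [Field F] {θ : F ≃+* F}

theorem sz_two (hθ : ∀ x, θ (θ x) = x ^ 2) : (2 : F) = 0 := by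
  have h := hθ 2
  rw [map_ofNat, map_ofNat] at h
  linear_combination -h

theorem szT_szT (a b c d : F) (p : OnePoint (F × F)) :
    szT θ a b (szT θ c d p) = szT θ (a + c) (b + d + θ a * c) p := by
  induction p using OnePoint.rec with
  | infty => rfl
  | coe v =>
    simp only [szT, OnePoint.map_some]
    congr 1
    ext
    · simp only
      ring
    · simp only [map_add]
      ring

theorem ScPerm_szT_zero (p : OnePoint (F × F)) : szT θ 0 0 p = p := by
  induction p using OnePoint.rec with
  | infty => rfl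
  | coe v =>
    simp only [szT, OnePoint.map_some]
    congr 1
    ext
    · simp
    · simp

theorem szT_bijective (a b : F) : Function.Bijective (szT θ a b) := by
  rw [Function.bijective_iff_has_inverse]
  refine ⟨szT θ (-a) (-b + θ a * a), fun p => ?_, fun p => ?_⟩
  · rw [szT_szT]
    have h1 : -a + a = 0 := by ring
    have h2 : -b + θ a * a + b + θ (-a) * a = 0 := by
      rw [map_neg]
      ring
    rw [h1, h2, ScPerm_szT_zero]
  · rw [szT_szT]
    have h1 : a + -a = 0 := by ring
    have h2 : b + (-b + θ a * a) + θ a * -a = 0 := by ring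
    rw [h1, h2, ScPerm_szT_zero]

theorem szN_szN (k l : F) (p : OnePoint (F × F)) :
    szN θ k (szN θ l p) = szN θ (k * l) p := by
  induction p using OnePoint.rec with
  | infty => rfl
  | coe v =>
    simp only [szN, OnePoint.map_some]
    congr 1
    ext
    · simp only
      ring
    · simp only [map_mul]
      ring

theorem ScPerm_szN_one (p : OnePoint (F × F)) : szN θ 1 p = p := by
  induction p using OnePoint.rec with
  | infty => rfl
  | coe v =>
    simp only [szN, OnePoint.map_some]
    congr 1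
    ext
    · simp
    · simp

theorem szN_bijective {k : F} (hk : k ≠ 0) : Function.Bijective (szN θ k) := by
  rw [Function.bijective_iff_has_inverse]
  refine ⟨szN θ k⁻¹, fun p => ?_, fun p => ?_⟩
  · rw [szN_szN, inv_mul_cancel₀ hk, ScPerm_szN_one]
  · rw [szN_szN, mul_inv_cancel₀ hk, ScPerm_szN_one]

theorem szN_szT (k a b : F) (p : OnePoint (F × F)) :
    szN θ k (szT θ a b p) = szT θ (k * a) (k * θ k * b) (szN θ k p) := by
  induction p using OnePoint.rec with
  | infty => rfl
  | coe v =>
    simp only [szN, szT, OnePoint.map_some]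
    congr 1
    ext
    · simp only
      ring
    · simp only [map_mul]
      ring

theorem szZ_eq_zero (hθ : ∀ x, θ (θ x) = x ^ 2) (v : F × F) : szZ θ v = 0 ↔ v = 0 := by
  have h2 := sz_two hθ
  constructor
  · intro h
    obtain ⟨x, y⟩ := v
    simp only [szZ] at h
    by_cases hx : x = 0
    · subst hx
      have h3 : θ y = 0 := by simpa using h
      have h4 : y = 0 := by simpa using h3
      rw [h4]
      rfl
    · exfalso
      have hθx : θ x ≠ 0 := by simpa using hx
      set u : F := y / (x * θ x) with hu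
      have hy : y = x * θ x * u := by
        rw [hu]
        field_simp
      have h3 : θ y = θ x * x ^ 2 * θ u := by
        rw [hy, map_mul, map_mul, hθ]
      rw [h3, hy] at h
      have h4 : (x ^ 2 * θ x) * (u + 1 + θ u) = 0 := by linear_combination h
      have h5 : u + 1 + θ u = 0 := by
        rcases mul_eq_zero.1 h4 with h6 | h6
        · exact absurd h6 (mul_ne_zero (pow_ne_zero _ hx) hθx)
        · exact h6
      have h6 : θ u = u + 1 := by linear_combination h5 - (u + 1) * h2
      have h7 : u ^ 2 = u := by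
        have h8 := hθ u
        rw [h6, map_add, map_one, h6] at h8
        linear_combination -h8 + h2
      have h8 : u * (u - 1) = 0 := by linear_combination h7
      rcases mul_eq_zero.1 h8 with h9 | h9
      · rw [h9, map_zero, zero_add] at h6
        exact zero_ne_one h6
      · have h10 : u = 1 := by linear_combination h9
        rw [h10, map_one] at h6
        have h11 : (1 : F) = 0 := by linear_combination -h6
        exact one_ne_zero h11
  · rintro rfl
    simp [szZ]

theorem szZ_inv (hθ : ∀ x, θ (θ x) = x ^ 2) {v : F × F} (hv : v ≠ 0) :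
    szZ θ (v.2 / szZ θ v, v.1 / szZ θ v) = (szZ θ v)⁻¹ := by
  have h2 := sz_two hθ
  have hz : szZ θ v ≠ 0 := fun h => hv ((szZ_eq_zero hθ v).1 h)
  obtain ⟨x, y⟩ := v
  set z := szZ θ (x, y) with hzd
  have hz1 : z = x * y + x ^ 2 * θ x + θ y := rfl
  have hθz : θ z ≠ 0 := by simpa using hz
  have hz2 : θ z = θ x * θ y + θ x ^ 2 * x ^ 2 + y ^ 2 := by
    rw [hz1, map_add, map_add, map_mul, map_mul, map_pow, hθ, hθ]
  have key : x * y * θ z + y ^ 2 * θ y + θ x * z ^ 2 = z * θ z := by
    rw [hz2, hz1]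
    linear_combination (x ^ 3 * y * θ x ^ 2 + x * y * θ x * θ y) * h2
  have e : szZ θ (y / z, x / z) = y / z * (x / z) + (y / z) ^ 2 * θ (y / z) + θ (x / z) := rfl
  rw [e, map_div₀, map_div₀]
  have h3 : y / z * (x / z) + (y / z) ^ 2 * (θ y / θ z) + θ x / θ z =
      (x * y * θ z + y ^ 2 * θ y + θ x * z ^ 2) / (z ^ 2 * θ z) := by
    field_simp
  rw [h3, key]
  field_simp

theorem szW_szW (hθ : ∀ x, θ (θ x) = x ^ 2) (p : OnePoint (F × F)) :
    szW θ (szW θ p) = p := by
  classical
  have hcoe : ∀ v : F × F, szW θ (v : OnePoint (F × F)) =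
      if szZ θ v = 0 then ∞ else ((v.2 / szZ θ v, v.1 / szZ θ v) : F × F) := fun v => rfl
  have hinf : szW θ (∞ : OnePoint (F × F)) = (((0, 0) : F × F) : OnePoint (F × F)) := rfl
  have h0 : szZ θ (0, 0) = 0 := (szZ_eq_zero hθ (0, 0)).2 rfl
  induction p using OnePoint.rec with
  | infty => rw [hinf, hcoe, if_pos h0]
  | coe v =>
    by_cases hv : v = 0
    · subst hv
      have h1 : szW θ ((0 : F × F) : OnePoint (F × F)) = ∞ := by
        rw [hcoe, if_pos ((szZ_eq_zero hθ 0).2 rfl)]
      rw [h1, hinf]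
      rfl
    · have hz : szZ θ v ≠ 0 := fun h => hv ((szZ_eq_zero hθ v).1 h)
      rw [hcoe, if_neg hz, hcoe, szZ_inv hθ hv, if_neg (inv_ne_zero hz)]
      congr 1
      ext
      · simp only
        field_simp
      · simp only
        field_simp

end Pool.Agent.Helper37.PF
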