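import Pool.Agent.Helper37.PF.Defs
import Pool.Agent.Helper37.Prim.Symp

/-!
# PF-P1: `Sp(2m, 2)` acting on quadratic forms, existence lemmas and transvections (MP_13dc8a_al)

`ω` is alternating and nondegenerate on `V` over the field with two elements, `64 ≤ |V|`. Small
lemmas on such forms are in Prim/Symp.lean (`zmod2_cases`, `omega_symm`, `add_self_V`,
`exists_zero_one`, `exists_one_one`, `tv`).

PROOFS.
* `sp_pair`: let `K = {p | ω u₁ p = ω u₂ p = ω u₃ p = 0}`, a subspace. Suppose that `ω p p' = 0` for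
  all `p, p' ∈ K`. For `p ∈ K` the functional `ω p` vanishes on `K`, the intersection of the kernels
  of `ω u₁`, `ω u₂`, `ω u₃`, so by `mem_span_of_iInf_ker_le_ker` it is a linear combination of them, and
  by nondegeneracy `p` is a linear combination of `u₁`, `u₂`, `u₃`. `K` is the kernel of a map from `V`
  to `(ZMod 2) ^ 3`, so `|K| ≥ |V| / 8 ≥ 8`. If `u₃ = 0` the map is to `(ZMod 2) ^ 2`, `|K| ≥ 16`, but the
  span of `u₁`, `u₂` has at most `4` elements, contradiction. If `ω u₁ u₂ = 1`: the span of the `u_i` has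
  at most `8` elements and contains `K`, so it is `K`; so `u₁, u₂ ∈ K` and `ω u₁ u₂ = 0`, contradiction.
* `sp_value`: take `p`, `p'` from `sp_pair`. One of the four vectors `a`, `a + p`, `a + p'`,
  `a + p + p'` works, because
  `θ a + θ (a + p) + θ (a + p') + θ (a + p + p') = ω p p' = 1` and four equal values have sum `0`.
* `sp_polar`: `θ x = θ₀ x + ω b x`.
* `sp_add`: `θ = θ₀ + ω b`, `θ₀ b = 0`; take `b + c`: `θ₀ (b + c) = θ₀ b + θ₀ c + ω b c = θ c = 0`.
* `sp_diff`: `θ = θ₀ + ω b`, `θ' = θ₀ + ω b'`, `c = b + b'` (characteristic two):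
  `θ c = θ₀ (b + b') + ω b (b + b') = θ₀ b + θ₀ b' + ω b b' + ω b b' = 0`.
* `sp_move`: the transvection `f x = x + ω x c • c` is an isometry and an involution, and
  `θ (f x) = θ x + ω x c * θ c + ω x c * ω x c = θ x + ω x c * (θ c + 1)`. The map
  `θ ↦ θ ∘ f` maps `QF ω θ₀` to itself: if `θ c = 1` then `θ ∘ f = θ`, if `θ c = 0` then
  `θ ∘ f = θ + ω c ·` and `sp_add`; it is an involution, so it is a permutation `g` of `QF ω θ₀`, and
  `(g θ) (f x) = θ (f (f x)) = θ x`.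
* `sp_isom`: an element `g ∈ SpQ ω θ₀` given by `f`: if `θ' x = θ x + ω c x` for all `x` then
  `(g θ') (f x) = θ' x = θ x + ω c x = (g θ) (f x) + ω (f c) (f x)`.
-/

namespace Pool.Agent.Helper37.PF

open MulAction Equiv
open Pool.Agent.Helper37.Prim

variable {V : Type} [AddCommGroup V] [Module (ZMod 2) V]
  {ω : V →ₗ[ZMod 2] V →ₗ[ZMod 2] ZMod 2} {θ₀ : V → ZMod 2}

/-- The three counting facts for the common kernel `K` of the functionals `ω (u i)`. -/
private theorem sp_count [Finite V] (hnd : ∀ x, (∀ y, ω x y = 0) → x = 0) {k : ℕ} (u : Fin k → V)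
    (h : ∀ p p', (∀ i, ω (u i) p = 0) → (∀ i, ω (u i) p' = 0) → ω p p' = 0) :
    ∃ K S : Submodule (ZMod 2) V, (∀ p, p ∈ K ↔ ∀ i, ω (u i) p = 0) ∧ K ≤ S ∧
      (∀ i, u i ∈ S) ∧ Nat.card V ≤ Nat.card K * 2 ^ k ∧ Nat.card S ≤ 2 ^ k := by
  have hcard : Nat.card (Fin k → ZMod 2) = 2 ^ k := by
    rw [Nat.card_eq_fintype_card, Fintype.card_fun, ZMod.card, Fintype.card_fin]
  let φ : V →ₗ[ZMod 2] (Fin k → ZMod 2) := LinearMap.pi (fun i => ω (u i))
  have hmem : ∀ p, p ∈ LinearMap.ker φ ↔ ∀ i, ω (u i) p = 0 := by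
    intro p
    rw [LinearMap.mem_ker]
    exact funext_iff
  refine ⟨LinearMap.ker φ, Submodule.span (ZMod 2) (Set.range u), hmem, ?_, fun i =>
    Submodule.subset_span ⟨i, rfl⟩, ?_, ?_⟩
  · intro p hp
    rw [hmem] at hp
    have h1 : ω p ∈ Submodule.span (ZMod 2) (Set.range (fun i => ω (u i))) := by
      apply mem_span_of_iInf_ker_le_ker
      intro q hq
      rw [LinearMap.mem_ker]
      refine h p q hp (fun i => ?_)
      rw [Submodule.mem_iInf] at hq
      exact hq i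
    rw [Submodule.mem_span_range_iff_exists_fun] at h1 ⊢
    obtain ⟨a, ha⟩ := h1
    refine ⟨a, ?_⟩
    have h2 : ∑ i, a i • u i - p = 0 := by
      apply hnd
      intro y
      rw [map_sub, map_sum, LinearMap.sub_apply, ← ha]
      simp only [map_smul, sub_self]
    exact sub_eq_zero.1 h2
  · have h1 := AddSubgroup.card_mul_index (φ.toAddMonoidHom.ker)
    rw [AddSubgroup.index_ker] at h1
    have h2 : Nat.card (φ.toAddMonoidHom.range) ≤ 2 ^ k := by
      rw [← hcard]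
      exact Nat.card_le_card_of_injective _ Subtype.val_injective
    rw [← h1]
    exact Nat.mul_le_mul_left _ h2
  · rw [← hcard]
    refine Nat.card_le_card_of_surjective
      (fun a : Fin k → ZMod 2 => (⟨∑ i, a i • u i,
        Submodule.mem_span_range_iff_exists_fun (R := ZMod 2) |>.2 ⟨a, rfl⟩⟩ :
          Submodule.span (ZMod 2) (Set.range u))) ?_
    rintro ⟨x, hx⟩
    obtain ⟨a, ha⟩ := (Submodule.mem_span_range_iff_exists_fun (R := ZMod 2)).1 hx
    exact ⟨a, Subtype.ext ha⟩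

theorem sp_pair [Finite V] (hV : 64 ≤ Nat.card V) (halt : ∀ x, ω x x = 0)
    (hnd : ∀ x, (∀ y, ω x y = 0) → x = 0) {u₁ u₂ u₃ : V} (hu : ω u₁ u₂ = 1 ∨ u₃ = 0) :
    ∃ p p', ω u₁ p = 0 ∧ ω u₂ p = 0 ∧ ω u₃ p = 0 ∧ ω u₁ p' = 0 ∧ ω u₂ p' = 0 ∧ ω u₃ p' = 0 ∧
      ω p p' = 1 := by
  by_contra hne
  push Not at hne
  have hz : ∀ a : ZMod 2, a ≠ 1 → a = 0 := fun a ha => (zmod2_cases a).resolve_right ha
  rcases hu with hu | hu
  · obtain ⟨K, S, hK, hKS, hS, h1, h2⟩ := sp_count hnd ![u₁, u₂, u₃] (by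
      intro p p' hp hp'
      exact hz _ (hne p p' (hp 0) (hp 1) (hp 2) (hp' 0) (hp' 1) (hp' 2)))
    have h3 : Nat.card S ≤ Nat.card K := by omega
    have h4 : (K : Set V) = S := by
      refine Set.eq_of_subset_of_ncard_le hKS ?_ (Set.toFinite _)
      rw [← Nat.card_coe_set_eq, ← Nat.card_coe_set_eq]
      exact h3
    have h5 : u₁ ∈ (K : Set V) := by
      rw [h4]
      exact hS 0
    have h6 : ω u₂ u₁ = 0 := (hK u₁).1 h5 1
    rw [omega_symm halt, hu] at h6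
    exact one_ne_zero h6
  · subst hu
    obtain ⟨K, S, hK, hKS, hS, h1, h2⟩ := sp_count hnd ![u₁, u₂] (by
      intro p p' hp hp'
      exact hz _ (hne p p' (hp 0) (hp 1) (by simp) (hp' 0) (hp' 1) (by simp)))
    have h3 : Nat.card K ≤ Nat.card S := Nat.card_mono (Set.toFinite _) hKS
    omega

theorem sp_value [Finite V] (hV : 64 ≤ Nat.card V) (halt : ∀ x, ω x x = 0)
    (hnd : ∀ x, (∀ y, ω x y = 0) → x = 0) {θ : V → ZMod 2}
    (hθ : ∀ x y, θ (x + y) = θ x + θ y + ω x y) {u₁ u₂ u₃ : V} (hu : ω u₁ u₂ = 1 ∨ u₃ = 0)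
    (a : V) (e : ZMod 2) :
    ∃ v, ω u₁ v = ω u₁ a ∧ ω u₂ v = ω u₂ a ∧ ω u₃ v = ω u₃ a ∧ θ v = e := by
  obtain ⟨p, p', h1, h2, h3, h1', h2', h3', hpp⟩ := sp_pair hV halt hnd hu
  by_contra hne
  push Not at hne
  have e1 := hne a rfl rfl rfl
  have e2 := hne (a + p) (by rw [map_add, h1, add_zero]) (by rw [map_add, h2, add_zero])
    (by rw [map_add, h3, add_zero])
  have e3 := hne (a + p') (by rw [map_add, h1', add_zero]) (by rw [map_add, h2', add_zero])
    (by rw [map_add, h3', add_zero])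
  have e4 := hne (a + p + p') (by rw [map_add, map_add, h1, h1', add_zero, add_zero])
    (by rw [map_add, map_add, h2, h2', add_zero, add_zero])
    (by rw [map_add, map_add, h3, h3', add_zero, add_zero])
  rw [hθ a p] at e2
  rw [hθ a p'] at e3
  rw [hθ (a + p) p', hθ a p, map_add, LinearMap.add_apply, hpp] at e4
  clear hne
  revert e1 e2 e3 e4
  generalize θ a = x1
  generalize θ p = x2
  generalize θ p' = x3
  generalize ω a p = x4
  generalize ω a p' = x5
  revert x1 x2 x3 x4 x5 e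
  decide

theorem sp_polar (hθ₀ : ∀ x y, θ₀ (x + y) = θ₀ x + θ₀ y + ω x y) (θ : QF ω θ₀) (x y : V) :
    (θ : V → ZMod 2) (x + y) = (θ : V → ZMod 2) x + (θ : V → ZMod 2) y + ω x y := by
  obtain ⟨θ, a, ha, hθ⟩ := θ
  show θ (x + y) = θ x + θ y + ω x y
  rw [hθ, hθ x, hθ y, hθ₀, map_add]
  ring

theorem sp_add (hθ₀ : ∀ x y, θ₀ (x + y) = θ₀ x + θ₀ y + ω x y) (θ : QF ω θ₀) {c : V}
    (hc : (θ : V → ZMod 2) c = 0) :
    ∃ θ' : QF ω θ₀, ∀ x, (θ' : V → ZMod 2) x = (θ : V → ZMod 2) x + ω c x := by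
  obtain ⟨θ, b, hb, hθ⟩ := θ
  have hc' : θ c = 0 := hc
  rw [hθ] at hc'
  refine ⟨⟨fun x => θ x + ω c x, b + c, ?_, ?_⟩, fun x => rfl⟩
  · rw [hθ₀, hb, zero_add, hc']
  · intro x
    show θ x + ω c x = _
    rw [hθ, map_add, LinearMap.add_apply, add_assoc]

theorem sp_diff (halt : ∀ x, ω x x = 0) (hθ₀ : ∀ x y, θ₀ (x + y) = θ₀ x + θ₀ y + ω x y)
    (θ θ' : QF ω θ₀) : ∃ c : V, (θ : V → ZMod 2) c = 0 ∧
      ∀ x, (θ' : V → ZMod 2) x = (θ : V → ZMod 2) x + ω c x := by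
  obtain ⟨θ, b, hb, hθ⟩ := θ
  obtain ⟨θ', b', hb', hθ'⟩ := θ'
  have h2 : ∀ a : ZMod 2, a + a = 0 := by decide
  refine ⟨b + b', ?_, ?_⟩
  · show θ (b + b') = 0
    rw [hθ, hθ₀, hb, hb', map_add, halt, zero_add, zero_add]
    exact h2 _
  · intro x
    show θ' x = θ x + ω (b + b') x
    rw [hθ, hθ', map_add, LinearMap.add_apply, add_assoc, ← add_assoc (ω b x), h2, zero_add]

theorem sp_move (halt : ∀ x, ω x x = 0) (hθ₀ : ∀ x y, θ₀ (x + y) = θ₀ x + θ₀ y + ω x y) (c : V) :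
    ∃ g ∈ SpQ ω θ₀, ∀ (θ : QF ω θ₀) (x : V),
      (g θ : V → ZMod 2) x = (θ : V → ZMod 2) x + ω x c * ((θ : V → ZMod 2) c + 1) := by
  have h2 : ∀ a : ZMod 2, a + a = 0 := by decide
  let f0 : V →ₗ[ZMod 2] V := LinearMap.id + (ω.flip c).smulRight c
  have hf0 : ∀ x, f0 x = x + ω x c • c := fun x => rfl
  have hinv : Function.Involutive f0 := by
    intro x
    rw [hf0, hf0, map_add, LinearMap.add_apply, map_smul, LinearMap.smul_apply, halt, smul_zero,
      add_zero, add_assoc, add_self_V, add_zero]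
  let f : V ≃ₗ[ZMod 2] V := LinearEquiv.ofInvolutive f0 hinv
  have hf : ∀ x, f x = x + ω x c • c := fun x => rfl
  have hff : ∀ x, f (f x) = x := hinv
  have hiso : ∀ x y, ω (f x) (f y) = ω x y := by
    intro x y
    rw [hf, hf, map_add ω, LinearMap.add_apply, map_add, map_add, map_smul ω, LinearMap.smul_apply,
      LinearMap.smul_apply, map_smul, map_smul, halt, omega_symm halt c y, smul_eq_mul,
      smul_eq_mul, smul_eq_mul, smul_eq_mul, mul_zero, mul_zero, add_zero,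
      mul_comm (ω y c), add_assoc, h2, add_zero]
  have hθf : ∀ (θ : QF ω θ₀) (x : V), (θ : V → ZMod 2) (f x) =
      (θ : V → ZMod 2) x + ω x c * ((θ : V → ZMod 2) c + 1) := by
    intro θ x
    rw [hf]
    rcases zmod2_cases (ω x c) with h | h
    · rw [h, zero_smul, add_zero, zero_mul, add_zero]
    · rw [h, one_smul, sp_polar hθ₀, h, one_mul, add_assoc]
  have hmem : ∀ θ : QF ω θ₀, (fun x => (θ : V → ZMod 2) (f x)) ∈ QF ω θ₀ := by
    intro θ
    rcases zmod2_cases ((θ : V → ZMod 2) c) with h | h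
    · obtain ⟨θ', hθ'⟩ := sp_add hθ₀ θ h
      have : (fun x => (θ : V → ZMod 2) (f x)) = θ' := by
        funext x
        rw [hθf, h, zero_add, mul_one, hθ', omega_symm halt]
      rw [this]
      exact θ'.2
    · have : (fun x => (θ : V → ZMod 2) (f x)) = θ := by
        funext x
        rw [hθf, h, h2, mul_zero, add_zero]
      rw [this]
      exact θ.2
  let g : Perm (QF ω θ₀) :=
    { toFun := fun θ => ⟨_, hmem θ⟩
      invFun := fun θ => ⟨_, hmem θ⟩
      left_inv := fun θ => Subtype.ext (funext fun x => congrArg (θ : V → ZMod 2) (hff x))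
      right_inv := fun θ => Subtype.ext (funext fun x => congrArg (θ : V → ZMod 2) (hff x)) }
  refine ⟨g, ⟨f, hiso, fun θ x => ?_⟩, fun θ x => hθf θ x⟩
  show (θ : V → ZMod 2) (f (f x)) = _
  rw [hff]

theorem sp_isom {g : Perm (QF ω θ₀)} (hg : g ∈ SpQ ω θ₀) :
    ∃ f : V ≃ₗ[ZMod 2] V, (∀ x y, ω (f x) (f y) = ω x y) ∧
      ∀ (θ θ' : QF ω θ₀) (c : V), (∀ x, (θ' : V → ZMod 2) x = (θ : V → ZMod 2) x + ω c x) →
        ∀ x, (g θ' : V → ZMod 2) x = (g θ : V → ZMod 2) x + ω (f c) x := by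
  obtain ⟨f, hf, hfg⟩ := hg
  refine ⟨f, hf, fun θ θ' c h x => ?_⟩
  obtain ⟨y, rfl⟩ := f.surjective x
  rw [hfg, hfg, hf, h]

end Pool.Agent.Helper37.PF
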