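import Pool.Agent.Helper37.PF.SpBasic

/-!
# PF-P3: `Sp(2m, 2)` acting on quadratic forms is not `2`-set primitive (MP_13dc8a_al)

The lemmas of `PF/SpBasic.lean` (module PF-P1) are used. For
`θ ∈ QF ω θ₀` and `c` with `θ c = 0` let `θ[c] = θ + ω c ·` (`sp_add`); every element of
`QF ω θ₀` is `θ[c]` for exactly one such `c` (`sp_diff`, nondegeneracy), and `θ[c] = θ` iff `c = 0`.
Call `g_c` the element of `sp_move`. Then
(i) if `θ c = 0`, `g_c θ = θ[c]`; if `θ c = 1`, `g_c θ = θ`;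
(ii) if `θ v = 1`, `θ d = 0`, then `g_v` fixes `θ` and maps `θ[d]` to `θ[d + ω d v • v]`
(`θ[d] v = 1 + ω d v`, so `g_v θ[d] = θ + ω d · + ω d v * ω v ·`).
In particular: if `θ c = θ d = 0` and `ω c d = 1` then `v = c + d` satisfies `θ v = 1`, and `g_v` fixes
`θ` and exchanges `θ[c]` and `θ[d]`.

PROOF OF `sp_not_tset`. Use `rel_of_tsetprimitive` (Prim/Basic.lean) with the relation
`r A B`: `∑ θ ∈ A, θ = ∑ θ ∈ B, θ` (sums of functions `V → ZMod 2`); it is an equivalence relation and it is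
invariant, since `(g θ) (f x) = θ x`. It is not total: for `θ`, `c ≠ d` both nonzero with
`θ c = θ d = 0` the sums for `{θ, θ[c]}` and `{θ, θ[d]}` are `ω c ·` and `ω d ·`. It is not the
equality: take `c ≠ 0` with `θ c = 0` and `d ≠ 0`, `d ≠ c`, with `θ d = 0` and `ω c d = 0`; then
`{θ, θ[c]}` and `{θ[d], θ[d][c]}` (`θ[d] c = θ c + ω d c = 0`) have the same sum. Existence of `c`:
`sp_value` with `u₁ ≠ 0` arbitrary, `u₂ = u₃ = 0` and a vector `a` with `ω u₁ a = 1`. Existence of `d`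
(E): `sp_pair` with `u₁ = c`, `u₂ = u₃ = 0` gives `p`, `p'` with `ω c p = ω c p' = 0`,
`ω p p' = 1`; now `sp_value` with `u₁ = c`, `u₂ = p`, `u₃ = 0`, `a = p'` gives `d` with `ω c d = 0`,
`ω p d = 1`, `θ d = 0`; so `d ≠ 0`, and `d ≠ c` because `ω p c = ω c p = 0`.

PROOF OF `sp_not_three`. There are `θ`, `c`, `d`, `e` with `c`, `d`, `e` nonzero, `c ≠ d`, `c ≠ e`,
`θ c = θ d = θ e = 0`, `ω c d = 1`, `ω c e = 0`: `c` as before, `d` by `sp_value` with `u₁ = c`,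
`u₂ = u₃ = 0` and `a` with `ω c a = 1`, and `e` by (E). If the group is `3`-transitive some `g` maps
`(θ, θ[c], θ[d])` to `(θ, θ[c], θ[e])`. Let `f` be as in `sp_isom`: `f c = c`, `f d = e` by
nondegeneracy, so `1 = ω c d = ω (f c) (f d) = ω c e = 0`, contradiction.
-/

namespace Pool.Agent.Helper37.PF

open MulAction Equiv
open Pool.Agent.Helper37.Prim

variable {V : Type} [AddCommGroup V] [Module (ZMod 2) V]
  {ω : V →ₗ[ZMod 2] V →ₗ[ZMod 2] ZMod 2} {θ₀ : V → ZMod 2}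

private theorem SpNot_inj (hnd : ∀ x, (∀ y, ω x y = 0) → x = 0) {a b : V}
    (h : ∀ x, ω a x = ω b x) : a = b := by
  have h1 : a + b = 0 := by
    apply hnd
    intro y
    rw [map_add, LinearMap.add_apply, h y]
    exact CharTwo.add_self_eq_zero _
  have h2 : a + b + b = b := by rw [h1, zero_add]
  rw [add_assoc, add_self_V, add_zero] at h2
  exact h2

private theorem SpNot_ne (hnd : ∀ x, (∀ y, ω x y = 0) → x = 0) {θ θ' θ'' : QF ω θ₀} {a b : V}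
    (h1 : ∀ x, (θ' : V → ZMod 2) x = (θ : V → ZMod 2) x + ω a x)
    (h2 : ∀ x, (θ'' : V → ZMod 2) x = (θ : V → ZMod 2) x + ω b x) (hab : a ≠ b) : θ' ≠ θ'' := by
  intro h
  apply hab
  apply SpNot_inj hnd
  intro x
  have h3 := h1 x
  rw [h, h2 x] at h3
  exact (add_left_cancel h3).symm

private theorem SpNot_ne' (hnd : ∀ x, (∀ y, ω x y = 0) → x = 0) {θ θ'' : QF ω θ₀} {b : V}
    (h2 : ∀ x, (θ'' : V → ZMod 2) x = (θ : V → ZMod 2) x + ω b x) (hb : b ≠ 0) : θ ≠ θ'' := by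
  refine SpNot_ne hnd (θ := θ) (a := 0) (b := b) (fun x => ?_) h2 (Ne.symm hb)
  rw [map_zero, LinearMap.zero_apply, add_zero]

/-- the form `θ₀` -/
private theorem SpNot_base (hθ₀ : ∀ x y, θ₀ (x + y) = θ₀ x + θ₀ y + ω x y) :
    Nonempty (QF ω θ₀) := by
  have h1 := hθ₀ 0 0
  rw [add_zero, map_zero, add_zero] at h1
  have h2 : θ₀ 0 = 0 := by
    rw [CharTwo.add_self_eq_zero] at h1
    exact h1
  exact ⟨⟨θ₀, 0, h2, fun x => by rw [map_zero, LinearMap.zero_apply, add_zero]⟩⟩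

private theorem SpNot_one (hnd : ∀ x, (∀ y, ω x y = 0) → x = 0) {u : V} (hu : u ≠ 0) :
    ∃ a, ω u a = 1 := by
  by_contra h
  push Not at h
  exact hu (hnd u fun y => (zmod2_cases _).resolve_right (h y))

private theorem SpNot_c [Finite V] (hV : 64 ≤ Nat.card V) (halt : ∀ x, ω x x = 0)
    (hnd : ∀ x, (∀ y, ω x y = 0) → x = 0) (hθ₀ : ∀ x y, θ₀ (x + y) = θ₀ x + θ₀ y + ω x y)
    (θ : QF ω θ₀) : ∃ c : V, c ≠ 0 ∧ (θ : V → ZMod 2) c = 0 := by
  have hnt : Nontrivial V := by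
    rw [← Finite.one_lt_card_iff_nontrivial]
    omega
  obtain ⟨u, hu⟩ := exists_ne (0 : V)
  obtain ⟨a, ha⟩ := SpNot_one hnd hu
  obtain ⟨v, h1, -, -, h4⟩ := sp_value hV halt hnd (sp_polar hθ₀ θ) (u₁ := u) (u₂ := 0)
    (u₃ := 0) (Or.inr rfl) a 0
  refine ⟨v, ?_, h4⟩
  rintro rfl
  rw [map_zero, ha] at h1
  exact zero_ne_one h1

private theorem SpNot_E [Finite V] (hV : 64 ≤ Nat.card V) (halt : ∀ x, ω x x = 0)
    (hnd : ∀ x, (∀ y, ω x y = 0) → x = 0) (hθ₀ : ∀ x y, θ₀ (x + y) = θ₀ x + θ₀ y + ω x y)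
    (θ : QF ω θ₀) (c : V) :
    ∃ d : V, d ≠ 0 ∧ d ≠ c ∧ (θ : V → ZMod 2) d = 0 ∧ ω c d = 0 := by
  obtain ⟨p, p', h1, -, -, h2, -, -, h3⟩ := sp_pair hV halt hnd (u₁ := c) (u₂ := 0) (u₃ := 0)
    (Or.inr rfl)
  obtain ⟨d, h4, h5, -, h6⟩ := sp_value hV halt hnd (sp_polar hθ₀ θ) (u₁ := c) (u₂ := p)
    (u₃ := 0) (Or.inr rfl) p' 0
  rw [h2] at h4
  rw [h3] at h5
  refine ⟨d, ?_, ?_, h6, h4⟩
  · rintro rfl
    rw [map_zero] at h5
    exact zero_ne_one h5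
  · rintro rfl
    rw [omega_symm halt, h1] at h5
    exact zero_ne_one h5

open scoped Pointwise in
theorem sp_not_tset [Finite V] [DecidableEq (QF ω θ₀)] (hV : 64 ≤ Nat.card V)
    (halt : ∀ x, ω x x = 0)
    (hnd : ∀ x, (∀ y, ω x y = 0) → x = 0) (hθ₀ : ∀ x y, θ₀ (x + y) = θ₀ x + θ₀ y + ω x y) :
    ¬ IsPreprimitive (SpQ ω θ₀) (Set.powersetCard (QF ω θ₀) 2) := by
  intro h
  obtain ⟨θ⟩ := SpNot_base (ω := ω) hθ₀
  obtain ⟨c, hc0, hc⟩ := SpNot_c hV halt hnd hθ₀ θ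
  obtain ⟨d, hd0, hdc, hd, hcd⟩ := SpNot_E hV halt hnd hθ₀ θ c
  obtain ⟨θc, h1⟩ := sp_add hθ₀ θ hc
  obtain ⟨θd, h2⟩ := sp_add hθ₀ θ hd
  have h3 : (θd : V → ZMod 2) c = 0 := by
    rw [h2, hc, omega_symm halt, hcd, add_zero]
  obtain ⟨θdc, h4⟩ := sp_add hθ₀ θd h3
  have n1 : θ ≠ θc := SpNot_ne' hnd h1 hc0
  have n2 : θ ≠ θd := SpNot_ne' hnd h2 hd0
  have n3 : θc ≠ θd := SpNot_ne hnd h1 h2 (Ne.symm hdc)
  have n4 : θd ≠ θdc := SpNot_ne' hnd h4 hc0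
  rcases rel_of_tsetprimitive h
    (fun A B => ∀ x : V, ∑ η ∈ A, (η : V → ZMod 2) x = ∑ η ∈ B, (η : V → ZMod 2) x)
    ⟨fun _ _ => rfl, fun h x => (h x).symm, fun h h' x => (h x).trans (h' x)⟩
    (by
      intro g A B _ _ hAB x
      obtain ⟨f, -, hf⟩ := g.2
      have key : ∀ A : Finset (QF ω θ₀), ∑ η ∈ g • A, (η : V → ZMod 2) x =
          ∑ η ∈ A, (η : V → ZMod 2) (f.symm x) := by
        intro A
        rw [Finset.smul_finset_def, Finset.sum_image (fun a _ b _ hab =>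
          MulAction.injective g hab)]
        refine Finset.sum_congr rfl fun η _ => ?_
        have := hf η (f.symm x)
        rw [f.apply_symm_apply] at this
        exact this
      rw [key, key]
      exact hAB _) with h5 | h5
  · have h6 := h5 {θ, θc} {θd, θdc} (Finset.card_pair n1) (Finset.card_pair n4) (fun x => by
      rw [Finset.sum_pair n1, Finset.sum_pair n4, h1, h4, h2]
      have e1 : ∀ a b c : ZMod 2, a + (a + b) = a + c + (a + c + b) := by decide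
      exact e1 _ _ _)
    have h7 : θd ∈ ({θ, θc} : Finset (QF ω θ₀)) := by
      rw [h6]
      exact Finset.mem_insert_self _ _
    rcases Finset.mem_insert.1 h7 with h8 | h8
    · exact n2 h8.symm
    · exact n3 (Finset.mem_singleton.1 h8).symm
  · apply hdc
    symm
    apply SpNot_inj hnd
    intro x
    have h6 := h5 {θ, θc} {θ, θd} (Finset.card_pair n1) (Finset.card_pair n2) x
    rw [Finset.sum_pair n1, Finset.sum_pair n2, h1, h2] at h6
    have e1 : ∀ a b c : ZMod 2, a + (a + b) = a + (a + c) → b = c := by decide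
    exact e1 _ _ _ h6

private theorem SpNot_emb {X : Type*} {a b c : X} (hab : a ≠ b) (hac : a ≠ c) (hbc : b ≠ c) :
    ∃ e : Fin 3 ↪ X, e 0 = a ∧ e 1 = b ∧ e 2 = c := by
  refine ⟨⟨![a, b, c], ?_⟩, rfl, rfl, rfl⟩
  intro i j h
  fin_cases i <;> fin_cases j <;> simp_all

theorem sp_not_three [Finite V] (hV : 64 ≤ Nat.card V) (halt : ∀ x, ω x x = 0)
    (hnd : ∀ x, (∀ y, ω x y = 0) → x = 0) (hθ₀ : ∀ x y, θ₀ (x + y) = θ₀ x + θ₀ y + ω x y) :
    ¬ IsMultiplyPretransitive (SpQ ω θ₀) (QF ω θ₀) 3 := by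
  intro h
  obtain ⟨θ⟩ := SpNot_base (ω := ω) hθ₀
  obtain ⟨c, hc0, hc⟩ := SpNot_c hV halt hnd hθ₀ θ
  obtain ⟨e, he0, hec, he, hce⟩ := SpNot_E hV halt hnd hθ₀ θ c
  obtain ⟨a, ha⟩ := SpNot_one hnd hc0
  obtain ⟨d, h1, -, -, hd⟩ := sp_value hV halt hnd (sp_polar hθ₀ θ) (u₁ := c) (u₂ := 0)
    (u₃ := 0) (Or.inr rfl) a 0
  rw [ha] at h1
  have hd0 : d ≠ 0 := by
    rintro rfl
    rw [map_zero] at h1
    exact zero_ne_one h1
  have hdc : c ≠ d := by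
    rintro rfl
    rw [halt] at h1
    exact zero_ne_one h1
  obtain ⟨θc, g1⟩ := sp_add hθ₀ θ hc
  obtain ⟨θd, g2⟩ := sp_add hθ₀ θ hd
  obtain ⟨θe, g3⟩ := sp_add hθ₀ θ he
  obtain ⟨E1, a0, a1, a2⟩ := SpNot_emb (SpNot_ne' hnd g1 hc0) (SpNot_ne' hnd g2 hd0)
    (SpNot_ne hnd g1 g2 hdc)
  obtain ⟨E2, b0, b1, b2⟩ := SpNot_emb (SpNot_ne' hnd g1 hc0) (SpNot_ne' hnd g3 he0)
    (SpNot_ne hnd g1 g3 (Ne.symm hec))
  obtain ⟨g, hg⟩ := h.exists_smul_eq E1 E2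
  have k0 : (g : Perm (QF ω θ₀)) θ = θ := by
    have := DFunLike.congr_fun hg 0
    rw [b0] at this
    rw [← a0] at this ⊢
    exact this
  have k1 : (g : Perm (QF ω θ₀)) θc = θc := by
    have := DFunLike.congr_fun hg 1
    rw [b1] at this
    rw [← a1] at this ⊢
    exact this
  have k2 : (g : Perm (QF ω θ₀)) θd = θe := by
    have := DFunLike.congr_fun hg 2
    rw [b2] at this
    rw [← a2]
    exact this
  obtain ⟨f, hf1, hf2⟩ := sp_isom g.2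
  have l1 : c = f c := by
    apply SpNot_inj hnd
    intro x
    have := hf2 θ θc c g1 x
    rw [k0, k1, g1 x] at this
    exact add_left_cancel this
  have l2 : e = f d := by
    apply SpNot_inj hnd
    intro x
    have := hf2 θ θd d g2 x
    rw [k0, k2, g3 x] at this
    exact add_left_cancel this
  have l3 := hf1 c d
  rw [← l1, ← l2, hce, h1] at l3
  exact zero_ne_one l3

end Pool.Agent.Helper37.PF
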