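import Pool.Agent.Helper37.PF.SpBasic

/-!
# PF-P2: `Sp(2m, 2)` acting on quadratic forms is `2`-primitive (MP_13dc8a_al)

The lemmas of `PF/SpBasic.lean` (module PF-P1) are used. For
`θ ∈ QF ω θ₀` and `c` with `θ c = 0` let `θ[c] = θ + ω c ·` (`sp_add`); every element of
`QF ω θ₀` is `θ[c]` for exactly one such `c` (`sp_diff`, nondegeneracy), and `θ[c] = θ` iff `c = 0`.
Call `g_c` the element of `sp_move`. Then
(i) if `θ c = 0`, `g_c θ = θ[c]`; if `θ c = 1`, `g_c θ = θ`;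
(ii) if `θ v = 1`, `θ d = 0`, then `g_v` fixes `θ` and maps `θ[d]` to `θ[d + ω d v • v]`
(`θ[d] v = 1 + ω d v`, so `g_v θ[d] = θ + ω d · + ω d v * ω v ·`).
In particular: if `θ c = θ d = 0` and `ω c d = 1` then `v = c + d` satisfies `θ v = 1`, and `g_v` fixes
`θ` and exchanges `θ[c]` and `θ[d]`.

PROOF OF `sp_two_trans`. By (i) `g_c` maps `θ` to `θ[c]`, so the group is transitive. The stabiliser
of `θ` is transitive on the `θ[c]`, `c ≠ 0`: let `c ≠ d`, both `≠ 0`, `θ c = θ d = 0`. If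
`ω c d = 1` use `v = c + d`. Otherwise choose `a` with `ω c a = ω d a = 1` (`exists_one_one`) and then
by `sp_value` (`u₁ = c`, `u₂ = d`, `u₃ = 0`) `e` with `ω c e = ω d e = 1`, `θ e = 0`: `θ[c]` is moved to
`θ[e]` and then to `θ[d]`. (`is_two_pretransitive_iff`.)

PROOF OF `sp_tprimitive`. `tprimitive_two_of_rel` (Prim/Rel2.lean) with the base point `θ = θ₀`
(`a = 0`; `θ₀ 0 = 0`). Write `c ~ d` for `r θ[c] θ[d]` (`c, d ≠ 0`, `θ c = θ d = 0`). `~` is preserved by the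
`g_v` with `θ v = 1`. There are `c ≠ d` with `c ~ d`.
Step 1: there are such `c`, `d` with `ω c d = 1`. If `ω c d = 0` choose `a` with `ω c a = 0`,
`ω d a = 1` (`exists_zero_one`), then `v` with `ω c v = 0`, `ω d v = 1`, `θ v = 1` (`sp_value`, `u₃ = 0`).
`g_v` fixes `θ[c]` and maps `θ[d]` to `θ[d + v]`, so `c ~ d + v`, `d ~ d + v` and `ω d (d + v) = 1`.
Step 2: if `c ~ c'` and `ω c c' = 1` then `c ~ d` for all `d` with `θ d = 0`, `ω c d = 1`. If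
`ω c' d = 1` then `v = c' + d` satisfies `θ v = 1`, `ω c v = 0`, and `g_v` maps `(θ[c], θ[c'])` to
`(θ[c], θ[d])`. If `ω c' d = 0` (and `d ≠ c'`) choose `e` with `ω c e = ω c' e = ω d e = 1`, `θ e = 0`:
`sp_value` with `u₁ = c`, `u₂ = c'`, `u₃ = d`, `ω u₁ u₂ = 1` and `a = c + c'`
(`ω c a = 1`, `ω c' a = ω c' c = 1`, `ω d a = ω d c + ω d c' = 1`). Then `c ~ e` and then `c ~ d`.
Step 3: for all `c`, `d` with `ω c d = 1` and `θ c = θ d = 0`: `c ~ d`. If it holds for `c` (and all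
`d`), it holds for every `c'` with `ω c c' = 1`, because `c' ~ c` and step 2; and any two `c`, `c''`
(nonzero, with `θ = 0`) are joined by `e` with `ω c e = ω c'' e = 1`, `θ e = 0`.
Step 4: any two different `c`, `d` have such a common neighbour `e`, so `c ~ e ~ d`.
-/

namespace Pool.Agent.Helper37.PF

open MulAction Equiv
open Pool.Agent.Helper37.Prim

variable {V : Type} [AddCommGroup V] [Module (ZMod 2) V]
  {ω : V →ₗ[ZMod 2] V →ₗ[ZMod 2] ZMod 2} {θ₀ : V → ZMod 2}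

/-- the quadratic form `θ + ω c ·` -/
private noncomputable def TT (hθ₀ : ∀ x y, θ₀ (x + y) = θ₀ x + θ₀ y + ω x y) (θ : QF ω θ₀) (c : V)
    (hc : (θ : V → ZMod 2) c = 0) : QF ω θ₀ := Classical.choose (sp_add hθ₀ θ hc)

private theorem TT_apply (hθ₀ : ∀ x y, θ₀ (x + y) = θ₀ x + θ₀ y + ω x y) (θ : QF ω θ₀) (c : V)
    (hc : (θ : V → ZMod 2) c = 0) (x : V) :
    (TT hθ₀ θ c hc : V → ZMod 2) x = (θ : V → ZMod 2) x + ω c x :=
  Classical.choose_spec (sp_add hθ₀ θ hc) x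

private theorem qf_ext {θ θ' : QF ω θ₀} (h : ∀ x, (θ : V → ZMod 2) x = (θ' : V → ZMod 2) x) :
    θ = θ' := Subtype.ext (funext h)

private theorem TT_congr (hθ₀ : ∀ x y, θ₀ (x + y) = θ₀ x + θ₀ y + ω x y) (θ : QF ω θ₀) {c d : V}
    (h : c = d) (hc : (θ : V → ZMod 2) c = 0) (hd : (θ : V → ZMod 2) d = 0) :
    TT hθ₀ θ c hc = TT hθ₀ θ d hd := by
  subst h
  rfl

private theorem exists_TT (halt : ∀ x, ω x x = 0)
    (hθ₀ : ∀ x y, θ₀ (x + y) = θ₀ x + θ₀ y + ω x y) (θ θ' : QF ω θ₀) :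
    ∃ (c : V) (hc : (θ : V → ZMod 2) c = 0), θ' = TT hθ₀ θ c hc := by
  obtain ⟨c, hc, h⟩ := sp_diff halt hθ₀ θ θ'
  exact ⟨c, hc, qf_ext fun x => by rw [h, TT_apply]⟩

private theorem TT_zero (hθ₀ : ∀ x y, θ₀ (x + y) = θ₀ x + θ₀ y + ω x y) (θ : QF ω θ₀) {c : V}
    (h : c = 0) (hc : (θ : V → ZMod 2) c = 0) : TT hθ₀ θ c hc = θ := by
  subst h
  exact qf_ext fun x => by rw [TT_apply, map_zero, LinearMap.zero_apply, add_zero]

private theorem TT_ne (hnd : ∀ x, (∀ y, ω x y = 0) → x = 0)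
    (hθ₀ : ∀ x y, θ₀ (x + y) = θ₀ x + θ₀ y + ω x y) (θ : QF ω θ₀) {c : V} (h : c ≠ 0)
    (hc : (θ : V → ZMod 2) c = 0) : TT hθ₀ θ c hc ≠ θ := by
  intro h1
  apply h
  apply hnd
  intro x
  have h2 := TT_apply hθ₀ θ c hc x
  rw [h1] at h2
  exact left_eq_add.1 h2

private theorem move_trans (halt : ∀ x, ω x x = 0)
    (hθ₀ : ∀ x y, θ₀ (x + y) = θ₀ x + θ₀ y + ω x y) (θ θ' : QF ω θ₀) :
    ∃ g : SpQ ω θ₀, g • θ = θ' := by
  obtain ⟨c, hc, h⟩ := sp_diff halt hθ₀ θ θ'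
  obtain ⟨g, hg, hgx⟩ := sp_move halt hθ₀ c
  refine ⟨⟨g, hg⟩, qf_ext fun x => ?_⟩
  change (g θ : V → ZMod 2) x = _
  rw [hgx, hc, zero_add, mul_one, h, omega_symm halt x c]

private theorem move_fix (halt : ∀ x, ω x x = 0)
    (hθ₀ : ∀ x y, θ₀ (x + y) = θ₀ x + θ₀ y + ω x y) (θ : QF ω θ₀) {v : V}
    (hv : (θ : V → ZMod 2) v = 1) :
    ∃ g : SpQ ω θ₀, g • θ = θ ∧ ∀ d (hd : (θ : V → ZMod 2) d = 0),
      ∃ hd' : (θ : V → ZMod 2) (d + ω d v • v) = 0,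
        g • TT hθ₀ θ d hd = TT hθ₀ θ (d + ω d v • v) hd' := by
  have h2 : ∀ a : ZMod 2, a + a = 0 := by decide
  obtain ⟨g, hg, hgx⟩ := sp_move halt hθ₀ v
  refine ⟨⟨g, hg⟩, qf_ext fun x => ?_, fun d hd => ?_⟩
  · change (g θ : V → ZMod 2) x = _
    rw [hgx, hv, h2, mul_zero, add_zero]
  · have hd' : (θ : V → ZMod 2) (d + ω d v • v) = 0 := by
      rcases zmod2_cases (ω d v) with h | h
      · rw [h, zero_smul, add_zero, hd]
      · rw [h, one_smul, sp_polar hθ₀, hd, hv, h]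
        decide
    refine ⟨hd', qf_ext fun x => ?_⟩
    change (g (TT hθ₀ θ d hd) : V → ZMod 2) x = _
    rw [hgx, TT_apply, TT_apply, TT_apply, hv, map_add, LinearMap.add_apply, map_smul,
      LinearMap.smul_apply, smul_eq_mul, omega_symm halt x v]
    generalize (θ : V → ZMod 2) x = a1
    generalize ω d x = a2
    generalize ω v x = a3
    generalize ω d v = a4
    revert a1 a2 a3 a4
    decide

private theorem common_nb [Finite V] (hV : 64 ≤ Nat.card V) (halt : ∀ x, ω x x = 0)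
    (hnd : ∀ x, (∀ y, ω x y = 0) → x = 0) (hθ₀ : ∀ x y, θ₀ (x + y) = θ₀ x + θ₀ y + ω x y)
    (θ : QF ω θ₀) {c d : V} (hc : c ≠ 0) (hd : d ≠ 0) (hcd : c ≠ d) :
    ∃ e, ω c e = 1 ∧ ω d e = 1 ∧ (θ : V → ZMod 2) e = 0 := by
  obtain ⟨a, h1, h2⟩ := exists_one_one hnd hc hd hcd
  obtain ⟨e, h3, h4, -, h5⟩ := sp_value (θ := (θ : V → ZMod 2)) hV halt hnd (sp_polar hθ₀ θ)
    (u₁ := c) (u₂ := d) (u₃ := 0) (Or.inr rfl) a 0
  exact ⟨e, h3.trans h1, h4.trans h2, h5⟩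

private theorem move_one (halt : ∀ x, ω x x = 0)
    (hθ₀ : ∀ x y, θ₀ (x + y) = θ₀ x + θ₀ y + ω x y) (θ : QF ω θ₀) {c d : V}
    (hc : (θ : V → ZMod 2) c = 0) (hd : (θ : V → ZMod 2) d = 0) (hcd : ω c d = 1) :
    ∃ g : SpQ ω θ₀, g • θ = θ ∧ g • TT hθ₀ θ c hc = TT hθ₀ θ d hd := by
  have hv : (θ : V → ZMod 2) (c + d) = 1 := by
    rw [sp_polar hθ₀, hc, hd, hcd]
    decide
  obtain ⟨g, hg, hgd⟩ := move_fix halt hθ₀ θ hv
  refine ⟨g, hg, ?_⟩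
  obtain ⟨h1, h2⟩ := hgd c hc
  rw [h2]
  apply TT_congr
  rw [map_add, halt, zero_add, hcd, one_smul, ← add_assoc, add_self_V, zero_add]

private theorem trans_fix [Finite V] (hV : 64 ≤ Nat.card V) (halt : ∀ x, ω x x = 0)
    (hnd : ∀ x, (∀ y, ω x y = 0) → x = 0) (hθ₀ : ∀ x y, θ₀ (x + y) = θ₀ x + θ₀ y + ω x y)
    (θ : QF ω θ₀) {c d : V} (hc0 : c ≠ 0) (hd0 : d ≠ 0)
    (hc : (θ : V → ZMod 2) c = 0) (hd : (θ : V → ZMod 2) d = 0) :
    ∃ g : SpQ ω θ₀, g • θ = θ ∧ g • TT hθ₀ θ c hc = TT hθ₀ θ d hd := by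
  by_cases hcd : c = d
  · subst hcd
    exact ⟨1, one_smul _ _, one_smul _ _⟩
  · obtain ⟨e, h1, h2, h3⟩ := common_nb hV halt hnd hθ₀ θ hc0 hd0 hcd
    obtain ⟨g, hg, hg'⟩ := move_one halt hθ₀ θ hc h3 h1
    obtain ⟨k, hk, hk'⟩ := move_one halt hθ₀ θ h3 hd (by rw [omega_symm halt, h2])
    exact ⟨k * g, by rw [mul_smul, hg, hk], by rw [mul_smul, hg', hk']⟩

theorem sp_two_trans [Finite V] (hV : 64 ≤ Nat.card V) (halt : ∀ x, ω x x = 0)
    (hnd : ∀ x, (∀ y, ω x y = 0) → x = 0) (hθ₀ : ∀ x y, θ₀ (x + y) = θ₀ x + θ₀ y + ω x y) :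
    IsMultiplyPretransitive (SpQ ω θ₀) (QF ω θ₀) 2 := by
  rw [is_two_pretransitive_iff]
  intro a b c d hab hcd
  obtain ⟨g, hg⟩ := move_trans halt hθ₀ a c
  obtain ⟨u, hu, hu'⟩ := exists_TT halt hθ₀ c (g • b)
  obtain ⟨w, hw, hw'⟩ := exists_TT halt hθ₀ c d
  have hu0 : u ≠ 0 := by
    intro h
    rw [TT_zero hθ₀ c h hu, ← hg] at hu'
    exact hab (smul_left_cancel g hu').symm
  have hw0 : w ≠ 0 := by
    intro h
    rw [TT_zero hθ₀ c h hw] at hw'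
    exact hcd hw'.symm
  obtain ⟨k, hk, hk'⟩ := trans_fix hV halt hnd hθ₀ c hu0 hw0 hu hw
  exact ⟨k * g, by rw [mul_smul, hg, hk], by rw [mul_smul, hu', hk', hw']⟩

theorem sp_tprimitive [Finite V] (hV : 64 ≤ Nat.card V) (halt : ∀ x, ω x x = 0)
    (hnd : ∀ x, (∀ y, ω x y = 0) → x = 0) (hθ₀ : ∀ x y, θ₀ (x + y) = θ₀ x + θ₀ y + ω x y) :
    IsMultiplyPreprimitive (SpQ ω θ₀) (QF ω θ₀) 2 := by
  have h00 : θ₀ 0 = 0 := by
    have h := hθ₀ 0 0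
    rw [add_zero, map_zero, add_zero] at h
    exact left_eq_add.1 h
  let θ : QF ω θ₀ := ⟨θ₀, 0, h00, fun x => by rw [map_zero, LinearMap.zero_apply, add_zero]⟩
  refine tprimitive_two_of_rel (sp_two_trans hV halt hnd hθ₀) θ ?_
  intro r hrefl hsymm htrans hG hex x' y' hx' hy'
  obtain ⟨x, y, hx, hy, hxy, hr⟩ := hex
  let R : V → V → Prop := fun c d => ∃ (hc : (θ : V → ZMod 2) c = 0)
    (hd : (θ : V → ZMod 2) d = 0), c ≠ 0 ∧ d ≠ 0 ∧ r (TT hθ₀ θ c hc) (TT hθ₀ θ d hd)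
  have hTne : ∀ c (hc : (θ : V → ZMod 2) c = 0), c ≠ 0 → TT hθ₀ θ c hc ≠ θ :=
    fun c hc hc0 => TT_ne hnd hθ₀ θ hc0 hc
  have Rs : ∀ c d, R c d → R d c := by
    rintro c d ⟨hc, hd, hc0, hd0, h⟩
    exact ⟨hd, hc, hd0, hc0, hsymm _ _ (hTne c hc hc0) (hTne d hd hd0) h⟩
  have Rt : ∀ c d e, R c d → R d e → R c e := by
    rintro c d e ⟨hc, hd, hc0, hd0, h⟩ ⟨hd', he, _, he0, h'⟩
    exact ⟨hc, he, hc0, he0, htrans _ _ _ (hTne c hc hc0) (hTne d hd hd0) (hTne e he he0) h h'⟩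
  have hne : ∀ v c, (θ : V → ZMod 2) v = 1 → (θ : V → ZMod 2) c = 0 → c ≠ 0 →
      c + ω c v • v ≠ 0 := by
    intro v c hv hc hc0 h0
    rcases zmod2_cases (ω c v) with h | h
    · rw [h, zero_smul, add_zero] at h0
      exact hc0 h0
    · rw [h, one_smul] at h0
      have h1 : c = v := by
        rw [← neg_V v]
        exact eq_neg_of_add_eq_zero_left h0
      rw [h1, hv] at hc
      exact one_ne_zero hc
  have Rm : ∀ v c d, (θ : V → ZMod 2) v = 1 → R c d → R (c + ω c v • v) (d + ω d v • v) := by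
    rintro v c d hv ⟨hc, hd, hc0, hd0, h⟩
    obtain ⟨g, hg, hgd⟩ := move_fix halt hθ₀ θ hv
    obtain ⟨hc', hc''⟩ := hgd c hc
    obtain ⟨hd', hd''⟩ := hgd d hd
    refine ⟨hc', hd', hne v c hv hc hc0, hne v d hv hd hd0, ?_⟩
    rw [← hc'', ← hd'']
    exact hG g hg _ _ (hTne c hc hc0) (hTne d hd hd0) h
  -- step 1
  have step1 : ∃ c d, R c d ∧ ω c d = 1 := by
    obtain ⟨c, hc, rfl⟩ := exists_TT halt hθ₀ θ x
    obtain ⟨d, hd, rfl⟩ := exists_TT halt hθ₀ θ y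
    have hc0 : c ≠ 0 := fun h => hx (TT_zero hθ₀ θ h hc)
    have hd0 : d ≠ 0 := fun h => hy (TT_zero hθ₀ θ h hd)
    have hcd : c ≠ d := fun h => hxy (TT_congr hθ₀ θ h hc hd)
    have hR : R c d := ⟨hc, hd, hc0, hd0, hr⟩
    rcases zmod2_cases (ω c d) with h | h
    · obtain ⟨a, ha1, ha2⟩ := exists_zero_one hnd hd0 hcd
      obtain ⟨v, h1, h2, -, h3⟩ := sp_value (θ := (θ : V → ZMod 2)) hV halt hnd (sp_polar hθ₀ θ)
        (u₁ := c) (u₂ := d) (u₃ := 0) (Or.inr rfl) a 1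
      have h4 := Rm v c d h3 hR
      rw [h1, ha1, zero_smul, add_zero, h2, ha2, one_smul] at h4
      refine ⟨d, d + v, Rt d c (d + v) (Rs _ _ hR) h4, ?_⟩
      rw [map_add, halt, zero_add, h2, ha2]
    · exact ⟨c, d, hR, h⟩
  -- step 2
  have step2a : ∀ c c' d, R c c' → ω c c' = 1 → (θ : V → ZMod 2) d = 0 → ω c d = 1 →
      ω c' d = 1 → R c d := by
    intro c c' d hR h1 hd h2 h3
    obtain ⟨hc, hc', -⟩ := id hR
    have hv : (θ : V → ZMod 2) (c' + d) = 1 := by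
      rw [sp_polar hθ₀, hc', hd, h3]
      decide
    have h4 := Rm (c' + d) c c' hv hR
    have h5 : ω c (c' + d) = 0 := by
      rw [map_add, h1, h2]
      decide
    have h6 : ω c' (c' + d) = 1 := by
      rw [map_add, halt, zero_add, h3]
    rw [h5, zero_smul, add_zero, h6, one_smul, ← add_assoc, add_self_V, zero_add] at h4
    exact h4
  have step2 : ∀ c c' d, R c c' → ω c c' = 1 → (θ : V → ZMod 2) d = 0 → ω c d = 1 → R c d := by
    intro c c' d hR h1 hd h2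
    rcases zmod2_cases (ω c' d) with h3 | h3
    · obtain ⟨e, h4, h5, h6, h7⟩ := sp_value (θ := (θ : V → ZMod 2)) hV halt hnd
        (sp_polar hθ₀ θ) (u₁ := c) (u₂ := c') (u₃ := d) (Or.inl h1) (c + c') 0
      rw [map_add, halt, zero_add, h1] at h4
      rw [map_add, halt, add_zero, omega_symm halt c' c, h1] at h5
      rw [map_add, omega_symm halt d c, h2, omega_symm halt d c', h3, add_zero] at h6
      have h8 := step2a c c' e hR h1 h7 h4 h5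
      exact step2a c e d h8 h4 hd h2 (by rw [omega_symm halt, h6])
    · exact step2a c c' d hR h1 hd h2 h3
  -- step 3
  obtain ⟨c₀, d₀, hR₀, h₀⟩ := step1
  obtain ⟨hc₀, -, hc₀0, -⟩ := id hR₀
  have hP₀ : ∀ d, (θ : V → ZMod 2) d = 0 → ω c₀ d = 1 → R c₀ d :=
    fun d hd h => step2 c₀ d₀ d hR₀ h₀ hd h
  have hPstep : ∀ c, (∀ d, (θ : V → ZMod 2) d = 0 → ω c d = 1 → R c d) → ∀ c',
      (θ : V → ZMod 2) c' = 0 → ω c c' = 1 → ∀ d, (θ : V → ZMod 2) d = 0 → ω c' d = 1 →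
        R c' d := by
    intro c hP c' hc' hcc' d hd hd'
    exact step2 c' c d (Rs _ _ (hP c' hc' hcc')) (by rw [omega_symm halt, hcc']) hd hd'
  have step3 : ∀ c, (θ : V → ZMod 2) c = 0 → c ≠ 0 → ∀ d, (θ : V → ZMod 2) d = 0 →
      ω c d = 1 → R c d := by
    intro c hc hc0
    by_cases hcc : c₀ = c
    · subst hcc
      exact hP₀
    · obtain ⟨e, h1, h2, h3⟩ := common_nb hV halt hnd hθ₀ θ hc₀0 hc0 hcc
      exact hPstep e (hPstep c₀ hP₀ e h3 h1) c hc (by rw [omega_symm halt, h2])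
  -- step 4
  obtain ⟨c, hc, rfl⟩ := exists_TT halt hθ₀ θ x'
  obtain ⟨d, hd, rfl⟩ := exists_TT halt hθ₀ θ y'
  have hc0 : c ≠ 0 := fun h => hx' (TT_zero hθ₀ θ h hc)
  have hd0 : d ≠ 0 := fun h => hy' (TT_zero hθ₀ θ h hd)
  by_cases hcd : c = d
  · subst hcd
    exact hrefl _ hx'
  · obtain ⟨e, h1, h2, h3⟩ := common_nb hV halt hnd hθ₀ θ hc0 hd0 hcd
    obtain ⟨_, _, _, _, h⟩ := Rt c e d (step3 c hc hc0 e h3 h1) (Rs _ _ (step3 d hd hd0 e h3 h2))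
    exact h

end Pool.Agent.Helper37.PF
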