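import Pool.Agent.Helper37.PF.TwoGraph

/-!
# Three generalisations of primitivity (MP_13dc8a_al): fast checks for two-graphs
-/

namespace Pool.Agent.Helper37.PF

open Pool.Agent.Helper37.Prim

/-- The row `x` of the adjacency matrix. -/
def rowOf (n A x : ℕ) : ℕ := (A >>> (n * x)) % 2 ^ n

theorem rowOf_testBit {n A x y : ℕ} (hy : y < n) : (rowOf n A x).testBit y = adj n A x y := by
  unfold rowOf adj
  rw [Nat.testBit_mod_two_pow, Nat.testBit_shiftRight]
  simp [hy]

/-- The number whose bit `y` is the bit `tl[y]` of `R`. -/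
noncomputable def permBits (R : ℕ) (tl : List ℕ) : ℕ :=
  List.rec (motive := fun _ => ℕ) 0
    (fun t _ acc => Nat.add (Nat.land 1 (Nat.shiftRight R t)) (Nat.mul 2 acc)) tl

theorem permBits_cons (R t : ℕ) (tl : List ℕ) :
    permBits R (t :: tl) = (R.testBit t).toNat + 2 * permBits R tl := by
  change Nat.land 1 (Nat.shiftRight R t) + 2 * permBits R tl = _
  congr 1
  change 1 &&& (R >>> t) = _
  rw [Nat.one_and_eq_mod_two, Nat.testBit_eq_decide_div_mod_eq, Nat.shiftRight_eq_div_pow]
  rcases Nat.mod_two_eq_zero_or_one (R / 2 ^ t) with h | h <;> simp [h]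

theorem permBits_testBit (R : ℕ) (tl : List ℕ) (y : ℕ) (hy : y < tl.length) :
    (permBits R tl).testBit y = R.testBit (tl.getD y 0) := by
  induction tl generalizing y with
  | nil => simp at hy
  | cons t tl ih =>
    rw [permBits_cons]
    cases y with
    | zero =>
      rw [List.getD_cons_zero]
      cases h : R.testBit t <;> simp [Nat.testBit_zero]
    | succ y =>
      rw [List.getD_cons_succ, ← ih y (by simpa using hy), Nat.testBit_succ]
      congr 1
      cases h : R.testBit t <;> simp <;> omega

/-- One row of the check. -/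
noncomputable def rowChk (n A s : ℕ) (tl : List ℕ) (x : ℕ) : Bool :=
  Nat.beq (permBits (rowOf n A (tl.getD x 0)) tl)
    (Nat.xor (Nat.xor (rowOf n A x) s) (cond (s.testBit x) (2 ^ n - 1) 0))

/-- Some rows of the check. -/
noncomputable def rowsChk (n A s : ℕ) (tl : List ℕ) (a m : ℕ) : Bool :=
  (List.range' a m).all fun x => rowChk n A s tl x

theorem checkTwo_of_rows {n A T s m k : ℕ} {tl : List ℕ} (hn : n ≤ m * k) (hl : tl.length = n)
    (hT : checkT n tl T = true) (hlt : (tl.all fun x => decide (x < n)) = true)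
    (h : ∀ i < k, rowsChk n A s tl (m * i) m = true) : checkTwo n A T s = true := by
  unfold checkTwo
  rw [List.all_eq_true]
  intro x hx
  rw [List.mem_range] at hx
  have hm : 0 < m := by
    rcases Nat.eq_zero_or_pos m with h0 | h0
    · rw [h0] at hn; omega
    · exact h0
  have hi : x / m < k := by
    rw [Nat.div_lt_iff_lt_mul hm, mul_comm]
    omega
  have h1 := h (x / m) hi
  unfold rowsChk at h1
  rw [List.all_eq_true] at h1
  have h4 := h1 x (by
    rw [List.mem_range'_1]
    have h2 := Nat.div_add_mod x m
    have h3 := Nat.mod_lt x hm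
    exact ⟨by omega, by omega⟩)
  unfold rowChk at h4
  have h5 : permBits (rowOf n A (tl.getD x 0)) tl =
      ((rowOf n A x) ^^^ s) ^^^ (cond (s.testBit x) (2 ^ n - 1) 0) := Nat.eq_of_beq_eq_true h4
  rw [List.all_eq_true]
  intro y hy
  rw [List.mem_range] at hy
  have hT' : ∀ z, z < n → tl.getD z 0 = tab T z := by
    intro z hz
    unfold checkT at hT
    rw [List.all_eq_true] at hT
    exact beq_iff_eq.1 (hT z (List.mem_range.2 hz))
  have hlt' : ∀ z, z < n → tl.getD z 0 < n := by
    intro z hz
    rw [List.all_eq_true] at hlt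
    have hz' : z < tl.length := by omega
    rw [List.getD_eq_getElem _ _ hz']
    exact of_decide_eq_true (hlt _ (List.getElem_mem hz'))
  have h6 := congrArg (fun a => Nat.testBit a y) h5
  simp only [Nat.testBit_xor] at h6
  rw [permBits_testBit _ _ _ (by omega), rowOf_testBit (hlt' y hy), rowOf_testBit hy, hT' x hx,
    hT' y hy] at h6
  rw [Bool.or_eq_true]
  right
  rw [h6, beq_iff_eq]
  cases s.testBit x with
  | false => simp
  | true =>
    simp only [cond_true, Nat.testBit_two_pow_sub_one, hy, decide_true, Bool.xor_true,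
      Bool.true_xor]
    cases adj n A x y <;> cases s.testBit y <;> rfl

end Pool.Agent.Helper37.PF
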