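import Pool.Agent.Helper37.PF.SzBasic
import Pool.Agent.Helper37.PF.Frob

/-!
# PF-S4: groups of Suzuki type, subgroups which meet `Q` trivially (MP_13dc8a_al)

The lemmas of `PF/SzBasic.lean` and `PF/Frob.lean` (modules PF-S2, PF-S1)
are used. `T` is `szTor S o y₀`, `|T| = |Z| - 1 ≥ 2` is odd.

PROOF.
1. If `m ∈ M` and `m o = o` then `m ∈ T`: `m = g t` by `exists_QT`, `g = m t⁻¹ ∈ Q ∩ M`, so `g = 1`.
2. `w w = 1` by `swap_sq`, `w ≠ 1`. Let `c` be the point fixed by `w` (`exists_fix`). Let `O` be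
   the `M`-orbit of `o` (it contains `y₀ = w o`) and `C` the `M`-orbit of `c`. Then `c ∉ O`: if
   `c = k o`, `k ∈ M`, then `k⁻¹ w k ∈ M` fixes `o`, so it is in `T` and its square is `1`; as `|T|`
   is odd it is `1`, so `w = 1`, contradiction. So `C` and `O` are disjoint.
3. Every `t ∈ T`, `t ≠ 1`, fixes only the points `o`, `y₀` of `X` (`fix3`). So `T` acts freely on
   `C` and on `O ∖ {o, y₀}`, and by `card_dvd_of_free` `|T|` divides `|C|` and `|O| - 2`. Also `C` is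
   not a single point: `|C| ≥ |T| ≥ 2`.
4. Claim: if `m ∈ M` fixes two different points `c₁`, `c₂` of `C` then `m = 1`. By
   `2`-transitivity `m` is conjugate in `S` to an element of `T`, so the order `r` of `m` divides
   `|T|`. Orbit-stabiliser: `|M| = |O| |T|` (step 1) and `|M| = |C| |M_{c₁}|`; as `|C| = j |T|` we get
   `|O| = j |M_{c₁}|`, so `r` divides `|M_{c₁}|`, which divides `|O|`. And `r` divides `|T|`, which
   divides `|O| - 2`. So `r` divides `2` and `r` is odd: `r = 1`.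
5. `frobenius_even` for the action of `M` on `C`, with `z = w`: there is a commutative subgroup
   `K` of `M` whose elements are `1` and the elements which fix no point of `C`. `T ≤ K` by step 3.
6. `K ≤ T`: fix `t₀ ∈ T`, `t₀ ≠ 1`. Let `k ∈ K`. `k` commutes with `t₀`, so `t₀` fixes `k o` and
   `k y₀`, which are therefore in `{o, y₀}`. If `k o = o` then `k ∈ T` by step 1. Otherwise
   `k o = y₀`, `k y₀ = o`, and `k k = 1` by `swap_sq`; also `k t₀` exchanges `o` and `y₀`, so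
   `1 = (k t₀) (k t₀) = k k t₀ t₀ = t₀ t₀`, and `t₀ = 1` because `|T|` is odd, contradiction.
7. Let `m ∈ M`. `m t₀ m⁻¹ ≠ 1` fixes no point of `C`, so it is in `K = T`; so it fixes `o` and `y₀`,
   so `t₀` fixes `m⁻¹ o` and `m⁻¹ y₀`, which are therefore in `{o, y₀}`, hence `m` preserves
   `{o, y₀}`.
-/

namespace Pool.Agent.Helper37.PF

open MulAction Equiv

variable {X : Type} [Finite X] {S : Subgroup (Perm X)} {o y₀ : X} {Q Z : Subgroup (Perm X)}

private theorem szc_dvd (T : Subgroup (Perm X)) (P : X → Prop)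
    (hP : ∀ t ∈ T, ∀ x, P x → P (t x)) (hf : ∀ t ∈ T, ∀ x, P x → t x = x → t = 1) :
    Nat.card T ∣ Nat.card {x // P x} := by
  let _ : MulAction T {x // P x} :=
    { smul := fun t x => ⟨t.1 x.1, hP t.1 t.2 x.1 x.2⟩
      one_smul := fun x => Subtype.ext rfl
      mul_smul := fun s t x => Subtype.ext rfl }
  refine card_dvd_of_free ?_
  intro t y hty
  exact Subtype.ext (hf t.1 t.2 y.1 y.2 (congrArg Subtype.val hty))

private theorem szc_T_inv (h : SzBase S o y₀ Q Z) {t : Perm X} (ht : t ∈ szTor S o y₀)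
    (ht2 : t * t = 1) : t = 1 := by
  have h1 : orderOf t ∣ 2 := orderOf_dvd_of_pow_eq_one (by rw [pow_two, ht2])
  have h2 := Subgroup.orderOf_dvd_natCard _ ht
  have h3 := h.odd_T
  have h4 : orderOf t ∣ 1 := by
    have h5 := Nat.dvd_gcd h1 h2
    rwa [Nat.Coprime.gcd_eq_one (Nat.coprime_two_left.2 h3)] at h5
  rw [← orderOf_eq_one_iff]
  exact Nat.dvd_one.1 h4

omit [Finite X] in
private theorem szc_card (M : Subgroup (Perm X)) (x : X) :
    Nat.card (orbit M x) * Nat.card (stabilizer M x) = Nat.card M := by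
  rw [Nat.card_congr (orbitEquivQuotientStabilizer M x)]
  exact (Subgroup.card_eq_card_quotient_mul_card_subgroup _).symm

theorem SzBase.case_one (h : SzBase S o y₀ Q Z) {M : Subgroup (Perm X)} (hMS : M ≤ S)
    (hT : szTor S o y₀ ≤ M) (hQ : ∀ g ∈ Q, g ∈ M → g = 1) {w : Perm X} (hw : w ∈ M)
    (hwo : w o = y₀) (hwy : w y₀ = o) :
    ∀ m ∈ M, (m o = o ∧ m y₀ = y₀) ∨ (m o = y₀ ∧ m y₀ = o) := by
  classical
  set T := szTor S o y₀ with hTdef
  have hoy : o ≠ y₀ := h.ne.symm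
  -- step 1
  have hstab : ∀ m ∈ M, m o = o → m ∈ T := by
    intro m hm hmo
    obtain ⟨g, hg, t, ht, rfl⟩ := h.exists_QT (hMS hm) hmo
    have hgM : g ∈ M := by
      have := M.mul_mem hm (M.inv_mem (hT ht))
      rwa [mul_assoc, mul_inv_cancel, mul_one] at this
    rw [hQ g hg hgM, one_mul]
    exact ht
  -- step 3a
  have hfixT : ∀ t ∈ T, t ≠ 1 → ∀ x, t x = x → x = o ∨ x = y₀ := by
    intro t ht ht1 x hx
    by_contra hcon
    push Not at hcon
    exact ht1 (h.fix3 t ht.1 o y₀ x hoy hcon.1.symm hcon.2.symm ht.2.1 ht.2.2 hx)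
  -- step 2
  have hw2 : w * w = 1 := h.swap_sq (hMS hw) hoy hwo hwy
  have hw1 : w ≠ 1 := by
    intro h1
    rw [h1, Perm.one_apply] at hwo
    exact hoy hwo
  obtain ⟨c, hc⟩ := h.exists_fix (hMS hw) hw2
  have hcO : ∀ k ∈ M, k o ≠ c := by
    intro k hk hkc
    have h1 : (k⁻¹ * w * k) o = o := by
      rw [Perm.mul_apply, Perm.mul_apply, hkc, hc, ← hkc]
      exact k.symm_apply_apply o
    have h2 : k⁻¹ * w * k ∈ T := hstab _ (M.mul_mem (M.mul_mem (M.inv_mem hk) hw) hk) h1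
    have h3 : k⁻¹ * w * k = 1 := szc_T_inv h h2 (by
      calc k⁻¹ * w * k * (k⁻¹ * w * k) = k⁻¹ * (w * w) * k := by group
        _ = 1 := by rw [hw2, mul_one, inv_mul_cancel])
    apply hw1
    calc w = k * (k⁻¹ * w * k) * k⁻¹ := by group
      _ = 1 := by rw [h3, mul_one, mul_inv_cancel]
  have hsm : ∀ (m : M) (x : X), m • x = m.1 x := fun m x => rfl
  have hCo : ∀ x ∈ orbit M c, x ≠ o ∧ x ≠ y₀ := by
    rintro x ⟨m, rfl⟩
    constructor
    · intro h1
      refine hcO m.1⁻¹ (M.inv_mem m.2) ?_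
      rw [Perm.inv_eq_iff_eq]
      exact h1.symm
    · intro h1
      refine hcO (m.1⁻¹ * w) (M.mul_mem (M.inv_mem m.2) hw) ?_
      rw [Perm.mul_apply, hwo, Perm.inv_eq_iff_eq]
      exact h1.symm
  have hTcard : Nat.card T + 1 = Nat.card Z := h.card_T
  have hTge : 2 ≤ Nat.card T := by
    have := h.two_lt
    omega
  have hodd : Odd (Nat.card T) := h.odd_T
  -- divisibility
  have hdC : Nat.card T ∣ Nat.card (orbit M c) := by
    refine szc_dvd T (fun x => x ∈ orbit M c) ?_ ?_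
    · rintro t ht x ⟨m, rfl⟩
      exact ⟨⟨t, hT ht⟩ * m, rfl⟩
    · intro t ht x hx htx
      by_contra ht1
      rcases hfixT t ht ht1 x htx with h1 | h1
      · exact (hCo x hx).1 h1
      · exact (hCo x hx).2 h1
  have hoO : o ∈ orbit M o := mem_orbit_self o
  have hyO : y₀ ∈ orbit M o := ⟨⟨w, hw⟩, hwo⟩
  have hdO : Nat.card T ∣ Nat.card {x : X // x ∈ orbit M o ∧ x ≠ o ∧ x ≠ y₀} := by
    refine szc_dvd T (fun x => x ∈ orbit M o ∧ x ≠ o ∧ x ≠ y₀) ?_ ?_
    · rintro t ht x ⟨⟨m, rfl⟩, h1, h2⟩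
      refine ⟨⟨⟨t, hT ht⟩ * m, rfl⟩, ?_, ?_⟩
      · intro h3
        exact h1 (t.injective (h3.trans ht.2.1.symm))
      · intro h3
        exact h2 (t.injective (h3.trans ht.2.2.symm))
    · rintro t ht x ⟨-, h1, h2⟩ htx
      by_contra ht1
      rcases hfixT t ht ht1 x htx with h3 | h3
      · exact h1 h3
      · exact h2 h3
  have hcardO : Nat.card (orbit M o) =
      Nat.card {x : X // x ∈ orbit M o ∧ x ≠ o ∧ x ≠ y₀} + 2 := by
    have h1 : {x : X | x ∈ orbit M o ∧ x ≠ o ∧ x ≠ y₀} = (orbit M o : Set X) \ {o, y₀} := by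
      ext x
      simp only [Set.mem_ofPred_eq, Set.mem_sdiff, Set.mem_insert_iff, Set.mem_singleton_iff,
        not_or]
    have h2 : Nat.card {x : X // x ∈ orbit M o ∧ x ≠ o ∧ x ≠ y₀} =
        ((orbit M o : Set X) \ {o, y₀}).ncard := by
      rw [← h1]
      rfl
    have h3 : ({o, y₀} : Set X) ⊆ orbit M o := by
      intro x hx
      rcases hx with hx | hx
      · rw [hx]; exact hoO
      · rw [Set.mem_singleton_iff.1 hx]; exact hyO
    have h4 := Set.ncard_sdiff_add_ncard_of_subset h3 (Set.toFinite _)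
    rw [Set.ncard_pair hoy] at h4
    rw [h2, h4]
    rfl
  have hM1 : Nat.card (orbit M o) * Nat.card T = Nat.card M := by
    have h1 := szc_card M o
    have h2 : Nat.card (stabilizer M o) = Nat.card T := by
      refine Nat.card_congr ⟨fun m => ⟨m.1.1, hstab m.1.1 m.1.2 m.2⟩,
        fun t => ⟨⟨t.1, hT t.2⟩, t.2.2.1⟩, fun m => rfl, fun t => rfl⟩
    rw [h2] at h1
    exact h1
  -- step 4
  have hstep4 : ∀ m ∈ M, ∀ c₁ ∈ orbit M c, ∀ c₂ ∈ orbit M c, m c₁ = c₁ → m c₂ = c₂ →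
      c₁ ≠ c₂ → m = 1 := by
    intro m hm c₁ hc₁ c₂ hc₂ h1 h2 hne
    obtain ⟨r, hr1, hr2⟩ := is_two_pretransitive_iff.1 h.two_trans hne hoy
    have hr1' : r.1 c₁ = o := hr1
    have hr2' : r.1 c₂ = y₀ := hr2
    have hmT : r.1 * m * r.1⁻¹ ∈ T := by
      refine ⟨S.mul_mem (S.mul_mem r.2 (hMS hm)) (S.inv_mem r.2), ?_, ?_⟩
      · have h3 : r.1⁻¹ o = c₁ := by rw [Perm.inv_eq_iff_eq, hr1']
        rw [Perm.mul_apply, Perm.mul_apply, h3, h1, hr1']
      · have h3 : r.1⁻¹ y₀ = c₂ := by rw [Perm.inv_eq_iff_eq, hr2']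
        rw [Perm.mul_apply, Perm.mul_apply, h3, h2, hr2']
    have hord : orderOf m ∣ Nat.card T := by
      have h3 := Subgroup.orderOf_dvd_natCard _ hmT
      have h4 : orderOf (r.1 * m * r.1⁻¹) = orderOf m := by
        apply orderOf_injective (MulAut.conj r.1).toMonoidHom (MulAut.conj r.1).injective m
      rwa [h4] at h3
    have hC1 : orbit M c₁ = orbit M c := orbit_eq_iff.2 hc₁
    have h5 := szc_card M c₁
    rw [hC1] at h5
    obtain ⟨j, hj⟩ := hdC
    have h6 : Nat.card (orbit M o) = j * Nat.card (stabilizer M c₁) := by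
      have h7 : Nat.card T * Nat.card (orbit M o) =
          Nat.card T * (j * Nat.card (stabilizer M c₁)) := by
        rw [mul_comm, hM1, ← h5, hj]
        ring
      exact Nat.eq_of_mul_eq_mul_left (by omega) h7
    have h8 : orderOf m ∣ Nat.card (stabilizer M c₁) := by
      have h9 : (⟨m, hm⟩ : M) ∈ stabilizer M c₁ := h1
      have h10 := Subgroup.orderOf_dvd_natCard _ h9
      have h11 : orderOf (⟨m, hm⟩ : M) = orderOf m := Subgroup.orderOf_mk m hm
      rwa [h11] at h10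
    have h12 : orderOf m ∣ Nat.card (orbit M o) := by
      rw [h6]
      exact Dvd.dvd.mul_left h8 j
    have h13 := hord.trans hdO
    rw [hcardO] at h12
    have h14 : orderOf m ∣ 2 := (Nat.dvd_add_right h13).1 h12
    have h15 : orderOf m ∣ 1 := by
      have h16 := Nat.dvd_gcd h14 hord
      rwa [Nat.Coprime.gcd_eq_one (Nat.coprime_two_left.2 hodd)] at h16
    rw [← orderOf_eq_one_iff]
    exact Nat.dvd_one.1 h15
  -- step 5
  have hCge : 2 ≤ Nat.card (orbit M c) := by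
    have : Nonempty (orbit M c) := ⟨⟨c, mem_orbit_self c⟩⟩
    exact hTge.trans (Nat.le_of_dvd Nat.card_pos hdC)
  have : Nontrivial (orbit M c) := by
    rw [← Finite.one_lt_card_iff_nontrivial]
    omega
  obtain ⟨K, hK, hKcomm⟩ := frobenius_even (M := M) (C := orbit M c) (by
    intro m hm c₁ c₂ h1 h2
    by_contra hne
    apply hm
    apply Subtype.ext
    exact hstep4 m.1 m.2 c₁.1 c₁.2 c₂.1 c₂.2 (congrArg Subtype.val h1)
      (congrArg Subtype.val h2) (fun h3 => hne (Subtype.ext h3))) ⟨w, hw⟩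
    (fun h1 => hw1 (congrArg Subtype.val h1)) (Subtype.ext hw2) ⟨c, mem_orbit_self c⟩
    (Subtype.ext hc)
  have hfree : ∀ t ∈ T, t ≠ 1 → ∀ x ∈ orbit M c, t x ≠ x := by
    intro t ht ht1 x hx htx
    rcases hfixT t ht ht1 x htx with h1 | h1
    · exact (hCo x hx).1 h1
    · exact (hCo x hx).2 h1
  obtain ⟨t₀, ht₀, ht₀1⟩ : ∃ t ∈ T, t ≠ 1 := by
    by_contra hcon
    push Not at hcon
    have h1 : Nat.card T ≤ 1 := by
      rw [Finite.card_le_one_iff_subsingleton]
      exact ⟨fun a b => Subtype.ext ((hcon a.1 a.2).trans (hcon b.1 b.2).symm)⟩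
    omega
  have hTK : (⟨t₀, hT ht₀⟩ : M) ∈ K := by
    rw [hK]
    right
    intro x hx
    exact hfree t₀ ht₀ ht₀1 x.1 x.2 (congrArg Subtype.val hx)
  -- step 6
  have hKT : ∀ k : M, k ∈ K → k.1 ∈ T := by
    intro k hk
    have hcomm : k.1 * t₀ = t₀ * k.1 := congrArg Subtype.val (hKcomm k hk _ hTK)
    have h1 : ∀ x, t₀ x = x → k.1 x = o ∨ k.1 x = y₀ := by
      intro x hx
      apply hfixT t₀ ht₀ ht₀1
      rw [← Perm.mul_apply, ← hcomm, Perm.mul_apply, hx]
    rcases h1 o ht₀.2.1 with h2 | h2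
    · exact hstab k.1 k.2 h2
    · have h3 : k.1 y₀ = o := by
        rcases h1 y₀ ht₀.2.2 with h3 | h3
        · exact h3
        · exact absurd (k.1.injective (h2.trans h3.symm)) hoy
      have h4 : k.1 * k.1 = 1 := h.swap_sq (hMS k.2) hoy h2 h3
      have h5 : (k.1 * t₀) * (k.1 * t₀) = 1 := by
        apply h.swap_sq (S.mul_mem (hMS k.2) ht₀.1) hoy
        · rw [Perm.mul_apply, ht₀.2.1, h2]
        · rw [Perm.mul_apply, ht₀.2.2, h3]
      have h6 : t₀ * t₀ = 1 := by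
        calc t₀ * t₀ = k.1 * k.1 * (t₀ * t₀) := by rw [h4, one_mul]
          _ = k.1 * (k.1 * t₀) * t₀ := by group
          _ = k.1 * (t₀ * k.1) * t₀ := by rw [hcomm]
          _ = (k.1 * t₀) * (k.1 * t₀) := by group
          _ = 1 := h5
      exact absurd (szc_T_inv h ht₀ h6) ht₀1
  -- step 7
  intro m hm
  have h1 : (⟨m * t₀ * m⁻¹, M.mul_mem (M.mul_mem hm (hT ht₀)) (M.inv_mem hm)⟩ : M) ∈ K := by
    rw [hK]
    right
    intro x hx
    have h2 : (m * t₀ * m⁻¹) x.1 = x.1 := congrArg Subtype.val hx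
    have h3 : t₀ (m⁻¹ x.1) = m⁻¹ x.1 := by
      rw [Perm.mul_apply, Perm.mul_apply] at h2
      rw [eq_comm, Perm.inv_eq_iff_eq]
      exact h2.symm
    have h4 : m⁻¹ x.1 ∈ orbit M c := by
      obtain ⟨k, hk⟩ := x.2
      refine ⟨⟨m, hm⟩⁻¹ * k, ?_⟩
      change m⁻¹ (k.1 c) = m⁻¹ x.1
      rw [← hk]
      rfl
    exact hfree t₀ ht₀ ht₀1 _ h4 h3
  have h2 : m * t₀ * m⁻¹ ∈ T := hKT _ h1
  have h3 : ∀ x, (m * t₀ * m⁻¹) x = x → m⁻¹ x = o ∨ m⁻¹ x = y₀ := by
    intro x hx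
    apply hfixT t₀ ht₀ ht₀1
    rw [Perm.mul_apply, Perm.mul_apply] at hx
    rw [eq_comm, Perm.inv_eq_iff_eq]
    exact hx.symm
  have h4 := h3 o h2.2.1
  have h5 := h3 y₀ h2.2.2
  rw [Perm.inv_eq_iff_eq, Perm.inv_eq_iff_eq] at h4 h5
  rcases h4 with h4 | h4
  · rcases h5 with h5 | h5
    · exact absurd (h4.trans h5.symm) hoy
    · exact Or.inl ⟨h4.symm, h5.symm⟩
  · rcases h5 with h5 | h5
    · exact Or.inr ⟨h5.symm, h4.symm⟩
    · exact absurd (h4.trans h5.symm) hoy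

end Pool.Agent.Helper37.PF
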