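import Pool.Agent.Helper37.PF.SzBasic
import Pool.Agent.Helper37.PF.Frob

/-!
# PF-S5: groups of Suzuki type, subgroups which meet `Q` in `Z` (MP_13dc8a_al)

The lemmas of `PF/SzBasic.lean` and `PF/Frob.lean` (modules PF-S2, PF-S1)
are used. `T` is `szTor S o y₀`, `q = |Z|`, `|T| = q - 1`, `|Q| = q ^ 2`,
`|X| = q ^ 2 + 1`.

PROOF.
1. The elements `m ∈ M` with `m o = o` are the products `z t`, `z ∈ Z`, `t ∈ T`, uniquely:
   `m = g t` by `exists_QT`, `g = m t⁻¹ ∈ Q ∩ M`, so `g ∈ Z`; and `Z ∩ T = 1` (`Q_inj`). So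
   `|M_o| = q (q - 1)`. In the same way `|S_o| = q ^ 2 (q - 1)`.
2. Claim: if `m ∈ M_o`, `m x = x`, `x ≠ o` and `x ≠ u y₀` for all `u ∈ Z`, then `m = 1`. Let
   `m = z t`. If `t = 1` then `z x = x = 1 x` and `z = 1` by `Q_inj`. Suppose `t ≠ 1`; `t` fixes only
   `o` and `y₀` (`fix3`). The map `Z → Z`, `v ↦ v (t v⁻¹ t⁻¹)` (`conj_mem_Z`) is injective: if
   `v t v⁻¹ t⁻¹ = v' t v'⁻¹ t⁻¹` then `u = v'⁻¹ v` commutes with `t`, so `t (u y₀) = u (t y₀) = u y₀`, so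
   `u y₀ ∈ {o, y₀}`, so `u y₀ = y₀` and `u = 1`. So it is surjective: there is `v` with
   `v t v⁻¹ = z t = m`. So `m` fixes `v y₀`, `o` and `x`, which are three different points, and
   `m = 1` by `fix3`.
3. Let `O` be the `M`-orbit of `o`. It contains `y₀ = w o` and all `u y₀`, `u ∈ Z`. Let `P` be the
   set of `o` and the points `u y₀`, `u ∈ Z`; `|P| = q + 1` (`Q_inj`). `P` is invariant under `M_o`
   (`z t (u y₀) = z (t u t⁻¹) y₀`). So `M_o` acts on `Y = O ∖ P`, freely by step 2, and by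
   `card_dvd_of_free` `q (q - 1)` divides `|Y| = |O| - (q + 1) ≤ q ^ 2 + 1 - (q + 1) = q (q - 1)`. So
   `|Y| = 0` or `|Y| = q (q - 1)`.
4. If `|Y| = 0` then `|O| = q + 1` and `|M| = (q + 1) q (q - 1)` divides
   `|S| = |X| |S_o| = (q ^ 2 + 1) q ^ 2 (q - 1)`, so `q + 1` divides `(q ^ 2 + 1) q`, hence (`q` and
   `q + 1` are coprime) `q ^ 2 + 1 = (q + 1) (q - 1) + 2`, hence `2`: contradiction with `q > 2`.
5. If `|Y| = q (q - 1)` then `O = X`, `M` is transitive on `X`. Every `s ∈ S` with `s s = 1` is in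
   `M`: `s` fixes a point `x` (`exists_fix`), `x = m o` with `m ∈ M`, and `m⁻¹ s m ∈ Z` by
   `inv_mem_Z`, and `Z ≤ M`. Take `y ∈ Y`. By `2`-transitivity there is `s ∈ S` with `s o = o`,
   `s y₀ = y`; take `t₀ ∈ T`, `t₀ ≠ 1` and `t' = s t₀ s⁻¹ ≠ 1`, which fixes `o` and `y`. Let `w' ∈ S`
   exchange `o` and `y` (`exists_swap`). `w'` and `t' w'` exchange `o` and `y`, so their squares are
   `1` (`swap_sq`), so both are in `M`, so `t' ∈ M`. By step 2 (`x = y`), `t' = 1`: contradiction.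
-/

namespace Pool.Agent.Helper37.PF

open MulAction Equiv

variable {X : Type} [Finite X] {S : Subgroup (Perm X)} {o y₀ : X} {Q Z : Subgroup (Perm X)}

/-- The order of the stabiliser of `o` in a subgroup which contains `T`. -/
private theorem szz_card_stab (h : SzBase S o y₀ Q Z) {A B : Subgroup (Perm X)} (hAS : A ≤ S)
    (hTA : szTor S o y₀ ≤ A) (hBQ : B ≤ Q) (hAB : ∀ g ∈ Q, (g ∈ A ↔ g ∈ B)) :
    Nat.card (stabilizer A o) = Nat.card B * Nat.card (szTor S o y₀) := by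
  rw [← Nat.card_prod]
  have hmem : ∀ p : B × szTor S o y₀, p.1.1 * p.2.1 ∈ A := fun p =>
    A.mul_mem ((hAB _ (hBQ p.1.2)).2 p.1.2) (hTA p.2.2)
  have hfix : ∀ p : B × szTor S o y₀, (p.1.1 * p.2.1) o = o := fun p => by
    rw [Perm.mul_apply, p.2.2.2.1, h.fix _ (hBQ p.1.2)]
  let φ : B × szTor S o y₀ → stabilizer A o := fun p => ⟨⟨p.1.1 * p.2.1, hmem p⟩, hfix p⟩
  refine (Nat.card_eq_of_bijective φ ⟨?_, ?_⟩).symm
  · rintro ⟨⟨z, hz⟩, ⟨t, ht⟩⟩ ⟨⟨z', hz'⟩, ⟨t', ht'⟩⟩ he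
    have h1 : z * t = z' * t' := congrArg (fun m : stabilizer A o => (m.1.1 : Perm X)) he
    have h2 : z y₀ = z' y₀ := by
      have h3 := congrArg (fun m : Perm X => m y₀) h1
      simp only [Perm.mul_apply] at h3
      rwa [ht.2.2, ht'.2.2] at h3
    have h4 : z = z' := h.Q_inj (hBQ hz) (hBQ hz') h.ne h2
    subst h4
    have h5 : t = t' := mul_left_cancel h1
    subst h5
    rfl
  · rintro ⟨⟨m, hmA⟩, hmo⟩
    obtain ⟨g, hg, t, ht, rfl⟩ := h.exists_QT (hAS hmA) hmo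
    have h1 : g ∈ A := (A.mul_mem_cancel_right (hTA ht)).1 hmA
    exact ⟨⟨⟨g, (hAB g hg).1 h1⟩, ⟨t, ht⟩⟩, rfl⟩

private theorem szz_free (h : SzBase S o y₀ Q Z) {z t : Perm X} (hz : z ∈ Z)
    (ht : t ∈ szTor S o y₀) {x : X} (hx : x ≠ o) (hxZ : ∀ u ∈ Z, x ≠ u y₀)
    (hm : (z * t) x = x) : z * t = 1 := by
  by_cases ht1 : t = 1
  · subst ht1
    rw [mul_one] at hm ⊢
    exact h.Q_inj (h.Z_le hz) Q.one_mem hx (by rw [hm, Perm.one_apply])
  have hto := ht.2.1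
  have hty := ht.2.2
  let φ : Z → Z := fun v => ⟨v.1 * (t * v.1⁻¹ * t⁻¹),
    Z.mul_mem v.2 (h.conj_mem_Z ht.1 hto (Z.inv_mem v.2))⟩
  have hinj : Function.Injective φ := by
    rintro ⟨v, hv⟩ ⟨v', hv'⟩ he
    have h1 : v * (t * v⁻¹ * t⁻¹) = v' * (t * v'⁻¹ * t⁻¹) := congrArg Subtype.val he
    have h2 : v'⁻¹ * v * t = t * (v'⁻¹ * v) := by
      calc v'⁻¹ * v * t = v'⁻¹ * (v * (t * v⁻¹ * t⁻¹)) * t * v := by group
        _ = v'⁻¹ * (v' * (t * v'⁻¹ * t⁻¹)) * t * v := by rw [h1]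
        _ = t * (v'⁻¹ * v) := by group
    set u : Perm X := v'⁻¹ * v with hu
    have huZ : u ∈ Z := Z.mul_mem (Z.inv_mem hv') hv
    have h3 : t (u y₀) = u y₀ := by
      rw [← Perm.mul_apply, ← h2, Perm.mul_apply, hty]
    have h4 : o ≠ u y₀ := fun h6 =>
      h.ne (u.injective (h6.symm.trans (h.fix u (h.Z_le huZ)).symm))
    have h5 : u y₀ = y₀ := by
      by_contra h6
      exact ht1 (h.fix3 t ht.1 o y₀ (u y₀) h.ne.symm h4 (fun h7 => h6 h7.symm) hto hty h3)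
    have h6 : u = 1 := h.Q_inj (h.Z_le huZ) Q.one_mem h.ne (by rw [h5, Perm.one_apply])
    rw [hu, inv_mul_eq_one] at h6
    exact Subtype.ext h6.symm
  obtain ⟨⟨v, hv⟩, hvz⟩ := (Finite.injective_iff_surjective.1 hinj) ⟨z, hz⟩
  have h1 : v * (t * v⁻¹ * t⁻¹) = z := congrArg Subtype.val hvz
  have h2 : z * t = v * t * v⁻¹ := by
    rw [← h1]
    group
  have h3 : (z * t) (v y₀) = v y₀ := by
    rw [h2, Perm.mul_apply, Perm.mul_apply, show v⁻¹ (v y₀) = y₀ from v.symm_apply_apply y₀, hty]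
  have h4 : o ≠ v y₀ := fun h6 =>
    h.ne (v.injective (h6.symm.trans (h.fix v (h.Z_le hv)).symm))
  refine h.fix3 (z * t) (S.mul_mem (h.Q_le (h.Z_le hz)) ht.1) o (v y₀) x h4 hx.symm
    (fun h5 => hxZ v hv h5.symm) ?_ h3 hm
  rw [Perm.mul_apply, hto, h.fix z (h.Z_le hz)]

private theorem szz_two (h : SzBase S o y₀ Q Z) {x y : X} :
    ∃ r ∈ S, r x = y := by
  by_cases hxy : x = y
  · exact ⟨1, S.one_mem, hxy⟩
  obtain ⟨w, hw, h1, -⟩ := h.exists_swap hxy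
  exact ⟨w, hw, h1⟩

theorem SzBase.case_Z (h : SzBase S o y₀ Q Z) {M : Subgroup (Perm X)} (hMS : M ≤ S)
    (hT : szTor S o y₀ ≤ M) (hQ : ∀ g ∈ Q, (g ∈ M ↔ g ∈ Z)) {w : Perm X} (hw : w ∈ M)
    (hwo : w o = y₀) : False := by
  classical
  have hMo := szz_card_stab h hMS hT h.Z_le hQ
  have hSo := szz_card_stab h le_rfl (fun t ht => ht.1) le_rfl
    (fun g hg => ⟨fun _ => hg, fun _ => h.Q_le hg⟩)
  have hcT := h.card_T
  have hq := h.two_lt
  have hcQ := h.card_Q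
  have hcX := h.card_X
  rw [hcQ] at hSo hcX
  have hZM : Z ≤ M := fun z hz => (hQ z (h.Z_le hz)).2 hz
  -- the elements of the stabiliser
  have hzt : ∀ m ∈ M, m o = o → ∃ z ∈ Z, ∃ t ∈ szTor S o y₀, m = z * t := by
    intro m hm hmo
    obtain ⟨g, hg, t, ht, rfl⟩ := h.exists_QT (hMS hm) hmo
    have h1 : g ∈ M := (M.mul_mem_cancel_right (hT ht)).1 hm
    exact ⟨g, (hQ g hg).1 h1, t, ht, rfl⟩
  set P : Set X := insert o ((fun u : Perm X => u y₀) '' (Z : Set (Perm X))) with hP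
  have hPinv : ∀ m ∈ M, m o = o → ∀ x ∈ P, m x ∈ P := by
    intro m hm hmo x hx
    rcases hx with rfl | ⟨u, hu, rfl⟩
    · rw [hmo]
      exact Set.mem_insert _ _
    · right
      obtain ⟨z, hz, t, ht, rfl⟩ := hzt m hm hmo
      refine ⟨z * (t * u * t⁻¹), Z.mul_mem hz (h.conj_mem_Z ht.1 ht.2.1 hu), ?_⟩
      have h1 : t⁻¹ y₀ = y₀ := by
        rw [Perm.inv_eq_iff_eq, ht.2.2]
      change (z * (t * u * t⁻¹)) y₀ = (z * t) (u y₀)
      rw [Perm.mul_apply, Perm.mul_apply, Perm.mul_apply, Perm.mul_apply, h1]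
  have hPO : P ⊆ orbit M o := by
    intro x hx
    rcases hx with rfl | ⟨u, hu, rfl⟩
    · exact mem_orbit_self _
    · refine ⟨⟨u * w, M.mul_mem (hZM hu) hw⟩, ?_⟩
      change (u * w) o = u y₀
      rw [Perm.mul_apply, hwo]
  have hPcard : P.ncard = Nat.card Z + 1 := by
    rw [hP, Set.ncard_insert_of_notMem, Set.ncard_image_of_injOn]
    · rfl
    · intro u hu u' hu' he
      exact h.Q_inj (h.Z_le hu) (h.Z_le hu') h.ne he
    · rintro ⟨u, hu, hu'⟩
      exact h.ne (u.injective (Eq.trans hu' (h.fix u (h.Z_le hu)).symm))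
  -- the rest of the orbit
  let Yt : Type := {x : X // x ∈ orbit M o ∧ x ∉ P}
  have hact : ∀ m : stabilizer M o, ∀ x : X, (x ∈ orbit M o ∧ x ∉ P) →
      (m.1.1 x ∈ orbit M o ∧ m.1.1 x ∉ P) := by
    rintro ⟨⟨m, hm⟩, hmo⟩ x ⟨⟨⟨r, hr⟩, hrx⟩, hxP⟩
    have hmo' : m o = o := hmo
    refine ⟨⟨⟨m * r, M.mul_mem hm hr⟩, ?_⟩, fun h1 => hxP ?_⟩
    · change r o = x at hrx
      change (m * r) o = m x
      rw [Perm.mul_apply, hrx]
    · have h2 := hPinv m⁻¹ (M.inv_mem hm) (by rw [Perm.inv_eq_iff_eq, hmo']) _ h1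
      rwa [show m⁻¹ (m x) = x from m.symm_apply_apply x] at h2
  let act : MulAction (stabilizer M o) Yt :=
    { smul := fun m y => ⟨m.1.1 y.1, hact m y.1 y.2⟩
      one_smul := fun y => rfl
      mul_smul := fun m m' y => rfl }
  have hdvd : Nat.card (stabilizer M o) ∣ Nat.card Yt := by
    apply card_dvd_of_free
    rintro ⟨⟨m, hm⟩, hmo⟩ ⟨x, hxO, hxP⟩ he
    have h1 : m x = x := congrArg Subtype.val he
    obtain ⟨z, hz, t, ht, rfl⟩ := hzt m hm hmo
    have h2 := szz_free h hz ht (x := x) (fun h3 => hxP (by rw [h3]; exact Set.mem_insert _ _))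
      (fun u hu h3 => hxP (Or.inr ⟨u, hu, h3.symm⟩)) h1
    exact Subtype.ext (Subtype.ext h2)
  have hYc : Nat.card Yt + (Nat.card Z + 1) = (orbit M o).ncard := by
    have h1 : Nat.card Yt = (orbit M o \ P).ncard := rfl
    rw [h1, ← hPcard]
    exact Set.ncard_diff_add_ncard_of_subset hPO
  have hOle : (orbit M o).ncard ≤ Nat.card X := by
    rw [← Set.ncard_univ]
    exact Set.ncard_le_ncard (Set.subset_univ _)
  have hMcard : Nat.card M = Nat.card (stabilizer M o) * (orbit M o).ncard := by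
    rw [← index_stabilizer]
    exact (Subgroup.card_mul_index _).symm
  have hScard : Nat.card S = Nat.card (stabilizer S o) * Nat.card X := by
    have h1 : orbit S o = Set.univ := by
      rw [Set.eq_univ_iff_forall]
      intro x
      obtain ⟨r, hr, hrx⟩ := szz_two h (x := o) (y := x)
      exact ⟨⟨r, hr⟩, hrx⟩
    rw [← Set.ncard_univ X, ← h1, ← index_stabilizer]
    exact (Subgroup.card_mul_index _).symm
  obtain ⟨c, hc⟩ : ∃ c, Nat.card Z = c + 3 := ⟨Nat.card Z - 3, by omega⟩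
  have hcT' : Nat.card (szTor S o y₀) = c + 2 := by omega
  rw [hcT', hc] at hMo hSo
  rw [hc] at hcX hYc
  obtain ⟨e, he⟩ := hdvd
  rw [hMo] at he
  have he2 : e = 0 ∨ e = 1 := by
    have h1 : (c + 3) * (c + 2) * e + (c + 3 + 1) ≤ (c + 3) ^ 2 + 1 := by
      rw [← he, hYc, ← hcX]
      exact hOle
    by_contra hcon
    have h2 : 2 ≤ e := by omega
    have h3 : (c + 3) * (c + 2) * 2 ≤ (c + 3) * (c + 2) * e := Nat.mul_le_mul_left _ h2
    nlinarith
  rcases he2 with rfl | rfl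
  · -- the orbit is too short
    rw [mul_zero] at he
    rw [he, zero_add] at hYc
    have h1 : Nat.card M ∣ Nat.card S := Subgroup.card_dvd_of_le hMS
    rw [hMcard, hScard, hMo, hSo, hcX, ← hYc] at h1
    have h2 : (c + 3) * (c + 2) * (c + 3 + 1) ∣ (c + 3) * (c + 2) * ((c + 3) * ((c + 3) ^ 2 + 1)) := by
      have h3 : (c + 3) ^ 2 * (c + 2) * ((c + 3) ^ 2 + 1) =
          (c + 3) * (c + 2) * ((c + 3) * ((c + 3) ^ 2 + 1)) := by ring
      rwa [h3] at h1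
    have h3 := Nat.dvd_of_mul_dvd_mul_left (by positivity) h2
    have h4 : Nat.Coprime (c + 3 + 1) (c + 3) := by
      rw [Nat.coprime_self_add_left]
      exact Nat.coprime_one_left _
    have h5 := h4.dvd_of_dvd_mul_left h3
    have h6 : (c + 3) ^ 2 + 1 = (c + 3 + 1) * (c + 2) + 2 := by ring
    rw [h6] at h5
    have h7 : c + 3 + 1 ∣ 2 := (Nat.dvd_add_right (Dvd.intro _ rfl)).1 h5
    have h8 := Nat.le_of_dvd two_pos h7
    omega
  · -- `M` is transitive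
    have h1 : (orbit M o).ncard = Nat.card X := by
      rw [← hYc, he, hcX]
      ring
    have hO : orbit M o = Set.univ := by
      apply Set.eq_of_subset_of_ncard_le (Set.subset_univ _)
      rw [Set.ncard_univ, h1]
    have hinv : ∀ s ∈ S, s * s = 1 → s ∈ M := by
      intro s hs hs2
      obtain ⟨x, hx⟩ := h.exists_fix hs hs2
      have h2 : x ∈ orbit M o := by rw [hO]; trivial
      obtain ⟨⟨m, hm⟩, hmx⟩ := h2
      change m o = x at hmx
      have h3 : m⁻¹ * s * m ∈ Z := by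
        apply h.inv_mem_Z
        · exact S.mul_mem (S.mul_mem (S.inv_mem (hMS hm)) hs) (hMS hm)
        · calc m⁻¹ * s * m * (m⁻¹ * s * m) = m⁻¹ * (s * s) * m := by group
            _ = 1 := by rw [hs2, mul_one, inv_mul_cancel]
        · rw [Perm.mul_apply, Perm.mul_apply, hmx, hx, Perm.inv_eq_iff_eq, hmx]
      have h4 : s = m * (m⁻¹ * s * m) * m⁻¹ := by group
      rw [h4]
      exact M.mul_mem (M.mul_mem hm (hZM h3)) (M.inv_mem hm)
    have hYne : Nonempty Yt := by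
      rw [← not_isEmpty_iff]
      intro hem
      have h2 : Nat.card Yt = 0 := Nat.card_of_isEmpty
      rw [h2] at he
      have h3 : 0 < (c + 3) * (c + 2) * 1 := by positivity
      omega
    obtain ⟨⟨y, -, hyP⟩⟩ := hYne
    have hyo : y ≠ o := fun h3 => hyP (by rw [h3]; exact Set.mem_insert _ _)
    obtain ⟨g, hg, hgy⟩ := h.trans y₀ y h.ne hyo
    have hgo := h.fix g hg
    obtain ⟨t₀, ht₀, ht₀1⟩ : ∃ t ∈ szTor S o y₀, t ≠ 1 := by
      by_contra hcon
      push Not at hcon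
      have h1 : Nat.card (szTor S o y₀) ≤ 1 := by
        rw [Finite.card_le_one_iff_subsingleton]
        exact ⟨fun a b => Subtype.ext ((hcon a.1 a.2).trans (hcon b.1 b.2).symm)⟩
      omega
    set t' : Perm X := g * t₀ * g⁻¹ with ht'
    have ht'S : t' ∈ S := S.mul_mem (S.mul_mem (h.Q_le hg) ht₀.1) (S.inv_mem (h.Q_le hg))
    have ht'o : t' o = o := by
      have h2 : g⁻¹ o = o := by rw [Perm.inv_eq_iff_eq, hgo]
      rw [ht', Perm.mul_apply, Perm.mul_apply, h2, ht₀.2.1, hgo]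
    have ht'y : t' y = y := by
      have h2 : g⁻¹ y = y₀ := by rw [Perm.inv_eq_iff_eq, hgy]
      rw [ht', Perm.mul_apply, Perm.mul_apply, h2, ht₀.2.2, hgy]
    have ht'1 : t' ≠ 1 := by
      intro h2
      rw [ht', mul_inv_eq_one] at h2
      exact ht₀1 (mul_eq_left.1 h2)
    obtain ⟨w', hw', hw'o, hw'y⟩ := h.exists_swap hyo.symm
    have h2 : w' ∈ M := hinv w' hw' (h.swap_sq hw' hyo.symm hw'o hw'y)
    have h3 : t' * w' ∈ M := by
      apply hinv _ (S.mul_mem ht'S hw')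
      apply h.swap_sq (S.mul_mem ht'S hw') hyo.symm
      · rw [Perm.mul_apply, hw'o, ht'y]
      · rw [Perm.mul_apply, hw'y, ht'o]
    have h4 : t' ∈ M := (M.mul_mem_cancel_right h2).1 h3
    obtain ⟨z, hz, t, ht, hzt'⟩ := hzt t' h4 ht'o
    apply ht'1
    rw [hzt']
    exact szz_free h hz ht hyo (fun u hu h5 => hyP (Or.inr ⟨u, hu, h5.symm⟩)) (by rw [← hzt', ht'y])

end Pool.Agent.Helper37.PF
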