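import Pool.Agent.Helper37.PF.SzTri
import Pool.Agent.Helper37.PF.SzCaseOne
import Pool.Agent.Helper37.PF.SzCaseZ
import Pool.Agent.Helper37.Prim.Basic

/-!
# PF-S6: groups of Suzuki type are `2`-set primitive and not `2`-primitive (MP_13dc8a_al)

The lemmas of the imported modules are used.

PROOF OF `tset`. By `isPreprimitive_of_rel` (Prim/Basic.lean; transitivity on the `2`-subsets follows
from `2`-transitivity) let `r` be an invariant equivalence relation on `Set.powersetCard X 2` with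
`B₁ ≠ B₂` related. Let `A = {o, y₀}`. Moving by an element of `S` we may assume `B₁ = A`. Let
`M = {s ∈ S | A ~ s A}`: a subgroup of `Perm X` (invariance of `r`), `M ≤ S`,
`szTor S o y₀ ≤ M`, and `M` contains an element `w` which exchanges `o` and `y₀`
(`exists_swap`). Use `trichotomy`. If `Q ≤ M` then `M = S` (`eq_of_Q_le`), so `A` is related to
all `s A`, i.e. to all `2`-subsets, and `r` is total. In the second case `case_one` says that all
`m ∈ M` preserve `A`; but `B₂ = s A` with `s ∈ S`, and `s ∈ M`, so `B₂ = A`, contradiction. The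
third case is impossible by `case_Z`.

PROOF OF `not_tprimitive`. Suppose that `G` is `2`-primitive and apply `rel_of_tprimitive`
(Prim/Basic.lean, with `classical` decidability) with `s = {o}` and `r x y := ∃ u ∈ Z, u x = y`, an
equivalence relation. It is invariant under the `g ∈ G` with `g o = o`: for `u ∈ Z`,
`g u g⁻¹ ∈ S` fixes `o` and its square is `1`, so it is in `Z` (`inv_mem_Z`), and
`g u x = (g u g⁻¹) (g x)`. It is not the equality outside `o`: for `u ∈ Z`, `u ≠ 1`, `u y₀ ≠ y₀`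
(`Q_inj`). It is not total outside `o`: otherwise the map `Z → {x | x ≠ o}`, `u ↦ u y₀`, would be
surjective and `|X| - 1 = |Z| ^ 2 ≤ |Z|`.
-/

namespace Pool.Agent.Helper37.PF

open MulAction Equiv
open Pool.Agent.Helper37.Prim

variable {X : Type} [Finite X] {S : Subgroup (Perm X)} {o y₀ : X} {Q Z : Subgroup (Perm X)}

omit [Finite X] in
open scoped Pointwise in
private theorem szMain_smul_pair [DecidableEq X] (A : Set.powersetCard X 2) (x y : X)
    (hA : (A : Finset X) = {x, y}) (s : S) :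
    ((s • A : Set.powersetCard X 2) : Finset X) = {(s : Perm X) x, (s : Perm X) y} := by
  have h1 : ((s • A : Set.powersetCard X 2) : Finset X) = s • (A : Finset X) := rfl
  rw [h1, hA, Finset.smul_finset_insert, Finset.smul_finset_singleton]
  rfl

theorem SzBase.tset [DecidableEq X] (h : SzBase S o y₀ Q Z) :
    IsPreprimitive S (Set.powersetCard X 2) := by
  have htr : IsPretransitive S (Set.powersetCard X 2) :=
    Set.powersetCard.isPretransitive_of_isMultiplyPretransitive _ h.two_trans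
  apply isPreprimitive_of_rel
  intro r hr hG
  by_cases hne : ∃ B₁ B₂, r B₁ B₂ ∧ B₁ ≠ B₂
  swap
  · left
    intro x y hxy
    by_contra hc
    exact hne ⟨x, y, hxy, hc⟩
  right
  obtain ⟨B₁, B₂, h12, hne⟩ := hne
  obtain ⟨A, hA⟩ : ∃ A : Set.powersetCard X 2, (A : Finset X) = {o, y₀} :=
    ⟨⟨{o, y₀}, Finset.card_pair h.ne.symm⟩, rfl⟩
  obtain ⟨s₁, hs₁⟩ := exists_smul_eq S B₁ A
  have h12' : r A (s₁ • B₂) := hs₁ ▸ hG s₁ _ _ h12
  have hne' : A ≠ s₁ • B₂ := fun h' => hne (smul_left_cancel s₁ (hs₁.trans h'))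
  have hfix : ∀ s : S, ((s : Perm X) o = o ∧ (s : Perm X) y₀ = y₀) ∨
      ((s : Perm X) o = y₀ ∧ (s : Perm X) y₀ = o) → s • A = A := by
    intro s hs
    apply Subtype.ext
    rw [szMain_smul_pair A o y₀ hA s, hA]
    rcases hs with ⟨h1, h2⟩ | ⟨h1, h2⟩
    · rw [h1, h2]
    · rw [h1, h2, Finset.pair_comm]
  let M' : Subgroup S :=
    { carrier := {s | r A (s • A)}
      mul_mem' := by
        intro s t hs ht
        have h3 := hG s _ _ ht
        rw [← mul_smul] at h3
        exact hr.trans hs h3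
      one_mem' := by
        show r A ((1 : S) • A)
        rw [one_smul]
        exact hr.refl A
      inv_mem' := by
        intro s hs
        have h3 := hG s⁻¹ _ _ hs
        rw [inv_smul_smul] at h3
        exact hr.symm h3 }
  have hM'mem : ∀ s : S, s ∈ M' ↔ r A (s • A) := fun s => Iff.rfl
  have hMmem : ∀ s : S, (s : Perm X) ∈ M'.map S.subtype ↔ s ∈ M' := by
    intro s
    constructor
    · rintro ⟨s', hs', he⟩
      have : s' = s := Subtype.ext he
      rw [← this]
      exact hs'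
    · intro hs
      exact ⟨s, hs, rfl⟩
  have hMS : M'.map S.subtype ≤ S := by
    rintro m ⟨s, _, rfl⟩
    exact s.2
  have hTM : szTor S o y₀ ≤ M'.map S.subtype := by
    rintro t ⟨ht, hto, hty⟩
    refine (hMmem ⟨t, ht⟩).2 ?_
    rw [hM'mem, hfix ⟨t, ht⟩ (Or.inl ⟨hto, hty⟩)]
    exact hr.refl A
  obtain ⟨w, hwS, hwo, hwy⟩ := h.exists_swap h.ne.symm
  have hwM : w ∈ M'.map S.subtype := by
    refine (hMmem ⟨w, hwS⟩).2 ?_
    rw [hM'mem, hfix ⟨w, hwS⟩ (Or.inr ⟨hwo, hwy⟩)]
    exact hr.refl A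
  rcases h.trichotomy hTM with hc | hc | hc
  · have hMeq := h.eq_of_Q_le hMS hTM hc hwM (by rw [hwo]; exact h.ne)
    have hall : ∀ x, r A x := by
      intro x
      obtain ⟨s, rfl⟩ := exists_smul_eq S A x
      have h3 : (s : Perm X) ∈ M'.map S.subtype := by
        rw [hMeq]
        exact s.2
      exact (hMmem s).1 h3
    intro x y
    exact hr.trans (hr.symm (hall x)) (hall y)
  · exfalso
    have h3 := h.case_one hMS hTM hc hwM hwo hwy
    obtain ⟨s, hs⟩ := exists_smul_eq S A (s₁ • B₂)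
    have h4 : s ∈ M' := by
      rw [hM'mem, hs]
      exact h12'
    have h5 := hfix s (h3 s ((hMmem s).2 h4))
    exact hne' (h5.symm.trans hs)
  · exact (h.case_Z hMS hTM hc hwM hwo).elim

theorem SzBase.not_tprimitive (h : SzBase S o y₀ Q Z) {G : Subgroup (Perm X)} (hSG : S ≤ G)
    (hN : ∀ g ∈ G, ∀ s ∈ S, g * s * g⁻¹ ∈ S) : ¬ IsMultiplyPreprimitive G X 2 := by
  classical
  intro hp
  have hQo : ∀ q ∈ Q, ∀ x, x ≠ o → q x ≠ o := by
    intro q hq x hx hc
    apply hx
    apply q.injective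
    rw [hc, h.fix q hq]
  have hZS : ∀ u ∈ Z, u ∈ S := fun u hu => h.Q_le (h.Z_le hu)
  rcases rel_of_tprimitive hp {o} (by simp) (fun x y => ∃ u ∈ Z, u x = y)
    (fun x _ => ⟨1, Z.one_mem, rfl⟩)
    (by
      rintro x y - - ⟨u, hu, rfl⟩
      exact ⟨u⁻¹, Z.inv_mem hu, u.symm_apply_apply x⟩)
    (by
      rintro x y z - - - ⟨u, hu, rfl⟩ ⟨v, hv, rfl⟩
      exact ⟨v * u, Z.mul_mem hv hu, rfl⟩)
    (by
      rintro g hg x y - - ⟨u, hu, rfl⟩
      have hgo : (g : Perm X) o = o := hg o (Finset.mem_singleton_self o)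
      have hgo' : (g : Perm X)⁻¹ o = o := by rw [Perm.inv_eq_iff_eq, hgo]
      have huu : u * u = 1 := (h.sq_one u (h.Z_le hu)).2 hu
      refine ⟨(g : Perm X) * u * (g : Perm X)⁻¹, ?_, ?_⟩
      · refine h.inv_mem_Z (hN _ g.2 _ (hZS u hu)) ?_ ?_
        · have : (g : Perm X) * u * (g : Perm X)⁻¹ * ((g : Perm X) * u * (g : Perm X)⁻¹) =
              (g : Perm X) * (u * u) * (g : Perm X)⁻¹ := by group
          rw [this, huu]
          group
        · rw [Perm.mul_apply, Perm.mul_apply, hgo', h.fix u (h.Z_le hu), hgo]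
      · show (g : Perm X) (u ((g : Perm X)⁻¹ ((g : Perm X) x))) = (g : Perm X) (u x)
        rw [show (g : Perm X)⁻¹ ((g : Perm X) x) = x from (g : Perm X).symm_apply_apply x]) with h1 | h1
  · have h2 := h.two_lt
    obtain ⟨u, hu, hu1⟩ : ∃ u ∈ Z, u ≠ 1 := by
      by_contra hc
      push Not at hc
      have h3 : Z = ⊥ := by
        rw [Subgroup.eq_bot_iff_forall]
        exact hc
      rw [h3, Subgroup.card_bot] at h2
      omega
    apply hu1
    have h3 := h1 y₀ (u y₀) (by simpa using h.ne)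
      (by simpa using hQo u (h.Z_le hu) y₀ h.ne) ⟨u, hu, rfl⟩
    exact h.Q_inj (h.Z_le hu) Q.one_mem h.ne h3.symm
  · have h2 : Q ≤ Z := by
      intro q hq
      obtain ⟨u, hu, hu2⟩ := h1 y₀ (q y₀) (by simpa using h.ne)
        (by simpa using hQo q hq y₀ h.ne)
      rw [← h.Q_inj (h.Z_le hu) hq h.ne hu2]
      exact hu
    have h3 : Q = Z := le_antisymm h2 h.Z_le
    have h4 := h.card_Q
    rw [h3] at h4
    have h5 := h.two_lt
    nlinarith

end Pool.Agent.Helper37.PF
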