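import Pool.Agent.Helper37.PF.Transfer
import Pool.Agent.Helper37.PF.AltTwo
import Pool.Agent.Helper37.PF.SpPrim
import Pool.Agent.Helper37.PF.SpNot
import Pool.Agent.Helper37.PF.SzMain
import Pool.Agent.Helper37.PF.ScMain
import Pool.Agent.Helper37.PF.CM24
import Pool.Agent.Helper37.PF.SM24
import Pool.Agent.Helper37.Prim.Proj3Final
import Pool.Agent.Helper37.Prim.M11
import Pool.Agent.Helper37.Prim.AffineEven

/-!
# Three generalisations of primitivity (MP_13dc8a_al): the groups in the answer are exceptions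
-/

namespace Pool.Agent.Helper37.PF

open MulAction Equiv
open Pool.Agent.Helper37.Prim

section

variable {X Y : Type} [DecidableEq X] [DecidableEq Y] {G : Subgroup (Perm X)}
  {H : Subgroup (Perm Y)}

theorem PermIso.excA (h : PermIso G H) (t : ℕ) : ExcA G X t ↔ ExcA H Y t :=
  and_congr (h.prim_iff t) (not_congr (h.set_iff t))

theorem PermIso.excB (h : PermIso G H) (t : ℕ) : ExcB G X t ↔ ExcB H Y t :=
  and_congr (h.set_iff t) (not_congr (h.prim_iff t))

theorem PermIso.excC (h : PermIso G H) (t : ℕ) : ExcC G X t ↔ ExcC H Y t :=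
  and_congr (h.steiner_iff t) (not_congr (h.prim_iff t))

theorem PermIso.excD (h : PermIso G H) (t : ℕ) : ExcD G X t ↔ ExcD H Y t :=
  and_congr (h.steiner_iff t) (not_congr (h.set_iff t))

omit [DecidableEq X] in
theorem tprim_of_succ [Finite X] {t : ℕ} (hn : t + 1 ≤ Nat.card X)
    (h : IsMultiplyPretransitive G X (t + 1)) : IsMultiplyPreprimitive G X t := by
  have h' : IsMultiplyPretransitive G X t.succ := h
  apply isMultiplyPreprimitive_of_isMultiplyPretransitive_succ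
  rw [ENat.card_eq_coe_natCard]
  exact_mod_cast hn

theorem card_onePoint' (K : Type) [Finite K] : Nat.card (OnePoint K) = Nat.card K + 1 :=
  Finite.card_option

end

section

variable {X : Type} [Fintype X] [DecidableEq X] {G : Subgroup (Perm X)}

/-- Affine groups are not `2`-set primitive. -/
theorem not_tset_of_hasSol (hS : HasSol G) (h2 : IsMultiplyPretransitive G X 2)
    (hn : 4 ≤ Nat.card X) : ¬ IsPreprimitive G (Set.powersetCard X 2) := by
  obtain ⟨N, hNn, hN, hs⟩ := hS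
  exact ((solubleAnswer X G 2 le_rfl (by omega) h2).2 N hNn hN hs).2.2.1 rfl hn

theorem affSymp_exc {V : Type} [AddCommGroup V] [Module (ZMod 2) V] [Finite V] [DecidableEq V]
    {H : Subgroup (Perm V)} (hn : 4 < Nat.card V) (hH : AffSymp H) :
    ExcA H V 2 ∧ ¬ ExcB H V 2 ∧ ¬ ExcC H V 2 ∧ ExcD H V 2 := by
  obtain ⟨hA, hT, ω, halt, hnd, hS⟩ := hH
  exact affine_exc (by omega) hA (symp_tprimitive (ω := ω) halt hnd hn hT hS)

theorem affG2_exc {H : Subgroup (Perm (Fin 6 → ZMod 2))} (hH : AffG2 H) :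
    ExcA H (Fin 6 → ZMod 2) 2 ∧ ¬ ExcB H (Fin 6 → ZMod 2) 2 ∧ ¬ ExcC H (Fin 6 → ZMod 2) 2 ∧
      ExcD H (Fin 6 → ZMod 2) 2 := by
  obtain ⟨hA, hT, hgA, hgB⟩ := hH
  refine affine_exc ?_ hA (g2_tprimitive hT hgA hgB)
  rw [Nat.card_eq_fintype_card]
  simp

theorem affA_excA (h : AffA G) (h2 : IsMultiplyPretransitive G X 2) (hn : 4 ≤ Nat.card X) :
    ExcA G X 2 := by
  rcases h with ⟨hS, h3⟩ | ⟨V, _, _, H, hV, hV4, hH, hiso⟩ | ⟨H, hH, hiso⟩
  · exact ⟨tprim_of_succ (by omega) h3, not_tset_of_hasSol hS h2 hn⟩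
  · classical
    exact (hiso.excA 2).2 (affSymp_exc hV4 hH).1
  · exact (hiso.excA 2).2 (affG2_exc hH).1

omit [Fintype X] in
theorem spType_exc (h : SpType G) : IsMultiplyPreprimitive G X 2 ∧
    ¬ IsPreprimitive G (Set.powersetCard X 2) ∧ ¬ IsMultiplyPretransitive G X 3 := by
  classical
  obtain ⟨V, _, _, ω, θ₀, hV, hn, halt, hnd, hθ₀, hiso⟩ := h
  rw [hiso.prim_iff, hiso.set_iff, hiso.trans_iff]
  exact ⟨sp_tprimitive hn halt hnd hθ₀, sp_not_tset hn halt hnd hθ₀,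
    sp_not_three hn halt hnd hθ₀⟩

omit [Fintype X] in
theorem szType_exc (h : SzType G) : IsPreprimitive G (Set.powersetCard X 2) ∧
    ¬ IsMultiplyPreprimitive G X 2 := by
  classical
  obtain ⟨F, _, hF, θ, H, hF2, hθ, hSH, hN, hiso⟩ := h
  obtain ⟨Q, Z, hb⟩ := sz_base hF2 hθ
  have hfin : Finite (OnePoint (F × F)) := inferInstanceAs (Finite (Option (F × F)))
  rw [hiso.prim_iff, hiso.set_iff]
  exact ⟨tsetprimitive_mono hSH hb.tset, hb.not_tprimitive hSH hN⟩

/-- The groups of type (a). -/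
theorem suffA {t : ℕ} (ht : 2 ≤ t) (htn : t ≤ Nat.card X)
    (hG : IsMultiplyPretransitive G X t) (h : AnsA G t) : ExcA G X t := by
  rcases h with ⟨hA, hn⟩ | ⟨rfl, hn, h⟩ | ⟨rfl, h⟩ | ⟨rfl, K, _, hK, _, H, hPH, hHP, hiso, hq⟩ |
    ⟨rfl, ⟨K, _, hK, _, H, hPH, hHP, hiso⟩, hn, hp⟩ | ⟨rfl, hiso⟩ | ⟨rfl, hiso⟩
  · rcases Nat.lt_or_ge 2 t with h3 | h3
    · exact (altAnswer h3 htn G hA hG).1.2 hn
    · obtain rfl : t = 2 := le_antisymm h3 ht
      exact (altAnswer_two htn G hA hG).1.2 hn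
  · rcases h with ⟨hS, hp⟩ | h
    · refine ⟨tprimitive_of_prime (by norm_num) htn ?_ hG, not_tset_of_hasSol hS hG hn⟩
      exact hp
    · exact affA_excA h hG hn
  · exact ⟨(spType_exc h).1, (spType_exc h).2.1⟩
  · classical
    have hfinite : Finite (OnePoint K) := inferInstanceAs (Finite (Option K))
    refine (hiso.excA 2).2 ⟨tprimitive_of_PSL_le hPH, not_tsetprimitive_of_excList hPH hHP ?_⟩
    rcases hq with h | h | ⟨h, h'⟩ | h | ⟨h, h'⟩
    · exact Or.inl h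
    · exact Or.inr (Or.inl h)
    · exact Or.inr (Or.inr (Or.inl ⟨h, h'.le⟩))
    · exact Or.inr (Or.inr (Or.inr (Or.inl h)))
    · exact Or.inr (Or.inr (Or.inr (Or.inr ⟨h, h'.le⟩)))
  · classical
    have hc := hiso.card_eq
    rw [card_onePoint'] at hc
    refine (hiso.excA 3).2 ((projAnswer le_rfl (by omega) H hHP ((hiso.trans_iff 3).1 hG)).1.2
      ⟨rfl, by omega, ?_⟩)
    have h1 : Nat.card K - 1 = Nat.card X - 2 := by omega
    rw [h1]
    exact hp
  · exact (hiso.excA 3).2 ⟨m11_tprimitive, m11_not_tsetprimitive⟩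
  · refine (hiso.excA 4).2 ⟨tprim_of_succ ?_ CM24.trans, SM24.not_tset⟩
    rw [Nat.card_eq_fintype_card, Fintype.card_fin]
    norm_num

omit [Fintype X] in
/-- The groups of type (b). -/
theorem suffB {t : ℕ} (h : AnsB G t) : ExcB G X t := by
  obtain ⟨rfl, h⟩ := h
  exact szType_exc h

/-- The other groups of type (c) are of type (d). -/
theorem suffC {t : ℕ} (ht : 2 ≤ t) (htn : t ≤ Nat.card X)
    (hG : IsMultiplyPretransitive G X t) (h : AnsC G t) : ExcC G X t ∧ ExcD G X t := by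
  rcases h with ⟨rfl, hS, hn⟩ | ⟨rfl, ⟨K, _, hK, _, H, hPH, hHP, hiso⟩, hn, hp, hq⟩
  · have h1 := (solubleAnswer X G 2 le_rfl htn hG).1 hS
    refine ⟨h1.2.2.1.2 ⟨rfl, hn⟩, h1.2.2.2.2 ⟨rfl, ?_⟩⟩
    rcases hn with h | ⟨d, hd, h, -⟩
    · exact Or.inl h
    · exact Or.inr ⟨d, hd, h⟩
  · classical
    have hc := hiso.card_eq
    rw [card_onePoint'] at hc
    have h1 : Nat.card K - 1 = Nat.card X - 2 := by omega
    have h2 : Nat.card K = Nat.card X - 1 := by omega
    rw [← h1] at hp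
    rw [← h2] at hq
    have key := projAnswer le_rfl (by omega) H hHP ((hiso.trans_iff 3).1 hG)
    exact ⟨(hiso.excC 3).2 (key.2.2.1.2 ⟨rfl, by omega, hp, hq⟩),
      (hiso.excD 3).2 (key.2.2.2.2 ⟨rfl, by omega, hq⟩)⟩

end

end Pool.Agent.Helper37.PF
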