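import Pool.Agent.Helper37.Prim.Cert2

/-!
# PF-M6: groups which preserve a binary linear code (MP_13dc8a_al)

The columns of a check matrix of the code are given by `col : Fin n → Fin m → ZMod 2`. The
syndrome of a subset `s` of `Fin n` is `∑ x ∈ s, col x`.

PROOF. Let `P g` be: there are matrices `A`, `A'` with `col (g x) = A (col x)` and
`col (g⁻¹ x) = A' (col x)` for all `x`. It holds for `1` and for the elements of `S`, and it is closed
under products and inverses. So it holds for all
elements of the closure (`Subgroup.closure_induction`). The relation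
`r s s' := ∑ x ∈ s, col x = ∑ x ∈ s', col x` is an equivalence relation and invariant:
`∑ x ∈ g • s, col x = ∑ x ∈ s, col (g x) = A (∑ x ∈ s, col x)`. Apply `rel_of_tsetprimitive`
(Prim/Basic.lean): `r` would be trivial on the `t`-subsets, but `s₁ ≠ s₂` are related and `s₁`, `s₃`
are not.
-/

namespace Pool.Agent.Helper37.PF

open MulAction Equiv
open Pool.Agent.Helper37.Prim
open scoped Pointwise

theorem not_tset_of_code {n m t : ℕ} {S : Set (Perm (Fin n))} (col : Fin n → Fin m → ZMod 2)
    (hS : ∀ s ∈ S, ∃ A A' : Matrix (Fin m) (Fin m) (ZMod 2),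
      (∀ x, col (s x) = A.mulVec (col x)) ∧ ∀ x, col (s⁻¹ x) = A'.mulVec (col x))
    {s₁ s₂ s₃ : Finset (Fin n)} (h1 : s₁.card = t) (h2 : s₂.card = t) (h3 : s₃.card = t)
    (h12 : s₁ ≠ s₂) (hr : ∑ x ∈ s₁, col x = ∑ x ∈ s₂, col x)
    (hn : ∑ x ∈ s₁, col x ≠ ∑ x ∈ s₃, col x) :
    ¬ IsPreprimitive (Subgroup.closure S) (Set.powersetCard (Fin n) t) := by
  -- the property holds for all elements of the closure
  have key : ∀ g ∈ Subgroup.closure S, ∃ A A' : Matrix (Fin m) (Fin m) (ZMod 2),
      (∀ x, col (g x) = A.mulVec (col x)) ∧ ∀ x, col (g⁻¹ x) = A'.mulVec (col x) := by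
    intro g hg
    induction hg using Subgroup.closure_induction with
    | mem x hx => exact hS x hx
    | one => exact ⟨1, 1, fun x => by rw [Matrix.one_mulVec]; rfl,
        fun x => by rw [Matrix.one_mulVec, inv_one]; rfl⟩
    | mul g k _ _ ihg ihk =>
      obtain ⟨A, A', hA, hA'⟩ := ihg
      obtain ⟨B, B', hB, hB'⟩ := ihk
      refine ⟨A * B, B' * A', fun x => ?_, fun x => ?_⟩
      · rw [Perm.mul_apply, hA, hB, Matrix.mulVec_mulVec]
      · rw [mul_inv_rev, Perm.mul_apply, hB', hA', Matrix.mulVec_mulVec]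
    | inv g _ ihg =>
      obtain ⟨A, A', hA, hA'⟩ := ihg
      exact ⟨A', A, hA', fun x => by rw [inv_inv]; exact hA x⟩
  intro h
  rcases rel_of_tsetprimitive h (fun u v => ∑ x ∈ u, col x = ∑ x ∈ v, col x)
    ⟨fun _ => rfl, fun h => h.symm, fun h1 h2 => h1.trans h2⟩ (by
      rintro ⟨g, hg⟩ u v - - huv
      obtain ⟨A, A', hA, -⟩ := key g hg
      have hsum : ∀ w : Finset (Fin n),
          ∑ x ∈ (⟨g, hg⟩ : Subgroup.closure S) • w, col x = A.mulVec (∑ x ∈ w, col x) := by
        intro w
        change ∑ x ∈ w.image (fun x => (⟨g, hg⟩ : Subgroup.closure S) • x), col x = _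
        rw [Finset.sum_image (fun x _ y _ hxy => smul_left_cancel _ hxy)]
        have h1 : A.mulVec (∑ x ∈ w, col x) = ∑ x ∈ w, A.mulVec (col x) := by
          rw [← Matrix.mulVecLin_apply, map_sum]
          rfl
        rw [h1]
        exact Finset.sum_congr rfl fun x _ => hA x
      rw [hsum, hsum, huv]) with h4 | h4
  · exact h12 (h4 s₁ s₂ h1 h2 hr)
  · exact hn (h4 s₁ s₃ h1 h3)

end Pool.Agent.Helper37.PF
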