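import Pool.Agent.Helper37.PF.SzBase

/-!
# PF-S2: groups of Suzuki type, first consequences (MP_13dc8a_al)

Here `T` is the subgroup of the `s ∈ S` which fix `o` and `y₀`; `q = |Z|`.

PROOFS.
* `Q_inj` (`Q` is regular on the other points): for `y ≠ o` the map `Q → {x | x ≠ o}`, `g ↦ g y` is
  surjective (`trans`) between finite sets with the same cardinality (`card_X`), so injective.
  (For `y ≠ o`; `g y ≠ o` because `g o = o`.)
* `conj_mem_Z`: `s g s⁻¹ ∈ Q` by `norm` and its square is `s (g g) s⁻¹ = 1`; `sq_one`.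
* `exists_QT`: `s y₀ ≠ o`, take `g ∈ Q` with `g y₀ = s y₀` (`trans`) and `t = g⁻¹ s`.
* `card_T`: fix `u ∈ Z`, `u ≠ 1`. The map `T → Z ∖ {1}`, `t ↦ t u t⁻¹` (in `Z` by
  `conj_mem_Z`), is surjective by `conj_Z`, and injective: if `t u t⁻¹ = t' u t'⁻¹` then
  `r = t'⁻¹ t` commutes with `u`, fixes `o`, `y₀` and `r (u y₀) = u (r y₀) = u y₀`; these three points
  are different (`u y₀ ≠ y₀` by `Q_inj`, as `u ≠ 1`), so `r = 1` by `fix3`. So `|T| = q - 1`.
* `even_Z`: `Z` contains an element `u ≠ 1` with `u u = 1` (`sq_one`), Lagrange.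
  `odd_T`: hence `|T| = q - 1` is odd. `|X| = q ^ 2 + 1` is odd.
* `inv_mem_Z` (involutions which fix `o`): `s = g t` by `exists_QT`. `s s = g (t g t⁻¹) t t = 1` gives
  `t t = (g (t g t⁻¹))⁻¹ ∈ Q`, and `t t` fixes `y₀`, so `t t = 1` (`Q_inj`), and `t = 1` because `T` has
  odd order. So `s = g ∈ Q` and `s s = 1`, `s ∈ Z` by `sq_one`.
* `exists_fix` (every involution `s ∈ S` fixes a point): `|X|` is odd
  (`Equiv.Perm.card_fixedPoints_modEq` with `p = 2`, `n = 1`). `unique_fix`: it fixes only one point: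
  the number of fixed points is odd, and if it is at least three then `s = 1` by `fix3`; or directly:
  if it fixed `x ≠ y`, then by `2`-transitivity some conjugate in `S` fixes `o` and `y₀`, it lies in
  `T` and has order `2`, but `|T|` is odd.
* `swap_sq` (every `w ∈ S` which exchanges two points `x ≠ y` is an involution): `w w` fixes `x`
  and `y`; by `2`-transitivity `w w` is conjugate in `S` to an element of `T`, so it has odd order
  `m` (`m` divides `|T|`). Put `v = w ^ m`; `m` is odd, so `v` exchanges `x` and `y`, and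
  `v v = (w w) ^ m = 1`. Let `c` be the point fixed by `v` (`exists_fix`). `w` commutes with `v`, so
  `v` fixes `w c`, so `w c = c` (`unique_fix`). `c ≠ x, y`. So `w w` fixes `x`, `y`, `c` and
  `w w = 1` by `fix3`.
* `exists_swap`: `2`-transitivity.
-/

namespace Pool.Agent.Helper37.PF

open MulAction Equiv

/-- The elements of `S` which fix `o` and `y₀`. -/
def szTor {X : Type} (S : Subgroup (Perm X)) (o y₀ : X) : Subgroup (Perm X) where
  carrier := {s | s ∈ S ∧ s o = o ∧ s y₀ = y₀}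
  mul_mem' := by
    rintro s t ⟨hs, hso, hsy⟩ ⟨ht, hto, hty⟩
    exact ⟨S.mul_mem hs ht, by rw [Perm.mul_apply, hto, hso], by rw [Perm.mul_apply, hty, hsy]⟩
  one_mem' := ⟨S.one_mem, rfl, rfl⟩
  inv_mem' := by
    rintro s ⟨hs, hso, hsy⟩
    exact ⟨S.inv_mem hs, by rw [Perm.inv_eq_iff_eq, hso], by rw [Perm.inv_eq_iff_eq, hsy]⟩

variable {X : Type} [Finite X] {S : Subgroup (Perm X)} {o y₀ : X} {Q Z : Subgroup (Perm X)}

theorem SzBase.Q_inj (h : SzBase S o y₀ Q Z) {g g' : Perm X} (hg : g ∈ Q) (hg' : g' ∈ Q) {y : X}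
    (hy : y ≠ o) (hgy : g y = g' y) : g = g' := by
  have hne : ∀ g : Q, g.1 y ≠ o := fun g h1 => hy (g.1.injective (h1.trans (h.fix g.1 g.2).symm))
  let φ : Q → {x : X // x ≠ o} := fun g => ⟨g.1 y, hne g⟩
  have hs : Function.Surjective φ := by
    rintro ⟨z, hz⟩
    obtain ⟨g, hg, hgz⟩ := h.trans y z hy hz
    exact ⟨⟨g, hg⟩, Subtype.ext hgz⟩
  have hc : Nat.card Q = Nat.card {x : X // x ≠ o} := by
    classical
    have h1 : Nat.card X = Nat.card {x : X // x = o} + Nat.card {x : X // x ≠ o} := by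
      rw [← Nat.card_sum]
      exact Nat.card_congr (Equiv.sumCompl (fun x => x = o)).symm
    have h2 : Nat.card {x : X // x = o} = 1 := Nat.card_unique
    rw [h.card_X, h2] at h1
    omega
  have hb := (Nat.bijective_iff_surjective_and_card φ).2 ⟨hs, hc⟩
  have h2 : φ ⟨g, hg⟩ = φ ⟨g', hg'⟩ := Subtype.ext hgy
  exact congrArg Subtype.val (hb.1 h2)

theorem SzBase.conj_mem_Z (h : SzBase S o y₀ Q Z) {s g : Perm X} (hs : s ∈ S) (hso : s o = o)
    (hg : g ∈ Z) : s * g * s⁻¹ ∈ Z := by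
  have h1 := h.norm s hs hso g (h.Z_le hg)
  rw [← h.sq_one _ h1]
  have h2 : g * g = 1 := (h.sq_one g (h.Z_le hg)).2 hg
  calc s * g * s⁻¹ * (s * g * s⁻¹) = s * (g * g) * s⁻¹ := by group
    _ = 1 := by rw [h2, mul_one, mul_inv_cancel]

theorem SzBase.exists_QT (h : SzBase S o y₀ Q Z) {s : Perm X} (hs : s ∈ S) (hso : s o = o) :
    ∃ g ∈ Q, ∃ t ∈ szTor S o y₀, s = g * t := by
  have h1 : s y₀ ≠ o := fun h2 => h.ne (s.injective (h2.trans hso.symm))
  obtain ⟨g, hg, hgy⟩ := h.trans y₀ (s y₀) h.ne h1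
  refine ⟨g, hg, g⁻¹ * s, ⟨S.mul_mem (S.inv_mem (h.Q_le hg)) hs, ?_, ?_⟩, by group⟩
  · rw [Perm.mul_apply, hso, Perm.inv_eq_iff_eq]
    exact (h.fix g hg).symm
  · rw [Perm.mul_apply, Perm.inv_eq_iff_eq]
    exact hgy.symm

private theorem szb_exists_u (h : SzBase S o y₀ Q Z) : ∃ u ∈ Z, u ≠ 1 := by
  by_contra hcon
  push Not at hcon
  have h1 : Nat.card Z ≤ 1 := by
    rw [Finite.card_le_one_iff_subsingleton]
    exact ⟨fun a b => Subtype.ext ((hcon a.1 a.2).trans (hcon b.1 b.2).symm)⟩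
  have := h.two_lt
  omega

theorem SzBase.card_T (h : SzBase S o y₀ Q Z) : Nat.card (szTor S o y₀) + 1 = Nat.card Z := by
  classical
  obtain ⟨u, hu, hu1⟩ := szb_exists_u h
  have h1 : Nat.card Z = Nat.card {v : Z // v = 1} + Nat.card {v : Z // v ≠ 1} := by
    rw [← Nat.card_sum]
    exact Nat.card_congr (Equiv.sumCompl (fun v : Z => v = 1)).symm
  have h0 : Nat.card {v : Z // v = 1} = 1 := Nat.card_unique
  rw [h0] at h1
  let φ : szTor S o y₀ → {v : Z // v ≠ 1} := fun t =>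
    ⟨⟨t.1 * u * t.1⁻¹, h.conj_mem_Z t.2.1 t.2.2.1 hu⟩, fun h2 => hu1 (by
      have h3 : t.1 * u * t.1⁻¹ = 1 := congrArg Subtype.val h2
      rw [mul_inv_eq_one] at h3
      exact mul_eq_left.1 h3)⟩
  have hb : Function.Bijective φ := by
    constructor
    · intro t t' htt
      have h3 : t.1 * u * t.1⁻¹ = t'.1 * u * t'.1⁻¹ :=
        congrArg (fun v : {v : Z // v ≠ 1} => (v.1.1 : Perm X)) htt
      set r : Perm X := t'.1⁻¹ * t.1 with hr
      have hrT : r ∈ szTor S o y₀ := (szTor S o y₀).mul_mem ((szTor S o y₀).inv_mem t'.2) t.2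
      have hru : r * u = u * r := by
        rw [hr]
        calc t'.1⁻¹ * t.1 * u = t'.1⁻¹ * (t.1 * u * t.1⁻¹) * t.1 := by group
          _ = t'.1⁻¹ * (t'.1 * u * t'.1⁻¹) * t.1 := by rw [h3]
          _ = u * (t'.1⁻¹ * t.1) := by group
      have h4 : r (u y₀) = u y₀ := by
        rw [← Perm.mul_apply, hru, Perm.mul_apply, hrT.2.2]
      have h5 : o ≠ u y₀ := fun h6 =>
        h.ne (u.injective (h6.symm.trans (h.fix u (h.Z_le hu)).symm))
      have h7 : y₀ ≠ u y₀ := fun h8 =>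
        hu1 (h.Q_inj (h.Z_le hu) Q.one_mem h.ne (by rw [← h8, Perm.one_apply]))
      have h9 : r = 1 := h.fix3 r hrT.1 o y₀ (u y₀) h.ne.symm h5 h7 hrT.2.1 hrT.2.2 h4
      rw [hr, inv_mul_eq_one] at h9
      exact Subtype.ext h9.symm
    · rintro ⟨⟨v, hv⟩, hv1⟩
      have hv2 : v ≠ 1 := fun h2 => hv1 (Subtype.ext h2)
      obtain ⟨s, hs, hso, hsy, hsv⟩ := h.conj_Z u hu v hv hu1 hv2
      exact ⟨⟨s, hs, hso, hsy⟩, Subtype.ext (Subtype.ext hsv)⟩
  rw [Nat.card_eq_of_bijective φ hb, h1, add_comm]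

theorem SzBase.even_Z (h : SzBase S o y₀ Q Z) : Even (Nat.card Z) := by
  obtain ⟨u, hu, hu1⟩ := szb_exists_u h
  have h1 : orderOf u = 2 := by
    apply orderOf_eq_prime
    · rw [pow_two]
      exact (h.sq_one u (h.Z_le hu)).2 hu
    · exact hu1
  have h2 := Subgroup.orderOf_dvd_natCard Z hu
  rw [h1] at h2
  exact even_iff_two_dvd.2 h2

theorem SzBase.odd_T (h : SzBase S o y₀ Q Z) : Odd (Nat.card (szTor S o y₀)) := by
  have h1 := h.card_T
  have h2 := h.even_Z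
  rw [← h1] at h2
  rcases Nat.even_or_odd (Nat.card (szTor S o y₀)) with h3 | h3
  · exfalso
    rw [Nat.even_add_one] at h2
    exact h2 h3
  · exact h3

private theorem szb_T_inv (h : SzBase S o y₀ Q Z) {t : Perm X} (ht : t ∈ szTor S o y₀)
    (ht2 : t * t = 1) : t = 1 := by
  have h1 : orderOf t ∣ 2 := orderOf_dvd_of_pow_eq_one (by rw [pow_two, ht2])
  have h2 := Subgroup.orderOf_dvd_natCard _ ht
  have h3 := h.odd_T
  have h4 : orderOf t ∣ 1 := by
    have h5 := Nat.dvd_gcd h1 h2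
    rwa [Nat.Coprime.gcd_eq_one (Nat.coprime_two_left.2 h3)] at h5
  rw [← orderOf_eq_one_iff]
  exact Nat.dvd_one.1 h4

theorem SzBase.inv_mem_Z (h : SzBase S o y₀ Q Z) {s : Perm X} (hs : s ∈ S) (hs2 : s * s = 1)
    (hso : s o = o) : s ∈ Z := by
  obtain ⟨g, hg, t, ht, rfl⟩ := h.exists_QT hs hso
  have h1 := h.norm t ht.1 ht.2.1 g hg
  have h2 : t * t = (g * (t * g * t⁻¹))⁻¹ := by
    apply eq_inv_of_mul_eq_one_right
    rw [← hs2]
    group
  have h3 : t * t ∈ Q := by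
    rw [h2]
    exact Q.inv_mem (Q.mul_mem hg h1)
  have h4 : t * t = 1 := h.Q_inj h3 Q.one_mem h.ne (by
    rw [Perm.mul_apply, ht.2.2, ht.2.2, Perm.one_apply])
  have h5 : t = 1 := szb_T_inv h ht h4
  rw [h5, mul_one] at hs2 ⊢
  exact (h.sq_one g hg).1 hs2

theorem SzBase.exists_fix (h : SzBase S o y₀ Q Z) {s : Perm X} (hs : s ∈ S) (hs2 : s * s = 1) :
    ∃ x, s x = x := by
  classical
  have := Fintype.ofFinite X
  have h1 : ¬ 2 ∣ Fintype.card X := by
    rw [← Nat.card_eq_fintype_card, h.card_X, h.card_Q]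
    have h2 := h.even_Z
    have h3 : Even (Nat.card Z ^ 2) := h2.pow_of_ne_zero two_ne_zero
    rw [← even_iff_two_dvd, Nat.even_add_one]
    exact fun h4 => h4 h3
  exact Equiv.Perm.exists_fixed_point_of_prime (p := 2) (n := 1) h1
    (by rw [pow_one, pow_two, hs2])

private theorem szb_two (h : SzBase S o y₀ Q Z) {x y x' y' : X} (hxy : x ≠ y) (hxy' : x' ≠ y') :
    ∃ r ∈ S, r x = x' ∧ r y = y' := by
  obtain ⟨r, h1, h2⟩ := is_two_pretransitive_iff.1 h.two_trans hxy hxy'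
  exact ⟨r.1, r.2, h1, h2⟩

theorem SzBase.unique_fix (h : SzBase S o y₀ Q Z) {s : Perm X} (hs : s ∈ S) (hs1 : s ≠ 1)
    (hs2 : s * s = 1) {x y : X} (hx : s x = x) (hy : s y = y) : x = y := by
  by_contra hxy
  obtain ⟨r, hr, hrx, hry⟩ := szb_two h hxy h.ne.symm
  have h1 : r * s * r⁻¹ ∈ szTor S o y₀ := by
    refine ⟨S.mul_mem (S.mul_mem hr hs) (S.inv_mem hr), ?_, ?_⟩
    · have h2 : r⁻¹ o = x := by rw [Perm.inv_eq_iff_eq, hrx]
      rw [Perm.mul_apply, Perm.mul_apply, h2, hx, hrx]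
    · have h2 : r⁻¹ y₀ = y := by rw [Perm.inv_eq_iff_eq, hry]
      rw [Perm.mul_apply, Perm.mul_apply, h2, hy, hry]
  have h2 : r * s * r⁻¹ = 1 := szb_T_inv h h1 (by
    calc r * s * r⁻¹ * (r * s * r⁻¹) = r * (s * s) * r⁻¹ := by group
      _ = 1 := by rw [hs2, mul_one, mul_inv_cancel])
  rw [mul_inv_eq_one] at h2
  exact hs1 (mul_eq_left.1 h2)

theorem SzBase.swap_sq (h : SzBase S o y₀ Q Z) {w : Perm X} (hw : w ∈ S) {x y : X} (hxy : x ≠ y)
    (hx : w x = y) (hy : w y = x) : w * w = 1 := by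
  have hwwx : (w * w) x = x := by rw [Perm.mul_apply, hx, hy]
  have hwwy : (w * w) y = y := by rw [Perm.mul_apply, hy, hx]
  obtain ⟨r, hr, hrx, hry⟩ := szb_two h hxy h.ne.symm
  have h1 : r * (w * w) * r⁻¹ ∈ szTor S o y₀ := by
    refine ⟨S.mul_mem (S.mul_mem hr (S.mul_mem hw hw)) (S.inv_mem hr), ?_, ?_⟩
    · have h2 : r⁻¹ o = x := by rw [Perm.inv_eq_iff_eq, hrx]
      rw [Perm.mul_apply, Perm.mul_apply, h2, hwwx, hrx]
    · have h2 : r⁻¹ y₀ = y := by rw [Perm.inv_eq_iff_eq, hry]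
      rw [Perm.mul_apply, Perm.mul_apply, h2, hwwy, hry]
  set m := Nat.card (szTor S o y₀) with hm
  have h3 : (w * w) ^ m = 1 := by
    have h4 : (r * (w * w) * r⁻¹) ^ m = 1 := by
      rw [← orderOf_dvd_iff_pow_eq_one]
      exact Subgroup.orderOf_dvd_natCard _ h1
    rw [conj_pow, mul_inv_eq_one] at h4
    exact mul_eq_left.1 h4
  obtain ⟨j, hj⟩ := h.odd_T
  rw [← hm] at hj
  have hwwj : ∀ i : ℕ, ((w * w) ^ i) x = x := by
    intro i
    induction i with
    | zero => rw [pow_zero, Perm.one_apply]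
    | succ i ih => rw [pow_succ, Perm.mul_apply, hwwx, ih]
  have hv : w ^ m = w * (w * w) ^ j := by
    rw [hj, pow_succ', pow_mul, pow_two]
  have hvx : (w ^ m) x = y := by rw [hv, Perm.mul_apply, hwwj, hx]
  have hv2 : w ^ m * w ^ m = 1 := by
    rw [← (Commute.refl w).mul_pow, h3]
  have hvy : (w ^ m) y = x := by
    rw [← hvx, ← Perm.mul_apply, hv2, Perm.one_apply]
  have hvS : w ^ m ∈ S := S.pow_mem hw m
  have hv1 : w ^ m ≠ 1 := by
    intro h4
    rw [h4, Perm.one_apply] at hvx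
    exact hxy hvx
  obtain ⟨c, hc⟩ := h.exists_fix hvS hv2
  have hwc : w c = c := by
    apply h.unique_fix hvS hv1 hv2 _ hc
    have h5 : w ^ m * w = w * w ^ m := (Commute.pow_self w m).eq
    rw [← Perm.mul_apply, h5, Perm.mul_apply, hc]
  have hcx : x ≠ c := by
    rintro rfl
    exact hxy (hc.symm.trans hvx)
  have hcy : y ≠ c := by
    rintro rfl
    exact hxy (hvy.symm.trans hc)
  exact h.fix3 _ (S.mul_mem hw hw) x y c hxy hcx hcy hwwx hwwy (by
    rw [Perm.mul_apply, hwc, hwc])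

theorem SzBase.exists_swap (h : SzBase S o y₀ Q Z) {x y : X} (hxy : x ≠ y) :
    ∃ w ∈ S, w x = y ∧ w y = x :=
  szb_two h hxy hxy.symm

end Pool.Agent.Helper37.PF
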