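import Pool.Agent.Helper37.PF.SzBasic

/-!
# PF-S3: groups of Suzuki type, the intersections with `Q` (MP_13dc8a_al)

The lemmas of `PF/SzBasic.lean` (module PF-S2) are used.

PROOF OF `trichotomy`. Suppose first that there is `g ∈ Q ∩ M` with `g ∉ Z`. Then `g g ∈ Z ∩ M`
and `g g ≠ 1` (`sq_mem`, `sq_one`). By `conj_Z` every `v ∈ Z`, `v ≠ 1`, is `s (g g) s⁻¹` with
`s ∈ S` fixing `o` and `y₀`, i.e. `s ∈ szTor S o y₀ ≤ M`; so `Z ≤ M`. If `v ∈ Q`, `v ∉ Z`, then by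
`conj_Q` there is such an `s` with `s g s⁻¹ v⁻¹ ∈ Z ≤ M`, so `v ∈ M`. So `Q ≤ M`. Suppose now that all
`g ∈ Q ∩ M` are in `Z`. If one of them is not `1` then `Z ≤ M` as before, and the third case
holds; otherwise the second case.

PROOF OF `eq_of_Q_le`. Let `s ∈ S`. If `s o = o` then `s ∈ M` by `exists_QT`. Otherwise
`s o ≠ o`, `w o ≠ o`; take `g ∈ Q` with `g (w o) = s o`. Then `(g w)⁻¹ s ∈ S` fixes `o`, so it is in
`M`, and `s ∈ M`.
-/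

namespace Pool.Agent.Helper37.PF

open MulAction Equiv

variable {X : Type} [Finite X] {S : Subgroup (Perm X)} {o y₀ : X} {Q Z : Subgroup (Perm X)}

private theorem szr_Z_le (h : SzBase S o y₀ Q Z) {M : Subgroup (Perm X)}
    (hT : szTor S o y₀ ≤ M) {u : Perm X} (hu : u ∈ Z) (huM : u ∈ M) (hu1 : u ≠ 1) : Z ≤ M := by
  intro v hv
  by_cases hv1 : v = 1
  · rw [hv1]
    exact M.one_mem
  obtain ⟨s, hs, hso, hsy, rfl⟩ := h.conj_Z u hu v hv hu1 hv1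
  have hsM : s ∈ M := hT ⟨hs, hso, hsy⟩
  exact M.mul_mem (M.mul_mem hsM huM) (M.inv_mem hsM)

theorem SzBase.trichotomy (h : SzBase S o y₀ Q Z) {M : Subgroup (Perm X)}
    (hT : szTor S o y₀ ≤ M) :
    Q ≤ M ∨ (∀ g ∈ Q, g ∈ M → g = 1) ∨ ∀ g ∈ Q, (g ∈ M ↔ g ∈ Z) := by
  by_cases hA : ∃ g ∈ Q, g ∈ M ∧ g ∉ Z
  · left
    obtain ⟨g, hg, hgM, hgZ⟩ := hA
    have h1 : g * g ≠ 1 := fun h2 => hgZ ((h.sq_one g hg).1 h2)
    have hZM : Z ≤ M := szr_Z_le h hT (h.sq_mem g hg) (M.mul_mem hgM hgM) h1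
    intro v hv
    by_cases hvZ : v ∈ Z
    · exact hZM hvZ
    obtain ⟨s, hs, hso, hsy, hsv⟩ := h.conj_Q g hg v hv hgZ hvZ
    have hsM : s ∈ M := hT ⟨hs, hso, hsy⟩
    have h2 : s * g * s⁻¹ ∈ M := M.mul_mem (M.mul_mem hsM hgM) (M.inv_mem hsM)
    have h3 := hZM hsv
    rw [M.mul_mem_cancel_left h2] at h3
    exact M.inv_mem_iff.1 h3
  · push Not at hA
    right
    by_cases hB : ∃ g ∈ Q, g ∈ M ∧ g ≠ 1
    · right
      obtain ⟨g, hg, hgM, hg1⟩ := hB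
      have hZM : Z ≤ M := szr_Z_le h hT (hA g hg hgM) hgM hg1
      exact fun v hv => ⟨fun hvM => hA v hv hvM, fun hvZ => hZM hvZ⟩
    · push Not at hB
      left
      exact hB

theorem SzBase.eq_of_Q_le (h : SzBase S o y₀ Q Z) {M : Subgroup (Perm X)} (hMS : M ≤ S)
    (hT : szTor S o y₀ ≤ M) (hQ : Q ≤ M) {w : Perm X} (hw : w ∈ M) (hwo : w o ≠ o) : M = S := by
  have hstab : ∀ s ∈ S, s o = o → s ∈ M := by
    intro s hs hso
    obtain ⟨g, hg, t, ht, rfl⟩ := h.exists_QT hs hso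
    exact M.mul_mem (hQ hg) (hT ht)
  refine le_antisymm hMS fun s hs => ?_
  by_cases hso : s o = o
  · exact hstab s hs hso
  obtain ⟨g, hg, hgo⟩ := h.trans (w o) (s o) hwo hso
  have h1 : g * w ∈ M := M.mul_mem (hQ hg) hw
  have h2 : (g * w)⁻¹ * s ∈ M := by
    apply hstab
    · exact S.mul_mem (S.inv_mem (hMS h1)) hs
    · rw [Perm.mul_apply, Perm.inv_eq_iff_eq, Perm.mul_apply, hgo]
  exact (M.mul_mem_cancel_left (M.inv_mem h1)).1 h2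

end Pool.Agent.Helper37.PF
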