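import Pool.Agent.Helper37.PF.Defs

/-!
# PF-T1: permutation isomorphic groups have the same properties (MP_13dc8a_al)

PROOF. Let `e : X ≃ Y` with `g ∈ G ↔ e.permCongr g ∈ H`. Then `φ : G ≃* H`,
`g ↦ ⟨e.permCongr g, _⟩` is an isomorphism and `e (g • x) = φ g • e x`, because
`e.permCongr g y = e (g (e.symm y))`. First prove the symmetry (`PermIso.symm`, with `e.symm`:
`h ∈ H ↔ e.symm.permCongr h ∈ G`), so that only one direction of each equivalence has to be proved.

* `IsMultiplyPretransitive`: use `MulAction.isMultiplyPretransitive_iff`: for embeddings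
  `x y : Fin t ↪ Y` take `g` for `x.trans e.symm`, `y.trans e.symm`.
* `IsPreprimitive` on `Set.powersetCard`: the bijection `s ↦ s.map e` of the `t`-subsets is
  `φ`-equivariant; `MulAction.IsPreprimitive.of_surjective`.
* `IsMultiplyPreprimitive`: `MulAction.isMultiplyPreprimitive_iff` and the same with the points
  outside a set `s` and outside `e ⁻¹ s` (fixing subgroups correspond under `φ`), or any Mathlib
  lemma on equivariant bijections for `IsMultiplyPreprimitive`.
* `SteinerPrimitive`: a Steiner system `B` on `Y` is transported to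
  `{b | b.map e.toEmbedding ∈ B}`.
* `Listed` is not used.
-/

namespace Pool.Agent.Helper37.PF

open MulAction Equiv
open Pool.Agent.Helper37.Prim

variable {X Y : Type} {G : Subgroup (Perm X)} {H : Subgroup (Perm Y)}

/-- the map between the groups -/
private def trMap (e : X ≃ Y) (he : ∀ g : Perm X, g ∈ G ↔ e.permCongr g ∈ H) : G → H :=
  fun g => ⟨e.permCongr g, (he g).1 g.2⟩

private theorem trMap_smul (e : X ≃ Y) (he : ∀ g : Perm X, g ∈ G ↔ e.permCongr g ∈ H) (g : G)
    (x : X) : e (g • x) = trMap e he g • e x := by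
  change e ((g : Perm X) x) = e.permCongr (g : Perm X) (e x)
  rw [Equiv.permCongr_apply, e.symm_apply_apply]

/-- the equivariant bijection -/
private def trHom (e : X ≃ Y) (he : ∀ g : Perm X, g ∈ G ↔ e.permCongr g ∈ H) :
    X →ₑ[trMap e he] Y where
  toFun := e
  map_smul' := trMap_smul e he

private theorem trHom_bij (e : X ≃ Y) (he : ∀ g : Perm X, g ∈ G ↔ e.permCongr g ∈ H) :
    Function.Bijective (trHom e he) := e.bijective

open scoped Pointwise in
private theorem map_smul_finset [DecidableEq X] [DecidableEq Y] (e : X ≃ Y)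
    (he : ∀ g : Perm X, g ∈ G ↔ e.permCongr g ∈ H) (g : G) (s : Finset X) :
    (g • s).map e.toEmbedding = trMap e he g • s.map e.toEmbedding := by
  ext y
  simp only [Finset.mem_map, Finset.mem_smul_finset, Equiv.coe_toEmbedding]
  constructor
  · rintro ⟨x, ⟨z, hz, rfl⟩, rfl⟩
    exact ⟨e z, ⟨z, hz, rfl⟩, (trMap_smul e he g z).symm⟩
  · rintro ⟨z, ⟨x, hx, rfl⟩, rfl⟩
    exact ⟨g • x, ⟨x, hx, rfl⟩, trMap_smul e he g x⟩

theorem PermIso.symm (h : PermIso G H) : PermIso H G := by
  obtain ⟨e, he⟩ := h
  refine ⟨e.symm, fun g => ?_⟩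
  rw [he]
  have h1 : e.permCongr (e.symm.permCongr g) = g := by
    ext y
    simp
  rw [h1]

theorem PermIso.card_eq (h : PermIso G H) : Nat.card X = Nat.card Y := by
  obtain ⟨e, he⟩ := h
  exact Nat.card_congr e

private theorem trans_mp (h : PermIso G H) (t : ℕ) (hG : IsMultiplyPretransitive G X t) :
    IsMultiplyPretransitive H Y t := by
  obtain ⟨e, he⟩ := h
  exact IsPretransitive.of_embedding (trHom_bij e he).surjective

theorem PermIso.trans_iff (h : PermIso G H) (t : ℕ) :
    IsMultiplyPretransitive G X t ↔ IsMultiplyPretransitive H Y t :=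
  ⟨trans_mp h t, trans_mp h.symm t⟩

private theorem prim_mp (h : PermIso G H) (t : ℕ) (hG : IsMultiplyPreprimitive G X t) :
    IsMultiplyPreprimitive H Y t := by
  obtain ⟨e, he⟩ := h
  exact IsMultiplyPreprimitive.of_bijective_map (trHom_bij e he) hG

theorem PermIso.prim_iff (h : PermIso G H) (t : ℕ) :
    IsMultiplyPreprimitive G X t ↔ IsMultiplyPreprimitive H Y t :=
  ⟨prim_mp h t, prim_mp h.symm t⟩

private theorem set_mp (h : PermIso G H) [DecidableEq X] [DecidableEq Y] (t : ℕ)
    (hG : IsPreprimitive G (Set.powersetCard X t)) :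
    IsPreprimitive H (Set.powersetCard Y t) := by
  obtain ⟨e, he⟩ := h
  let f : Set.powersetCard X t →ₑ[trMap e he] Set.powersetCard Y t :=
    { toFun := fun s => Set.powersetCard.map t e.toEmbedding s
      map_smul' := fun g s => by
        apply Subtype.ext
        rw [Set.powersetCard.val_map]
        exact map_smul_finset e he g s }
  have hf : Function.Surjective f := by
    intro s
    refine ⟨Set.powersetCard.map t e.symm.toEmbedding s, ?_⟩
    apply Subtype.ext
    change ((s : Finset Y).map e.symm.toEmbedding).map e.toEmbedding = s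
    rw [Finset.map_map]
    ext y
    simp
  exact IsPreprimitive.of_surjective hf

theorem PermIso.set_iff (h : PermIso G H) [DecidableEq X] [DecidableEq Y] (t : ℕ) :
    IsPreprimitive G (Set.powersetCard X t) ↔ IsPreprimitive H (Set.powersetCard Y t) :=
  ⟨set_mp h t, set_mp h.symm t⟩

open scoped Pointwise in
private theorem steiner_mp (h : PermIso G H) [DecidableEq X] [DecidableEq Y] (t : ℕ)
    (hG : SteinerPrimitive G X t) : SteinerPrimitive H Y t := by
  have hc := h.card_eq
  obtain ⟨e, he⟩ := h
  rintro ⟨k, B, htk, hkn, hB, hinv⟩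
  apply hG
  have hmm : ∀ b : Finset Y, (b.map e.symm.toEmbedding).map e.toEmbedding = b := by
    intro b
    rw [Finset.map_map]
    ext y
    simp
  refine ⟨k, {b | b.map e.toEmbedding ∈ B}, htk, hc.symm ▸ hkn, ⟨?_, ?_⟩, ?_⟩
  · intro b hb
    have h1 := hB.card_eq _ hb
    rwa [Finset.card_map] at h1
  · intro s hs
    obtain ⟨b, ⟨hb1, hb2⟩, hb3⟩ := hB.existsUnique (s.map e.toEmbedding)
      (by rw [Finset.card_map, hs])
    refine ⟨b.map e.symm.toEmbedding, ⟨?_, ?_⟩, ?_⟩
    · change (b.map e.symm.toEmbedding).map e.toEmbedding ∈ B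
      rw [hmm]
      exact hb1
    · rw [← Finset.map_subset_map (f := e.toEmbedding), hmm]
      exact hb2
    · rintro c ⟨hc1, hc2⟩
      have h1 := hb3 (c.map e.toEmbedding) ⟨hc1, Finset.map_subset_map.2 hc2⟩
      apply Finset.map_injective e.toEmbedding
      rw [hmm]
      exact h1
  · intro g b hb
    change (g • b).map e.toEmbedding ∈ B
    rw [map_smul_finset e he]
    exact hinv _ _ hb

theorem PermIso.steiner_iff (h : PermIso G H) [DecidableEq X] [DecidableEq Y] (t : ℕ) :
    SteinerPrimitive G X t ↔ SteinerPrimitive H Y t :=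
  ⟨steiner_mp h t, steiner_mp h.symm t⟩

end Pool.Agent.Helper37.PF
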