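import Pool.Agent.Helper37.Prim.Cert2

/-!
# PF-M5: groups which preserve a two-graph are not `3`-transitive (MP_13dc8a_al)

Tables (`tab`, `IsT`) are defined in Prim/Cert.lean. A graph on `Fin n` is encoded by the natural
number `A` (the bit `n * x + y` says whether `x` and `y` are adjacent).

PROOF. Let `P g` be: there is `σ : Fin n → Bool` with
`adj n A (g x) (g y) = (adj n A x y).xor ((σ x).xor (σ y))` for all `x ≠ y`. `P` holds for the
elements of `S` by the check, for `1`, for products (add the functions `σ`) and for inverses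
(replace `x`, `y` by `g⁻¹ x`, `g⁻¹ y`). So `P g` for all `g` in the closure
(`Subgroup.closure_induction`), and the function
`f x y z = adj x y + adj y z + adj x z` (xor) of three different points is invariant. A
`3`-transitive group would map `x₁, x₂, x₃` to `y₁, y₂, y₃` (see `exists_smul_three` in
Prim/AffineMain.lean).
-/

namespace Pool.Agent.Helper37.PF

open MulAction Equiv
open Pool.Agent.Helper37.Prim

/-- Adjacency in the graph encoded by `A`. -/
def adj (n A x y : ℕ) : Bool := A.testBit (n * x + y)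

/-- The check: the table `T` maps the graph to the graph switched at the set `s`. -/
def checkTwo (n A T s : ℕ) : Bool :=
  (List.range n).all fun x => (List.range n).all fun y => x == y ||
    (adj n A (tab T x) (tab T y) == (adj n A x y).xor ((s.testBit x).xor (s.testBit y)))

private theorem tgr_closure {n A : ℕ} {S : Set (Perm (Fin n))} {Ts : List (ℕ × ℕ)}
    (hS : ∀ s ∈ S, ∃ p ∈ Ts, IsT s p.1) (h : (Ts.all fun p => checkTwo n A p.1 p.2) = true)
    {g : Perm (Fin n)} (hg : g ∈ Subgroup.closure S) :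
    ∃ σ : Fin n → Bool, ∀ x y : Fin n, x ≠ y →
      adj n A (g x) (g y) = (adj n A x y).xor ((σ x).xor (σ y)) := by
  induction hg using Subgroup.closure_induction with
  | mem s hs =>
    obtain ⟨p, hp, hT⟩ := hS s hs
    have h1 := List.all_eq_true.1 h p hp
    refine ⟨fun x => p.2.testBit x, fun x y hxy => ?_⟩
    unfold checkTwo at h1
    have h2 := List.all_eq_true.1 h1 x (List.mem_range.2 x.2)
    have h3 := List.all_eq_true.1 h2 y (List.mem_range.2 y.2)
    simp only [Bool.or_eq_true, beq_iff_eq] at h3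
    rw [hT x, hT y]
    exact h3.resolve_left (fun h => hxy (Fin.ext h))
  | one => exact ⟨fun _ => false, fun x y _ => by simp⟩
  | mul g g' _ _ ih ih' =>
    obtain ⟨σ, h1⟩ := ih
    obtain ⟨σ', h2⟩ := ih'
    refine ⟨fun x => (σ (g' x)).xor (σ' x), fun x y hxy => ?_⟩
    rw [Perm.mul_apply, Perm.mul_apply, h1 _ _ (g'.injective.ne hxy), h2 _ _ hxy]
    beta_reduce
    generalize adj n A x y = a
    generalize σ (g' x) = b
    generalize σ (g' y) = c
    generalize σ' x = d
    generalize σ' y = e
    revert a b c d e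
    decide
  | inv g _ ih =>
    obtain ⟨σ, h1⟩ := ih
    refine ⟨fun x => σ (g⁻¹ x), fun x y hxy => ?_⟩
    have h2 := h1 (g⁻¹ x) (g⁻¹ y) ((g⁻¹).injective.ne hxy)
    rw [show g (g⁻¹ x) = x from g.apply_symm_apply x,
      show g (g⁻¹ y) = y from g.apply_symm_apply y] at h2
    rw [h2]
    beta_reduce
    generalize adj n A _ _ = a
    generalize σ (g⁻¹ x) = b
    generalize σ (g⁻¹ y) = c
    revert a b c
    decide

theorem not_three_of_two {n A : ℕ} {S : Set (Perm (Fin n))} {Ts : List (ℕ × ℕ)}
    (hS : ∀ s ∈ S, ∃ p ∈ Ts, IsT s p.1) (h : (Ts.all fun p => checkTwo n A p.1 p.2) = true)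
    {x y : Fin 3 → Fin n} (hx : Function.Injective x) (hy : Function.Injective y)
    (hne : (adj n A (x 0) (x 1)).xor ((adj n A (x 1) (x 2)).xor (adj n A (x 0) (x 2))) ≠
      (adj n A (y 0) (y 1)).xor ((adj n A (y 1) (y 2)).xor (adj n A (y 0) (y 2)))) :
    ¬ IsMultiplyPretransitive (Subgroup.closure S) (Fin n) 3 := by
  intro htr
  obtain ⟨g, hg⟩ := isMultiplyPretransitive_iff.1 htr ⟨x, hx⟩ ⟨y, hy⟩
  have e : ∀ i, g.1 (x i) = y i := fun i => DFunLike.congr_fun hg i
  obtain ⟨σ, hσ⟩ := tgr_closure hS h g.2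
  apply hne
  rw [← e 0, ← e 1, ← e 2, hσ _ _ (hx.ne (by decide)), hσ _ _ (hx.ne (by decide)),
    hσ _ _ (hx.ne (by decide))]
  generalize adj n A (x 0) (x 1) = a
  generalize adj n A (x 1) (x 2) = b
  generalize adj n A (x 0) (x 2) = c
  generalize σ (x 0) = p
  generalize σ (x 1) = q
  generalize σ (x 2) = r
  revert a b c p q r
  decide

end Pool.Agent.Helper37.PF
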